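import Mathlib

/-!
Project H456-MULT (problem MP_92c74b_an, frozen S05416): for every `N` there is a bounded connected
open set in `ℝ³` whose second Dirichlet eigenvalue has multiplicity at least `N - 1`.
All definitions and the task statements.
-/

open MeasureTheory Set
open scoped ContDiff

set_option autoImplicit false

noncomputable section

namespace Pool.Agent.H456R3.Mult

/-- three-space as a product (for Fubini) -/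
abbrev P := ℝ × ℝ × ℝ

def dx (f : P → ℝ) (p : P) : ℝ := fderiv ℝ f p (1, 0, 0)
def dy (f : P → ℝ) (p : P) : ℝ := fderiv ℝ f p (0, 1, 0)
def dz (f : P → ℝ) (p : P) : ℝ := fderiv ℝ f p (0, 0, 1)

/-- pointwise product of gradients -/
def gb (f g : P → ℝ) (p : P) : ℝ := dx f p * dx g p + dy f p * dy g p + dz f p * dz g p

def Eb (f g : P → ℝ) : ℝ := ∫ p, gb f g p
def Mb (f g : P → ℝ) : ℝ := ∫ p, f p * g p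
def En (f : P → ℝ) : ℝ := Eb f f
def Ms (f : P → ℝ) : ℝ := Mb f f

/-- `C_c^∞(Ω)` -/
def Dc (Ω : Set P) : Submodule ℝ (P → ℝ) where
  carrier := {f | ContDiff ℝ ∞ f ∧ HasCompactSupport f ∧ tsupport f ⊆ Ω}
  add_mem' := by
    rintro f g ⟨hf, hf', hf''⟩ ⟨hg, hg', hg''⟩
    exact ⟨hf.add hg, hf'.add hg', (tsupport_add f g).trans (union_subset hf'' hg'')⟩
  zero_mem' := by
    refine ⟨contDiff_const, HasCompactSupport.zero, ?_⟩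
    have : tsupport (0 : P → ℝ) = ∅ := by simp
    rw [this]; exact empty_subset _
  smul_mem' := by
    rintro c f ⟨hf, hf', hf''⟩
    refine ⟨contDiff_const.smul hf, ?_, ?_⟩
    · exact hf'.smul_left (f := fun _ => c)
    · exact (tsupport_smul_subset_right (fun _ => c) f).trans hf''

structure Box where
  a1 : ℝ
  b1 : ℝ
  a2 : ℝ
  b2 : ℝ
  a3 : ℝ
  b3 : ℝ

def Box.set (b : Box) : Set P := Ioo b.a1 b.b1 ×ˢ Ioo b.a2 b.b2 ×ˢ Ioo b.a3 b.b3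

/-- the normalised first Dirichlet eigenfunction of the box, as a smooth function on all of `P` -/
def Box.ef (b : Box) (p : P) : ℝ :=
  √(8 / ((b.b1 - b.a1) * (b.b2 - b.a2) * (b.b3 - b.a3))) *
    (Real.sin (Real.pi * (p.1 - b.a1) / (b.b1 - b.a1)) *
     Real.sin (Real.pi * (p.2.1 - b.a2) / (b.b2 - b.a2)) *
     Real.sin (Real.pi * (p.2.2 - b.a3) / (b.b3 - b.a3)))

/-- its eigenvalue -/
def Box.mu (b : Box) : ℝ :=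
  Real.pi ^ 2 * (1 / (b.b1 - b.a1) ^ 2 + 1 / (b.b2 - b.a2) ^ 2 + 1 / (b.b3 - b.a3) ^ 2)

/-- coefficient of `f` along the eigenfunction of the box -/
def Box.l (b : Box) (f : P → ℝ) : ℝ := ∫ p in b.set, b.ef p * f p

/-- the boundary functional of the box: `μ ⟨e, f⟩ - ⟨∇e, ∇f⟩ = - ∫_{∂b} f ∂_ν e` -/
def Box.L (b : Box) (f : P → ℝ) : ℝ := b.mu * b.l f - ∫ p in b.set, gb b.ef f p

def cube (c : P) (r : ℝ) : Set P :=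
  Ioo (c.1 - r) (c.1 + r) ×ˢ Ioo (c.2.1 - r) (c.2.1 + r) ×ˢ Ioo (c.2.2 - r) (c.2.2 + r)

/-- integral over the horizontal square of half-size `w` centred at `c` -/
def win (c : P) (w : ℝ) (f : P → ℝ) : ℝ :=
  ∫ q in Ioo (c.1 - w) (c.1 + w) ×ˢ Ioo (c.2.1 - w) (c.2.1 + w), f (q.1, q.2, c.2.2)

abbrev Idx (m n : ℕ) := Fin m ⊕ Fin n

/-- `m` lower bars (long in direction `x`), `n` upper bars (long in direction `y`) -/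
def bar (m n : ℕ) (M : ℝ) (s : Idx m n → ℝ) : Idx m n → Box
  | Sum.inl i => ⟨-s (Sum.inl i), M, 2 * (i : ℕ), 2 * (i : ℕ) + 1, 0, 1⟩
  | Sum.inr j => ⟨2 * (j : ℕ), 2 * (j : ℕ) + 1, -s (Sum.inr j), M, 1, 2⟩

/-- centre of the window between the lower bar `i` and the upper bar `j` -/
def ctr (i j : ℕ) : P := (2 * (j : ℝ) + 1 / 2, 2 * (i : ℝ) + 1 / 2, 1)

/-- the domain -/
def Om (m n : ℕ) (inc : Fin m → Fin n → Prop) (M w : ℝ) (s : Idx m n → ℝ) : Set P :=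
  (⋃ v, (bar m n M s v).set) ∪ ⋃ (i : Fin m) (j : Fin n) (_ : inc i j), cube (ctr i j) w

/-- the target energy -/
def E0 (M : ℝ) : ℝ := Real.pi ^ 2 * (2 + 1 / (M + 1 / 2) ^ 2)

def BE (M : ℝ) (f g : P → ℝ) : ℝ := Eb f g - E0 M * Mb f g

/-- `f ∈ C_c^∞(Ω)` orthogonal to the eigenfunctions of all bars -/
def InK (m n : ℕ) (inc : Fin m → Fin n → Prop) (M w : ℝ) (s : Idx m n → ℝ) (f : P → ℝ) : Prop :=
  f ∈ Dc (Om m n inc M w s) ∧ ∀ v, (bar m n M s v).l f = 0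

def quad {ι : Type} [Fintype ι] (M : ι → ι → ℝ) (c : ι → ℝ) : ℝ := ∑ u, ∑ v, M u v * c u * c v

/-! ### Tasks -/

/-- Linear algebra + Brouwer. -/
def TaskLA : Prop :=
  ∀ (N n : ℕ) (a b : Fin n → Fin N), (∀ e, a e < b e) →
    (∀ i j, i < j → ∃! e, a e = i ∧ b e = j) →
  ∀ C1 c1 : ℝ, 0 < c1 → 0 < C1 →
  ∃ ε0 : ℝ, 0 < ε0 ∧ ∃ Q : ℝ, 0 < Q ∧ ∃ t : ℝ, 0 < t ∧
   ∀ G : (Fin N ⊕ Fin n → ℝ) → (Fin N ⊕ Fin n) → (Fin N ⊕ Fin n) → ℝ,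
    (∀ u v, ContinuousOn (fun q => G q u v) {q | ∀ v, |q v| ≤ Q}) →
    (∀ q : Fin N ⊕ Fin n → ℝ, (∀ v, |q v| ≤ Q) →
       (∀ u v, G q u v = G q v u) ∧ (∀ u v, |G q u v| ≤ C1) ∧
       (∀ i e, (i = a e ∨ i = b e) → c1 ≤ G q (Sum.inl i) (Sum.inr e)) ∧
       (∀ i e, i ≠ a e → i ≠ b e → |G q (Sum.inl i) (Sum.inr e)| ≤ ε0) ∧
       (∀ i j, i ≠ j → |G q (Sum.inl i) (Sum.inl j)| ≤ ε0) ∧
       (∀ e f, e ≠ f → |G q (Sum.inr e) (Sum.inr f)| ≤ ε0)) →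
    ∃ q : Fin N ⊕ Fin n → ℝ, (∀ v, |q v| ≤ Q) ∧
      ∃ Y : Fin n → Fin N → ℝ, ∃ D : Fin n → Fin n → ℝ,
      (∀ x : Fin n → ℝ, 0 ≤ quad D x) ∧
      ∀ c : Fin N ⊕ Fin n → ℝ,
       quad (fun u v => (if u = v then q u else 0) - G q u v) c =
         - t * (∑ i, c (Sum.inl i)) ^ 2 +
           quad D (fun e => c (Sum.inr e) - ∑ i, Y e i * c (Sum.inl i))

/-- Constrained minimum of a quadratic form is a quadratic form. -/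
def TaskABS1 : Prop :=
  ∀ (ι : Type) (_ : Fintype ι) (V : Type) (_ : AddCommGroup V) (_ : Module ℝ V)
    (B : V →ₗ[ℝ] V →ₗ[ℝ] ℝ) (l : V →ₗ[ℝ] (ι → ℝ)) (C : ℝ),
    (∀ x y, B x y = B y x) → Function.Surjective l →
    (∀ x, -C * ∑ v, (l x v) ^ 2 ≤ B x x) →
    ∃ M : ι → ι → ℝ, (∀ u v, M u v = M v u) ∧ (∀ x, quad M (l x) ≤ B x x) ∧
      ∀ c, ∀ ε : ℝ, 0 < ε → ∃ x, l x = c ∧ B x x ≤ quad M c + ε

/-- Gram matrix of almost-representers of functionals which are combinations of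
almost-orthogonal functionals `T W`. -/
def TaskABS2 : Prop :=
  ∀ (V : Type) (_ : AddCommGroup V) (_ : Module ℝ V) (B : V →ₗ[ℝ] V →ₗ[ℝ] ℝ),
    (∀ x y, B x y = B y x) → (∀ x, 0 ≤ B x x) →
  ∀ (ι κ : Type) (_ : Fintype ι) (_ : Fintype κ) (L : ι → V →ₗ[ℝ] ℝ) (T : κ → V →ₗ[ℝ] ℝ)
    (h : ι → κ → ℝ) (C A η ε c1 : ℝ),
    0 < C → 0 < A → 0 ≤ η → η ≤ 1 → 0 ≤ ε → 0 < c1 →
    (∀ v W, |h v W| ≤ C) → (∀ W x, |T W x| ≤ C * A * √(B x x)) →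
    (∀ v x, |L v x - ∑ W, h v W * T W x| ≤ η * A * √(B x x)) →
    (∀ W, ∃ x, 0 < B x x ∧ c1 * A * √(B x x) ≤ T W x) →
    (∃ δ : ℝ, 0 < δ ∧ ∀ W W', W ≠ W' → ∀ φ, (∀ x, |B φ x - T W' x| ≤ δ * √(B x x)) →
      |T W φ| ≤ ε * A ^ 2) →
    ∀ τ : ℝ, 0 < τ → ∃ φ : ι → V, (∀ v x, |B (φ v) x - L v x| ≤ τ * √(B x x)) ∧
     ∃ θ : κ → ℝ, (∀ W, c1 ^ 2 * A ^ 2 - τ ≤ θ W ∧ θ W ≤ C ^ 2 * A ^ 2 + τ) ∧
      ∀ u v, |B (φ u) (φ v) - ∑ W, h u W * h v W * θ W| ≤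
        (((Fintype.card κ : ℝ) ^ 2 + 2 * (Fintype.card κ : ℝ) + 1) * (C ^ 2 + 1)) *
          (η + ε) * A ^ 2 + τ

/-- Entries of the constrained-minimum form from almost-minimisers. -/
def TaskABS3 : Prop :=
  ∀ (ι : Type) (_ : Fintype ι) (_ : DecidableEq ι) (V : Type) (_ : AddCommGroup V)
    (_ : Module ℝ V) (B : V →ₗ[ℝ] V →ₗ[ℝ] ℝ) (l : V →ₗ[ℝ] (ι → ℝ)),
    (∀ x y, B x y = B y x) → (∀ x, l x = 0 → 0 ≤ B x x) →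
    ∀ M : ι → ι → ℝ, (∀ u v, M u v = M v u) → (∀ x, quad M (l x) ≤ B x x) →
      (∀ c, ∀ ε : ℝ, 0 < ε → ∃ x, l x = c ∧ B x x ≤ quad M c + ε) →
    ∀ τ : ℝ, 0 ≤ τ → ∀ m : ι → V, (∀ v, l (m v) = Pi.single v 1) →
      (∀ v x, l x = 0 → |B (m v) x| ≤ τ * √(B x x)) →
      ∀ u v, |M u v - B (m u) (m v)| ≤ τ ^ 2

/-- Geometry of the domain. -/
def TaskGEO : Prop :=
  ∀ (m n : ℕ) (inc : Fin m → Fin n → Prop) (M w : ℝ) (s : Idx m n → ℝ),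
   1 ≤ M → 2 * (m : ℝ) ≤ M → 2 * (n : ℝ) ≤ M → 0 < w → w ≤ 1 / 8 →
   (∀ v, |s v - 1 / 2| ≤ 1 / 4) →
   IsOpen (Om m n inc M w s) ∧ Bornology.IsBounded (Om m n inc M w s) ∧
   (∀ u v, u ≠ v → Disjoint (bar m n M s u).set (bar m n M s v).set) ∧
   (0 < m → (∀ j, ∃ i, inc i j) → (∀ i i', i ≠ i' → ∃ j, inc i j ∧ inc i' j) →
      IsConnected (Om m n inc M w s)) ∧
   (∀ p ∈ Om m n inc M w s, p.2.2 = 1 → ∃ i j, inc i j ∧ p ∈ cube (ctr i j) w) ∧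
   (∀ (i : Fin m) (j : Fin n) (x y : ℝ), w ≤ |x - (2 * (j : ℕ) + 1 / 2)| →
      |x - (2 * (j : ℕ) + 1 / 2)| ≤ 3 / 4 → |y - (2 * (i : ℕ) + 1 / 2)| ≤ 3 / 4 →
      (x, y, (1 : ℝ)) ∉ Om m n inc M w s) ∧
   (∀ (i : Fin m) (j : Fin n), cube (ctr i j) w ⊆
      (bar m n M s (Sum.inl i)).set ∪ (bar m n M s (Sum.inr j)).set ∪ {p | p.2.2 = 1})

/-- Spectral gap inequality of a box with sides in `[1, Λ]`. -/
def TaskGAP : Prop :=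
  ∀ Λ : ℝ, 1 ≤ Λ → ∃ κ : ℝ, 0 < κ ∧ ∀ b : Box,
    1 ≤ b.b1 - b.a1 → b.b1 - b.a1 ≤ Λ → 1 ≤ b.b2 - b.a2 → b.b2 - b.a2 ≤ Λ →
    1 ≤ b.b3 - b.a3 → b.b3 - b.a3 ≤ Λ →
    ∀ f ∈ Dc b.set, b.mu * Ms f + κ * (Ms f - (b.l f) ^ 2) ≤ En f

/-- `C_c^∞` approximation of the first eigenfunction of a box in `H¹`. -/
def TaskEAPP : Prop :=
  ∀ b : Box, b.a1 < b.b1 → b.a2 < b.b2 → b.a3 < b.b3 → ∀ ε : ℝ, 0 < ε →
    ∃ g ∈ Dc b.set, b.l g = 1 ∧ |Ms g - 1| ≤ ε ∧ |En g - b.mu| ≤ ε ∧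
      ∀ f ∈ Dc univ, |Eb g f - ∫ p in b.set, gb b.ef f p| ≤ ε * √(En f) ∧
        |Mb g f - b.l f| ≤ ε * √(Ms f)

/-- Poincaré inequality for functions vanishing on a plane annulus. -/
def TaskPOINC : Prop :=
  ∀ f ∈ Dc univ, ∀ (c : P) (r : ℝ), 0 < r →
    (∀ x y : ℝ, r ≤ |x - c.1| → |x - c.1| ≤ 3 * r → |y - c.2.1| ≤ r → f (x, y, c.2.2) = 0) →
    ∫ p in cube c r, f p ^ 2 ≤ 12 * r ^ 2 * ∫ p in cube c (3 * r), gb f f p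

/-- Trace inequality on the window. -/
def TaskTRACE : Prop :=
  ∀ f ∈ Dc univ, ∀ (c : P) (w : ℝ), 0 < w →
    (∀ x y : ℝ, w ≤ |x - c.1| → |x - c.1| ≤ 3 * w → |y - c.2.1| ≤ w → f (x, y, c.2.2) = 0) →
    ∫ q in Ioo (c.1 - w) (c.1 + w) ×ˢ Ioo (c.2.1 - w) (c.2.1 + w), |f (q.1, q.2, c.2.2)| ≤
      8 * (w * √w) * √(∫ p in cube c (3 * w), gb f f p)

/-- Averaged dyadic cut-off. -/
def TaskCUT : Prop :=
  ∃ C0 : ℝ, 0 < C0 ∧ ∀ (K : ℕ), 1 ≤ K → ∀ (c : P) (w : ℝ), 0 < w →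
    ∃ χ : P → ℝ, ContDiff ℝ ∞ χ ∧ (∀ p, 0 ≤ χ p ∧ χ p ≤ 1) ∧
      (∀ p ∈ cube c (2 * w), χ p = 0) ∧ (∀ p, p ∉ cube c (4 ^ K * w) → χ p = 1) ∧
      ∀ f ∈ Dc univ, (∀ r : ℝ, w ≤ r → r ≤ 4 ^ K * w →
          ∫ p in cube c r, f p ^ 2 ≤ 12 * r ^ 2 * ∫ p in cube c (3 * r), gb f f p) →
        ∫ p, gb χ χ p * f p ^ 2 ≤ C0 / K * En f

/-- A scaled bump in the window cube. -/
def TaskBUMP : Prop :=
  ∃ C : ℝ, 0 < C ∧ ∀ (c : P) (w : ℝ), 0 < w → ∃ φ ∈ Dc (cube c w),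
    w ^ 2 ≤ C * win c w φ ∧ En φ ≤ C * w ∧ Ms φ ≤ C * w ^ 3

/-- Dual functions with uniform bounds. -/
def TaskGV : Prop :=
  ∀ (m n : ℕ) (M : ℝ), 1 ≤ M → ∃ C : ℝ, 0 < C ∧ ∀ s : Idx m n → ℝ,
    (∀ v, |s v - 1 / 2| ≤ 1 / 4) → ∀ v, ∃ g ∈ Dc (bar m n M s v).set,
      (bar m n M s v).l g = 1 ∧ En g + Ms g ≤ C

/-- Green's formula on the bars: the boundary functional is carried by the windows. -/
def TaskGREEN : Prop :=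
  ∀ (m n : ℕ) (inc : Fin m → Fin n → Prop) (M : ℝ), 1 ≤ M → 2 * (m : ℝ) ≤ M → 2 * (n : ℝ) ≤ M →
  ∃ C h0 : ℝ, 0 < C ∧ 0 < h0 ∧ ∀ (w : ℝ), 0 < w → w ≤ 1 / 8 → ∀ s : Idx m n → ℝ,
    (∀ v, |s v - 1 / 2| ≤ 1 / 4) → ∃ h : Idx m n → Fin m → Fin n → ℝ,
      (∀ v i j, inc i j → (v = Sum.inl i ∨ v = Sum.inr j) → h0 ≤ h v i j) ∧
      (∀ v i j, |h v i j| ≤ C) ∧
      (∀ v i j, ¬ (inc i j ∧ (v = Sum.inl i ∨ v = Sum.inr j)) → h v i j = 0) ∧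
      ∀ v, ∀ f ∈ Dc (Om m n inc M w s),
        |(bar m n M s v).L f - ∑ i, ∑ j, h v i j * win (ctr i j) w f| ≤
          C * w * (w * √w) * √(En f)

/-- Continuity in the lengths: `C_c^∞(Ω_s)` and `C_c^∞(Ω_{s'})` are close. -/
def TaskCONT : Prop :=
  ∀ (m n : ℕ) (inc : Fin m → Fin n → Prop) (M w : ℝ), 1 ≤ M → 2 * (m : ℝ) ≤ M →
    2 * (n : ℝ) ≤ M → 0 < w → w ≤ 1 / 8 → ∀ ε : ℝ, 0 < ε → ∃ δ : ℝ, 0 < δ ∧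
    ∀ s s' : Idx m n → ℝ, (∀ v, |s v - 1 / 2| ≤ 1 / 4) → (∀ v, |s' v - 1 / 2| ≤ 1 / 4) →
      (∀ v, |s v - s' v| ≤ δ) → ∀ f ∈ Dc (Om m n inc M w s),
      ∃ g ∈ Dc (Om m n inc M w s'), |En g - En f| ≤ ε * En f ∧ |Ms g - Ms f| ≤ ε * Ms f ∧
        ∀ v, |(bar m n M s' v).l g - (bar m n M s v).l f| ≤ ε * √(Ms f)

/-- the coercivity statement -/
def Coer (m n : ℕ) (inc : Fin m → Fin n → Prop) (M δ0 w0 γ C : ℝ) : Prop :=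
  0 < δ0 ∧ δ0 ≤ 1 / 4 ∧ 0 < w0 ∧ w0 ≤ 1 / 8 ∧ 0 < γ ∧ 0 < C ∧
  ∀ w : ℝ, 0 < w → w ≤ w0 → ∀ s : Idx m n → ℝ, (∀ v, |s v - 1 / 2| ≤ δ0) →
    ∀ f ∈ Dc (Om m n inc M w s),
      γ * (En f + Ms f) ≤ BE M f f + C * ∑ v, ((bar m n M s v).l f) ^ 2

def TaskCOER : Prop :=
  TaskGAP → TaskCUT → TaskPOINC → TaskGEO →
  ∀ (m n : ℕ) (inc : Fin m → Fin n → Prop) (M : ℝ), 1 ≤ M → 2 * (m : ℝ) ≤ M → 2 * (n : ℝ) ≤ M →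
    ∃ δ0 w0 γ C : ℝ, Coer m n inc M δ0 w0 γ C

/-- Different windows are almost orthogonal. -/
def TaskFAR : Prop :=
  TaskCUT → TaskPOINC → TaskTRACE → TaskGREEN → TaskEAPP → TaskGEO →
  ∀ (m n : ℕ) (inc : Fin m → Fin n → Prop) (M : ℝ), 1 ≤ M → 2 * (m : ℝ) ≤ M → 2 * (n : ℝ) ≤ M →
    ∀ δ0 w0 γ C : ℝ, Coer m n inc M δ0 w0 γ C →
    ∀ ε : ℝ, 0 < ε → ∃ w1 : ℝ, 0 < w1 ∧ w1 ≤ w0 ∧ ∀ w : ℝ, 0 < w → w ≤ w1 →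
      ∀ s : Idx m n → ℝ, (∀ v, |s v - 1 / 2| ≤ δ0) → ∃ δ1 : ℝ, 0 < δ1 ∧
      ∀ (i i' : Fin m) (j j' : Fin n), inc i j → inc i' j' → (i, j) ≠ (i', j') →
        ∀ φ, InK m n inc M w s φ →
          (∀ ψ, InK m n inc M w s ψ → |BE M φ ψ - win (ctr i' j') w ψ| ≤ δ1 * √(BE M ψ ψ)) →
          |win (ctr i j) w φ| ≤ ε * w ^ 3

/-- what the construction gives -/
def DomainProp (N : ℕ) : Prop :=
  ∃ Ω : Set P, IsOpen Ω ∧ IsConnected Ω ∧ Bornology.IsBounded Ω ∧ ∃ E : ℝ, 0 < E ∧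
    (∃ l : Dc Ω →ₗ[ℝ] ℝ, ∀ f : Dc Ω, l f = 0 → E * Ms (f : P → ℝ) ≤ En (f : P → ℝ)) ∧
    ∀ ε : ℝ, 0 < ε → ∃ U : (Fin N → ℝ) →ₗ[ℝ] Dc Ω, Function.Injective U ∧
      ∀ c, En (U c : P → ℝ) ≤ (E + ε) * Ms (U c : P → ℝ)

/-- the same on Euclidean space -/
def DcE (Ω : Set (EuclideanSpace ℝ (Fin 3))) : Submodule ℝ (EuclideanSpace ℝ (Fin 3) → ℝ) where
  carrier := {f | ContDiff ℝ ((⊤ : ℕ∞) : WithTop ℕ∞) f ∧ HasCompactSupport f ∧ tsupport f ⊆ Ω}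
  add_mem' := by
    rintro f g ⟨hf, hf', hf''⟩ ⟨hg, hg', hg''⟩
    exact ⟨hf.add hg, hf'.add hg', (tsupport_add f g).trans (union_subset hf'' hg'')⟩
  zero_mem' := by
    refine ⟨contDiff_const, HasCompactSupport.zero, ?_⟩
    have : tsupport (0 : EuclideanSpace ℝ (Fin 3) → ℝ) = ∅ := by simp
    rw [this]; exact empty_subset _
  smul_mem' := by
    rintro c f ⟨hf, hf', hf''⟩
    refine ⟨contDiff_const.smul hf, ?_, ?_⟩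
    · exact hf'.smul_left (f := fun _ => c)
    · exact (tsupport_smul_subset_right (fun _ => c) f).trans hf''

def DomainPropE (N : ℕ) : Prop :=
  ∃ Ω : Set (EuclideanSpace ℝ (Fin 3)), IsOpen Ω ∧ IsConnected Ω ∧ Bornology.IsBounded Ω ∧
    ∃ E : ℝ, 0 < E ∧
    (∃ l : DcE Ω →ₗ[ℝ] ℝ, ∀ f : DcE Ω, l f = 0 →
      E * (∫ x, (f : EuclideanSpace ℝ (Fin 3) → ℝ) x ^ 2) ≤
        ∫ x, ‖fderiv ℝ (f : EuclideanSpace ℝ (Fin 3) → ℝ) x‖ ^ 2) ∧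
    ∀ ε : ℝ, 0 < ε → ∃ U : (Fin N → ℝ) →ₗ[ℝ] DcE Ω, Function.Injective U ∧
      ∀ c, (∫ x, ‖fderiv ℝ (U c : EuclideanSpace ℝ (Fin 3) → ℝ) x‖ ^ 2) ≤
        (E + ε) * ∫ x, (U c : EuclideanSpace ℝ (Fin 3) → ℝ) x ^ 2

/-- transfer `P → EuclideanSpace` -/
def TaskTRANS : Prop := ∀ N, DomainProp N → DomainPropE N

/-- min-max: the frozen statement -/
def TaskMINMAX : Prop :=
  (∀ N, 2 ≤ N → DomainPropE N) →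
   ¬ (∀ n : ℕ, 3 ≤ n → ∀ k : ℕ, 1 ≤ k → ∃ C : ℕ,
    ∀ Ω : Set (EuclideanSpace ℝ (Fin n)), IsOpen Ω → IsConnected Ω → Bornology.IsBounded Ω →
    ∀ lam : ℕ → ℝ,
      (∀ j : ℕ, lam j = sInf ((fun V : Submodule ℝ (EuclideanSpace ℝ (Fin n) → ℝ) =>
          sSup ((fun f : EuclideanSpace ℝ (Fin n) → ℝ =>
            (∫ x, ‖fderiv ℝ f x‖ ^ 2) / (∫ x, f x ^ 2)) '' {f | f ∈ V ∧ f ≠ 0})) ''
        {V : Submodule ℝ (EuclideanSpace ℝ (Fin n) → ℝ) | Module.finrank ℝ V = j ∧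
          ∀ f ∈ V, ContDiff ℝ ((⊤ : ℕ∞) : WithTop ℕ∞) f ∧ HasCompactSupport f ∧ tsupport f ⊆ Ω})) →
      ∀ S : Finset ℕ, (∀ j ∈ S, 1 ≤ j ∧ lam j = lam k) → S.card ≤ C)

end Pool.Agent.H456R3.Mult
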