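import Mathlib
import Pool.Agent.H456R3.Mult.Stmts

/-!
The constrained minimum of a quadratic form is a quadratic form.
-/

set_option autoImplicit false

namespace Pool.Agent.H456R3.Mult

theorem taskABS1 : TaskABS1 := by
  intro ι _ V _ _ B l C hsym hsurj hbd
  classical
  have hK : ∀ k, l k = 0 → 0 ≤ B k k := by
    intro k hk
    have := hbd k
    simpa [hk] using this
  set F : (ι → ℝ) → ℝ := fun c => sInf {r | ∃ x, l x = c ∧ r = B x x} with hF
  have hne : ∀ c, {r | ∃ x, l x = c ∧ r = B x x}.Nonempty := by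
    intro c
    obtain ⟨x, hx⟩ := hsurj c
    exact ⟨B x x, x, hx, rfl⟩
  have hbb : ∀ c, BddBelow {r | ∃ x, l x = c ∧ r = B x x} := by
    intro c
    refine ⟨-C * ∑ v, (c v) ^ 2, ?_⟩
    rintro r ⟨x, rfl, rfl⟩
    exact hbd x
  have F1 : ∀ x, F (l x) ≤ B x x := fun x => csInf_le (hbb _) ⟨x, rfl, rfl⟩
  have F2 : ∀ c, ∀ ε : ℝ, 0 < ε → ∃ x, l x = c ∧ B x x < F c + ε := by
    intro c ε hε
    obtain ⟨r, ⟨x, hx, rfl⟩, hr⟩ := exists_lt_of_csInf_lt (hne c)
      (show sInf {r | ∃ x, l x = c ∧ r = B x x} < F c + ε by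
        have : sInf {r | ∃ x, l x = c ∧ r = B x x} = F c := rfl
        linarith)
    exact ⟨x, hx, hr⟩
  have G1 : ∀ x, ∀ τ : ℝ, (∀ k, l k = 0 → |B x k| ≤ τ * √(B k k)) →
      B x x - τ ^ 2 ≤ F (l x) := by
    intro x τ hg
    refine le_csInf (hne _) ?_
    rintro r ⟨y, hy, rfl⟩
    have hk : l (y - x) = 0 := by rw [map_sub, hy, sub_self]
    have h1 := hg (y - x) hk
    have h2 : B y y = B x x + 2 * B x (y - x) + B (y - x) (y - x) := by
      simp only [map_sub, LinearMap.sub_apply]
      rw [hsym y x]
      ring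
    have h3 := hK _ hk
    have h4 : √(B (y - x) (y - x)) ^ 2 = B (y - x) (y - x) := Real.sq_sqrt h3
    have h5 := neg_abs_le (B x (y - x))
    nlinarith [sq_nonneg (√(B (y - x) (y - x)) - τ)]
  have G2 : ∀ c, ∀ τ : ℝ, 0 < τ → ∃ x, l x = c ∧
      ∀ k, l k = 0 → |B x k| ≤ τ * √(B k k) := by
    intro c τ hτ
    obtain ⟨x, hx, hlt⟩ := F2 c (τ ^ 2) (by positivity)
    refine ⟨x, hx, fun k hk => ?_⟩
    have h : ∀ t : ℝ, 0 ≤ B k k * (t * t) + 2 * B x k * t + τ ^ 2 := by
      intro t
      have h1 := F1 (x + t • k)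
      rw [map_add, map_smul, hk, smul_zero, add_zero, hx] at h1
      have e : B (x + t • k) (x + t • k) = B x x + 2 * t * B x k + t * t * B k k := by
        simp only [map_add, map_smul, LinearMap.add_apply, LinearMap.smul_apply, smul_eq_mul]
        rw [hsym k x]
        ring
      linarith
    have hd := discrim_le_zero h
    unfold discrim at hd
    have h6 : (B x k) ^ 2 ≤ τ ^ 2 * B k k := by nlinarith
    have h7 := Real.abs_le_sqrt h6
    rwa [Real.sqrt_mul (by positivity), Real.sqrt_sq hτ.le] at h7
  set M : ι → ι → ℝ := fun u v => (F (Pi.single u 1 + Pi.single v 1) - F (Pi.single u 1)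
    - F (Pi.single v 1)) / 2 with hM
  have key : ∀ c, quad M c = F c := by
    intro c
    set S : ℝ := ∑ v, |c v| with hS
    have hS0 : 0 ≤ S := Finset.sum_nonneg fun v _ => abs_nonneg _
    have main : ∀ τ : ℝ, 0 < τ → |quad M c - F c| ≤ 4 * S ^ 2 * τ ^ 2 := by
      intro τ hτ
      choose m hm1 hm2 using fun v : ι => G2 (Pi.single v 1) τ hτ
      -- entries
      have hent : ∀ u v, |M u v - B (m u) (m v)| ≤ 3 * τ ^ 2 := by
        intro u v
        have a1 := F1 (m u)
        have a2 := F1 (m v)
        have a3 := F1 (m u + m v)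
        have b1 := G1 (m u) τ (hm2 u)
        have b2 := G1 (m v) τ (hm2 v)
        have b3 := G1 (m u + m v) (2 * τ) (by
          intro k hk
          rw [map_add, LinearMap.add_apply]
          have := abs_add_le (B (m u) k) (B (m v) k)
          have h1 := hm2 u k hk
          have h2 := hm2 v k hk
          linarith)
        have hluv : l (m u + m v) = Pi.single u 1 + Pi.single v 1 := by
          rw [map_add, hm1, hm1]
        rw [hluv] at a3 b3
        rw [hm1] at a1 a2 b1 b2
        have e : B (m u + m v) (m u + m v) = B (m u) (m u) + 2 * B (m u) (m v) + B (m v) (m v) := by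
          simp only [map_add, LinearMap.add_apply]
          rw [hsym (m v) (m u)]
          ring
        rw [e] at a3 b3
        rw [hM, abs_le]
        constructor <;> simp only <;> nlinarith
      set x := ∑ v, c v • m v with hx
      have hlx : l x = c := by
        rw [hx, map_sum]
        simp only [map_smul, hm1]
        funext w
        simp [Finset.sum_apply, Pi.single_apply]
      have hgx : ∀ k, l k = 0 → |B x k| ≤ (S * τ) * √(B k k) := by
        intro k hk
        rw [hx, map_sum, LinearMap.sum_apply]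
        calc |∑ v, B (c v • m v) k| ≤ ∑ v, |B (c v • m v) k| := Finset.abs_sum_le_sum_abs _ _
          _ ≤ ∑ v, |c v| * (τ * √(B k k)) := by
              refine Finset.sum_le_sum fun v _ => ?_
              rw [map_smul, LinearMap.smul_apply, smul_eq_mul, abs_mul]
              exact mul_le_mul_of_nonneg_left (hm2 v k hk) (abs_nonneg _)
          _ = (S * τ) * √(B k k) := by rw [← Finset.sum_mul]; ring
      have a4 := F1 x
      have b4 := G1 x (S * τ) hgx
      rw [hlx] at a4 b4
      have hxx : B x x = ∑ u, ∑ v, B (m u) (m v) * c u * c v := by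
        have h1 : ∀ y, B x y = ∑ u, c u * B (m u) y := by
          intro y
          rw [hx, map_sum, LinearMap.sum_apply]
          refine Finset.sum_congr rfl fun u _ => ?_
          rw [map_smul, LinearMap.smul_apply, smul_eq_mul]
        have h2 : ∀ y, B y x = ∑ v, c v * B y (m v) := by
          intro y
          rw [hx, map_sum]
          refine Finset.sum_congr rfl fun v _ => ?_
          rw [map_smul, smul_eq_mul]
        rw [h1]
        refine Finset.sum_congr rfl fun u _ => ?_
        rw [h2, Finset.mul_sum]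
        refine Finset.sum_congr rfl fun v _ => ?_
        ring
      have hdiff : |quad M c - B x x| ≤ 3 * S ^ 2 * τ ^ 2 := by
        unfold quad
        rw [hxx, ← Finset.sum_sub_distrib]
        have h1 : ∀ u, ∑ v, M u v * c u * c v - ∑ v, B (m u) (m v) * c u * c v =
            ∑ v, (M u v - B (m u) (m v)) * c u * c v := by
          intro u
          rw [← Finset.sum_sub_distrib]
          exact Finset.sum_congr rfl fun v _ => by ring
        simp only [h1]
        calc |∑ u, ∑ v, (M u v - B (m u) (m v)) * c u * c v|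
            ≤ ∑ u, |∑ v, (M u v - B (m u) (m v)) * c u * c v| := Finset.abs_sum_le_sum_abs _ _
          _ ≤ ∑ u, ∑ v, |(M u v - B (m u) (m v)) * c u * c v| :=
              Finset.sum_le_sum fun u _ => Finset.abs_sum_le_sum_abs _ _
          _ ≤ ∑ u, ∑ v, 3 * τ ^ 2 * (|c u| * |c v|) := by
              refine Finset.sum_le_sum fun u _ => Finset.sum_le_sum fun v _ => ?_
              rw [mul_assoc, abs_mul, abs_mul]
              exact mul_le_mul_of_nonneg_right (hent u v) (by positivity)
          _ = 3 * S ^ 2 * τ ^ 2 := by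
              simp only [← Finset.mul_sum]
              rw [← Finset.sum_mul]
              ring
      rw [abs_le] at hdiff ⊢
      constructor <;> nlinarith [hdiff.1, hdiff.2, sq_nonneg (S * τ)]
    refine eq_of_abs_sub_le_all fun ε hε => ?_
    have hpos : 0 < ε / (4 * (S ^ 2 + 1)) := by positivity
    have h1 := main (√(ε / (4 * (S ^ 2 + 1)))) (Real.sqrt_pos.2 hpos)
    rw [Real.sq_sqrt hpos.le] at h1
    refine h1.trans ?_
    have h2 : 4 * S ^ 2 * (ε / (4 * (S ^ 2 + 1))) = ε * (S ^ 2 / (S ^ 2 + 1)) := by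
      field_simp
    rw [h2]
    have h3 : S ^ 2 / (S ^ 2 + 1) ≤ 1 := by
      rw [div_le_one (by positivity)]
      linarith
    calc ε * (S ^ 2 / (S ^ 2 + 1)) ≤ ε * 1 := mul_le_mul_of_nonneg_left h3 hε.le
      _ = ε := mul_one _
  refine ⟨M, fun u v => ?_, fun x => ?_, fun c ε hε => ?_⟩
  · simp only [hM]
    rw [add_comm (Pi.single u 1 : ι → ℝ)]
    ring
  · rw [key]
    exact F1 x
  · obtain ⟨x, hx, hlt⟩ := F2 c ε hε
    exact ⟨x, hx, by rw [key]; exact hlt.le⟩

end Pool.Agent.H456R3.Mult
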