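import Pool.Agent.H456R3.Mult.Stmts

/-! Task ABS2 of the project H456-MULT. -/

set_option autoImplicit false
set_option maxHeartbeats 4000000

namespace Pool.Agent.H456R3.Mult.ABS2

section

variable {V : Type} [AddCommGroup V] [Module ℝ V] (B : V →ₗ[ℝ] V →ₗ[ℝ] ℝ)

theorem cs (hs : ∀ x y, B x y = B y x) (hp : ∀ x, 0 ≤ B x x) (x y : V) :
    |B x y| ≤ √(B x x) * √(B y y) := by
  rw [← Real.sqrt_mul (hp x)]
  apply Real.abs_le_sqrt
  have h : ∀ t : ℝ, 0 ≤ B y y * (t * t) + (2 * B x y) * t + B x x := by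
    intro t
    have h1 := hp (x + t • y)
    simp only [map_add, map_smul, LinearMap.add_apply, LinearMap.smul_apply, smul_eq_mul] at h1
    rw [hs y x] at h1
    linarith
  have h2 := discrim_le_zero h
  unfold discrim at h2
  nlinarith

theorem riesz (hs : ∀ x y, B x y = B y x) (Λ : V →ₗ[ℝ] ℝ) (hp : ∀ x, 0 ≤ B x x) (K : ℝ)
    (hK0 : 0 ≤ K) (hK : ∀ x, |Λ x| ≤ K * √(B x x)) (d : ℝ) (hd : 0 < d) :
    ∃ φ, (∀ x, |B φ x - Λ x| ≤ d * √(B x x)) ∧ √(B φ φ) ≤ K + d := by
  set J : V → ℝ := fun x => 2 * Λ x - B x x with hJ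
  have hbd : BddAbove (Set.range J) := by
    refine ⟨K ^ 2, ?_⟩
    rintro _ ⟨x, rfl⟩
    have h1 := (le_abs_self _).trans (hK x)
    have h2 := Real.sq_sqrt (hp x)
    simp only [hJ]
    nlinarith [sq_nonneg (K - √(B x x))]
  obtain ⟨φ, hφ⟩ := exists_lt_of_lt_ciSup (show (⨆ x, J x) - d ^ 2 < ⨆ x, J x by
    have := pow_pos hd 2
    linarith)
  have key : ∀ x (t : ℝ), 2 * t * (Λ x - B φ x) - t ^ 2 * B x x ≤ d ^ 2 := by
    intro x t
    have h1 := le_ciSup hbd (φ + t • x)
    simp only [hJ] at h1 hφ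
    simp only [map_add, map_smul, LinearMap.add_apply, LinearMap.smul_apply, smul_eq_mul] at h1
    rw [hs x φ] at h1
    nlinarith
  have hmain : ∀ x, |B φ x - Λ x| ≤ d * √(B x x) := by
    intro x
    rw [abs_sub_comm]
    rcases (hp x).eq_or_lt with h0 | h0
    · have h1 : Λ x - B φ x = 0 := by
        by_contra hne
        have h2 := key x (d ^ 2 / (Λ x - B φ x))
        rw [← h0] at h2
        have h3 : 2 * (d ^ 2 / (Λ x - B φ x)) * (Λ x - B φ x) = 2 * d ^ 2 := by
          field_simp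
        rw [h3] at h2
        have := pow_pos hd 2
        linarith
      rw [h1, ← h0]
      simp
    · have h2 := key x ((Λ x - B φ x) / B x x)
      have h3 : 2 * ((Λ x - B φ x) / B x x) * (Λ x - B φ x) - ((Λ x - B φ x) / B x x) ^ 2 * B x x =
          (Λ x - B φ x) ^ 2 / B x x := by
        field_simp
        ring
      rw [h3, div_le_iff₀ h0] at h2
      have h4 : d * √(B x x) = √(d ^ 2 * B x x) := by
        rw [Real.sqrt_mul (by positivity), Real.sqrt_sq hd.le]
      rw [h4]
      exact Real.abs_le_sqrt h2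
  refine ⟨φ, hmain, ?_⟩
  rcases (Real.sqrt_nonneg (B φ φ)).eq_or_lt with h0 | h0
  · rw [← h0]; positivity
  · have h1 := hmain φ
    have h2 := hK φ
    have h3 := Real.sq_sqrt (hp φ)
    have h4 := (abs_le.1 h1).2
    have h5 := (abs_le.1 h2).2
    by_contra hcon
    push Not at hcon
    nlinarith

end

end Pool.Agent.H456R3.Mult.ABS2

namespace Pool.Agent.H456R3.Mult

open ABS2

theorem taskABS2 : TaskABS2 := by
  intro V _ _ B hs hp ι κ _ _ L T h C A η ε c1 hC hA hη hη1 hε hc1 hh hT hL hlow hfar0 τ hτ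
  classical
  obtain ⟨δ, hδ, hfar⟩ := hfar0
  set k : ℝ := (Fintype.card κ : ℝ) with hk
  have hk0 : 0 ≤ k := by positivity
  have hsum : ∀ (f : κ → ℝ) (c : ℝ), (∀ W, |f W| ≤ c) → |∑ W, f W| ≤ k * c := by
    intro f c hf
    refine (Finset.abs_sum_le_sum_abs _ _).trans ?_
    refine (Finset.sum_le_sum fun W _ => hf W).trans ?_
    rw [Finset.sum_const, Finset.card_univ, nsmul_eq_mul]
  have hn : ∀ x, 0 ≤ √(B x x) := fun x => Real.sqrt_nonneg _
  have hLb : ∀ v x, |L v x| ≤ ((k * C ^ 2 + 1) * A) * √(B x x) := by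
    intro v x
    have h1 := hL v x
    have h2 : |∑ W, h v W * T W x| ≤ k * (C * (C * A * √(B x x))) := by
      refine hsum _ _ fun W => ?_
      rw [abs_mul]
      exact mul_le_mul (hh v W) (hT W x) (abs_nonneg _) hC.le
    have h3 : |L v x| ≤ |L v x - ∑ W, h v W * T W x| + |∑ W, h v W * T W x| := by
      have := abs_add_le (L v x - ∑ W, h v W * T W x) (∑ W, h v W * T W x)
      rwa [sub_add_cancel] at this
    have h4 : η * A * √(B x x) ≤ 1 * A * √(B x x) := by
      have := hn x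
      gcongr
    nlinarith
  set N0 : ℝ := (k * C ^ 2 + 1) * A + 1 with hN0
  have hN0p : 0 ≤ N0 := by positivity
  set R : ℝ := k * C * A + k * C * (C * A + 1 + N0) + A + N0 + 2 * c1 * A + C * A + 1 with hR
  have hR1 : 1 ≤ R := by
    have : 0 ≤ k * C * A + k * C * (C * A + 1 + N0) + A + N0 + 2 * c1 * A + C * A := by positivity
    linarith
  have hR0 : 0 < R := by linarith
  obtain ⟨d, hd, hd1, hdδ, hdc, hdR⟩ : ∃ d : ℝ, 0 < d ∧ d ≤ 1 ∧ d ≤ δ ∧ d ≤ c1 * A ∧ d * R ≤ τ := by
    refine ⟨min (min 1 δ) (min (c1 * A) (τ / R)), ?_, ?_, ?_, ?_, ?_⟩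
    · refine lt_min (lt_min one_pos hδ) (lt_min (by positivity) (by positivity))
    · exact (min_le_left _ _).trans (min_le_left _ _)
    · exact (min_le_left _ _).trans (min_le_right _ _)
    · exact (min_le_right _ _).trans (min_le_left _ _)
    · calc min (min 1 δ) (min (c1 * A) (τ / R)) * R ≤ (τ / R) * R := by
            gcongr
            exact (min_le_right _ _).trans (min_le_right _ _)
        _ = τ := by field_simp
  have hdτ : d ≤ τ := by nlinarith
  choose φ hφ hφn using fun v => riesz B hs (L v) hp _ (by positivity) (hLb v) d hd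
  choose ψ hψ hψn using fun W => riesz B hs (T W) hp (C * A) (by positivity) (hT W) d hd
  have hφN : ∀ v, √(B (φ v) (φ v)) ≤ N0 := fun v => (hφn v).trans (by rw [hN0]; linarith)
  refine ⟨φ, fun v x => (hφ v x).trans (by have := hn x; gcongr), fun W => T W (ψ W),
    fun W => ⟨?_, ?_⟩, fun u v => ?_⟩
  · -- lower bound
    obtain ⟨x, hx0, hx⟩ := hlow W
    have hq : 0 < √(B x x) := Real.sqrt_pos.2 hx0
    have h1 := (abs_le.1 (hψ W x)).1
    have h2 := (le_abs_self _).trans (cs B hs hp (ψ W) x)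
    have h3 : c1 * A ≤ √(B (ψ W) (ψ W)) + d := by
      by_contra hcon
      push Not at hcon
      nlinarith
    have h4 := (abs_le.1 (hψ W (ψ W))).2
    have h5 := Real.sq_sqrt (hp (ψ W))
    have h6 := hψn W
    have h7 : (c1 * A - d) ^ 2 ≤ √(B (ψ W) (ψ W)) ^ 2 :=
      pow_le_pow_left₀ (by linarith) (by linarith) 2
    have h8 : d * √(B (ψ W) (ψ W)) ≤ d * (C * A + 1) := by
      gcongr
      linarith
    have h9 : d * (2 * c1 * A + C * A + 1) ≤ d * R := by
      gcongr
      rw [hR]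
      have : 0 ≤ k * C * A + k * C * (C * A + 1 + N0) + A + N0 := by positivity
      linarith
    nlinarith [sq_nonneg d]
  · -- upper bound
    have h1 := (le_abs_self _).trans (hT W (ψ W))
    have h2 : C * A * √(B (ψ W) (ψ W)) ≤ C * A * (C * A + d) := by
      gcongr
      exact hψn W
    have h9 : d * (C * A) ≤ d * R := by
      gcongr
      rw [hR]
      have : 0 ≤ k * C * A + k * C * (C * A + 1 + N0) + A + N0 + 2 * c1 * A := by positivity
      linarith
    nlinarith
  · have hcard : ((Fintype.card κ : ℝ)) = k := rfl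
    -- (3)
    set E : ℝ := k * (C * (ε * A ^ 2)) + η * A * (C * A + d) + d * (C * A + d) + d * N0 with hE
    have hE0 : 0 ≤ E := by positivity
    have h3 : ∀ W, |T W (φ v) - h v W * T W (ψ W)| ≤ E := by
      intro W
      have a1 : |B (ψ W) (φ v) - T W (φ v)| ≤ d * N0 :=
        (hψ W (φ v)).trans (by gcongr; exact hφN v)
      have a2 : |B (φ v) (ψ W) - L v (ψ W)| ≤ d * (C * A + d) :=
        (hφ v (ψ W)).trans (by gcongr; exact hψn W)
      have a3 : |L v (ψ W) - ∑ W', h v W' * T W' (ψ W)| ≤ η * A * (C * A + d) :=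
        (hL v (ψ W)).trans (by gcongr; exact hψn W)
      have a4 : |∑ W', h v W' * T W' (ψ W) - h v W * T W (ψ W)| ≤ k * (C * (ε * A ^ 2)) := by
        have e : ∑ W', h v W' * T W' (ψ W) - h v W * T W (ψ W) =
            ∑ W', (if W' = W then 0 else h v W' * T W' (ψ W)) := by
          rw [← Finset.add_sum_erase _ _ (Finset.mem_univ W), add_sub_cancel_left,
            ← Finset.add_sum_erase Finset.univ (fun W' => if W' = W then 0 else h v W' * T W' (ψ W))
              (Finset.mem_univ W)]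
          simp only [if_true, zero_add]
          refine Finset.sum_congr rfl fun W' hW' => ?_
          rw [if_neg (Finset.ne_of_mem_erase hW')]
        rw [e]
        refine hsum _ _ fun W' => ?_
        split_ifs with hW
        · rw [abs_zero]; positivity
        · rw [abs_mul]
          refine mul_le_mul (hh v W') ?_ (abs_nonneg _) hC.le
          exact hfar W' W hW (ψ W) fun x => (hψ W x).trans (by have := hn x; gcongr)
      rw [hs] at a1
      rw [abs_le] at a1 a2 a3 a4 ⊢
      rw [hE]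
      constructor <;> linarith [a1.1, a1.2, a2.1, a2.2, a3.1, a3.2, a4.1, a4.2]
    have b1 : |B (φ u) (φ v) - L u (φ v)| ≤ d * N0 :=
      (hφ u (φ v)).trans (by gcongr; exact hφN v)
    have b2 : |L u (φ v) - ∑ W, h u W * T W (φ v)| ≤ η * A * ((k * C ^ 2 + 1) * A + d) :=
      (hL u (φ v)).trans (by gcongr; exact hφn v)
    have b3 : |∑ W, h u W * T W (φ v) - ∑ W, h u W * h v W * T W (ψ W)| ≤ k * (C * E) := by
      rw [← Finset.sum_sub_distrib]
      refine hsum _ _ fun W => ?_
      have e : h u W * T W (φ v) - h u W * h v W * T W (ψ W) =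
          h u W * (T W (φ v) - h v W * T W (ψ W)) := by ring
      rw [e, abs_mul]
      exact mul_le_mul (hh u W) (h3 W) (abs_nonneg _) hC.le
    have tot : |B (φ u) (φ v) - ∑ W, h u W * h v W * T W (ψ W)| ≤
        d * N0 + η * A * ((k * C ^ 2 + 1) * A + d) + k * (C * E) := by
      rw [abs_le] at b1 b2 b3 ⊢
      constructor <;> linarith [b1.1, b1.2, b2.1, b2.2, b3.1, b3.2]
    refine tot.trans ?_
    have c2 : d * (N0 + η * A + k * C * (η * A) + k * C * (C * A + d + N0)) ≤ d * R := by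
      gcongr
      rw [hR]
      have e1 : η * A ≤ A := mul_le_of_le_one_left hA.le hη1
      have e2 : k * C * (η * A) ≤ k * C * A := by gcongr
      have e3 : k * C * (C * A + d + N0) ≤ k * C * (C * A + 1 + N0) := by gcongr
      have e4 : 0 ≤ 2 * c1 * A + C * A + 1 := by positivity
      linarith
    have c3 : (k ^ 2 * C ^ 2 * ε + (2 * k * C ^ 2 + 1) * η) * A ^ 2 ≤
        ((k ^ 2 + 2 * k + 1) * (C ^ 2 + 1)) * (η + ε) * A ^ 2 := by
      have : k ^ 2 * C ^ 2 * ε + (2 * k * C ^ 2 + 1) * η ≤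
          ((k ^ 2 + 2 * k + 1) * (C ^ 2 + 1)) * (η + ε) := by
        have e1 : 0 ≤ ((k ^ 2 + 2 * k + 1) * (C ^ 2 + 1) - k ^ 2 * C ^ 2) * ε := by
          apply mul_nonneg _ hε
          have : (k ^ 2 + 2 * k + 1) * (C ^ 2 + 1) - k ^ 2 * C ^ 2 =
            2 * k * C ^ 2 + C ^ 2 + k ^ 2 + 2 * k + 1 := by ring
          rw [this]; positivity
        have e2 : 0 ≤ ((k ^ 2 + 2 * k + 1) * (C ^ 2 + 1) - (2 * k * C ^ 2 + 1)) * η := by
          apply mul_nonneg _ hη
          have : (k ^ 2 + 2 * k + 1) * (C ^ 2 + 1) - (2 * k * C ^ 2 + 1) =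
            k ^ 2 * C ^ 2 + C ^ 2 + k ^ 2 + 2 * k := by ring
          rw [this]; positivity
        linarith
      gcongr
    have c4 : d * N0 + η * A * ((k * C ^ 2 + 1) * A + d) + k * (C * E) =
        (k ^ 2 * C ^ 2 * ε + (2 * k * C ^ 2 + 1) * η) * A ^ 2 +
          d * (N0 + η * A + k * C * (η * A) + k * C * (C * A + d + N0)) := by
      rw [hE]; ring
    rw [c4]
    linarith

end Pool.Agent.H456R3.Mult
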