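import Pool.Agent.H456R3.Mult.Stmts

set_option autoImplicit false

namespace Pool.Agent.H456R3.Mult

theorem quad_single3 {ι : Type} [Fintype ι] [DecidableEq ι] (M : ι → ι → ℝ) (v : ι) :
    quad M (Pi.single v 1) = M v v := by
  unfold quad
  simp [Pi.single_apply]

theorem quad_comb3 {ι : Type} [Fintype ι] [DecidableEq ι] (M : ι → ι → ℝ)
    (hM : ∀ u v, M u v = M v u) (u v : ι) (s : ℝ) :
    quad M (Pi.single u 1 + s • Pi.single v 1) = M u u + 2 * s * M u v + s ^ 2 * M v v := by
  unfold quad
  simp only [Pi.add_apply, Pi.smul_apply, Pi.single_apply, smul_eq_mul]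
  have e1 : ∀ a b : ι, M a b * ((if a = u then (1:ℝ) else 0) + s * (if a = v then 1 else 0)) *
      ((if b = u then (1:ℝ) else 0) + s * (if b = v then 1 else 0)) =
      (if a = u then (if b = u then M a b else 0) else 0) +
      (if a = u then (if b = v then s * M a b else 0) else 0) +
      (if a = v then (if b = u then s * M a b else 0) else 0) +
      (if a = v then (if b = v then s ^ 2 * M a b else 0) else 0) := by
    intro a b
    split_ifs <;> ring
  simp_rw [e1, Finset.sum_add_distrib]
  have e2 : ∀ (x y : ι) (f : ι → ι → ℝ),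
      ∑ a, ∑ b, (if a = x then (if b = y then f a b else 0) else 0) = f x y := by
    intro x y f
    rw [Finset.sum_eq_single x]
    · simp
    · intro a _ ha
      simp [ha]
    · intro h; exact absurd (Finset.mem_univ _) h
  rw [e2 u u M, e2 u v (fun a b => s * M a b), e2 v u (fun a b => s * M a b),
    e2 v v (fun a b => s ^ 2 * M a b), hM v u]
  ring

theorem taskABS3 : TaskABS3 := by
  intro ι _ _ V _ _ B l hB hpos M hM hle hmin τ hτ m hm hmx u v
  -- lower bound
  have hlow : ∀ s : ℝ, M u u + 2 * s * M u v + s ^ 2 * M v v ≤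
      B (m u) (m u) + 2 * s * B (m u) (m v) + s ^ 2 * B (m v) (m v) := by
    intro s
    have h1 := hle (m u + s • m v)
    rw [map_add, map_smul, hm, hm, quad_comb3 M hM] at h1
    have h2 : B (m u + s • m v) (m u + s • m v) =
        B (m u) (m u) + 2 * s * B (m u) (m v) + s ^ 2 * B (m v) (m v) := by
      simp only [map_add, map_smul, LinearMap.add_apply, LinearMap.smul_apply, smul_eq_mul]
      rw [hB (m v) (m u)]
      ring
    rw [h2] at h1
    exact h1
  have hup : ∀ w : ι, B (m w) (m w) - τ ^ 2 ≤ M w w := by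
    intro w
    apply le_of_forall_pos_le_add
    intro ε hε
    obtain ⟨x, hx1, hx2⟩ := hmin (Pi.single w 1) ε hε
    rw [quad_single3] at hx2
    set φ := x - m w with hφ
    have hlφ : l φ = 0 := by rw [hφ, map_sub, hx1, hm, sub_self]
    have hx : x = m w + φ := by rw [hφ]; abel
    have h1 := hmx w φ hlφ
    have h2 := hpos φ hlφ
    have h3 : B x x = B (m w) (m w) + 2 * B (m w) φ + B φ φ := by
      rw [hx]
      simp only [map_add, LinearMap.add_apply]
      rw [hB φ (m w)]
      ring
    have h4 := Real.sq_sqrt h2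
    have h5 := neg_abs_le (B (m w) φ)
    nlinarith [sq_nonneg (√(B φ φ) - τ), Real.sqrt_nonneg (B φ φ)]
  have hlowv : ∀ w : ι, M w w ≤ B (m w) (m w) := by
    intro w
    have h1 := hle (m w)
    rw [hm, quad_single3] at h1
    exact h1
  have h1 := hlow 1
  have h2 := hlow (-1)
  have h3 := hup u
  have h4 := hup v
  rw [abs_le]
  constructor <;> nlinarith

end Pool.Agent.H456R3.Mult
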