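import Pool.Agent.H456R3.Mult.Basic

/-! Assembly, part 1 (project H456-MULT). -/

open MeasureTheory Set
open scoped ContDiff

set_option autoImplicit false

noncomputable section

namespace Pool.Agent.H456R3.Mult

section geo
variable {m n : ℕ} {inc : Fin m → Fin n → Prop} {M w : ℝ} {s : Idx m n → ℝ}

lemma bar_subset_Om (v : Idx m n) : (bar m n M s v).set ⊆ Om m n inc M w s :=
  fun _ hp => Or.inl (mem_iUnion.2 ⟨v, hp⟩)

lemma cube_subset_Om {i : Fin m} {j : Fin n} (h : inc i j) :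
    cube (ctr i j) w ⊆ Om m n inc M w s :=
  fun _ hp => Or.inr (mem_iUnion.2 ⟨i, mem_iUnion.2 ⟨j, mem_iUnion.2 ⟨h, hp⟩⟩⟩)

lemma bar_nondeg (hM : 1 ≤ M) (hs : ∀ v, |s v - 1 / 2| ≤ 1 / 4) (v : Idx m n) :
    (bar m n M s v).a1 < (bar m n M s v).b1 ∧ (bar m n M s v).a2 < (bar m n M s v).b2 ∧
      (bar m n M s v).a3 < (bar m n M s v).b3 := by
  have h := abs_le.1 (hs v)
  rcases v with i | j <;> simp only [bar] <;> refine ⟨?_, ?_, ?_⟩ <;> linarith [h.1, h.2]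

lemma bar_mu (v : Idx m n) : (bar m n M s v).mu = Real.pi ^ 2 * (2 + 1 / (M + s v) ^ 2) := by
  rcases v with i | j <;> simp only [bar, Box.mu] <;> ring_nf
end geo

lemma l_zero_of_disjoint {b b' : Box} (hd : Disjoint b.set b'.set) {g : P → ℝ}
    (hg : g ∈ Dc b'.set) : b.l g = 0 := by
  simp only [Box.l]
  refine setIntegral_eq_zero_of_forall_eq_zero fun p hp => ?_
  rw [Dc_zero_of_notMem hg (fun h => (disjoint_left.1 hd) hp h), mul_zero]

lemma abs_l_le (hE : TaskEAPP) {b : Box} (h1 : b.a1 < b.b1) (h2 : b.a2 < b.b2) (h3 : b.a3 < b.b3)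
    {f : P → ℝ} (hf : f ∈ Dc univ) : |b.l f| ≤ √(Ms f) := by
  refine le_of_forall_pos_le_add fun ε hε => ?_
  set R := √(Ms f) with hR
  have hR0 : 0 ≤ R := Real.sqrt_nonneg _
  obtain ⟨g, hg, -, hg1, -, hg2⟩ := hE b h1 h2 h3 (ε / (2 * (R + 1))) (by positivity)
  set e := ε / (2 * (R + 1)) with he
  have he0 : 0 < e := by positivity
  have a1 := (hg2 f hf).2
  have a2 := Mb_cs (Dc_univ hg) hf
  have a3 : √(Ms g) ≤ 1 + e := by
    rw [Real.sqrt_le_left (by linarith)]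
    have := (abs_le.1 hg1).2
    nlinarith
  have a4 : |b.l f| ≤ |Mb g f| + e * R := by
    have := abs_sub_abs_le_abs_sub (b.l f) (Mb g f)
    rw [abs_sub_comm] at this
    linarith
  have a5 : √(Ms g) * R ≤ (1 + e) * R := mul_le_mul_of_nonneg_right a3 hR0
  have a6 : 2 * (e * R) ≤ ε := by
    have : e * (2 * (R + 1)) = ε := by rw [he]; field_simp
    nlinarith
  nlinarith [a2]

/-- the constrained-minimum matrix -/
def IsMat (m n : ℕ) (inc : Fin m → Fin n → Prop) (M w : ℝ) (s : Idx m n → ℝ)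
    (A : Idx m n → Idx m n → ℝ) : Prop :=
  (∀ u v, A u v = A v u) ∧
  (∀ f ∈ Dc (Om m n inc M w s), quad A (fun v => (bar m n M s v).l f) ≤ BE M f f) ∧
  ∀ c : Idx m n → ℝ, ∀ ε : ℝ, 0 < ε → ∃ f ∈ Dc (Om m n inc M w s),
    (∀ v, (bar m n M s v).l f = c v) ∧ BE M f f ≤ quad A c + ε

/-- coefficient map -/
def ellL (m n : ℕ) (inc : Fin m → Fin n → Prop) (M w : ℝ) (s : Idx m n → ℝ) :
    Dc (Om m n inc M w s) →ₗ[ℝ] (Idx m n → ℝ) :=
  LinearMap.pi fun v => lL (bar m n M s v) _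

@[simp] lemma ellL_apply {m n : ℕ} {inc : Fin m → Fin n → Prop} {M w : ℝ} {s : Idx m n → ℝ}
    (f : Dc (Om m n inc M w s)) (v : Idx m n) :
    ellL m n inc M w s f v = (bar m n M s v).l (f : P → ℝ) := rfl

lemma exists_mat (hA1 : TaskABS1) (hGEO : TaskGEO) (hGV : TaskGV)
    {m n : ℕ} {inc : Fin m → Fin n → Prop} {M : ℝ} (hM1 : 1 ≤ M) (hM2 : 2 * (m : ℝ) ≤ M)
    (hM3 : 2 * (n : ℝ) ≤ M) {δ0 w0 γ C : ℝ} (hC : Coer m n inc M δ0 w0 γ C)
    {w : ℝ} (hw : 0 < w) (hw0 : w ≤ w0) {s : Idx m n → ℝ} (hs : ∀ v, |s v - 1 / 2| ≤ δ0) :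
    ∃ A, IsMat m n inc M w s A := by
  obtain ⟨h1, h2, h3, h4, h5, h6, hco⟩ := hC
  have hs' : ∀ v, |s v - 1 / 2| ≤ 1 / 4 := fun v => (hs v).trans h2
  obtain ⟨Cg, -, hg⟩ := hGV m n M hM1
  choose g hgD hgl hgC using hg s hs'
  have hdis := (hGEO m n inc M w s hM1 hM2 hM3 hw (hw0.trans h4) hs').2.2.1
  have hsurj : Function.Surjective (ellL m n inc M w s) := by
    intro c
    let G : Idx m n → Dc (Om m n inc M w s) := fun v => ⟨g v, Dc_mono (bar_subset_Om v) (hgD v)⟩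
    refine ⟨∑ v, c v • G v, ?_⟩
    funext u
    rw [map_sum, Finset.sum_apply, Finset.sum_eq_single u]
    · rw [map_smul, Pi.smul_apply, ellL_apply]
      change c u • (bar m n M s u).l (g u) = c u
      rw [hgl u]; simp
    · intro v _ hvu
      rw [map_smul, Pi.smul_apply, ellL_apply]
      change c v • (bar m n M s u).l (g v) = 0
      rw [l_zero_of_disjoint (hdis u v (Ne.symm hvu)) (hgD v)]; simp
    · intro h; exact absurd (Finset.mem_univ u) h
  obtain ⟨A, hA, hA', hA''⟩ := hA1 (Idx m n) inferInstance (Dc (Om m n inc M w s)) inferInstance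
    inferInstance (BEL M (Om m n inc M w s)) (ellL m n inc M w s) C
    (fun x y => by simp only [BEL_apply]; exact BE_comm M _ _) hsurj (fun x => by
      have := hco w hw hw0 s hs x x.2
      simp only [BEL_apply, ellL_apply]
      nlinarith [mul_nonneg h5.le (add_nonneg (En_nonneg (x : P → ℝ)) (Ms_nonneg (x : P → ℝ)))])
  refine ⟨A, hA, fun f hf => ?_, fun c ε hε => ?_⟩
  · have := hA' ⟨f, hf⟩
    rw [BEL_apply] at this
    exact this
  · obtain ⟨x, hx, hx'⟩ := hA'' c ε hε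
    refine ⟨x, x.2, fun v => ?_, by simpa only [BEL_apply] using hx'⟩
    rw [← hx]; rfl

end Pool.Agent.H456R3.Mult
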