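import Pool.Agent.H456R3.Mult.Asm1

/-! Assembly, part 2: entries of the matrix (project H456-MULT). -/

open MeasureTheory Set
open scoped ContDiff

set_option autoImplicit false

noncomputable section

namespace Pool.Agent.H456R3.Mult

/-- the kernel subspace as a submodule of `Dc` -/
def KS (m n : ℕ) (inc : Fin m → Fin n → Prop) (M w : ℝ) (s : Idx m n → ℝ) :
    Submodule ℝ (Dc (Om m n inc M w s)) := LinearMap.ker (ellL m n inc M w s)

lemma KS_inK {m n : ℕ} {inc : Fin m → Fin n → Prop} {M w : ℝ} {s : Idx m n → ℝ}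
    (x : KS m n inc M w s) : InK m n inc M w s (x : Dc (Om m n inc M w s)).1 := by
  refine ⟨x.1.2, fun v => ?_⟩
  have := x.2
  simp only [KS, LinearMap.mem_ker] at this
  have h := congrFun this v
  simpa using h

lemma inK_KS {m n : ℕ} {inc : Fin m → Fin n → Prop} {M w : ℝ} {s : Idx m n → ℝ}
    {f : P → ℝ} (h : InK m n inc M w s f) :
    (⟨f, h.1⟩ : Dc (Om m n inc M w s)) ∈ KS m n inc M w s := by
  simp only [KS, LinearMap.mem_ker]
  funext v
  simpa using h.2 v

/-- restricted form -/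
def BK (m n : ℕ) (inc : Fin m → Fin n → Prop) (M w : ℝ) (s : Idx m n → ℝ) :
    KS m n inc M w s →ₗ[ℝ] KS m n inc M w s →ₗ[ℝ] ℝ :=
  (BEL M (Om m n inc M w s)).domRestrict₁₂ (KS m n inc M w s) (KS m n inc M w s)

@[simp] lemma BK_apply {m n : ℕ} {inc : Fin m → Fin n → Prop} {M w : ℝ} {s : Idx m n → ℝ}
    (x y : KS m n inc M w s) : BK m n inc M w s x y = BE M (x.1 : P → ℝ) (y.1 : P → ℝ) := by
  change BEL M (Om m n inc M w s) x.1 y.1 = _
  exact BEL_apply _ _

lemma BE_zero_of_disjoint {b b' : Box} (hd : Disjoint b.set b'.set) {f g : P → ℝ} (M : ℝ)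
    (hf : f ∈ Dc b.set) (hg : g ∈ Dc b'.set) : BE M f g = 0 := by
  have e1 : ∀ (f' g' : P → ℝ), f' ∈ Dc b.set → g' ∈ Dc b'.set → ∀ p, f' p * g' p = 0 := by
    intro f' g' hf' hg' p
    by_cases hp : p ∈ b.set
    · rw [Dc_zero_of_notMem hg' (fun h => (disjoint_left.1 hd) hp h), mul_zero]
    · rw [Dc_zero_of_notMem hf' hp, zero_mul]
  have e2 : Eb f g = 0 := by
    simp only [Eb]
    refine integral_eq_zero_of_ae (Filter.Eventually.of_forall fun p => ?_)
    simp only [gb, Pi.zero_apply]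
    rw [e1 _ _ (Dc_dx hf) (Dc_dx hg), e1 _ _ (Dc_dy hf) (Dc_dy hg), e1 _ _ (Dc_dz hf) (Dc_dz hg)]
    simp
  have e3 : Mb f g = 0 := by
    simp only [Mb]
    exact integral_eq_zero_of_ae (Filter.Eventually.of_forall fun p => e1 f g hf hg p)
  simp [BE, e2, e3]

/-- window index type -/
abbrev Wn {m n : ℕ} (inc : Fin m → Fin n → Prop) := {p : Fin m × Fin n // inc p.1 p.2}

/-- the representation of the entries of the constrained-minimum matrix -/
def Entries (m n : ℕ) (inc : Fin m → Fin n → Prop) (M w : ℝ) (s : Idx m n → ℝ)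
    (A : Idx m n → Idx m n → ℝ) (Ch c1 Ct err h0 : ℝ) : Prop :=
  ∃ h : Idx m n → Fin m → Fin n → ℝ,
    (∀ v i j, inc i j → (v = Sum.inl i ∨ v = Sum.inr j) → h0 ≤ h v i j) ∧
    (∀ v i j, |h v i j| ≤ Ch) ∧
    (∀ v i j, ¬ (inc i j ∧ (v = Sum.inl i ∨ v = Sum.inr j)) → h v i j = 0) ∧
    ∀ τ : ℝ, 0 < τ → ∃ θ : Fin m → Fin n → ℝ,
      (∀ i j, inc i j → c1 ^ 2 * w ^ 3 - τ ≤ θ i j ∧ θ i j ≤ Ct ^ 2 * w ^ 3 + τ) ∧
      (∀ i j, ¬ inc i j → θ i j = 0) ∧
      ∀ u v, |A u v - ((if u = v then (bar m n M s v).mu - E0 M else 0) -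
        ∑ i, ∑ j, h u i j * h v i j * θ i j)| ≤ err * w ^ 3 + τ

lemma sqrt_add_le_sum {V : Type*} [AddCommGroup V] [Module ℝ V] (B : V →ₗ[ℝ] V →ₗ[ℝ] ℝ)
    (hs : ∀ x y, B x y = B y x) (hp : ∀ x, 0 ≤ B x x) {ι : Type*} (t : Finset ι) (x : ι → V) :
    √(B (∑ i ∈ t, x i) (∑ i ∈ t, x i)) ≤ ∑ i ∈ t, √(B (x i) (x i)) := by
  classical
  induction t using Finset.induction_on with
  | empty => simp
  | insert a t ha ih =>
    rw [Finset.sum_insert ha, Finset.sum_insert ha]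
    set y := ∑ i ∈ t, x i
    have h1 := (abs_le.1 (cs_form B hs hp (x a) y)).2
    have h2 : √(B (x a + y) (x a + y)) ≤ √(B (x a) (x a)) + √(B y y) := by
      rw [Real.sqrt_le_left (by positivity)]
      simp only [map_add, LinearMap.add_apply]
      rw [hs y (x a), add_sq, Real.sq_sqrt (hp _), Real.sq_sqrt (hp _)]
      linarith
    linarith

/-- a bump in the kernel, at a window -/
lemma bump_K (hB : TaskBUMP) (hGEO : TaskGEO) (hGV : TaskGV) (hE : TaskEAPP)
    {m n : ℕ} {inc : Fin m → Fin n → Prop} {M : ℝ} (hM1 : 1 ≤ M) (hM2 : 2 * (m : ℝ) ≤ M)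
    (hM3 : 2 * (n : ℝ) ≤ M) : ∃ C : ℝ, 0 < C ∧ ∀ w : ℝ, 0 < w → w ≤ 1 / 8 → ∀ s : Idx m n → ℝ,
      (∀ v, |s v - 1 / 2| ≤ 1 / 4) → ∀ i j, inc i j →
      ∃ x, InK m n inc M w s x ∧ w ^ 2 ≤ C * win (ctr i j) w x ∧ En x ≤ C * w := by
  obtain ⟨Cb, hCb, hb⟩ := hB
  obtain ⟨Cg, hCg, hg⟩ := hGV m n M hM1
  set k : ℝ := (Fintype.card (Idx m n) : ℝ) with hk
  refine ⟨Cb + (√Cb + k * (√Cb * √Cg)) ^ 2, by positivity, fun w hw hw8 s hs i j hij => ?_⟩
  obtain ⟨φ, hφ, hφ1, hφ2, hφ3⟩ := hb (ctr i j) w hw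
  choose g hgD hgl hgC using hg s hs
  have hgeo := hGEO m n inc M w s hM1 hM2 hM3 hw hw8 hs
  have hdis := hgeo.2.2.1
  have hφO : φ ∈ Dc (Om m n inc M w s) := Dc_mono (cube_subset_Om hij) hφ
  let G : Idx m n → Dc (Om m n inc M w s) := fun v => ⟨g v, Dc_mono (bar_subset_Om v) (hgD v)⟩
  let F : Dc (Om m n inc M w s) := ⟨φ, hφO⟩
  let X : Dc (Om m n inc M w s) := F - ∑ v, (bar m n M s v).l φ • G v
  have hX : ∀ u, (bar m n M s u).l (X : P → ℝ) = 0 := by
    intro u
    have e : (bar m n M s u).l (X : P → ℝ) = lL (bar m n M s u) _ X := rfl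
    rw [e]
    simp only [X]
    rw [map_sub, map_sum, Finset.sum_eq_single u]
    · rw [map_smul]
      change (bar m n M s u).l φ - (bar m n M s u).l φ • (bar m n M s u).l (g u) = 0
      rw [hgl u]; simp
    · intro v _ hvu
      rw [map_smul]
      change (bar m n M s v).l φ • (bar m n M s u).l (g v) = 0
      rw [l_zero_of_disjoint (hdis u v (Ne.symm hvu)) (hgD v)]; simp
    · intro h; exact absurd (Finset.mem_univ u) h
  have hwinG : ∀ v, win (ctr i j) w (g v) = 0 := by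
    intro v
    simp only [win]
    refine integral_eq_zero_of_ae (Filter.Eventually.of_forall fun q => ?_)
    simp only [Pi.zero_apply]
    refine Dc_zero_of_notMem (hgD v) fun h => ?_
    rcases v with a | b
    · have := h.2.2.2
      simp [bar, ctr] at this
    · have := h.2.2.1
      simp [bar, ctr] at this
  have hwin : win (ctr i j) w (X : P → ℝ) = win (ctr i j) w φ := by
    have e : win (ctr i j) w (X : P → ℝ) = winL (ctr i j) w _ X := rfl
    rw [e]
    simp only [X]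
    rw [map_sub, map_sum, Finset.sum_eq_zero, sub_zero]
    · rfl
    · intro v _
      rw [map_smul]
      change (bar m n M s v).l φ • win (ctr i j) w (g v) = 0
      rw [hwinG]; simp
  have hsym : ∀ x y, EbL (Om m n inc M w s) x y = EbL (Om m n inc M w s) y x :=
    fun x y => Eb_comm _ _
  have hpos : ∀ x, 0 ≤ EbL (Om m n inc M w s) x x := fun x => En_nonneg _
  have hEn : √(En (X : P → ℝ)) ≤ √(En φ) + ∑ v, |(bar m n M s v).l φ| * √(En (g v)) := by
    let x : Option (Idx m n) → Dc (Om m n inc M w s) := fun o => match o with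
      | none => F
      | some v => (-(bar m n M s v).l φ) • G v
    have h := sqrt_add_le_sum (EbL (Om m n inc M w s)) hsym hpos Finset.univ x
    have e1 : ∑ o, x o = X := by
      rw [Fintype.sum_option]
      simp only [x, X]
      rw [sub_eq_add_neg, ← Finset.sum_neg_distrib]
      congr 1
      refine Finset.sum_congr rfl fun v _ => ?_
      exact neg_smul ((bar m n M s v).l φ) (G v)
    rw [e1, Fintype.sum_option] at h
    refine h.trans (le_of_eq ?_)
    congr 1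
    refine Finset.sum_congr rfl fun v _ => ?_
    have e2 : EbL (Om m n inc M w s) (x (some v)) (x (some v)) =
        ((bar m n M s v).l φ) ^ 2 * En (g v) := by
      simp only [x, map_smul, LinearMap.smul_apply, smul_eq_mul]
      change -(bar m n M s v).l φ * (-(bar m n M s v).l φ * En (g v)) = _
      ring
    rw [e2, Real.sqrt_mul (sq_nonneg _), Real.sqrt_sq_eq_abs]
  have hl : ∀ v, |(bar m n M s v).l φ| ≤ √(Cb * w ^ 3) := fun v => by
    obtain ⟨h1, h2, h3⟩ := bar_nondeg hM1 hs v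
    exact (abs_l_le hE h1 h2 h3 (Dc_univ hφ)).trans (Real.sqrt_le_sqrt hφ3)
  have hsw : √(Cb * w ^ 3) ≤ √Cb * √w := by
    rw [← Real.sqrt_mul hCb.le]
    refine Real.sqrt_le_sqrt (mul_le_mul_of_nonneg_left ?_ hCb.le)
    have : w ^ 2 ≤ 1 := by nlinarith
    nlinarith
  have hEn2 : √(En (X : P → ℝ)) ≤ (√Cb + k * (√Cb * √Cg)) * √w := by
    have a1 : √(En φ) ≤ √Cb * √w := by
      rw [← Real.sqrt_mul hCb.le]; exact Real.sqrt_le_sqrt hφ2
    have a2 : ∑ v, |(bar m n M s v).l φ| * √(En (g v)) ≤ ∑ _v : Idx m n, √Cb * √w * √Cg := by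
      refine Finset.sum_le_sum fun v _ => ?_
      refine mul_le_mul ((hl v).trans hsw) (Real.sqrt_le_sqrt ?_) (Real.sqrt_nonneg _) (by positivity)
      linarith [hgC v, Ms_nonneg (g v)]
    rw [Finset.sum_const, Finset.card_univ, nsmul_eq_mul] at a2
    rw [hk]
    nlinarith
  refine ⟨X, ⟨X.2, hX⟩, ?_, ?_⟩
  · rw [hwin]
    have hwp : 0 ≤ win (ctr i j) w φ := by
      by_contra hneg
      push Not at hneg
      nlinarith [sq_nonneg w, mul_neg_of_pos_of_neg hCb hneg]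
    have hq : 0 ≤ (√Cb + k * (√Cb * √Cg)) ^ 2 := by positivity
    nlinarith [mul_nonneg hq hwp]
  · have h0 := En_nonneg (X : P → ℝ)
    have : En (X : P → ℝ) ≤ ((√Cb + k * (√Cb * √Cg)) * √w) ^ 2 := by
      have h := Real.sq_sqrt h0
      rw [← h]
      exact pow_le_pow_left₀ (Real.sqrt_nonneg _) hEn2 2
    rw [mul_pow, Real.sq_sqrt hw.le] at this
    nlinarith

end Pool.Agent.H456R3.Mult
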