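import Pool.Agent.H456R3.Mult.Asm2

/-! Assembly, part 3: the entries (project H456-MULT). -/

open MeasureTheory Set
open scoped ContDiff

set_option autoImplicit false

noncomputable section

namespace Pool.Agent.H456R3.Mult

lemma sum_Wn {m n : ℕ} {inc : Fin m → Fin n → Prop} [Fintype (Wn inc)] (F : Fin m → Fin n → ℝ)
    (h0 : ∀ i j, ¬ inc i j → F i j = 0) :
    ∑ W : Wn inc, F W.1.1 W.1.2 = ∑ i, ∑ j, F i j := by
  classical
  rw [← Fintype.sum_prod_type' (f := F)]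
  rw [← Finset.sum_subset (Finset.subset_univ (Finset.univ.filter
    (fun p : Fin m × Fin n => inc p.1 p.2)))]
  · exact (Finset.sum_subtype _ (by simp) (fun p : Fin m × Fin n => F p.1 p.2)).symm
  · intro p _ hp
    exact h0 _ _ (by simpa using hp)

lemma E0_pos (M : ℝ) : 0 < E0 M := by
  unfold E0; positivity

/-- trace bound for functions of the domain -/
lemma win_bound (hT : TaskTRACE) (hGEO : TaskGEO)
    {m n : ℕ} {inc : Fin m → Fin n → Prop} {M : ℝ} (hM1 : 1 ≤ M) (hM2 : 2 * (m : ℝ) ≤ M)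
    (hM3 : 2 * (n : ℝ) ≤ M) {w : ℝ} (hw : 0 < w) (hw8 : w ≤ 1 / 8) {s : Idx m n → ℝ}
    (hs : ∀ v, |s v - 1 / 2| ≤ 1 / 4) (i : Fin m) (j : Fin n) {f : P → ℝ}
    (hf : f ∈ Dc (Om m n inc M w s)) :
    |win (ctr i j) w f| ≤ 8 * (w * √w) * √(En f) := by
  have hgeo := (hGEO m n inc M w s hM1 hM2 hM3 hw hw8 hs).2.2.2.2.2.1
  have h1 := hT f (Dc_univ hf) (ctr i j) w hw (fun x y hx hx' hy => by
    refine Dc_zero_of_notMem hf ?_
    refine hgeo i j x y hx ?_ ?_
    · refine hx'.trans ?_; linarith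
    · refine hy.trans ?_; linarith)
  have h2 : |win (ctr i j) w f| ≤ ∫ q in Ioo ((ctr i j).1 - w) ((ctr i j).1 + w) ×ˢ
      Ioo ((ctr i j).2.1 - w) ((ctr i j).2.1 + w), |f (q.1, q.2, (ctr i j).2.2)| :=
    abs_integral_le_integral_abs
  refine h2.trans (h1.trans ?_)
  refine mul_le_mul_of_nonneg_left (Real.sqrt_le_sqrt ?_) (by positivity)
  exact setIntegral_le_integral (int_gb hf hf.1) (Filter.Eventually.of_forall fun p =>
    gb_self_nonneg f p)

lemma entries (hA2 : TaskABS2) (hA3 : TaskABS3) (hGEO : TaskGEO) (hGV : TaskGV)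
    (hE : TaskEAPP) (hB : TaskBUMP) (hT : TaskTRACE) (hG : TaskGREEN) (hCUT : TaskCUT)
    (hPO : TaskPOINC) (hF : TaskFAR)
    {m n : ℕ} {inc : Fin m → Fin n → Prop} {M : ℝ} (hM1 : 1 ≤ M) (hM2 : 2 * (m : ℝ) ≤ M)
    (hM3 : 2 * (n : ℝ) ≤ M) {δ0 w0 γ C : ℝ} (hC : Coer m n inc M δ0 w0 γ C) :
    ∃ Ch c1 h0 : ℝ, 0 < Ch ∧ 0 < c1 ∧ 0 < h0 ∧ ∀ ε : ℝ, 0 < ε → ∃ w1 : ℝ, 0 < w1 ∧ w1 ≤ w0 ∧
      ∀ w : ℝ, 0 < w → w ≤ w1 → ∀ s : Idx m n → ℝ, (∀ v, |s v - 1 / 2| ≤ δ0) →
      ∀ A, IsMat m n inc M w s A → Entries m n inc M w s A Ch c1 Ch ε h0 := by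
  classical
  have hFAR := hF hCUT hPO hT hG hE hGEO m n inc M hM1 hM2 hM3 δ0 w0 γ C hC
  obtain ⟨hδ0, hδ04, hw0, hw08, hγ, hCp, hco⟩ := hC
  obtain ⟨Cg, h0, hCg, hh0, hgreen⟩ := hG m n inc M hM1 hM2 hM3
  obtain ⟨Cb, hCb, hbump⟩ := bump_K hB hGEO hGV hE (inc := inc) hM1 hM2 hM3
  have hsγ : 0 < √γ := Real.sqrt_pos.2 hγ
  set CC : ℝ := Cg + 8 / √γ with hCC
  have hCCp : 0 < CC := by positivity
  set c1 : ℝ := 1 / (Cb * √Cb) with hc1
  have hc1p : 0 < c1 := by positivity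
  set k : ℝ := (Fintype.card (Wn inc) : ℝ) with hk
  have hk0 : 0 ≤ k := by positivity
  set K' : ℝ := (k ^ 2 + 2 * k + 1) * (CC ^ 2 + 1) with hK'
  have hK'p : 0 < K' := by positivity
  refine ⟨CC, c1, h0, hCCp, hc1p, hh0, fun ε hε => ?_⟩
  obtain ⟨wf, hwf, hwf0, hfar⟩ := hFAR (ε / (2 * K')) (by positivity)
  refine ⟨min wf (min (√γ / Cg) (√γ / Cg * (ε / (2 * K')))), by positivity,
    (min_le_left _ _).trans hwf0, fun w hw hww s hs A hA => ?_⟩
  have hw1 : w ≤ wf := hww.trans (min_le_left _ _)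
  have hw2 : w ≤ √γ / Cg := hww.trans ((min_le_right _ _).trans (min_le_left _ _))
  have hw3 : w ≤ √γ / Cg * (ε / (2 * K')) := hww.trans ((min_le_right _ _).trans (min_le_right _ _))
  have hw0' : w ≤ w0 := hw1.trans hwf0
  have hw8 : w ≤ 1 / 8 := hw0'.trans hw08
  have hs4 : ∀ v, |s v - 1 / 2| ≤ 1 / 4 := fun v => (hs v).trans hδ04
  set Ω := Om m n inc M w s with hΩ
  obtain ⟨h, hh1, hh2, hh3, hh4⟩ := hgreen w hw hw8 s hs4
  have hgeo := hGEO m n inc M w s hM1 hM2 hM3 hw hw8 hs4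
  have hdis := hgeo.2.2.1
  -- coercivity on the kernel
  have hker : ∀ f, InK m n inc M w s f → γ * (En f + Ms f) ≤ BE M f f := by
    intro f hf
    have := hco w hw hw0' s hs f hf.1
    have e : ∑ v, ((bar m n M s v).l f) ^ 2 = 0 := Finset.sum_eq_zero fun v _ => by
      rw [hf.2 v]; ring
    rw [e, mul_zero, add_zero] at this
    exact this
  have hBpos : ∀ f, InK m n inc M w s f → 0 ≤ BE M f f := fun f hf =>
    (mul_nonneg hγ.le (add_nonneg (En_nonneg f) (Ms_nonneg f))).trans (hker f hf)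
  have hEnB : ∀ f, InK m n inc M w s f → √(En f) ≤ √(BE M f f) / √γ := by
    intro f hf
    rw [← Real.sqrt_div (hBpos f hf)]
    refine Real.sqrt_le_sqrt ?_
    rw [le_div_iff₀ hγ]
    nlinarith [hker f hf, Ms_nonneg f]
  have hMsB : ∀ f, InK m n inc M w s f → √(Ms f) ≤ √(BE M f f) / √γ := by
    intro f hf
    rw [← Real.sqrt_div (hBpos f hf)]
    refine Real.sqrt_le_sqrt ?_
    rw [le_div_iff₀ hγ]
    nlinarith [hker f hf, En_nonneg f]
  set Aw : ℝ := w * √w with hAw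
  have hAwp : 0 < Aw := by positivity
  have hAw2 : Aw ^ 2 = w ^ 3 := by
    rw [hAw, mul_pow, Real.sq_sqrt hw.le]; ring
  set η : ℝ := Cg * w / √γ with hη
  have hη0 : 0 ≤ η := by positivity
  have hη1 : η ≤ 1 := by
    rw [hη, div_le_one hsγ]
    calc Cg * w ≤ Cg * (√γ / Cg) := mul_le_mul_of_nonneg_left hw2 hCg.le
      _ = √γ := by field_simp
  have hη2 : η ≤ ε / (2 * K') := by
    rw [hη, div_le_iff₀ hsγ]
    calc Cg * w ≤ Cg * (√γ / Cg * (ε / (2 * K'))) := mul_le_mul_of_nonneg_left hw3 hCg.le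
      _ = ε / (2 * K') * √γ := by field_simp
  obtain ⟨δ1, hδ1, hfar1⟩ := hfar w hw hw1 s hs
  -- apply ABS2
  have habs := hA2 (KS m n inc M w s) inferInstance inferInstance (BK m n inc M w s)
    (fun x y => by simp only [BK_apply]; exact BE_comm M _ _)
    (fun x => by simp only [BK_apply]; exact hBpos _ (KS_inK x))
    (Idx m n) (Wn inc) inferInstance inferInstance
    (fun v => (LL (bar m n M s v) Ω).comp (KS m n inc M w s).subtype)
    (fun W => (winL (ctr W.1.1 W.1.2) w Ω).comp (KS m n inc M w s).subtype)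
    (fun v W => h v W.1.1 W.1.2) CC Aw η (ε / (2 * K')) c1 hCCp hAwp hη0 hη1 (by positivity) hc1p
    (fun v W => (hh2 v _ _).trans (by rw [hCC]; linarith [show 0 < 8 / √γ by positivity]))
    (fun W x => by
      have h1 := win_bound hT hGEO (inc := inc) hM1 hM2 hM3 hw hw8 hs4 W.1.1 W.1.2 x.1.2
      have h2 := hEnB _ (KS_inK x)
      simp only [BK_apply]
      change |win (ctr W.1.1 W.1.2) w (x.1 : P → ℝ)| ≤ _
      refine h1.trans ?_
      calc 8 * (w * √w) * √(En (x.1 : P → ℝ))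
          ≤ 8 * Aw * (√(BE M (x.1 : P → ℝ) (x.1 : P → ℝ)) / √γ) :=
            mul_le_mul_of_nonneg_left h2 (by positivity)
        _ = 8 / √γ * Aw * √(BE M (x.1 : P → ℝ) (x.1 : P → ℝ)) := by ring
        _ ≤ CC * Aw * √(BE M (x.1 : P → ℝ) (x.1 : P → ℝ)) := by
            refine mul_le_mul_of_nonneg_right (mul_le_mul_of_nonneg_right ?_ hAwp.le)
              (Real.sqrt_nonneg _)
            rw [hCC]; linarith)
    (fun v x => by
      have h1 := hh4 v x.1 x.1.2
      have h2 := hEnB _ (KS_inK x)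
      simp only [BK_apply]
      change |(bar m n M s v).L (x.1 : P → ℝ) - ∑ W : Wn inc, h v W.1.1 W.1.2 *
        win (ctr W.1.1 W.1.2) w (x.1 : P → ℝ)| ≤ _
      rw [sum_Wn (fun i j => h v i j * win (ctr i j) w (x.1 : P → ℝ)) (fun i j hij => by
        rw [hh3 v i j (fun hc => hij hc.1), zero_mul])]
      refine h1.trans ?_
      calc Cg * w * (w * √w) * √(En (x.1 : P → ℝ))
          ≤ Cg * w * Aw * (√(BE M (x.1 : P → ℝ) (x.1 : P → ℝ)) / √γ) :=
            mul_le_mul_of_nonneg_left h2 (by positivity)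
        _ = η * Aw * √(BE M (x.1 : P → ℝ) (x.1 : P → ℝ)) := by rw [hη]; ring)
    (fun W => by
      obtain ⟨x, hx, hx1, hx2⟩ := hbump w hw hw8 s hs4 W.1.1 W.1.2 W.2
      have hwin : 0 < win (ctr W.1.1 W.1.2) w x := by
        by_contra hneg
        push Not at hneg
        nlinarith [pow_pos hw 2, mul_nonneg hCb.le (neg_nonneg.2 hneg)]
      have hb := win_bound hT hGEO (inc := inc) hM1 hM2 hM3 hw hw8 hs4 W.1.1 W.1.2 hx.1
      have h2 := hEnB _ hx
      refine ⟨⟨⟨x, hx.1⟩, inK_KS hx⟩, ?_, ?_⟩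
      · simp only [BK_apply]
        by_contra hneg
        push Not at hneg
        have e0 : √(BE M x x) = 0 := Real.sqrt_eq_zero_of_nonpos hneg
        rw [e0, zero_div] at h2
        have : √(En x) = 0 := le_antisymm h2 (Real.sqrt_nonneg _)
        rw [this, mul_zero] at hb
        have := abs_nonneg (win (ctr W.1.1 W.1.2) w x)
        have e1 : win (ctr W.1.1 W.1.2) w x = 0 := abs_eq_zero.1 (le_antisymm hb this)
        linarith
      · simp only [BK_apply]
        change c1 * Aw * √(BE M x x) ≤ win (ctr W.1.1 W.1.2) w x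
        have hBE : BE M x x ≤ Cb * w := by
          have : BE M x x = En x - E0 M * Ms x := rfl
          nlinarith [mul_nonneg (E0_pos M).le (Ms_nonneg x)]
        have h3 : √(BE M x x) ≤ √Cb * √w := by
          rw [← Real.sqrt_mul hCb.le]; exact Real.sqrt_le_sqrt hBE
        have h4 : c1 * Aw * √(BE M x x) ≤ c1 * Aw * (√Cb * √w) :=
          mul_le_mul_of_nonneg_left h3 (by positivity)
        have h5 : c1 * Aw * (√Cb * √w) = w ^ 2 / Cb := by
          rw [hc1, hAw]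
          have hsw : √w * √w = w := Real.mul_self_sqrt hw.le
          have hsc : √Cb ≠ 0 := (Real.sqrt_pos.2 hCb).ne'
          field_simp
          nlinarith
        rw [h5] at h4
        refine h4.trans ?_
        rw [div_le_iff₀ hCb]; linarith)
    ⟨δ1, hδ1, fun W W' hWW φ hφ => by
      have := hfar1 W.1.1 W'.1.1 W.1.2 W'.1.2 W.2 W'.2
        (fun hc => hWW (Subtype.ext (Prod.ext (by simpa using congrArg Prod.fst hc)
          (by simpa using congrArg Prod.snd hc)))) φ.1 (KS_inK φ) (fun ψ hψ => by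
          have := hφ ⟨⟨ψ, hψ.1⟩, inK_KS hψ⟩
          simp only [BK_apply] at this
          exact this)
      rw [hAw2]
      exact this⟩
  -- the representation
  refine ⟨h, hh1, fun v i j => (hh2 v i j).trans (by
    rw [hCC]; linarith [show 0 < 8 / √γ by positivity]), hh3, fun τ hτ => ?_⟩
  set R : ℝ := k * (CC ^ 2 * (CC ^ 2 + 1)) + ε + 1 with hR
  have hRp : 0 < R := by positivity
  set τ' : ℝ := min 1 (τ / (6 + 4 * √R)) with hτ'
  have hτ'p : 0 < τ' := by positivity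
  have hτ'1 : τ' ≤ 1 := min_le_left _ _
  have hτ'2 : τ' * (6 + 4 * √R) ≤ τ := by
    calc τ' * (6 + 4 * √R) ≤ τ / (6 + 4 * √R) * (6 + 4 * √R) :=
          mul_le_mul_of_nonneg_right (min_le_right _ _) (by positivity)
      _ = τ := by field_simp
  obtain ⟨φ, hφ1, θ', hθ1, hφ2⟩ := habs τ' hτ'p
  have hE0 := E0_pos M
  set ε' : ℝ := min (τ' * √γ / (1 + E0 M)) (τ' / (1 + E0 M)) with hε'
  have hε'p : 0 < ε' := by positivity
  have hε'1 : ε' * (1 + E0 M) ≤ τ' * √γ := by
    calc ε' * (1 + E0 M) ≤ τ' * √γ / (1 + E0 M) * (1 + E0 M) :=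
          mul_le_mul_of_nonneg_right (min_le_left _ _) (by positivity)
      _ = τ' * √γ := by field_simp
  have hε'2 : ε' * (1 + E0 M) ≤ τ' := by
    calc ε' * (1 + E0 M) ≤ τ' / (1 + E0 M) * (1 + E0 M) :=
          mul_le_mul_of_nonneg_right (min_le_right _ _) (by positivity)
      _ = τ' := by field_simp
  have hgex : ∀ v, ∃ g ∈ Dc (bar m n M s v).set, (bar m n M s v).l g = 1 ∧ |Ms g - 1| ≤ ε' ∧
      |En g - (bar m n M s v).mu| ≤ ε' ∧
      ∀ f ∈ Dc univ, |Eb g f - ∫ p in (bar m n M s v).set, gb (bar m n M s v).ef f p| ≤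
        ε' * √(En f) ∧ |Mb g f - (bar m n M s v).l f| ≤ ε' * √(Ms f) := by
    intro v
    obtain ⟨h1, h2, h3⟩ := bar_nondeg hM1 hs4 v
    exact hE (bar m n M s v) h1 h2 h3 ε' hε'p
  choose g hgD hgl hg1 hg2 hg3 using hgex
  let G : Idx m n → Dc Ω := fun v => ⟨g v, Dc_mono (bar_subset_Om v) (hgD v)⟩
  -- `B(g_v, x) ≈ - L_v x` on the kernel
  have hgL : ∀ v, ∀ f, InK m n inc M w s f →
      |BE M (g v) f + (bar m n M s v).L f| ≤ τ' * √(BE M f f) := by
    intro v f hf
    have h1 := (hg3 v f (Dc_univ hf.1)).1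
    have h2 := (hg3 v f (Dc_univ hf.1)).2
    have h3 := hf.2 v
    have e : BE M (g v) f + (bar m n M s v).L f =
        (Eb (g v) f - ∫ p in (bar m n M s v).set, gb (bar m n M s v).ef f p) -
        E0 M * (Mb (g v) f - (bar m n M s v).l f) := by
      simp only [BE, Box.L, h3]; ring
    rw [e]
    refine (abs_sub _ _).trans ?_
    rw [abs_mul, abs_of_pos hE0]
    have h4 := hEnB f hf
    have h5 := hMsB f hf
    calc |Eb (g v) f - ∫ p in (bar m n M s v).set, gb (bar m n M s v).ef f p| +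
          E0 M * |Mb (g v) f - (bar m n M s v).l f|
        ≤ ε' * (√(BE M f f) / √γ) + E0 M * (ε' * (√(BE M f f) / √γ)) := by
          refine add_le_add (h1.trans (mul_le_mul_of_nonneg_left h4 hε'p.le))
            (mul_le_mul_of_nonneg_left (h2.trans (mul_le_mul_of_nonneg_left h5 hε'p.le)) hE0.le)
      _ = ε' * (1 + E0 M) / √γ * √(BE M f f) := by ring
      _ ≤ τ' * √(BE M f f) := by
          refine mul_le_mul_of_nonneg_right ?_ (Real.sqrt_nonneg _)
          rw [div_le_iff₀ hsγ]; exact hε'1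
  have hφL : ∀ v, ∀ f, InK m n inc M w s f →
      |BE M ((φ v).1 : P → ℝ) f - (bar m n M s v).L f| ≤ τ' * √(BE M f f) := by
    intro v f hf
    have := hφ1 v ⟨⟨f, hf.1⟩, inK_KS hf⟩
    simp only [BK_apply] at this
    exact this
  -- ABS3
  have hBL : ∀ x y : Dc Ω, BEL M Ω x y = BE M (x : P → ℝ) (y : P → ℝ) := fun x y => BEL_apply x y
  have habs3 := hA3 (Idx m n) inferInstance inferInstance (Dc Ω) inferInstance inferInstance
    (BEL M Ω) (ellL m n inc M w s) (fun x y => by rw [hBL, hBL]; exact BE_comm M _ _)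
    (fun x hx => by
      rw [hBL]
      refine hBpos _ ⟨x.2, fun v => ?_⟩
      have := congrFun hx v
      exact this)
    A hA.1 (fun x => by rw [hBL]; exact hA.2.1 x x.2)
    (fun c ε hε => by
      obtain ⟨f, hf, hf1, hf2⟩ := hA.2.2 c ε hε
      refine ⟨⟨f, hf⟩, ?_, by rw [hBL]; exact hf2⟩
      funext v; exact hf1 v)
    (2 * τ') (by positivity) (fun v => G v + (φ v).1)
    (fun v => by
      rw [map_add]
      have e1 : ellL m n inc M w s (φ v).1 = 0 := (φ v).2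
      rw [e1, add_zero]
      funext u
      rw [ellL_apply]
      change (bar m n M s u).l (g v) = _
      by_cases huv : u = v
      · subst huv; rw [hgl]; simp
      · rw [l_zero_of_disjoint (hdis u v huv) (hgD v)]
        simp [Pi.single_apply, huv])
    (fun v x hx => by
      have hxK : InK m n inc M w s (x : P → ℝ) := ⟨x.2, fun u => by
        have := congrFun hx u
        exact this⟩
      rw [map_add, LinearMap.add_apply, hBL, hBL, hBL]
      have h1 := hgL v x hxK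
      have h2 := hφL v x hxK
      change |BE M (g v) x + BE M ((φ v).1 : P → ℝ) x| ≤ _
      have e : BE M (g v) x + BE M ((φ v).1 : P → ℝ) x =
        (BE M (g v) x + (bar m n M s v).L x) +
          (BE M ((φ v).1 : P → ℝ) x - (bar m n M s v).L x) := by ring
      rw [e]
      refine (abs_add_le _ _).trans ?_
      linarith)
  -- bound of `B(φ_v, φ_v)`
  set θ : Fin m → Fin n → ℝ := fun i j => if hij : inc i j then θ' ⟨(i, j), hij⟩ else 0 with hθ
  have hθW : ∀ W : Wn inc, θ W.1.1 W.1.2 = θ' W := by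
    intro W
    simp only [hθ]
    rw [dif_pos W.2]
  have hsumθ : ∀ u v, ∑ W : Wn inc, h u W.1.1 W.1.2 * h v W.1.1 W.1.2 * θ' W =
      ∑ i, ∑ j, h u i j * h v i j * θ i j := by
    intro u v
    rw [← sum_Wn (inc := inc) (fun i j => h u i j * h v i j * θ i j) (fun i j hij => by
      rw [hh3 u i j (fun hc => hij hc.1)]; ring)]
    refine Finset.sum_congr rfl fun W _ => ?_
    rw [hθW]
  have hw31 : w ^ 3 ≤ 1 := by
    have : w ≤ 1 := by linarith
    exact pow_le_one₀ hw.le this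
  have herr : K' * (η + ε / (2 * K')) ≤ ε := by
    calc K' * (η + ε / (2 * K')) ≤ K' * (ε / (2 * K') + ε / (2 * K')) :=
          mul_le_mul_of_nonneg_left (by linarith) hK'p.le
      _ = ε := by field_simp; ring
  have hφ2' : ∀ u v, |BE M ((φ u).1 : P → ℝ) ((φ v).1 : P → ℝ) -
      ∑ W : Wn inc, h u W.1.1 W.1.2 * h v W.1.1 W.1.2 * θ' W| ≤ ε * w ^ 3 + τ' := by
    intro u v
    have := hφ2 u v
    simp only [BK_apply] at this
    rw [hAw2] at this
    refine this.trans ?_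
    have h1 : (k ^ 2 + 2 * k + 1) * (CC ^ 2 + 1) * (η + ε / (2 * K')) * w ^ 3 ≤ ε * w ^ 3 :=
      mul_le_mul_of_nonneg_right herr (by positivity)
    linarith
  have hθabs : ∀ W, |θ' W| ≤ CC ^ 2 + 1 := by
    intro W
    obtain ⟨h1, h2⟩ := hθ1 W
    rw [hAw2] at h1 h2
    rw [abs_le]
    have : CC ^ 2 * w ^ 3 ≤ CC ^ 2 := by nlinarith [sq_nonneg CC]
    constructor
    · have : 0 ≤ c1 ^ 2 * w ^ 3 := by positivity
      nlinarith [sq_nonneg CC]
    · linarith
  have hBφ : ∀ v, BE M ((φ v).1 : P → ℝ) ((φ v).1 : P → ℝ) ≤ R := by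
    intro v
    have h1 := (abs_le.1 (hφ2' v v)).2
    have h2 : ∑ W : Wn inc, h v W.1.1 W.1.2 * h v W.1.1 W.1.2 * θ' W ≤
        ∑ _W : Wn inc, CC ^ 2 * (CC ^ 2 + 1) := by
      refine Finset.sum_le_sum fun W _ => ?_
      refine (le_abs_self _).trans ?_
      rw [abs_mul, abs_mul]
      have a1 : |h v W.1.1 W.1.2| ≤ CC := (hh2 v _ _).trans (by
        rw [hCC]; linarith [show 0 < 8 / √γ by positivity])
      have a2 : |h v W.1.1 W.1.2| * |h v W.1.1 W.1.2| ≤ CC ^ 2 := by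
        rw [pow_two]; exact mul_le_mul a1 a1 (abs_nonneg _) hCCp.le
      exact mul_le_mul a2 (hθabs W) (abs_nonneg _) (by positivity)
    rw [Finset.sum_const, Finset.card_univ, nsmul_eq_mul] at h2
    rw [hR, hk]
    nlinarith
  have hsB : ∀ v, √(BE M ((φ v).1 : P → ℝ) ((φ v).1 : P → ℝ)) ≤ √R := fun v =>
    Real.sqrt_le_sqrt (hBφ v)
  refine ⟨θ, fun i j hij => ?_, fun i j hij => by simp only [hθ]; rw [dif_neg hij],
    fun u v => ?_⟩
  · have h1 := hθ1 ⟨(i, j), hij⟩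
    rw [hAw2] at h1
    simp only [hθ]
    rw [dif_pos hij]
    have hττ : τ' ≤ τ := by
      have : 0 ≤ √R := Real.sqrt_nonneg _
      nlinarith
    constructor <;> linarith [h1.1, h1.2]
  · have h1 := habs3 u v
    rw [← hsumθ u v]
    have hexp : BEL M Ω (G u + (φ u).1) (G v + (φ v).1) =
        BE M (g u) (g v) + BE M (g u) ((φ v).1 : P → ℝ) + BE M (g v) ((φ u).1 : P → ℝ) +
          BE M ((φ u).1 : P → ℝ) ((φ v).1 : P → ℝ) := by
      simp only [map_add, LinearMap.add_apply, hBL]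
      change BE M (g u) (g v) + BE M ((φ u).1 : P → ℝ) (g v) +
        (BE M (g u) ((φ v).1 : P → ℝ) + BE M ((φ u).1 : P → ℝ) ((φ v).1 : P → ℝ)) = _
      rw [BE_comm M ((φ u).1 : P → ℝ) (g v)]; ring
    rw [hexp] at h1
    have h2 := hgL u _ (KS_inK (φ v))
    have h3 := hφL u _ (KS_inK (φ v))
    have h4 := hgL v _ (KS_inK (φ u))
    have h5 := hφL v _ (KS_inK (φ u))
    rw [BE_comm M ((φ v).1 : P → ℝ)] at h5
    have h6 := hφ2' u v
    have h7 : |BE M (g u) (g v) - (if u = v then (bar m n M s v).mu - E0 M else 0)| ≤ τ' := by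
      by_cases huv : u = v
      · subst huv
        rw [if_pos rfl]
        have a1 := hg1 u
        have a2 := hg2 u
        have e : BE M (g u) (g u) - ((bar m n M s u).mu - E0 M) =
          (En (g u) - (bar m n M s u).mu) - E0 M * (Ms (g u) - 1) := by
          simp only [BE, En, Ms]; ring
        rw [e]
        refine (abs_sub _ _).trans ?_
        rw [abs_mul, abs_of_pos hE0]
        nlinarith [mul_le_mul_of_nonneg_left a1 hE0.le]
      · rw [if_neg huv, BE_zero_of_disjoint (hdis u v huv) M (hgD u) (hgD v)]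
        simpa using hτ'p.le
    have s1 := mul_le_mul_of_nonneg_left (hsB v) hτ'p.le
    have s2 := mul_le_mul_of_nonneg_left (hsB u) hτ'p.le
    have s3 : (2 * τ') ^ 2 ≤ 4 * τ' := by nlinarith
    rw [abs_le] at h1 h2 h3 h4 h5 h6 h7 ⊢
    have s4 : τ' * (6 + 4 * √R) = 6 * τ' + 4 * (τ' * √R) := by ring
    rw [s4] at hτ'2
    constructor <;> linarith [h1.1, h1.2, h2.1, h2.2, h3.1, h3.2, h4.1, h4.2, h5.1, h5.2, h6.1,
      h6.2, h7.1, h7.2, hτ'2]

end Pool.Agent.H456R3.Mult
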