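import Pool.Agent.H456R3.Mult.Asm2

/-! Assembly, part 4: consequences of `Entries`, continuity (project H456-MULT). -/

open MeasureTheory Set
open scoped ContDiff

set_option autoImplicit false

noncomputable section

namespace Pool.Agent.H456R3.Mult

lemma E0_pos' (M : ℝ) : 0 < E0 M := by
  unfold E0; positivity

section
variable {m n : ℕ} {inc : Fin m → Fin n → Prop} {M w : ℝ} {s : Idx m n → ℝ}
  {A : Idx m n → Idx m n → ℝ} {Ch c1 ε h0 : ℝ}

lemma entries_abs (hw : 0 < w) (hc1 : 0 < c1) (hCh : 0 < Ch) (hε : 0 ≤ ε)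
    (h : Entries m n inc M w s A Ch c1 Ch ε h0) (u v : Idx m n) :
    |(if u = v then (bar m n M s v).mu - E0 M else 0) - A u v| ≤
      ((m : ℝ) * n * Ch ^ 4 + ε) * w ^ 3 := by
  obtain ⟨h', hh1, hh2, hh3, hτ⟩ := h
  have hw3 : 0 < w ^ 3 := by positivity
  refine le_of_forall_pos_le_add fun t ht => ?_
  obtain ⟨θ, hθ1, hθ2, hθ3⟩ := hτ (t / (1 + (m : ℝ) * n * Ch ^ 2)) (by positivity)
  set τ := t / (1 + (m : ℝ) * n * Ch ^ 2) with hτd
  have hτp : 0 < τ := by positivity
  have hτe : τ * (1 + (m : ℝ) * n * Ch ^ 2) = t := by rw [hτd]; field_simp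
  have hθa : ∀ i j, |θ i j| ≤ Ch ^ 2 * w ^ 3 + τ := by
    intro i j
    by_cases hij : inc i j
    · have := hθ1 i j hij
      rw [abs_le]
      constructor
      · have : 0 ≤ c1 ^ 2 * w ^ 3 := by positivity
        have : 0 ≤ Ch ^ 2 * w ^ 3 := by positivity
        linarith [(hθ1 i j hij).1]
      · linarith
    · rw [hθ2 i j hij, abs_zero]; positivity
  have hS : |∑ i, ∑ j, h' u i j * h' v i j * θ i j| ≤
      (m : ℝ) * n * (Ch ^ 2 * (Ch ^ 2 * w ^ 3 + τ)) := by
    refine (Finset.abs_sum_le_sum_abs _ _).trans ?_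
    have h1 : ∀ i ∈ (Finset.univ : Finset (Fin m)), |∑ j, h' u i j * h' v i j * θ i j| ≤
        (n : ℝ) * (Ch ^ 2 * (Ch ^ 2 * w ^ 3 + τ)) := by
      intro i _
      refine (Finset.abs_sum_le_sum_abs _ _).trans ?_
      have h2 : ∀ j ∈ (Finset.univ : Finset (Fin n)), |h' u i j * h' v i j * θ i j| ≤
          Ch ^ 2 * (Ch ^ 2 * w ^ 3 + τ) := by
        intro j _
        rw [abs_mul, abs_mul]
        refine mul_le_mul ?_ (hθa i j) (abs_nonneg _) (by positivity)
        rw [pow_two]; exact mul_le_mul (hh2 u i j) (hh2 v i j) (abs_nonneg _) hCh.le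
      refine (Finset.sum_le_sum h2).trans ?_
      simp
    refine (Finset.sum_le_sum h1).trans ?_
    simp [mul_assoc]
  have h3 := hθ3 u v
  set S := ∑ i, ∑ j, h' u i j * h' v i j * θ i j
  set κ := (if u = v then (bar m n M s v).mu - E0 M else 0)
  have e1 : κ - A u v = -(A u v - (κ - S)) + S := by ring
  rw [e1]
  refine (abs_add_le _ _).trans ?_
  rw [abs_neg]
  nlinarith

lemma entries_off (hw : 0 < w) (h : Entries m n inc M w s A Ch c1 Ch ε h0)
    (u v : Idx m n) (huv : u ≠ v)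
    (hno : ∀ i j, inc i j → (u = Sum.inl i ∨ u = Sum.inr j) → (v = Sum.inl i ∨ v = Sum.inr j) →
      False) : |A u v| ≤ ε * w ^ 3 := by
  obtain ⟨h', hh1, hh2, hh3, hτ⟩ := h
  refine le_of_forall_pos_le_add fun t ht => ?_
  obtain ⟨θ, hθ1, hθ2, hθ3⟩ := hτ t ht
  have h3 := hθ3 u v
  have hS : ∑ i, ∑ j, h' u i j * h' v i j * θ i j = 0 := by
    refine Finset.sum_eq_zero fun i _ => Finset.sum_eq_zero fun j _ => ?_
    by_cases h1 : inc i j ∧ (u = Sum.inl i ∨ u = Sum.inr j)
    · by_cases h2 : inc i j ∧ (v = Sum.inl i ∨ v = Sum.inr j)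
      · exact (hno i j h1.1 h1.2 h2.2).elim
      · rw [hh3 v i j h2]; ring
    · rw [hh3 u i j h1]; ring
  rw [hS, if_neg huv] at h3
  simpa using h3

lemma entries_inc (hw : 0 < w) (hh0 : 0 < h0) (hc1 : 0 < c1)
    (h : Entries m n inc M w s A Ch c1 Ch ε h0)
    (i : Fin m) (j : Fin n) (hij : inc i j) :
    (h0 ^ 2 * c1 ^ 2 - ε) * w ^ 3 ≤ - A (Sum.inl i) (Sum.inr j) := by
  obtain ⟨h', hh1, hh2, hh3, hτ⟩ := h
  have hw3 : 0 < w ^ 3 := by positivity
  refine le_of_forall_pos_le_add fun t ht => ?_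
  set τ := min (t / (1 + h0 ^ 2)) (c1 ^ 2 * w ^ 3) with hτd
  have hτp : 0 < τ := by positivity
  have hτ1 : τ * (1 + h0 ^ 2) ≤ t := by
    calc τ * (1 + h0 ^ 2) ≤ t / (1 + h0 ^ 2) * (1 + h0 ^ 2) :=
          mul_le_mul_of_nonneg_right (min_le_left _ _) (by positivity)
      _ = t := by field_simp
  have hτ2 : τ ≤ c1 ^ 2 * w ^ 3 := min_le_right _ _
  obtain ⟨θ, hθ1, hθ2, hθ3⟩ := hτ τ hτp
  have h3 := hθ3 (Sum.inl i) (Sum.inr j)
  have hS : ∑ i', ∑ j', h' (Sum.inl i) i' j' * h' (Sum.inr j) i' j' * θ i' j' =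
      h' (Sum.inl i) i j * h' (Sum.inr j) i j * θ i j := by
    rw [Finset.sum_eq_single i, Finset.sum_eq_single j]
    · intro j' _ hj'
      rw [hh3 (Sum.inr j) i j' (fun hc => by
        rcases hc.2 with h | h
        · exact absurd h (by simp)
        · exact hj' (Sum.inr.inj h).symm)]
      ring
    · intro h; exact absurd (Finset.mem_univ _) h
    · intro i' _ hi'
      refine Finset.sum_eq_zero fun j' _ => ?_
      rw [hh3 (Sum.inl i) i' j' (fun hc => by
        rcases hc.2 with h | h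
        · exact hi' (Sum.inl.inj h).symm
        · exact absurd h (by simp))]
      ring
    · intro h; exact absurd (Finset.mem_univ _) h
  rw [hS, if_neg (by simp)] at h3
  have a1 := hh1 (Sum.inl i) i j hij (Or.inl rfl)
  have a2 := hh1 (Sum.inr j) i j hij (Or.inr rfl)
  have a3 := (hθ1 i j hij).1
  have a4 : h0 ^ 2 ≤ h' (Sum.inl i) i j * h' (Sum.inr j) i j := by
    rw [pow_two]; exact mul_le_mul a1 a2 hh0.le (hh0.le.trans a1)
  have a5 : h0 ^ 2 * (c1 ^ 2 * w ^ 3 - τ) ≤ h' (Sum.inl i) i j * h' (Sum.inr j) i j * θ i j :=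
    mul_le_mul a4 a3 (by linarith) ((sq_nonneg _).trans a4)
  have a6 := (abs_le.1 h3).2
  nlinarith
end

lemma quad_single {ι : Type} [Fintype ι] [DecidableEq ι] (A : ι → ι → ℝ)
    (hA : ∀ u v, A u v = A v u) (u v : ι) :
    quad A (fun x => (if x = u then 1 else 0) + (if x = v then (1 : ℝ) else 0)) =
      A u u + A v v + 2 * A u v := by
  simp only [quad]
  have : ∀ x y, A x y * ((if x = u then (1 : ℝ) else 0) + (if x = v then (1 : ℝ) else 0)) *
      ((if y = u then (1 : ℝ) else 0) + (if y = v then (1 : ℝ) else 0)) =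
      (if x = u then (if y = u then A x y else 0) else 0) +
      (if x = u then (if y = v then A x y else 0) else 0) +
      (if x = v then (if y = u then A x y else 0) else 0) +
      (if x = v then (if y = v then A x y else 0) else 0) := by
    intro x y
    split_ifs <;> ring
  simp only [this, Finset.sum_add_distrib]
  simp only [Finset.sum_ite_eq', Finset.mem_univ, if_true, Finset.sum_const_zero,
    Finset.sum_ite_irrel]
  rw [hA v u]; ring

lemma quad_single' {ι : Type} [Fintype ι] [DecidableEq ι] (A : ι → ι → ℝ) (u : ι) :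
    quad A (fun x => if x = u then (1 : ℝ) else 0) = A u u := by
  simp only [quad]
  have : ∀ x y, A x y * (if x = u then (1 : ℝ) else 0) * (if y = u then (1 : ℝ) else 0) =
      (if x = u then (if y = u then A x y else 0) else 0) := by
    intro x y
    split_ifs <;> ring
  simp only [this]
  simp only [Finset.sum_ite_eq', Finset.mem_univ, if_true, Finset.sum_const_zero,
    Finset.sum_ite_irrel]

lemma quad_diff {ι : Type} [Fintype ι] (A : ι → ι → ℝ) {R e : ℝ} (hR : ∀ u v, |A u v| ≤ R)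
    (he0 : 0 ≤ e) (he1 : e ≤ 1) (c c' : ι → ℝ) (hc : ∀ v, |c v| ≤ 2) (hcc : ∀ v, |c' v - c v| ≤ e) :
    |quad A c' - quad A c| ≤ (Fintype.card ι : ℝ) ^ 2 * (5 * R * e) := by
  simp only [quad]
  rw [← Finset.sum_sub_distrib]
  refine (Finset.abs_sum_le_sum_abs _ _).trans ?_
  have h1 : ∀ u ∈ (Finset.univ : Finset ι), |∑ v, A u v * c' u * c' v - ∑ v, A u v * c u * c v| ≤
      (Fintype.card ι : ℝ) * (5 * R * e) := by
    intro u _
    rw [← Finset.sum_sub_distrib]
    refine (Finset.abs_sum_le_sum_abs _ _).trans ?_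
    have h2 : ∀ v ∈ (Finset.univ : Finset ι), |A u v * c' u * c' v - A u v * c u * c v| ≤
        5 * R * e := by
      intro v _
      have e1 : A u v * c' u * c' v - A u v * c u * c v =
        A u v * ((c' u - c u) * c' v + c u * (c' v - c v)) := by ring
      rw [e1, abs_mul]
      have a1 : |c' v| ≤ 3 := by
        have := abs_add_le (c' v - c v) (c v)
        rw [sub_add_cancel] at this
        linarith [hcc v, hc v]
      have a2 : |(c' u - c u) * c' v + c u * (c' v - c v)| ≤ 5 * e := by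
        refine (abs_add_le _ _).trans ?_
        rw [abs_mul, abs_mul]
        have b1 := mul_le_mul (hcc u) a1 (abs_nonneg _) he0
        have b2 := mul_le_mul (hc u) (hcc v) (abs_nonneg _) (by norm_num)
        linarith
      have a3 := mul_le_mul (hR u v) a2 (abs_nonneg _) ((abs_nonneg _).trans (hR u v))
      linarith
    refine (Finset.sum_le_sum h2).trans ?_
    simp
  refine (Finset.sum_le_sum h1).trans ?_
  simp only [Finset.sum_const, Finset.card_univ, nsmul_eq_mul]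
  exact le_of_eq (by ring)

lemma quad_abs_le {ι : Type} [Fintype ι] (A : ι → ι → ℝ) {R : ℝ} (hR : ∀ u v, |A u v| ≤ R)
    (c : ι → ℝ) (hc : ∀ v, |c v| ≤ 2) : |quad A c| ≤ (Fintype.card ι : ℝ) ^ 2 * (4 * R) := by
  simp only [quad]
  refine (Finset.abs_sum_le_sum_abs _ _).trans ?_
  have h1 : ∀ u ∈ (Finset.univ : Finset ι), |∑ v, A u v * c u * c v| ≤
      (Fintype.card ι : ℝ) * (4 * R) := by
    intro u _
    refine (Finset.abs_sum_le_sum_abs _ _).trans ?_
    have h2 : ∀ v ∈ (Finset.univ : Finset ι), |A u v * c u * c v| ≤ 4 * R := by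
      intro v _
      rw [abs_mul, abs_mul, mul_assoc]
      have a2 := mul_le_mul (hc u) (hc v) (abs_nonneg _) (by norm_num)
      have a3 := mul_le_mul (hR u v) a2 (by positivity) ((abs_nonneg _).trans (hR u v))
      linarith
    refine (Finset.sum_le_sum h2).trans ?_
    simp
  refine (Finset.sum_le_sum h1).trans ?_
  simp only [Finset.sum_const, Finset.card_univ, nsmul_eq_mul]
  rw [pow_two, mul_assoc]

/-- continuity of the constrained minimum in the lengths -/
lemma mat_cont (hCONT : TaskCONT) {m n : ℕ} {inc : Fin m → Fin n → Prop} {M : ℝ} (hM1 : 1 ≤ M)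
    (hM2 : 2 * (m : ℝ) ≤ M) (hM3 : 2 * (n : ℝ) ≤ M) {δ0 w0 γ C : ℝ}
    (hC : Coer m n inc M δ0 w0 γ C) {w : ℝ} (hw : 0 < w) (hww : w ≤ w0) {R : ℝ} (hRp : 0 < R)
    (hR : ∀ s : Idx m n → ℝ, (∀ v, |s v - 1 / 2| ≤ δ0) → ∀ A, IsMat m n inc M w s A →
      ∀ u v, |A u v| ≤ R) (η : ℝ) (hη : 0 < η) :
    ∃ δ : ℝ, 0 < δ ∧ ∀ s s' : Idx m n → ℝ, (∀ v, |s v - 1 / 2| ≤ δ0) →
      (∀ v, |s' v - 1 / 2| ≤ δ0) → (∀ v, |s v - s' v| ≤ δ) → ∀ A A', IsMat m n inc M w s A →
      IsMat m n inc M w s' A' → ∀ c : Idx m n → ℝ, (∀ v, |c v| ≤ 2) →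
        quad A' c ≤ quad A c + η := by
  obtain ⟨hδ0, hδ04, hw0, hw08, hγ, hCp, hco⟩ := hC
  set k : ℝ := (Fintype.card (Idx m n) : ℝ) with hk
  have hk0 : 0 ≤ k := by positivity
  set R1 : ℝ := k ^ 2 * (4 * R) + 1 with hR1
  set R3 : ℝ := (R1 + C * (k * 4)) / γ with hR3
  have hR3p : 0 < R3 := by positivity
  have hE0 := E0_pos' M
  set R4 : ℝ := 1 + R3 * (1 + E0 M) + k ^ 2 * (5 * R * (R3 + 1)) with hR4
  have hR4p : 0 < R4 := by positivity
  set ε : ℝ := min (min 1 (1 / (R3 + 1))) (η / R4) with hε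
  have hεp : 0 < ε := by positivity
  have hε1 : ε ≤ 1 := (min_le_left _ _).trans (min_le_left _ _)
  have hε2 : ε * (R3 + 1) ≤ 1 := by
    calc ε * (R3 + 1) ≤ 1 / (R3 + 1) * (R3 + 1) :=
          mul_le_mul_of_nonneg_right ((min_le_left _ _).trans (min_le_right _ _)) (by positivity)
      _ = 1 := by field_simp
  have hε3 : ε * R4 ≤ η := by
    calc ε * R4 ≤ η / R4 * R4 := mul_le_mul_of_nonneg_right (min_le_right _ _) (by positivity)
      _ = η := by field_simp
  obtain ⟨δ, hδ, hcont⟩ := hCONT m n inc M w hM1 hM2 hM3 hw (hww.trans hw08) ε hεp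
  refine ⟨δ, hδ, fun s s' hs hs' hss A A' hA hA' c hc => ?_⟩
  obtain ⟨f, hf, hfc, hfB⟩ := hA.2.2 c ε hεp
  obtain ⟨g, hg, hg1, hg2, hg3⟩ := hcont s s' (fun v => (hs v).trans hδ04)
    (fun v => (hs' v).trans hδ04) hss f hf
  have q1 := quad_abs_le A (hR s hs A hA) c hc
  have hco1 := hco w hw hww s hs f hf
  have hsum : ∑ v, ((bar m n M s v).l f) ^ 2 ≤ k * 4 := by
    have : ∀ v ∈ (Finset.univ : Finset (Idx m n)), ((bar m n M s v).l f) ^ 2 ≤ 4 := by
      intro v _
      rw [hfc v]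
      have := hc v
      rw [← sq_abs]; nlinarith [abs_nonneg (c v)]
    refine (Finset.sum_le_sum this).trans ?_
    simp [hk]
  have hH : En f + Ms f ≤ R3 := by
    rw [hR3, le_div_iff₀ hγ]
    have := (abs_le.1 q1).2
    have h5 : C * ∑ v, ((bar m n M s v).l f) ^ 2 ≤ C * (k * 4) :=
      mul_le_mul_of_nonneg_left hsum hCp.le
    linarith
  have hEf := En_nonneg f
  have hMf := Ms_nonneg f
  have hBg : BE M g g ≤ BE M f f + ε * R3 * (1 + E0 M) := by
    have e1 : BE M g g = En g - E0 M * Ms g := rfl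
    have e2 : BE M f f = En f - E0 M * Ms f := rfl
    rw [e1, e2]
    have h1 := (abs_le.1 hg1).2
    have h2 := (abs_le.1 hg2).1
    have h3 : ε * En f ≤ ε * R3 := mul_le_mul_of_nonneg_left (by linarith) hεp.le
    have h4 : ε * Ms f ≤ ε * R3 := mul_le_mul_of_nonneg_left (by linarith) hεp.le
    nlinarith [mul_le_mul_of_nonneg_left (show Ms f - Ms g ≤ ε * R3 by linarith) hE0.le]
  have hq' := hA'.2.1 g hg
  have hcc : ∀ v, |(bar m n M s' v).l g - c v| ≤ ε * (R3 + 1) := by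
    intro v
    have := hg3 v
    rw [hfc v] at this
    refine this.trans (mul_le_mul_of_nonneg_left ?_ hεp.le)
    rw [Real.sqrt_le_left (by positivity)]
    nlinarith
  have hd := quad_diff A' (hR s' hs' A' hA') (by positivity) hε2 c
    (fun v => (bar m n M s' v).l g) hc hcc
  have hd1 := (abs_le.1 hd).1
  have hexp : ε * R4 = ε + ε * R3 * (1 + E0 M) + k ^ 2 * (5 * R * (ε * (R3 + 1))) := by
    rw [hR4]; ring
  linarith

end Pool.Agent.H456R3.Mult
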