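import Pool.Agent.H456R3.Mult.Asm3
import Pool.Agent.H456R3.Mult.Asm4

/-! Assembly, part 5: the domain (project H456-MULT). -/

open MeasureTheory Set
open scoped ContDiff

set_option autoImplicit false

noncomputable section

namespace Pool.Agent.H456R3.Mult

/-- the lengths as a function of the target eigenvalue shift -/
def len (M x : ℝ) : ℝ := 1 / √(1 / (M + 1 / 2) ^ 2 + x / Real.pi ^ 2) - M

lemma len_param {M δ0 : ℝ} (hM : 1 ≤ M) (hδ : 0 < δ0) (hδ4 : δ0 ≤ 1 / 4) :
    ∃ ρ : ℝ, 0 < ρ ∧ ContinuousOn (len M) {x | |x| ≤ ρ} ∧ ∀ x : ℝ, |x| ≤ ρ →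
      |len M x - 1 / 2| ≤ δ0 ∧ Real.pi ^ 2 * (2 + 1 / (M + len M x) ^ 2) = E0 M + x := by
  set a : ℝ := 1 / (M + 1 / 2) ^ 2 with ha
  set a1 : ℝ := 1 / (M + 1 / 2 + δ0) ^ 2 with ha1
  set a2 : ℝ := 1 / (M + 1 / 2 - δ0) ^ 2 with ha2
  have hm : 0 < M + 1 / 2 - δ0 := by linarith
  have h1 : a1 < a := by
    rw [ha, ha1]
    apply one_div_lt_one_div_of_lt (by positivity)
    nlinarith
  have h2 : a < a2 := by
    rw [ha, ha2]
    apply one_div_lt_one_div_of_lt (by positivity)
    nlinarith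
  have ha1p : 0 < a1 := by positivity
  have hpi : 1 ≤ Real.pi ^ 2 := by nlinarith [Real.pi_gt_three]
  have hpi0 : 0 < Real.pi ^ 2 := by positivity
  have hbd : ∀ x : ℝ, |x| ≤ min (a - a1) (a2 - a) →
      a1 ≤ a + x / Real.pi ^ 2 ∧ a + x / Real.pi ^ 2 ≤ a2 := by
    intro x hx
    have h3 : |x / Real.pi ^ 2| ≤ |x| := by
      rw [abs_div, abs_of_pos hpi0]
      exact div_le_self (abs_nonneg _) hpi
    have h4 := abs_le.1 (h3.trans hx)
    have h5 := min_le_left (a - a1) (a2 - a)
    have h6 := min_le_right (a - a1) (a2 - a)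
    constructor <;> linarith [h4.1, h4.2]
  refine ⟨min (a - a1) (a2 - a), lt_min (by linarith) (by linarith), ?_, ?_⟩
  · unfold len
    refine ContinuousOn.sub (ContinuousOn.div continuousOn_const ?_ ?_) continuousOn_const
    · exact (Real.continuous_sqrt.comp (by fun_prop)).continuousOn
    · intro x hx
      exact (Real.sqrt_pos.2 (ha1p.trans_le (hbd x hx).1)).ne'
  · intro x hx
    obtain ⟨b1, b2⟩ := hbd x hx
    have hpos : 0 < a + x / Real.pi ^ 2 := ha1p.trans_le b1
    set r := a + x / Real.pi ^ 2 with hr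
    have hlen : len M x = 1 / √r - M := rfl
    have hsr : 0 < √r := Real.sqrt_pos.2 hpos
    have c1 : 1 / √r ≤ M + 1 / 2 + δ0 := by
      rw [div_le_iff₀ hsr]
      have : √a1 ≤ √r := Real.sqrt_le_sqrt b1
      have h3 : √a1 = 1 / (M + 1 / 2 + δ0) := by
        rw [ha1, Real.sqrt_div zero_le_one, Real.sqrt_one, Real.sqrt_sq (by positivity)]
      rw [h3] at this
      have h4 : 0 < M + 1 / 2 + δ0 := by positivity
      calc (1 : ℝ) = (M + 1 / 2 + δ0) * (1 / (M + 1 / 2 + δ0)) := (mul_one_div_cancel h4.ne').symm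
        _ ≤ (M + 1 / 2 + δ0) * √r := mul_le_mul_of_nonneg_left this h4.le
    have c2 : M + 1 / 2 - δ0 ≤ 1 / √r := by
      rw [le_div_iff₀ hsr]
      have : √r ≤ √a2 := Real.sqrt_le_sqrt b2
      have h3 : √a2 = 1 / (M + 1 / 2 - δ0) := by
        rw [ha2, Real.sqrt_div zero_le_one, Real.sqrt_one, Real.sqrt_sq hm.le]
      rw [h3] at this
      calc (M + 1 / 2 - δ0) * √r ≤ (M + 1 / 2 - δ0) * (1 / (M + 1 / 2 - δ0)) :=
            mul_le_mul_of_nonneg_left this hm.le
        _ = 1 := mul_one_div_cancel hm.ne'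
    constructor
    · rw [hlen, abs_le]; constructor <;> linarith
    · have e1 : M + len M x = 1 / √r := by rw [hlen]; ring
      rw [e1, div_pow, one_pow, one_div_one_div, Real.sq_sqrt hpos.le]
      rw [hr, E0, ha]
      field_simp
      ring

theorem domain_prop (hLA : TaskLA) (hA1 : TaskABS1) (hA2 : TaskABS2) (hA3 : TaskABS3)
    (hGEO : TaskGEO) (hGAP : TaskGAP) (hE : TaskEAPP) (hPO : TaskPOINC) (hT : TaskTRACE)
    (hCUT : TaskCUT) (hB : TaskBUMP) (hGV : TaskGV) (hG : TaskGREEN) (hCONT : TaskCONT)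
    (hCOER : TaskCOER) (hF : TaskFAR) (N : ℕ) (hN : 2 ≤ N) : DomainProp N := by
  classical
  -- edges
  let Ed := {p : Fin N × Fin N // p.1 < p.2}
  set n : ℕ := Fintype.card Ed with hn
  let e : Fin n ≃ Ed := (Fintype.equivFin Ed).symm
  let a : Fin n → Fin N := fun j => (e j).1.1
  let b : Fin n → Fin N := fun j => (e j).1.2
  have hab : ∀ j, a j < b j := fun j => (e j).2
  have huniq : ∀ i j, i < j → ∃! k, a k = i ∧ b k = j := by
    intro i j hij
    refine ⟨e.symm ⟨(i, j), hij⟩, by simp [a, b], ?_⟩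
    rintro k ⟨h1, h2⟩
    rw [Equiv.eq_symm_apply]
    exact Subtype.ext (Prod.ext h1 h2)
  let inc : Fin N → Fin n → Prop := fun i j => i = a j ∨ i = b j
  set M : ℝ := 2 * (N : ℝ) + 2 * (n : ℝ) with hM
  have hN' : (2 : ℝ) ≤ N := by exact_mod_cast hN
  have hn' : (0 : ℝ) ≤ n := by positivity
  have hM1 : 1 ≤ M := by linarith
  have hM2 : 2 * (N : ℝ) ≤ M := by linarith
  have hM3 : 2 * (n : ℝ) ≤ M := by linarith
  obtain ⟨δ0, w0, γ, C, hC⟩ := hCOER hGAP hCUT hPO hGEO N n inc M hM1 hM2 hM3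
  obtain ⟨Ch, c1, h0, hCh, hc1, hh0, hent⟩ := entries hA2 hA3 hGEO hGV hE hB hT hG hCUT hPO hF
    hM1 hM2 hM3 hC
  have hC' := hC
  obtain ⟨hδ0, hδ04, hw0, hw08, hγ, hCp, hco⟩ := hC'
  set C1 : ℝ := (N : ℝ) * n * Ch ^ 4 + 1 with hC1
  have hC1p : 0 < C1 := by positivity
  set c1' : ℝ := h0 ^ 2 * c1 ^ 2 / 2 with hc1'
  have hc1'p : 0 < c1' := by positivity
  obtain ⟨ε0, hε0, Q, hQ, t, ht, hla⟩ := hLA N n a b hab huniq C1 c1' hc1'p hC1p
  set ε : ℝ := min 1 (min ε0 c1') with hε
  have hεp : 0 < ε := by positivity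
  have hε1 : ε ≤ 1 := min_le_left _ _
  have hε2 : ε ≤ ε0 := (min_le_right _ _).trans (min_le_left _ _)
  have hε3 : ε ≤ c1' := (min_le_right _ _).trans (min_le_right _ _)
  obtain ⟨w1, hw1, hw10, hent1⟩ := hent ε hεp
  obtain ⟨ρ, hρ, hlenc, hlen⟩ := len_param hM1 hδ0 hδ04
  -- choose `w`
  set w : ℝ := min w1 (ρ / Q) with hw
  have hwp : 0 < w := by positivity
  have hww1 : w ≤ w1 := min_le_left _ _
  have hww0 : w ≤ w0 := hww1.trans hw10
  have hw8 : w ≤ 1 / 8 := hww0.trans hw08
  have hw3p : 0 < w ^ 3 := by positivity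
  have hw3Q : w ^ 3 * Q ≤ ρ := by
    have h1 : w ^ 3 ≤ w := by nlinarith [sq_nonneg w, mul_le_mul hw8 hw8 hwp.le (by norm_num : (0:ℝ) ≤ 1/8)]
    calc w ^ 3 * Q ≤ w * Q := mul_le_mul_of_nonneg_right h1 hQ.le
      _ ≤ ρ / Q * Q := mul_le_mul_of_nonneg_right (min_le_right _ _) hQ.le
      _ = ρ := by field_simp
  let sq : (Idx N n → ℝ) → (Idx N n → ℝ) := fun q v => len M (w ^ 3 * q v)
  have hqρ : ∀ q : Idx N n → ℝ, (∀ v, |q v| ≤ Q) → ∀ v, |w ^ 3 * q v| ≤ ρ := by
    intro q hq v
    rw [abs_mul, abs_of_pos hw3p]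
    exact (mul_le_mul_of_nonneg_left (hq v) hw3p.le).trans hw3Q
  have hsq : ∀ q : Idx N n → ℝ, (∀ v, |q v| ≤ Q) → ∀ v, |sq q v - 1 / 2| ≤ δ0 := fun q hq v =>
    (hlen _ (hqρ q hq v)).1
  have hmu : ∀ q : Idx N n → ℝ, (∀ v, |q v| ≤ Q) → ∀ v,
      (bar N n M (sq q) v).mu - E0 M = w ^ 3 * q v := by
    intro q hq v
    rw [bar_mu, (hlen _ (hqρ q hq v)).2]; ring
  -- the matrices
  have hex : ∀ s : Idx N n → ℝ, (∀ v, |s v - 1 / 2| ≤ δ0) → ∃ A, IsMat N n inc M w s A :=
    fun s hs => exists_mat hA1 hGEO hGV hM1 hM2 hM3 hC hwp hww0 hs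
  let Mat : (Idx N n → ℝ) → Idx N n → Idx N n → ℝ := fun s =>
    if hs : ∀ v, |s v - 1 / 2| ≤ δ0 then (hex s hs).choose else 0
  have hMat : ∀ s : Idx N n → ℝ, (∀ v, |s v - 1 / 2| ≤ δ0) → IsMat N n inc M w s (Mat s) := by
    intro s hs
    have : Mat s = (hex s hs).choose := dif_pos hs
    rw [this]; exact (hex s hs).choose_spec
  have hentM : ∀ s : Idx N n → ℝ, (∀ v, |s v - 1 / 2| ≤ δ0) → ∀ A, IsMat N n inc M w s A →
      Entries N n inc M w s A Ch c1 Ch ε h0 := fun s hs A hA =>
    hent1 w hwp hww1 s hs A hA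
  have hw31 : w ^ 3 ≤ 1 := pow_le_one₀ hwp.le (by linarith)
  -- uniform bound of entries
  have hpi0 : 0 < Real.pi ^ 2 := by positivity
  set R : ℝ := 6 * Real.pi ^ 2 + C1 with hR
  have hRp : 0 < R := by positivity
  have hmub : ∀ s : Idx N n → ℝ, (∀ v, |s v - 1 / 2| ≤ δ0) → ∀ v,
      |(bar N n M s v).mu - E0 M| ≤ 6 * Real.pi ^ 2 := by
    intro s hs v
    rw [bar_mu, E0]
    have h1 := abs_le.1 (hs v)
    have h2 : (1 : ℝ) ≤ M + s v := by linarith [h1.1]
    have h3 : 1 / (M + s v) ^ 2 ≤ 1 := by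
      rw [div_le_one (by positivity)]; nlinarith
    have h3' : 0 ≤ 1 / (M + s v) ^ 2 := by positivity
    have h4 : 1 / (M + 1 / 2) ^ 2 ≤ 1 := by
      rw [div_le_one (by positivity)]; nlinarith
    have h4' : 0 ≤ 1 / (M + 1 / 2) ^ 2 := by positivity
    rw [abs_le]
    constructor <;> nlinarith
  have hRb : ∀ s : Idx N n → ℝ, (∀ v, |s v - 1 / 2| ≤ δ0) → ∀ A, IsMat N n inc M w s A →
      ∀ u v, |A u v| ≤ R := by
    intro s hs A hA u v
    have h1 := entries_abs hwp hc1 hCh hεp.le (hentM s hs A hA) u v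
    have h2 : |(if u = v then (bar N n M s v).mu - E0 M else 0)| ≤ 6 * Real.pi ^ 2 := by
      split_ifs
      · exact hmub s hs v
      · rw [abs_zero]; positivity
    set κ := (if u = v then (bar N n M s v).mu - E0 M else 0)
    have h3 : |A u v| ≤ |κ| + |κ - A u v| := by
      have := abs_sub κ (κ - A u v)
      rwa [sub_sub_cancel] at this
    have h4 : ((N : ℝ) * n * Ch ^ 4 + ε) * w ^ 3 ≤ C1 := by
      have h5 : 0 ≤ (N : ℝ) * n * Ch ^ 4 + ε := by positivity
      calc ((N : ℝ) * n * Ch ^ 4 + ε) * w ^ 3 ≤ ((N : ℝ) * n * Ch ^ 4 + ε) * 1 :=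
            mul_le_mul_of_nonneg_left hw31 h5
        _ ≤ C1 := by rw [hC1]; linarith
    linarith
  -- continuity of `quad (Mat s) c`
  have hcontq : ∀ c : Idx N n → ℝ, (∀ v, |c v| ≤ 2) →
      ContinuousOn (fun s => quad (Mat s) c) {s | ∀ v, |s v - 1 / 2| ≤ δ0} := by
    intro c hc
    rw [Metric.continuousOn_iff]
    intro s hs η hη
    obtain ⟨δ, hδ, hd⟩ := mat_cont hCONT hM1 hM2 hM3 hC hwp hww0 hRp hRb (η / 2) (by positivity)
    refine ⟨δ, hδ, fun s' hs' hss => ?_⟩
    have h1 : ∀ v, |s v - s' v| ≤ δ := fun v => by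
      have := (dist_le_pi_dist s' s v).trans hss.le
      rw [Real.dist_eq, abs_sub_comm] at this
      exact this
    have h2 : ∀ v, |s' v - s v| ≤ δ := fun v => by rw [abs_sub_comm]; exact h1 v
    have a1 := hd s s' hs hs' h1 _ _ (hMat s hs) (hMat s' hs') c hc
    have a2 := hd s' s hs' hs h2 _ _ (hMat s' hs') (hMat s hs) c hc
    rw [Real.dist_eq, abs_lt]
    constructor <;> linarith
  have hcontM : ∀ u v, ContinuousOn (fun s => Mat s u v) {s | ∀ v, |s v - 1 / 2| ≤ δ0} := by
    intro u v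
    have h1 := hcontq (fun x => (if x = u then 1 else 0) + (if x = v then (1 : ℝ) else 0))
      (fun x => by
        split_ifs <;> norm_num)
    have h2 := hcontq (fun x => if x = u then (1 : ℝ) else 0) (fun x => by
        split_ifs <;> norm_num)
    have h3 := hcontq (fun x => if x = v then (1 : ℝ) else 0) (fun x => by
        split_ifs <;> norm_num)
    refine (((h1.sub h2).sub h3).div_const 2).congr fun s hs => ?_
    have e1 := quad_single (Mat s) (hMat s hs).1 u v
    have e2 := quad_single' (Mat s) u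
    have e3 := quad_single' (Mat s) v
    simp only [Pi.sub_apply]
    rw [e1, e2, e3]; ring
  -- the function `G`
  let G : (Idx N n → ℝ) → Idx N n → Idx N n → ℝ := fun q u v =>
    ((if u = v then w ^ 3 * q v else 0) - Mat (sq q) u v) / w ^ 3
  have hsqc : ContinuousOn sq {q | ∀ v, |q v| ≤ Q} := by
    refine continuousOn_pi.2 fun v => ?_
    refine hlenc.comp ?_ ?_
    · exact (continuous_const.mul (continuous_apply v)).continuousOn
    · intro q hq; exact hqρ q hq v
  have hGc : ∀ u v, ContinuousOn (fun q => G q u v) {q | ∀ v, |q v| ≤ Q} := by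
    intro u v
    refine ContinuousOn.div_const (ContinuousOn.sub ?_ ?_) _
    · by_cases huv : u = v
      · simp only [huv, if_true]
        exact (continuous_const.mul (continuous_apply v)).continuousOn
      · simp only [huv, if_false]; exact continuousOn_const
    · exact (hcontM u v).comp hsqc (fun q hq => hsq q hq)
  have hGK : ∀ q : Idx N n → ℝ, (∀ v, |q v| ≤ Q) → ∀ u v,
      G q u v * w ^ 3 = (if u = v then (bar N n M (sq q) v).mu - E0 M else 0) -
        Mat (sq q) u v := by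
    intro q hq u v
    simp only [G]
    rw [div_mul_cancel₀ _ hw3p.ne', hmu q hq v]
  obtain ⟨q, hq, Y, D, hD, hquad⟩ := hla G hGc (fun q hq => by
    have hA := hMat (sq q) (hsq q hq)
    have hEnt := hentM (sq q) (hsq q hq) _ hA
    have hoff : ∀ u v, u ≠ v → G q u v = - Mat (sq q) u v / w ^ 3 := by
      intro u v huv
      simp only [G]; rw [if_neg huv]; ring
    have hoffb : ∀ u v, u ≠ v → |Mat (sq q) u v| ≤ ε * w ^ 3 → |G q u v| ≤ ε0 := by
      intro u v huv h
      rw [hoff u v huv, abs_div, abs_neg, abs_of_pos hw3p, div_le_iff₀ hw3p]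
      exact h.trans (mul_le_mul_of_nonneg_right hε2 hw3p.le)
    refine ⟨fun u v => ?_, fun u v => ?_, fun i j hij => ?_, fun i j h1 h2 => ?_,
      fun i j hij => ?_, fun j j' hjj => ?_⟩
    · simp only [G]
      rw [hA.1 u v]
      by_cases huv : u = v
      · subst huv; rfl
      · rw [if_neg huv, if_neg (Ne.symm huv)]
    · have h1 := entries_abs hwp hc1 hCh hεp.le hEnt u v
      rw [← hGK q hq u v, abs_mul, abs_of_pos hw3p] at h1
      have h2 := le_of_mul_le_mul_right h1 hw3p
      rw [hC1]; linarith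
    · have h1 := entries_inc hwp hh0 hc1 hEnt i j hij
      rw [hoff _ _ (by simp), le_div_iff₀ hw3p]
      refine le_trans (mul_le_mul_of_nonneg_right ?_ hw3p.le) h1
      rw [hc1'] at hε3 ⊢; linarith
    · refine hoffb _ _ (by simp) (entries_off hwp hEnt _ _ (by simp) ?_)
      rintro i' j' hij' hu hv
      have e1 : i = i' := by
        rcases hu with h | h
        · exact Sum.inl.inj h
        · exact absurd h (by simp)
      have e2 : j = j' := by
        rcases hv with h | h
        · exact absurd h (by simp)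
        · exact Sum.inr.inj h
      subst e1; subst e2
      rcases hij' with h | h
      · exact h1 h
      · exact h2 h
    · refine hoffb _ _ (by simpa using hij) (entries_off hwp hEnt _ _ (by simpa using hij) ?_)
      rintro i' j' - hu hv
      have e1 : i = i' := by
        rcases hu with h | h
        · exact Sum.inl.inj h
        · exact absurd h (by simp)
      have e2 : j = i' := by
        rcases hv with h | h
        · exact Sum.inl.inj h
        · exact absurd h (by simp)
      exact hij (e1.trans e2.symm)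
    · refine hoffb _ _ (by simpa using hjj) (entries_off hwp hEnt _ _ (by simpa using hjj) ?_)
      rintro i' k - hu hv
      have e1 : j = k := by
        rcases hu with h | h
        · exact absurd h (by simp)
        · exact Sum.inr.inj h
      have e2 : j' = k := by
        rcases hv with h | h
        · exact absurd h (by simp)
        · exact Sum.inr.inj h
      exact hjj (e1.trans e2.symm))
  -- the solution
  set s := sq q with hs
  have hs0 : ∀ v, |s v - 1 / 2| ≤ δ0 := hsq q hq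
  have hs4 : ∀ v, |s v - 1 / 2| ≤ 1 / 4 := fun v => (hs0 v).trans hδ04
  have hA := hMat s hs0
  set Ω := Om N n inc M w s with hΩ
  obtain ⟨hop, hbdd, -, hconn, -⟩ := hGEO N n inc M w s hM1 hM2 hM3 hwp hw8 hs4
  have hquadM : ∀ c : Idx N n → ℝ, quad (Mat s) c = w ^ 3 * (- t * (∑ i, c (Sum.inl i)) ^ 2 +
      quad D (fun e => c (Sum.inr e) - ∑ i, Y e i * c (Sum.inl i))) := by
    intro c
    rw [← hquad c]
    simp only [quad]
    rw [Finset.mul_sum]
    refine Finset.sum_congr rfl fun u _ => ?_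
    rw [Finset.mul_sum]
    refine Finset.sum_congr rfl fun v _ => ?_
    have h1 := hGK q hq u v
    have h2 : (if u = v then (bar N n M (sq q) v).mu - E0 M else 0) =
        w ^ 3 * (if u = v then q u else 0) := by
      by_cases huv : u = v
      · subst huv; rw [if_pos rfl, if_pos rfl, hmu q hq]
      · rw [if_neg huv, if_neg huv, mul_zero]
    rw [h2] at h1
    have h3 : Mat s u v = w ^ 3 * ((if u = v then q u else 0) - G q u v) := by
      rw [hs]; linarith
    rw [h3]; ring
  refine ⟨Ω, hop, hconn (by omega) (fun j => ⟨a j, Or.inl rfl⟩) (fun i i' hii => ?_), hbdd,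
    E0 M, E0_pos M, ⟨∑ i, lL (bar N n M s (Sum.inl i)) Ω, fun f hf => ?_⟩, fun ε' hε' => ?_⟩
  · rcases lt_or_gt_of_ne hii with h | h
    · obtain ⟨k, ⟨hk1, hk2⟩, -⟩ := huniq i i' h
      exact ⟨k, Or.inl hk1.symm, Or.inr hk2.symm⟩
    · obtain ⟨k, ⟨hk1, hk2⟩, -⟩ := huniq i' i h
      exact ⟨k, Or.inr hk2.symm, Or.inl hk1.symm⟩
  · have h1 := hA.2.1 f f.2
    rw [hquadM] at h1
    have h2 : ∑ i, (bar N n M s (Sum.inl i)).l (f : P → ℝ) = 0 := by
      have := hf
      rw [LinearMap.sum_apply] at this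
      exact this
    rw [h2] at h1
    have h3 := hD (fun e => (bar N n M s (Sum.inr e)).l (f : P → ℝ) -
      ∑ i, Y e i * (bar N n M s (Sum.inl i)).l (f : P → ℝ))
    have h4 : BE M (f : P → ℝ) (f : P → ℝ) = En (f : P → ℝ) - E0 M * Ms (f : P → ℝ) := rfl
    rw [h4] at h1
    have h5 := mul_nonneg hw3p.le h3
    nlinarith
  · -- upper part
    let cc : (Fin N → ℝ) → (Idx N n → ℝ) := fun c v => match v with
      | Sum.inl i => c i
      | Sum.inr e => ∑ i, Y e i * c i
    have hcc : ∀ c, quad (Mat s) (cc c) ≤ 0 := by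
      intro c
      rw [hquadM]
      have : quad D (fun e => cc c (Sum.inr e) - ∑ i, Y e i * cc c (Sum.inl i)) = 0 := by
        simp [cc, quad]
      rw [this, add_zero]
      have h1 : 0 ≤ t * (∑ i, cc c (Sum.inl i)) ^ 2 := by positivity
      nlinarith
    set d : ℝ := ε' / (N : ℝ) ^ 2 with hd
    have hdp : 0 < d := by positivity
    have hψ := fun k : Fin N => hA.2.2 (cc (Pi.single k 1)) d hdp
    choose ψ hψD hψl hψB using hψ
    let Ψ : Fin N → Dc Ω := fun k => ⟨ψ k, hψD k⟩
    let U : (Fin N → ℝ) →ₗ[ℝ] Dc Ω :=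
      { toFun := fun c => ∑ k, c k • Ψ k
        map_add' := fun c c' => by
          simp only [Pi.add_apply, add_smul, Finset.sum_add_distrib]
        map_smul' := fun r c => by
          simp only [Pi.smul_apply, smul_eq_mul, mul_smul, RingHom.id_apply, Finset.smul_sum] }
    have hUl : ∀ c v, (bar N n M s v).l (U c : P → ℝ) = cc c v := by
      intro c v
      have e1 : (bar N n M s v).l (U c : P → ℝ) = lL (bar N n M s v) Ω (∑ k, c k • Ψ k) := rfl
      rw [e1, map_sum]
      have e2 : ∀ k, lL (bar N n M s v) Ω (c k • Ψ k) = c k * cc (Pi.single k 1) v := by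
        intro k
        rw [map_smul, ← hψl k v]; rfl
      simp only [e2]
      rcases v with i | e
      · simp [cc, Pi.single_apply]
      · simp only [cc]
        refine Finset.sum_congr rfl fun k _ => ?_
        rw [Finset.sum_eq_single k]
        · simp; ring
        · intro i _ hi; simp [hi]
        · intro h; exact absurd (Finset.mem_univ _) h
    refine ⟨U, ?_, fun c => ?_⟩
    · intro c c' h
      funext i
      have h1 := hUl c (Sum.inl i)
      have h2 := hUl c' (Sum.inl i)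
      rw [h] at h1
      have : cc c (Sum.inl i) = cc c' (Sum.inl i) := h1.symm.trans h2
      exact this
    · -- energy estimate
      -- the remainder form
      let L := ellL N n inc M w s
      have hbil : ∃ Rf : Dc Ω →ₗ[ℝ] Dc Ω →ₗ[ℝ] ℝ, (∀ x y, Rf x y = Rf y x) ∧
          ∀ x, Rf x x = BE M (x : P → ℝ) (x : P → ℝ) - quad (Mat s) (L x) := by
        refine ⟨BEL M Ω - ∑ u, ∑ v, Mat s u v •
          (LinearMap.mk₂ ℝ (fun x y : Dc Ω => L x u * L y v)
            (fun x x' y => by simp [add_mul]) (fun r x y => by simp [mul_assoc])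
            (fun x y y' => by simp [mul_add]) (fun r x y => by simp; ring)), ?_, ?_⟩
        · intro x y
          simp only [LinearMap.sub_apply, LinearMap.sum_apply, LinearMap.smul_apply,
            LinearMap.mk₂_apply, smul_eq_mul, BEL_apply]
          rw [BE_comm M, Finset.sum_comm]
          congr 1
          refine Finset.sum_congr rfl fun u _ => Finset.sum_congr rfl fun v _ => ?_
          rw [hA.1 v u]; ring
        · intro x
          simp only [LinearMap.sub_apply, LinearMap.sum_apply, LinearMap.smul_apply,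
            LinearMap.mk₂_apply, smul_eq_mul, BEL_apply, quad]
          congr 1
          refine Finset.sum_congr rfl fun u _ => Finset.sum_congr rfl fun v _ => ?_
          ring
      obtain ⟨Rf, hRs, hRd⟩ := hbil
      have hRpos : ∀ x, 0 ≤ Rf x x := fun x => by
        rw [hRd]
        have := hA.2.1 x x.2
        have e1 : quad (Mat s) (L x) = quad (Mat s) (fun v => (bar N n M s v).l (x : P → ℝ)) := rfl
        rw [e1]; linarith
      have hRψ : ∀ k, Rf (Ψ k) (Ψ k) ≤ d := by
        intro k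
        rw [hRd]
        have e1 : L (Ψ k) = cc (Pi.single k 1) := by
          funext v; exact hψl k v
        rw [e1]
        have := hψB k
        change BE M (ψ k) (ψ k) - _ ≤ d
        linarith
      have hsum := sqrt_add_le_sum Rf hRs hRpos Finset.univ (fun k => c k • Ψ k)
      -- masses
      have hMs0 := Ms_nonneg (U c : P → ℝ)
      have hck : ∀ k, |c k| ≤ √(Ms (U c : P → ℝ)) := by
        intro k
        obtain ⟨g1, g2, g3⟩ := bar_nondeg hM1 hs4 (Sum.inl k : Idx N n)
        have h1 := abs_l_le hE g1 g2 g3 (Dc_univ (U c).2)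
        rw [hUl c (Sum.inl k)] at h1
        exact h1
      have hb : ∀ k, √(Rf (c k • Ψ k) (c k • Ψ k)) ≤ √(Ms (U c : P → ℝ)) * √d := by
        intro k
        have e1 : Rf (c k • Ψ k) (c k • Ψ k) = (c k) ^ 2 * Rf (Ψ k) (Ψ k) := by
          simp only [map_smul, LinearMap.smul_apply, smul_eq_mul]; ring
        rw [e1, Real.sqrt_mul (sq_nonneg _), Real.sqrt_sq_eq_abs]
        exact mul_le_mul (hck k) (Real.sqrt_le_sqrt (hRψ k)) (Real.sqrt_nonneg _)
          (Real.sqrt_nonneg _)
      have h6 : √(Rf (U c) (U c)) ≤ (N : ℝ) * (√(Ms (U c : P → ℝ)) * √d) := by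
        refine hsum.trans ((Finset.sum_le_sum fun k _ => hb k).trans ?_)
        simp
      have h7 : Rf (U c) (U c) ≤ (N : ℝ) ^ 2 * (Ms (U c : P → ℝ) * d) := by
        have h8 := pow_le_pow_left₀ (Real.sqrt_nonneg _) h6 2
        rw [Real.sq_sqrt (hRpos _), mul_pow, mul_pow, Real.sq_sqrt hMs0, Real.sq_sqrt hdp.le] at h8
        exact h8
      have h9 : (N : ℝ) ^ 2 * (Ms (U c : P → ℝ) * d) = ε' * Ms (U c : P → ℝ) := by
        rw [hd]; field_simp
      rw [h9, hRd] at h7
      have h10 : quad (Mat s) (L (U c)) ≤ 0 := by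
        have e1 : L (U c) = cc c := by funext v; exact hUl c v
        rw [e1]; exact hcc c
      have h11 : BE M (U c : P → ℝ) (U c : P → ℝ) =
        En (U c : P → ℝ) - E0 M * Ms (U c : P → ℝ) := rfl
      rw [h11] at h7
      nlinarith

end Pool.Agent.H456R3.Mult
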