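import Pool.Agent.H456R3.Mult.Stmts

open MeasureTheory Set
open scoped ContDiff

set_option autoImplicit false

noncomputable section

namespace Pool.Agent.H456R3.Mult

namespace Bump

/-- the standard bump on `P` (sup norm, so the balls are cubes) -/
def beta : ContDiffBump (0 : P) := ⟨1 / 4, 3 / 4, by norm_num, by norm_num⟩

def A (c : P) (w : ℝ) (p : P) : P := w⁻¹ • (p - c)

def phi (c : P) (w : ℝ) (p : P) : ℝ := beta (A c w p)

theorem cube_eq (c : P) (r : ℝ) : cube c r = Metric.ball c r := by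
  unfold cube
  rw [← Real.ball_eq_Ioo, ← Real.ball_eq_Ioo, ← Real.ball_eq_Ioo, ball_prod_same, ball_prod_same]

theorem contDiff_A (c : P) (w : ℝ) : ContDiff ℝ ∞ (A c w) := by
  have h : ContDiff ℝ ∞ (fun p : P => w⁻¹ • (p - c)) := by fun_prop
  exact h

theorem contDiff_phi (c : P) (w : ℝ) : ContDiff ℝ ∞ (phi c w) := by
  unfold phi
  exact beta.contDiff.comp (contDiff_A c w)

theorem hasFDerivAt_A (c : P) (w : ℝ) (p : P) :
    HasFDerivAt (A c w) (w⁻¹ • ContinuousLinearMap.id ℝ P) p := by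
  unfold A
  exact ((hasFDerivAt_id p).sub_const c).const_smul w⁻¹

theorem fderiv_phi (c : P) (w : ℝ) (p v : P) :
    fderiv ℝ (phi c w) p v = w⁻¹ * fderiv ℝ beta (A c w p) v := by
  have hb : DifferentiableAt ℝ beta (A c w p) :=
    (beta.contDiff (n := 1)).differentiable (by norm_num) _
  have h := (hb.hasFDerivAt.comp p (hasFDerivAt_A c w p)).fderiv
  have h2 : (phi c w) = (beta ∘ A c w) := rfl
  rw [h2, h]
  simp

theorem phi_nonneg (c : P) (w : ℝ) (p : P) : 0 ≤ phi c w p := beta.nonneg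

theorem phi_le_one (c : P) (w : ℝ) (p : P) : phi c w p ≤ 1 := beta.le_one

theorem norm_A (c : P) (w : ℝ) (hw : 0 < w) (p : P) : ‖A c w p‖ = ‖p - c‖ / w := by
  unfold A
  rw [norm_smul, norm_inv, Real.norm_eq_abs, abs_of_pos hw]
  ring

theorem phi_eq_one (c : P) (w : ℝ) (hw : 0 < w) (p : P) (hp : ‖p - c‖ ≤ w / 4) :
    phi c w p = 1 := by
  unfold phi
  apply beta.one_of_mem_closedBall
  rw [mem_closedBall_zero_iff, norm_A c w hw]
  show ‖p - c‖ / w ≤ 1 / 4
  rw [div_le_iff₀ hw]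
  linarith

theorem notMem_tsupport (c : P) (w : ℝ) (hw : 0 < w) (p : P) (hp : 3 / 4 * w < ‖p - c‖) :
    A c w p ∉ tsupport beta := by
  rw [beta.tsupport_eq, mem_closedBall_zero_iff, norm_A c w hw]
  show ¬ (‖p - c‖ / w ≤ 3 / 4)
  rw [div_le_iff₀ hw]
  linarith

theorem phi_eq_zero (c : P) (w : ℝ) (hw : 0 < w) (p : P) (hp : 3 / 4 * w < ‖p - c‖) :
    phi c w p = 0 := by
  have h : (beta : P → ℝ) (A c w p) = 0 :=
    image_eq_zero_of_notMem_tsupport (notMem_tsupport c w hw p hp)
  exact h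

theorem fderiv_beta_eq_zero (c : P) (w : ℝ) (hw : 0 < w) (p : P) (hp : 3 / 4 * w < ‖p - c‖) :
    fderiv ℝ beta (A c w p) = 0 := by
  by_contra h
  exact notMem_tsupport c w hw p hp (support_fderiv_subset ℝ h)

theorem phi_mem (c : P) (w : ℝ) (hw : 0 < w) : phi c w ∈ Dc (cube c w) := by
  have hs : tsupport (phi c w) ⊆ Metric.closedBall c (3 / 4 * w) := by
    apply closure_minimal _ Metric.isClosed_closedBall
    intro p hp
    rw [mem_closedBall_iff_norm]
    by_contra h
    exact hp (phi_eq_zero c w hw p (not_le.1 h))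
  refine ⟨contDiff_phi c w, ?_, ?_⟩
  · exact (isCompact_closedBall c (3 / 4 * w)).of_isClosed_subset (isClosed_tsupport _) hs
  · rw [cube_eq]
    exact hs.trans (Metric.closedBall_subset_ball (by linarith))

theorem volume_cube (c : P) (w : ℝ) (hw : 0 < w) : (volume (cube c w)).toReal = 8 * w ^ 3 := by
  unfold cube
  rw [Measure.volume_eq_prod, Measure.prod_prod, Measure.volume_eq_prod, Measure.prod_prod,
    Real.volume_Ioo, Real.volume_Ioo, Real.volume_Ioo, ENNReal.toReal_mul, ENNReal.toReal_mul,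
    ENNReal.toReal_ofReal (by linarith), ENNReal.toReal_ofReal (by linarith),
    ENNReal.toReal_ofReal (by linarith)]
  ring

theorem integral_le_cube (c : P) (w : ℝ) (hw : 0 < w) (F : P → ℝ) (k : ℝ)
    (h0 : ∀ p, 0 ≤ F p) (h1 : ∀ p, F p ≤ k) (h2 : ∀ p, p ∉ cube c w → F p = 0) :
    ∫ p, F p ≤ k * (8 * w ^ 3) := by
  have hm : MeasurableSet (cube c w) := by
    rw [cube_eq]; exact measurableSet_ball
  have hf : volume (cube c w) ≠ ⊤ := by
    rw [cube_eq]; exact measure_ball_lt_top.ne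
  calc ∫ p, F p ≤ ∫ p, (cube c w).indicator (fun _ => k) p := by
        apply integral_mono_of_nonneg (Filter.Eventually.of_forall h0)
        · exact (integrable_indicator_iff hm).2 (integrableOn_const hf)
        · refine Filter.Eventually.of_forall fun p => ?_
          by_cases hp : p ∈ cube c w
          · simpa [Set.indicator_of_mem hp] using h1 p
          · simpa [Set.indicator_of_notMem hp] using (h2 p hp).le
    _ = k * (8 * w ^ 3) := by
        rw [integral_indicator hm, setIntegral_const, smul_eq_mul, Measure.real,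
          volume_cube c w hw]
        ring

theorem norm_e1 : ‖((1, 0, 0) : P)‖ ≤ 1 := by
  simp [Prod.norm_def]

theorem norm_e2 : ‖((0, 1, 0) : P)‖ ≤ 1 := by
  simp [Prod.norm_def]

theorem norm_e3 : ‖((0, 0, 1) : P)‖ ≤ 1 := by
  simp [Prod.norm_def]

theorem gb_le (c : P) (w : ℝ) (hw : 0 < w) (K : ℝ) (hK : ∀ p, ‖fderiv ℝ beta p‖ ≤ K) (p : P) :
    gb (phi c w) (phi c w) p ≤ 3 * K ^ 2 / w ^ 2 := by
  have key : ∀ v : P, ‖v‖ ≤ 1 → fderiv ℝ (phi c w) p v * fderiv ℝ (phi c w) p v ≤ K ^ 2 / w ^ 2 := by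
    intro v hv
    rw [fderiv_phi]
    have h1 : |fderiv ℝ beta (A c w p) v| ≤ K := by
      rw [← Real.norm_eq_abs]
      refine (ContinuousLinearMap.le_opNorm _ _).trans ?_
      calc ‖fderiv ℝ beta (A c w p)‖ * ‖v‖ ≤ ‖fderiv ℝ beta (A c w p)‖ * 1 :=
            mul_le_mul_of_nonneg_left hv (norm_nonneg _)
        _ ≤ K := by rw [mul_one]; exact hK _
    have h2 : fderiv ℝ beta (A c w p) v ^ 2 ≤ K ^ 2 := by
      rw [← sq_abs]
      exact pow_le_pow_left₀ (abs_nonneg _) h1 2
    calc w⁻¹ * fderiv ℝ beta (A c w p) v * (w⁻¹ * fderiv ℝ beta (A c w p) v)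
        = fderiv ℝ beta (A c w p) v ^ 2 / w ^ 2 := by
          field_simp
      _ ≤ K ^ 2 / w ^ 2 := by gcongr
  have e : 3 * K ^ 2 / w ^ 2 = K ^ 2 / w ^ 2 + K ^ 2 / w ^ 2 + K ^ 2 / w ^ 2 := by ring
  rw [e]
  unfold gb dx dy dz
  exact add_le_add (add_le_add (key _ norm_e1) (key _ norm_e2)) (key _ norm_e3)

theorem gb_nonneg (f : P → ℝ) (p : P) : 0 ≤ gb f f p := by
  unfold gb
  have h1 := mul_self_nonneg (dx f p)
  have h2 := mul_self_nonneg (dy f p)
  have h3 := mul_self_nonneg (dz f p)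
  linarith

theorem not_mem_cube (c : P) (w : ℝ) (hw : 0 < w) (p : P) (hp : p ∉ cube c w) :
    3 / 4 * w < ‖p - c‖ := by
  rw [cube_eq, mem_ball_iff_norm, not_lt] at hp
  linarith

theorem gb_eq_zero (c : P) (w : ℝ) (hw : 0 < w) (p : P) (hp : p ∉ cube c w) :
    gb (phi c w) (phi c w) p = 0 := by
  have h := fderiv_beta_eq_zero c w hw p (not_mem_cube c w hw p hp)
  unfold gb dx dy dz
  simp only [fderiv_phi, h]
  simp

theorem win_phi (c : P) (w : ℝ) (hw : 0 < w) : w ^ 2 / 4 ≤ win c w (phi c w) := by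
  have hcont : Continuous (fun q : ℝ × ℝ => phi c w (q.1, q.2, c.2.2)) :=
    (contDiff_phi c w).continuous.comp (by fun_prop)
  set small : Set (ℝ × ℝ) :=
    Ioo (c.1 - w / 4) (c.1 + w / 4) ×ˢ Ioo (c.2.1 - w / 4) (c.2.1 + w / 4) with hsmall
  set big : Set (ℝ × ℝ) := Ioo (c.1 - w) (c.1 + w) ×ˢ Ioo (c.2.1 - w) (c.2.1 + w) with hbig
  have hsub : small ⊆ big := by
    apply prod_mono
    · exact Ioo_subset_Ioo (by linarith) (by linarith)
    · exact Ioo_subset_Ioo (by linarith) (by linarith)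
  have hm : MeasurableSet small := measurableSet_Ioo.prod measurableSet_Ioo
  have hint : IntegrableOn (fun q : ℝ × ℝ => phi c w (q.1, q.2, c.2.2)) big :=
    (hcont.continuousOn.integrableOn_compact (isCompact_Icc.prod isCompact_Icc)).mono_set
      (prod_mono Ioo_subset_Icc_self Ioo_subset_Icc_self)
  have h1 : ∫ q in small, phi c w (q.1, q.2, c.2.2) = w ^ 2 / 4 := by
    have h2 : ∫ q in small, phi c w (q.1, q.2, c.2.2) = ∫ q in small, (1 : ℝ) := by
      apply setIntegral_congr_fun hm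
      rintro ⟨x, y⟩ ⟨hx, hy⟩
      simp only [mem_Ioo] at hx hy
      apply phi_eq_one c w hw
      rw [Prod.norm_def, Prod.norm_def]
      simp only [Prod.fst_sub, Prod.snd_sub, sub_self, Real.norm_eq_abs, abs_zero]
      refine max_le (abs_le.2 ⟨by linarith, by linarith⟩)
        (max_le (abs_le.2 ⟨by linarith, by linarith⟩) (by linarith))
    rw [h2, setIntegral_const, smul_eq_mul, Measure.real, hsmall, Measure.volume_eq_prod,
      Measure.prod_prod, Real.volume_Ioo, Real.volume_Ioo, ENNReal.toReal_mul,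
      ENNReal.toReal_ofReal (by linarith), ENNReal.toReal_ofReal (by linarith)]
    ring
  rw [← h1]
  exact setIntegral_mono_set hint (Filter.Eventually.of_forall fun q => phi_nonneg c w _)
    (Filter.Eventually.of_forall hsub)

end Bump

open Bump in
theorem taskBUMP : TaskBUMP := by
  have hcs : HasCompactSupport (fderiv ℝ (beta : P → ℝ)) := beta.hasCompactSupport.fderiv ℝ
  have hc : Continuous (fderiv ℝ (beta : P → ℝ)) :=
    (beta.contDiff (n := 1)).continuous_fderiv (by norm_num)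
  obtain ⟨K, hK⟩ := hc.bounded_above_of_compact_support hcs
  refine ⟨24 * K ^ 2 + 8, by positivity, fun c w hw => ⟨phi c w, phi_mem c w hw, ?_, ?_, ?_⟩⟩
  · have h := win_phi c w hw
    have h0 : 0 ≤ win c w (phi c w) := le_trans (by positivity) h
    nlinarith [sq_nonneg K, mul_nonneg (sq_nonneg K) h0]
  · have h : En (phi c w) ≤ 3 * K ^ 2 / w ^ 2 * (8 * w ^ 3) :=
      integral_le_cube c w hw _ _ (gb_nonneg _) (gb_le c w hw K hK) (gb_eq_zero c w hw)
    have e : 3 * K ^ 2 / w ^ 2 * (8 * w ^ 3) = 24 * K ^ 2 * w := by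
      field_simp
      ring
    rw [e] at h
    nlinarith
  · have h : Ms (phi c w) ≤ 1 * (8 * w ^ 3) := by
      apply integral_le_cube c w hw
      · intro p; exact mul_self_nonneg _
      · intro p
        have h1 := phi_nonneg c w p
        have h2 := phi_le_one c w p
        nlinarith
      · intro p hp
        rw [phi_eq_zero c w hw p (not_mem_cube c w hw p hp)]
        simp
    have : 0 ≤ K ^ 2 * w ^ 3 := by positivity
    nlinarith

end Pool.Agent.H456R3.Mult
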