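import Pool.Agent.H456R3.Mult.Stmts

/-! Basic facts on `Dc`, `Eb`, `Mb` (project H456-MULT). -/

open MeasureTheory Set
open scoped ContDiff

set_option autoImplicit false

noncomputable section

namespace Pool.Agent.H456R3.Mult

lemma Dc_mono {Ω Ω' : Set P} (h : Ω ⊆ Ω') {f : P → ℝ} (hf : f ∈ Dc Ω) : f ∈ Dc Ω' :=
  ⟨hf.1, hf.2.1, hf.2.2.trans h⟩

lemma Dc_univ {Ω : Set P} {f : P → ℝ} (hf : f ∈ Dc Ω) : f ∈ Dc univ := Dc_mono (subset_univ _) hf

lemma Dc_zero_of_notMem {Ω : Set P} {f : P → ℝ} (hf : f ∈ Dc Ω) {p : P} (hp : p ∉ Ω) : f p = 0 :=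
  image_eq_zero_of_notMem_tsupport fun h => hp (hf.2.2 h)

lemma Dc_mk {f : P → ℝ} {Ω : Set P} (h1 : ContDiff ℝ ∞ f) (h2 : HasCompactSupport f)
    (h3 : tsupport f ⊆ Ω) : f ∈ Dc Ω := ⟨h1, h2, h3⟩

lemma Dc_diff {Ω : Set P} {f : P → ℝ} (hf : f ∈ Dc Ω) : Differentiable ℝ f :=
  hf.1.differentiable (by simp)

/-- multiplication by a smooth function -/
lemma Dc_mul {Ω : Set P} {f χ : P → ℝ} (hχ : ContDiff ℝ ∞ χ) (hf : f ∈ Dc Ω) :
    (fun p => χ p * f p) ∈ Dc Ω := by
  refine ⟨hχ.mul hf.1, hf.2.1.mul_left (f := χ), ?_⟩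
  exact (tsupport_mul_subset_right (f := χ) (g := f)).trans hf.2.2

lemma contDiff_fderiv_apply {f : P → ℝ} (hf : ContDiff ℝ ∞ f) (v : P) :
    ContDiff ℝ ∞ (fun p => fderiv ℝ f p v) :=
  (hf.fderiv_right (m := ∞) (by simp)).clm_apply contDiff_const

lemma smooth_dx {f : P → ℝ} (hf : ContDiff ℝ ∞ f) : ContDiff ℝ ∞ (dx f) :=
  contDiff_fderiv_apply hf _
lemma smooth_dy {f : P → ℝ} (hf : ContDiff ℝ ∞ f) : ContDiff ℝ ∞ (dy f) :=
  contDiff_fderiv_apply hf _
lemma smooth_dz {f : P → ℝ} (hf : ContDiff ℝ ∞ f) : ContDiff ℝ ∞ (dz f) :=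
  contDiff_fderiv_apply hf _

lemma Dc_fderiv_apply {Ω : Set P} {f : P → ℝ} (hf : f ∈ Dc Ω) (v : P) :
    (fun p => fderiv ℝ f p v) ∈ Dc Ω := by
  refine ⟨contDiff_fderiv_apply hf.1 v, ?_, ?_⟩
  · exact hf.2.1.fderiv_apply ℝ v
  · exact (tsupport_fderiv_apply_subset ℝ v).trans hf.2.2

lemma Dc_dx {Ω : Set P} {f : P → ℝ} (hf : f ∈ Dc Ω) : dx f ∈ Dc Ω := Dc_fderiv_apply hf _
lemma Dc_dy {Ω : Set P} {f : P → ℝ} (hf : f ∈ Dc Ω) : dy f ∈ Dc Ω := Dc_fderiv_apply hf _
lemma Dc_dz {Ω : Set P} {f : P → ℝ} (hf : f ∈ Dc Ω) : dz f ∈ Dc Ω := Dc_fderiv_apply hf _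

lemma dx_add {f g : P → ℝ} (hf : Differentiable ℝ f) (hg : Differentiable ℝ g) (p : P) :
    dx (f + g) p = dx f p + dx g p := by
  simp [dx, fderiv_add (hf p) (hg p)]
lemma dy_add {f g : P → ℝ} (hf : Differentiable ℝ f) (hg : Differentiable ℝ g) (p : P) :
    dy (f + g) p = dy f p + dy g p := by
  simp [dy, fderiv_add (hf p) (hg p)]
lemma dz_add {f g : P → ℝ} (hf : Differentiable ℝ f) (hg : Differentiable ℝ g) (p : P) :
    dz (f + g) p = dz f p + dz g p := by
  simp [dz, fderiv_add (hf p) (hg p)]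

lemma dx_smul {f : P → ℝ} (c : ℝ) (hf : Differentiable ℝ f) (p : P) :
    dx (c • f) p = c * dx f p := by
  simp [dx, fderiv_const_smul (hf p) c]
lemma dy_smul {f : P → ℝ} (c : ℝ) (hf : Differentiable ℝ f) (p : P) :
    dy (c • f) p = c * dy f p := by
  simp [dy, fderiv_const_smul (hf p) c]
lemma dz_smul {f : P → ℝ} (c : ℝ) (hf : Differentiable ℝ f) (p : P) :
    dz (c • f) p = c * dz f p := by
  simp [dz, fderiv_const_smul (hf p) c]

lemma dx_mul {f g : P → ℝ} (hf : Differentiable ℝ f) (hg : Differentiable ℝ g) (p : P) :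
    dx (fun q => f q * g q) p = dx f p * g p + f p * dx g p := by
  simp only [dx]
  rw [fderiv_fun_mul (hf p) (hg p)]
  simp; ring
lemma dy_mul {f g : P → ℝ} (hf : Differentiable ℝ f) (hg : Differentiable ℝ g) (p : P) :
    dy (fun q => f q * g q) p = dy f p * g p + f p * dy g p := by
  simp only [dy]
  rw [fderiv_fun_mul (hf p) (hg p)]
  simp; ring
lemma dz_mul {f g : P → ℝ} (hf : Differentiable ℝ f) (hg : Differentiable ℝ g) (p : P) :
    dz (fun q => f q * g q) p = dz f p * g p + f p * dz g p := by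
  simp only [dz]
  rw [fderiv_fun_mul (hf p) (hg p)]
  simp; ring

lemma gb_comm (f g : P → ℝ) (p : P) : gb f g p = gb g f p := by simp only [gb]; ring

lemma gb_self_nonneg (f : P → ℝ) (p : P) : 0 ≤ gb f f p := by
  simp only [gb]; nlinarith [mul_self_nonneg (dx f p), mul_self_nonneg (dy f p), mul_self_nonneg (dz f p)]

/-- integrability of (compactly supported smooth) × (continuous) -/
lemma int_mul_right {Ω : Set P} {f g : P → ℝ} (hf : f ∈ Dc Ω) (hg : Continuous g) :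
    Integrable (fun p => f p * g p) := by
  refine (hf.1.continuous.mul hg).integrable_of_hasCompactSupport ?_
  exact hf.2.1.mul_right (f' := g)

lemma int_mul_left {Ω : Set P} {f g : P → ℝ} (hf : f ∈ Dc Ω) (hg : Continuous g) :
    Integrable (fun p => g p * f p) := by
  simpa [mul_comm] using int_mul_right hf hg

lemma int_Dc {Ω : Set P} {f : P → ℝ} (hf : f ∈ Dc Ω) : Integrable f :=
  hf.1.continuous.integrable_of_hasCompactSupport hf.2.1

lemma int_sq {Ω : Set P} {f : P → ℝ} (hf : f ∈ Dc Ω) : Integrable (fun p => f p ^ 2) := by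
  simpa [pow_two] using int_mul_right hf hf.1.continuous

lemma int_gb {Ω : Set P} {f g : P → ℝ} (hf : f ∈ Dc Ω) (hg : ContDiff ℝ ∞ g) :
    Integrable (gb f g) :=
  ((int_mul_right (Dc_dx hf) (smooth_dx hg).continuous).add
    (int_mul_right (Dc_dy hf) (smooth_dy hg).continuous)).add
    (int_mul_right (Dc_dz hf) (smooth_dz hg).continuous)

lemma int_gb' {Ω : Set P} {f g : P → ℝ} (hf : f ∈ Dc Ω) (hg : ContDiff ℝ ∞ g) :
    Integrable (gb g f) := by
  have := int_gb hf hg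
  exact this.congr (Filter.Eventually.of_forall fun p => gb_comm f g p)

lemma Eb_comm (f g : P → ℝ) : Eb f g = Eb g f := by
  simp only [Eb]; exact integral_congr_ae (Filter.Eventually.of_forall fun p => gb_comm f g p)
lemma Mb_comm (f g : P → ℝ) : Mb f g = Mb g f := by
  simp only [Mb]; exact integral_congr_ae (Filter.Eventually.of_forall fun p => mul_comm _ _)

lemma gb_add_left {f g h : P → ℝ} (hf : Differentiable ℝ f) (hg : Differentiable ℝ g) (p : P) :
    gb (f + g) h p = gb f h p + gb g h p := by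
  simp only [gb, dx_add hf hg, dy_add hf hg, dz_add hf hg]; ring

lemma gb_smul_left {f h : P → ℝ} (c : ℝ) (hf : Differentiable ℝ f) (p : P) :
    gb (c • f) h p = c * gb f h p := by
  simp only [gb, dx_smul c hf, dy_smul c hf, dz_smul c hf]; ring

lemma Eb_add_left {Ω : Set P} {f g h : P → ℝ} (hf : f ∈ Dc Ω) (hg : g ∈ Dc Ω)
    (hh : ContDiff ℝ ∞ h) : Eb (f + g) h = Eb f h + Eb g h := by
  simp only [Eb]
  rw [← integral_add (int_gb hf hh) (int_gb hg hh)]
  exact integral_congr_ae (Filter.Eventually.of_forall fun p => gb_add_left (Dc_diff hf) (Dc_diff hg) p)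

lemma Eb_smul_left {Ω : Set P} {f h : P → ℝ} (c : ℝ) (hf : f ∈ Dc Ω) :
    Eb (c • f) h = c * Eb f h := by
  simp only [Eb]
  rw [← integral_const_mul]
  exact integral_congr_ae (Filter.Eventually.of_forall fun p => gb_smul_left c (Dc_diff hf) p)

lemma Mb_add_left {Ω : Set P} {f g h : P → ℝ} (hf : f ∈ Dc Ω) (hg : g ∈ Dc Ω)
    (hh : Continuous h) : Mb (f + g) h = Mb f h + Mb g h := by
  simp only [Mb]
  rw [← integral_add (int_mul_right hf hh) (int_mul_right hg hh)]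
  exact integral_congr_ae (Filter.Eventually.of_forall fun p => by simp [add_mul])

lemma Mb_smul_left {f h : P → ℝ} (c : ℝ) : Mb (c • f) h = c * Mb f h := by
  simp only [Mb]
  rw [← integral_const_mul]
  exact integral_congr_ae (Filter.Eventually.of_forall fun p => by simp [mul_assoc])

/-- the energy as a bilinear form -/
def EbL (Ω : Set P) : Dc Ω →ₗ[ℝ] Dc Ω →ₗ[ℝ] ℝ :=
  LinearMap.mk₂ ℝ (fun f g => Eb (f : P → ℝ) (g : P → ℝ))
    (fun f g h => Eb_add_left f.2 g.2 h.2.1)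
    (fun c f h => Eb_smul_left c f.2)
    (fun f g h => by
      change Eb (f : P → ℝ) ((g : P → ℝ) + (h : P → ℝ)) = _
      rw [Eb_comm, Eb_add_left g.2 h.2 f.2.1, Eb_comm _ (f : P → ℝ), Eb_comm _ (f : P → ℝ)])
    (fun c f h => by
      change Eb (f : P → ℝ) (c • (h : P → ℝ)) = _
      rw [Eb_comm, Eb_smul_left c h.2, Eb_comm]; rfl)

/-- the mass as a bilinear form -/
def MbL (Ω : Set P) : Dc Ω →ₗ[ℝ] Dc Ω →ₗ[ℝ] ℝ :=
  LinearMap.mk₂ ℝ (fun f g => Mb (f : P → ℝ) (g : P → ℝ))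
    (fun f g h => Mb_add_left f.2 g.2 h.2.1.continuous)
    (fun c f h => Mb_smul_left c)
    (fun f g h => by
      change Mb (f : P → ℝ) ((g : P → ℝ) + (h : P → ℝ)) = _
      rw [Mb_comm, Mb_add_left g.2 h.2 f.2.1.continuous, Mb_comm _ (f : P → ℝ),
        Mb_comm _ (f : P → ℝ)])
    (fun c f h => by
      change Mb (f : P → ℝ) (c • (h : P → ℝ)) = _
      rw [Mb_comm, Mb_smul_left c, Mb_comm]; rfl)

@[simp] lemma EbL_apply {Ω : Set P} (f g : Dc Ω) : EbL Ω f g = Eb (f : P → ℝ) (g : P → ℝ) := rfl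
@[simp] lemma MbL_apply {Ω : Set P} (f g : Dc Ω) : MbL Ω f g = Mb (f : P → ℝ) (g : P → ℝ) := rfl

lemma En_nonneg (f : P → ℝ) : 0 ≤ En f := integral_nonneg fun p => gb_self_nonneg f p
lemma Ms_nonneg (f : P → ℝ) : 0 ≤ Ms f := integral_nonneg fun p => mul_self_nonneg (f p)

/-- Cauchy-Schwarz for a positive semidefinite symmetric form on a real vector space -/
lemma cs_form {V : Type*} [AddCommGroup V] [Module ℝ V] (B : V →ₗ[ℝ] V →ₗ[ℝ] ℝ)
    (hs : ∀ x y, B x y = B y x) (hp : ∀ x, 0 ≤ B x x) (x y : V) :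
    |B x y| ≤ √(B x x) * √(B y y) := by
  have key : (B x y) ^ 2 ≤ B x x * B y y := by
    have h : ∀ t : ℝ, 0 ≤ B y y * (t * t) + (2 * B x y) * t + B x x := by
      intro t
      have := hp (x + t • y)
      simp only [map_add, LinearMap.add_apply, map_smul, LinearMap.smul_apply, smul_eq_mul] at this
      rw [hs y x] at this
      linarith
    have hd := discrim_le_zero h
    simp only [discrim] at hd
    nlinarith
  rw [← Real.sqrt_mul (hp x), ← Real.sqrt_sq_eq_abs]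
  exact Real.sqrt_le_sqrt key

lemma Eb_cs {Ω : Set P} {f g : P → ℝ} (hf : f ∈ Dc Ω) (hg : g ∈ Dc Ω) :
    |Eb f g| ≤ √(En f) * √(En g) :=
  cs_form (EbL Ω) (fun x y => Eb_comm _ _) (fun x => En_nonneg _) ⟨f, hf⟩ ⟨g, hg⟩

lemma Mb_cs {Ω : Set P} {f g : P → ℝ} (hf : f ∈ Dc Ω) (hg : g ∈ Dc Ω) :
    |Mb f g| ≤ √(Ms f) * √(Ms g) :=
  cs_form (MbL Ω) (fun x y => Mb_comm _ _) (fun x => Ms_nonneg _) ⟨f, hf⟩ ⟨g, hg⟩

/-- the form `B = Eb - E0 Mb` -/
def BEL (M : ℝ) (Ω : Set P) : Dc Ω →ₗ[ℝ] Dc Ω →ₗ[ℝ] ℝ := EbL Ω - E0 M • MbL Ω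

@[simp] lemma BEL_apply {M : ℝ} {Ω : Set P} (f g : Dc Ω) :
    BEL M Ω f g = BE M (f : P → ℝ) (g : P → ℝ) := by
  simp [BEL, BE]

lemma BE_comm (M : ℝ) (f g : P → ℝ) : BE M f g = BE M g f := by
  simp only [BE, Eb_comm f g, Mb_comm f g]

/-- `f ↦ b.l f` is linear -/
lemma continuous_ef (b : Box) : Continuous b.ef := by
  unfold Box.ef
  fun_prop

lemma contDiff_ef (b : Box) : ContDiff ℝ ∞ b.ef := by
  unfold Box.ef
  have h1 : ContDiff ℝ ∞ (fun p : P => p.1) := contDiff_fst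
  have h2 : ContDiff ℝ ∞ (fun p : P => p.2.1) := contDiff_fst.comp contDiff_snd
  have h3 : ContDiff ℝ ∞ (fun p : P => p.2.2) := contDiff_snd.comp contDiff_snd
  refine contDiff_const.mul (((Real.contDiff_sin.comp ?_).mul (Real.contDiff_sin.comp ?_)).mul
    (Real.contDiff_sin.comp ?_))
  · exact (contDiff_const.mul (h1.sub contDiff_const)).div_const _
  · exact (contDiff_const.mul (h2.sub contDiff_const)).div_const _
  · exact (contDiff_const.mul (h3.sub contDiff_const)).div_const _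

lemma int_ef_mul (b : Box) {Ω : Set P} {f : P → ℝ} (hf : f ∈ Dc Ω) :
    Integrable (fun p => b.ef p * f p) := int_mul_left hf (continuous_ef b)

def lL (b : Box) (Ω : Set P) : Dc Ω →ₗ[ℝ] ℝ where
  toFun f := b.l (f : P → ℝ)
  map_add' f g := by
    simp only [Box.l]
    rw [← integral_add ((int_ef_mul b f.2).integrableOn) ((int_ef_mul b g.2).integrableOn)]
    refine integral_congr_ae (Filter.Eventually.of_forall fun p => ?_)
    simp [mul_add]
  map_smul' c f := by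
    simp only [Box.l, RingHom.id_apply, smul_eq_mul]
    rw [← integral_const_mul]
    refine integral_congr_ae (Filter.Eventually.of_forall fun p => ?_)
    simp; ring

@[simp] lemma lL_apply (b : Box) {Ω : Set P} (f : Dc Ω) : lL b Ω f = b.l (f : P → ℝ) := rfl

/-- `f ↦ ∫_b ∇ef·∇f` -/
def gL (b : Box) (Ω : Set P) : Dc Ω →ₗ[ℝ] ℝ where
  toFun f := ∫ p in b.set, gb b.ef (f : P → ℝ) p
  map_add' f g := by
    rw [← integral_add ((int_gb' f.2 (contDiff_ef b)).integrableOn)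
      ((int_gb' g.2 (contDiff_ef b)).integrableOn)]
    refine integral_congr_ae (Filter.Eventually.of_forall fun p => ?_)
    simp only [gb_comm b.ef]
    exact gb_add_left (Dc_diff f.2) (Dc_diff g.2) p
  map_smul' c f := by
    simp only [RingHom.id_apply, smul_eq_mul]
    rw [← integral_const_mul]
    refine integral_congr_ae (Filter.Eventually.of_forall fun p => ?_)
    simp only [gb_comm b.ef]
    exact gb_smul_left c (Dc_diff f.2) p

@[simp] lemma gL_apply (b : Box) {Ω : Set P} (f : Dc Ω) :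
    gL b Ω f = ∫ p in b.set, gb b.ef (f : P → ℝ) p := rfl

/-- the boundary functional as a linear map -/
def LL (b : Box) (Ω : Set P) : Dc Ω →ₗ[ℝ] ℝ := b.mu • lL b Ω - gL b Ω

@[simp] lemma LL_apply (b : Box) {Ω : Set P} (f : Dc Ω) : LL b Ω f = b.L (f : P → ℝ) := by
  simp [LL, Box.L]

lemma slice_hcs {f : P → ℝ} (hf : HasCompactSupport f) (z : ℝ) :
    HasCompactSupport (fun q : ℝ × ℝ => f (q.1, q.2, z)) := by
  obtain ⟨R, hR⟩ := hf.isCompact.isBounded.subset_closedBall (0 : P)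
  refine HasCompactSupport.of_support_subset_isCompact (isCompact_closedBall (0 : ℝ × ℝ) R) ?_
  intro q hq
  have h1 : ((q.1, q.2, z) : P) ∈ tsupport f := subset_tsupport _ hq
  have h2 := hR h1
  simp only [Metric.mem_closedBall, dist_zero_right, Prod.norm_def] at h2 ⊢
  have h3 := max_le_iff.1 h2
  have h4 := max_le_iff.1 h3.2
  exact max_le h3.1 h4.1

lemma int_slice {Ω : Set P} {f : P → ℝ} (hf : f ∈ Dc Ω) (z : ℝ) :
    Integrable (fun q : ℝ × ℝ => f (q.1, q.2, z)) := by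
  refine Continuous.integrable_of_hasCompactSupport ?_ (slice_hcs hf.2.1 z)
  exact hf.1.continuous.comp (by fun_prop)

/-- the window functional as a linear map -/
def winL (c : P) (w : ℝ) (Ω : Set P) : Dc Ω →ₗ[ℝ] ℝ where
  toFun f := win c w (f : P → ℝ)
  map_add' f g := by
    simp only [win]
    rw [← integral_add ((int_slice f.2 _).integrableOn) ((int_slice g.2 _).integrableOn)]
    rfl
  map_smul' c' f := by
    simp only [win, RingHom.id_apply, smul_eq_mul]
    rw [← integral_const_mul]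
    rfl

@[simp] lemma winL_apply (c : P) (w : ℝ) {Ω : Set P} (f : Dc Ω) :
    winL c w Ω f = win c w (f : P → ℝ) := rfl

/-- `B(f, χ² f) = B(χ f, χ f) - ∫ |∇χ|² f²` -/
lemma BE_cutoff {Ω : Set P} {f χ : P → ℝ} (M : ℝ) (hf : f ∈ Dc Ω) (hχ : ContDiff ℝ ∞ χ) :
    BE M f (fun p => χ p ^ 2 * f p) =
      BE M (fun p => χ p * f p) (fun p => χ p * f p) - ∫ p, gb χ χ p * f p ^ 2 := by
  have hχd : Differentiable ℝ χ := hχ.differentiable (by simp)
  have hfd := Dc_diff hf
  have h1 : (fun p => χ p * f p) ∈ Dc Ω := Dc_mul hχ hf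
  have h2 : (fun p => χ p ^ 2 * f p) ∈ Dc Ω := Dc_mul (hχ.pow 2) hf
  have hsq : ∀ p, χ p ^ 2 * f p = χ p * (χ p * f p) := fun p => by ring
  have hpt : ∀ p, gb f (fun p => χ p ^ 2 * f p) p =
      gb (fun p => χ p * f p) (fun p => χ p * f p) p - gb χ χ p * f p ^ 2 := by
    intro p
    have e : (fun p => χ p ^ 2 * f p) = fun p => χ p * (χ p * f p) := funext hsq
    rw [e]
    have hfd1 : Differentiable ℝ (fun p => χ p * f p) := Dc_diff h1
    have ex := dx_mul hχd hfd p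
    have ey := dy_mul hχd hfd p
    have ez := dz_mul hχd hfd p
    have ex1 := dx_mul hχd hfd1 p
    have ey1 := dy_mul hχd hfd1 p
    have ez1 := dz_mul hχd hfd1 p
    simp only [gb]
    rw [ex1, ey1, ez1, ex, ey, ez]
    ring
  have hi : Integrable (fun p => gb χ χ p * f p ^ 2) := by
    have hc : Continuous (gb χ χ) :=
      (((smooth_dx hχ).continuous.mul (smooth_dx hχ).continuous).add
        ((smooth_dy hχ).continuous.mul (smooth_dy hχ).continuous)).add
        ((smooth_dz hχ).continuous.mul (smooth_dz hχ).continuous)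
    have := int_mul_left hf (hc.mul hf.1.continuous)
    exact this.congr (Filter.Eventually.of_forall fun p => by
      simp only [Pi.mul_apply]; ring)
  simp only [BE, Eb, Mb]
  rw [integral_congr_ae (Filter.Eventually.of_forall hpt), integral_sub (int_gb h1 h1.1) hi]
  have : ∀ p, f p * (χ p ^ 2 * f p) = χ p * f p * (χ p * f p) := fun p => by ring
  rw [integral_congr_ae (Filter.Eventually.of_forall this)]
  ring

end Pool.Agent.H456R3.Mult
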