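import Mathlib
import Pool.Agent.H456R3.Mult.Stmts

/-!
Project H456-MULT: the coercivity statement `TaskCOER`.
-/

open MeasureTheory Set
open scoped ContDiff

set_option autoImplicit false

noncomputable section

namespace Pool.Agent.H456R3.Mult.COER

open Pool.Agent.H456R3.Mult

/-! ### regularity and integrability -/

lemma cont_dir {f : P → ℝ} (hf : ContDiff ℝ ∞ f) (v : P) : Continuous fun p => fderiv ℝ f p v :=
  (hf.continuous_fderiv (by simp)).clm_apply continuous_const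

lemma cont_gb {f g : P → ℝ} (hf : ContDiff ℝ ∞ f) (hg : ContDiff ℝ ∞ g) : Continuous (gb f g) :=
  (((cont_dir hf _).mul (cont_dir hg _)).add ((cont_dir hf _).mul (cont_dir hg _))).add
    ((cont_dir hf _).mul (cont_dir hg _))

lemma gb_zero {f : P → ℝ} (g : P → ℝ) {p : P} (hp : fderiv ℝ f p = 0) : gb f g p = 0 := by
  simp [gb, dx, dy, dz, hp]

lemma gb_self_nonneg (f : P → ℝ) (p : P) : 0 ≤ gb f f p := by
  unfold gb; nlinarith [mul_self_nonneg (dx f p), mul_self_nonneg (dy f p),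
    mul_self_nonneg (dz f p)]

/-- a continuous function vanishing outside the support of a compactly supported one -/
lemma int_of {f F : P → ℝ} (hf : HasCompactSupport f) (hF : Continuous F)
    (h : ∀ p, p ∉ tsupport f → F p = 0) : Integrable F :=
  hF.integrable_of_hasCompactSupport (HasCompactSupport.intro hf.isCompact h)

lemma int_gb {Ω : Set P} {f : P → ℝ} (hf : f ∈ Dc Ω) : Integrable (gb f f) :=
  int_of hf.2.1 (cont_gb hf.1 hf.1) fun _ hp => gb_zero _ (fderiv_of_notMem_tsupport ℝ hp)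

lemma int_sq {Ω : Set P} {f : P → ℝ} (hf : f ∈ Dc Ω) : Integrable fun p => f p * f p :=
  int_of hf.2.1 (hf.1.continuous.mul hf.1.continuous) fun _ hp => by
    rw [image_eq_zero_of_notMem_tsupport hp]; simp

/-! ### the product of the cut-offs -/

lemma prod_cut {ι : Type} [DecidableEq ι] (t : Finset ι) (χ : ι → P → ℝ)
    (h1 : ∀ i, ContDiff ℝ ∞ (χ i)) (h2 : ∀ i p, 0 ≤ χ i p ∧ χ i p ≤ 1) (p : P) :
    gb (fun p => ∏ i ∈ t, χ i p) (fun p => ∏ i ∈ t, χ i p) p ≤
      (t.card : ℝ) * ∑ i ∈ t, gb (χ i) (χ i) p := by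
  have hd : ∀ v : P, fderiv ℝ (fun p => ∏ i ∈ t, χ i p) p v =
      ∑ i ∈ t, (∏ j ∈ t.erase i, χ j p) * fderiv ℝ (χ i) p v := by
    intro v
    have := fderiv_finsetProd (𝕜 := ℝ) (u := t) (g := χ) (x := p)
      (fun i _ => ((h1 i).differentiable (by simp)).differentiableAt)
    rw [this]
    simp
  have hc : ∀ i, 0 ≤ (∏ j ∈ t.erase i, χ j p) ∧ (∏ j ∈ t.erase i, χ j p) ≤ 1 := fun i =>
    ⟨Finset.prod_nonneg fun j _ => (h2 j p).1,
      Finset.prod_le_one (fun j _ => (h2 j p).1) fun j _ => (h2 j p).2⟩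
  have hs : ∀ v : P, (fderiv ℝ (fun p => ∏ i ∈ t, χ i p) p v) * 
      (fderiv ℝ (fun p => ∏ i ∈ t, χ i p) p v) ≤
      (t.card : ℝ) * ∑ i ∈ t, (fderiv ℝ (χ i) p v) * (fderiv ℝ (χ i) p v) := by
    intro v
    rw [hd v, ← sq]
    refine (sq_sum_le_card_mul_sum_sq (s := t)).trans ?_
    refine mul_le_mul_of_nonneg_left (Finset.sum_le_sum fun i _ => ?_) (by positivity)
    obtain ⟨a, b⟩ := hc i
    have : (∏ j ∈ t.erase i, χ j p) ^ 2 ≤ 1 := by nlinarith
    rw [mul_pow, ← sq]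
    nlinarith [sq_nonneg (fderiv ℝ (χ i) p v)]
  unfold gb dx dy dz
  have := hs (1, 0, 0)
  have := hs (0, 1, 0)
  have := hs (0, 0, 1)
  rw [Finset.sum_add_distrib, Finset.sum_add_distrib]
  linarith

lemma gb_mul_le {χ f : P → ℝ} (hχ : ContDiff ℝ ∞ χ) (hf : ContDiff ℝ ∞ f) {τ : ℝ} (hτ : 0 < τ)
    (h2 : ∀ p, 0 ≤ χ p ∧ χ p ≤ 1) (p : P) :
    gb (fun p => χ p * f p) (fun p => χ p * f p) p ≤
      (1 + τ) * gb f f p + (1 + 1 / τ) * (gb χ χ p * f p ^ 2) := by
  have hd : ∀ v : P, fderiv ℝ (fun p => χ p * f p) p v =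
      χ p * fderiv ℝ f p v + f p * fderiv ℝ χ p v := by
    intro v
    rw [fderiv_fun_mul ((hχ.differentiable (by simp)).differentiableAt)
      ((hf.differentiable (by simp)).differentiableAt)]
    simp
  have hs : ∀ v : P, (fderiv ℝ (fun p => χ p * f p) p v) * (fderiv ℝ (fun p => χ p * f p) p v) ≤
      (1 + τ) * (fderiv ℝ f p v * fderiv ℝ f p v) +
        (1 + 1 / τ) * (fderiv ℝ χ p v * fderiv ℝ χ p v * f p ^ 2) := by
    intro v
    rw [hd v]
    set a := fderiv ℝ f p v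
    set b := fderiv ℝ χ p v
    obtain ⟨c0, c1⟩ := h2 p
    set c := χ p
    have h3 : c ^ 2 ≤ 1 := by nlinarith
    have h4 : 0 ≤ (τ * (c * a) - f p * b) ^ 2 := sq_nonneg _
    have h5 : 2 * ((c * a) * (f p * b)) ≤ τ * (c * a) ^ 2 + 1 / τ * (f p * b) ^ 2 := by
      have : τ * (c * a) ^ 2 + 1 / τ * (f p * b) ^ 2 - 2 * ((c * a) * (f p * b)) =
        1 / τ * (τ * (c * a) - f p * b) ^ 2 := by field_simp; ring
      have h6 : 0 ≤ 1 / τ * (τ * (c * a) - f p * b) ^ 2 := by positivity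
      linarith
    have h7 : c ^ 2 * a ^ 2 ≤ a ^ 2 := by nlinarith [sq_nonneg a]
    nlinarith
  unfold gb dx dy dz
  have := hs (1, 0, 0)
  have := hs (0, 1, 0)
  have := hs (0, 0, 1)
  linarith

/-! ### splitting along disjoint open sets -/

lemma indicator_Dc {g : P → ℝ} {Ω U : Set P} (hg : g ∈ Dc Ω) (hU : IsOpen U)
    (hc : IsClosed (tsupport g ∩ U)) : U.indicator g ∈ Dc U := by
  have hts : tsupport (U.indicator g) ⊆ tsupport g ∩ U := by
    refine closure_minimal ?_ hc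
    intro p hp
    have hpU : p ∈ U := by
      by_contra h
      exact hp (indicator_of_notMem h g)
    refine ⟨subset_tsupport g ?_, hpU⟩
    intro h
    exact hp (by rw [indicator_of_mem hpU]; exact h)
  refine ⟨?_, ?_, fun p hp => (hts hp).2⟩
  · rw [contDiff_iff_contDiffAt]
    intro p
    by_cases hp : p ∈ U
    · refine (hg.1.contDiffAt (x := p)).congr_of_eventuallyEq ?_
      filter_upwards [hU.mem_nhds hp] with q hq
      exact indicator_of_mem hq g
    · have : U.indicator g =ᶠ[nhds p] fun _ => 0 := by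
        have h1 : (tsupport g ∩ U)ᶜ ∈ nhds p := hc.isOpen_compl.mem_nhds fun h => hp h.2
        filter_upwards [h1] with q hq
        by_cases hqU : q ∈ U
        · rw [indicator_of_mem hqU]
          exact image_eq_zero_of_notMem_tsupport fun h => hq ⟨h, hqU⟩
        · exact indicator_of_notMem hqU g
      exact contDiffAt_const.congr_of_eventuallyEq this
  · exact IsCompact.of_isClosed_subset hg.2.1 (isClosed_tsupport _)
      (hts.trans inter_subset_left)

lemma fderiv_indicator {g : P → ℝ} {U : Set P} (hU : IsOpen U)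
    {p : P} (hp : p ∈ U) : fderiv ℝ (U.indicator g) p = fderiv ℝ g p := by
  refine Filter.EventuallyEq.fderiv_eq ?_
  filter_upwards [hU.mem_nhds hp] with q hq
  exact indicator_of_mem hq g

lemma fderiv_indicator' {g : P → ℝ} {U : Set P}
    (hc : IsClosed (tsupport g ∩ U)) {p : P} (hp : p ∉ U) :
    fderiv ℝ (U.indicator g) p = 0 := by
  have : U.indicator g =ᶠ[nhds p] fun _ => 0 := by
    have h1 : (tsupport g ∩ U)ᶜ ∈ nhds p := hc.isOpen_compl.mem_nhds fun h => hp h.2
    filter_upwards [h1] with q hq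
    by_cases hqU : q ∈ U
    · rw [indicator_of_mem hqU]
      exact image_eq_zero_of_notMem_tsupport fun h => hq ⟨h, hqU⟩
    · exact indicator_of_notMem hqU g
  rw [this.fderiv_eq]
  simp

lemma split_Dc {ι : Type} [Fintype ι] (U : ι → Set P) (hU : ∀ v, IsOpen (U v))
    (hd : ∀ u v, u ≠ v → Disjoint (U u) (U v)) {Ω : Set P} {g : P → ℝ} (hg : g ∈ Dc Ω)
    (hs : tsupport g ⊆ ⋃ v, U v) :
    (∀ v, (U v).indicator g ∈ Dc (U v)) ∧ Ms g ≤ ∑ v, Ms ((U v).indicator g) ∧
      ∑ v, En ((U v).indicator g) ≤ En g := by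
  classical
  have hc : ∀ v, IsClosed (tsupport g ∩ U v) := by
    intro v
    have : tsupport g ∩ U v = tsupport g ∩ (⋃ u ∈ {u | u ≠ v}, U u)ᶜ := by
      ext p
      constructor
      · rintro ⟨h1, h2⟩
        refine ⟨h1, ?_⟩
        simp only [mem_compl_iff, mem_iUnion, not_exists]
        intro u hu hpu
        exact (Set.disjoint_left.1 (hd u v hu)) hpu h2
      · rintro ⟨h1, h2⟩
        refine ⟨h1, ?_⟩
        obtain ⟨u, hu⟩ := mem_iUnion.1 (hs h1)
        by_cases huv : u = v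
        · rwa [huv] at hu
        · exact absurd (mem_iUnion₂.2 ⟨u, huv, hu⟩) h2
    rw [this]
    exact (isClosed_tsupport g).inter (isOpen_biUnion fun u _ => hU u).isClosed_compl
  have hD : ∀ v, (U v).indicator g ∈ Dc (U v) := fun v => indicator_Dc hg (hU v) (hc v)
  refine ⟨hD, ?_, ?_⟩
  · unfold Ms Mb
    rw [← integral_finsetSum _ fun v _ => int_sq (hD v)]
    refine integral_mono (int_sq hg) (integrable_finsetSum _ fun v _ => int_sq (hD v)) ?_
    intro p
    by_cases hp : g p = 0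
    · simp only [hp, mul_zero]
      exact Finset.sum_nonneg fun v _ => mul_self_nonneg _
    · obtain ⟨u, hu⟩ := mem_iUnion.1 (hs (subset_tsupport g hp))
      have h1 : g p * g p = (U u).indicator g p * (U u).indicator g p := by
        rw [indicator_of_mem hu]
      simp only
      rw [h1]
      exact Finset.single_le_sum (f := fun v => (U v).indicator g p * (U v).indicator g p)
        (fun v _ => mul_self_nonneg _) (Finset.mem_univ u)
  · unfold En Eb
    rw [← integral_finsetSum _ fun v _ => int_gb (hD v)]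
    refine integral_mono (integrable_finsetSum _ fun v _ => int_gb (hD v)) (int_gb hg) ?_
    intro p
    simp only
    by_cases hp : ∃ u, p ∈ U u
    · obtain ⟨u, hu⟩ := hp
      rw [Finset.sum_eq_single u]
      · unfold gb dx dy dz
        rw [fderiv_indicator (hU u) hu]
      · intro v _ hv
        refine gb_zero _ (fderiv_indicator' (hc v) fun h => ?_)
        exact (Set.disjoint_left.1 (hd v u hv)) h hu
      · intro h
        exact absurd (Finset.mem_univ u) h
    · push Not at hp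
      rw [Finset.sum_eq_zero fun v _ => gb_zero _ (fderiv_indicator' (hc v) (hp v))]
      exact gb_self_nonneg g p

/-! ### Cauchy–Schwarz on a box -/

lemma cs {μ : Measure P} {u v : P → ℝ} (h1 : Integrable (fun p => u p * u p) μ)
    (h2 : Integrable (fun p => v p * v p) μ) (h3 : Integrable (fun p => u p * v p) μ) :
    (∫ p, u p * v p ∂μ) ^ 2 ≤ (∫ p, u p * u p ∂μ) * ∫ p, v p * v p ∂μ := by
  have h : ∀ t : ℝ, 0 ≤ (∫ p, u p * u p ∂μ) * (t * t) + (-2 * ∫ p, u p * v p ∂μ) * t +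
      ∫ p, v p * v p ∂μ := by
    intro t
    have e : (∫ p, (t * u p - v p) * (t * u p - v p) ∂μ) =
        (∫ p, u p * u p ∂μ) * (t * t) + (-2 * ∫ p, u p * v p ∂μ) * t + ∫ p, v p * v p ∂μ := by
      have e1 : (fun p => (t * u p - v p) * (t * u p - v p)) =
          fun p => (t * t) * (u p * u p) + (-2 * t) * (u p * v p) + v p * v p := by
        funext p; ring
      have i1 : Integrable (fun p => (t * t) * (u p * u p)) μ := h1.const_mul _
      have i2 : Integrable (fun p => (-2 * t) * (u p * v p)) μ := h3.const_mul _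
      have i3 : Integrable (fun p => (t * t) * (u p * u p) + (-2 * t) * (u p * v p)) μ := i1.add i2
      rw [e1, integral_add i3 h2, integral_add i1 i2, integral_const_mul, integral_const_mul]
      ring
    rw [← e]
    exact integral_nonneg fun p => mul_self_nonneg _
  have := discrim_le_zero h
  unfold discrim at this
  nlinarith

lemma box_int (b : Box) {F : P → ℝ} (hF : Continuous F) : IntegrableOn F b.set := by
  have : IsCompact (Icc b.a1 b.b1 ×ˢ Icc b.a2 b.b2 ×ˢ Icc b.a3 b.b3 : Set P) :=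
    isCompact_Icc.prod (isCompact_Icc.prod isCompact_Icc)
  refine (hF.continuousOn.integrableOn_compact this).mono_set ?_
  exact prod_mono Ioo_subset_Icc_self (prod_mono Ioo_subset_Icc_self Ioo_subset_Icc_self)

lemma ef_cont (b : Box) : Continuous b.ef := by
  unfold Box.ef
  fun_prop

lemma box_open (b : Box) : IsOpen b.set := isOpen_Ioo.prod (isOpen_Ioo.prod isOpen_Ioo)

lemma ef_sq (b : Box) (h1 : 0 < b.b1 - b.a1) (h2 : 0 < b.b2 - b.a2) (h3 : 0 < b.b3 - b.a3) :
    ∫ p in b.set, b.ef p * b.ef p ≤ 8 := by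
  have hV : 0 < (b.b1 - b.a1) * (b.b2 - b.a2) * (b.b3 - b.a3) := by positivity
  set V := (b.b1 - b.a1) * (b.b2 - b.a2) * (b.b3 - b.a3) with hVd
  have hvol : (volume b.set).toReal = V := by
    unfold Box.set
    rw [Measure.volume_eq_prod, Measure.prod_prod, Measure.volume_eq_prod, Measure.prod_prod,
      Real.volume_Ioo, Real.volume_Ioo, Real.volume_Ioo, ENNReal.toReal_mul, ENNReal.toReal_mul,
      ENNReal.toReal_ofReal h1.le, ENNReal.toReal_ofReal h2.le, ENNReal.toReal_ofReal h3.le]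
    ring
  have hb : ∀ p, b.ef p * b.ef p ≤ 8 / V := by
    intro p
    unfold Box.ef
    rw [← hVd]
    set s1 := Real.sin (Real.pi * (p.1 - b.a1) / (b.b1 - b.a1))
    set s2 := Real.sin (Real.pi * (p.2.1 - b.a2) / (b.b2 - b.a2))
    set s3 := Real.sin (Real.pi * (p.2.2 - b.a3) / (b.b3 - b.a3))
    have e1 : s1 ^ 2 ≤ 1 := Real.sin_sq_le_one _
    have e2 : s2 ^ 2 ≤ 1 := Real.sin_sq_le_one _
    have e3 : s3 ^ 2 ≤ 1 := Real.sin_sq_le_one _
    have e4 : √(8 / V) * √(8 / V) = 8 / V := Real.mul_self_sqrt (by positivity)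
    have e5 : s1 ^ 2 * s2 ^ 2 * s3 ^ 2 ≤ 1 := by
      have : s1 ^ 2 * s2 ^ 2 ≤ 1 := mul_le_one₀ e1 (sq_nonneg _) e2
      exact mul_le_one₀ this (sq_nonneg _) e3
    calc √(8 / V) * (s1 * s2 * s3) * (√(8 / V) * (s1 * s2 * s3)) =
        (√(8 / V) * √(8 / V)) * (s1 ^ 2 * s2 ^ 2 * s3 ^ 2) := by ring
      _ = (8 / V) * (s1 ^ 2 * s2 ^ 2 * s3 ^ 2) := by rw [e4]
      _ ≤ (8 / V) * 1 := mul_le_mul_of_nonneg_left e5 (by positivity)
      _ = 8 / V := by ring
  calc ∫ p in b.set, b.ef p * b.ef p ≤ ∫ p in b.set, (fun _ => 8 / V) p :=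
        setIntegral_mono_on (box_int b ((ef_cont b).mul (ef_cont b)))
          (box_int b continuous_const) (box_open b).measurableSet fun p _ => hb p
    _ = (volume b.set).toReal * (8 / V) := by
        rw [setIntegral_const]; simp [Measure.real]
    _ = 8 := by rw [hvol]; field_simp

lemma l_diff (b : Box) (h1 : 0 < b.b1 - b.a1) (h2 : 0 < b.b2 - b.a2) (h3 : 0 < b.b3 - b.a3)
    {f g : P → ℝ} (hf : Continuous f) (hg : Continuous g) {S : ℝ}
    (hS : ∫ p in b.set, (f p - g p) * (f p - g p) ≤ S) :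
    (b.l g) ^ 2 ≤ 2 * (b.l f) ^ 2 + 16 * S := by
  have e : b.l f - b.l g = ∫ p in b.set, b.ef p * (f p - g p) := by
    unfold Box.l
    have i1 : IntegrableOn (fun p => b.ef p * f p) b.set := box_int b ((ef_cont b).mul hf)
    have i2 : IntegrableOn (fun p => b.ef p * g p) b.set := box_int b ((ef_cont b).mul hg)
    rw [← integral_sub i1 i2]
    congr 1
    funext p
    ring
  have h4 : (b.l f - b.l g) ^ 2 ≤ 8 * S := by
    rw [e]
    refine (cs (box_int b ((ef_cont b).mul (ef_cont b)))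
      (box_int b ((hf.sub hg).mul (hf.sub hg)))
      (box_int b ((ef_cont b).mul (hf.sub hg)))).trans ?_
    have h5 := ef_sq b h1 h2 h3
    have h6 : 0 ≤ ∫ p in b.set, (f p - g p) * (f p - g p) :=
      integral_nonneg fun p => mul_self_nonneg _
    calc (∫ p in b.set, b.ef p * b.ef p) * ∫ p in b.set, (f p - g p) * (f p - g p) ≤
        8 * ∫ p in b.set, (f p - g p) * (f p - g p) := mul_le_mul_of_nonneg_right h5 h6
      _ ≤ 8 * S := by linarith
  nlinarith [sq_nonneg (b.l f + (b.l f - b.l g)), sq_nonneg (2 * b.l f - b.l g)]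

/-! ### the theorem -/

lemma Dc_mono {Ω Ω' : Set P} (h : Ω ⊆ Ω') {f : P → ℝ} (hf : f ∈ Dc Ω) : f ∈ Dc Ω' :=
  ⟨hf.1, hf.2.1, hf.2.2.trans h⟩

lemma cube_open (c : P) (r : ℝ) : IsOpen (cube c r) := isOpen_Ioo.prod (isOpen_Ioo.prod isOpen_Ioo)

lemma cube_mono (c : P) {r r' : ℝ} (h : r ≤ r') : cube c r ⊆ cube c r' :=
  prod_mono (Ioo_subset_Ioo (by linarith) (by linarith))
    (prod_mono (Ioo_subset_Ioo (by linarith) (by linarith))
      (Ioo_subset_Ioo (by linarith) (by linarith)))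

lemma arith {A B T' S D κ τ γ E V c1 c2 : ℝ} (hA : 0 ≤ A) (hB : 0 ≤ B) (hT : 0 ≤ T')
    (hκ : 0 < κ) (hE : 0 < E) (hV : 0 ≤ V) (hτ : 0 < τ) (hγ : 0 < γ) (hγ1 : γ ≤ 1)
    (hγ2 : γ * (2 * E + 3 * κ / 4 + 2) ≤ 3 * κ / 4) (hτγ : τ ≤ γ / 3)
    (hD : D ≤ c1 * A) (hc1 : (1 + 1 / τ) * c1 ≤ γ / 3) (hS : S ≤ c2 * A)
    (hc2 : (E + 3 * κ / 4 + 16 * κ * V) * c2 ≤ γ / 3)
    (hmain : (E + 3 * κ / 4) * (B - S) - κ * (2 * T' + 16 * V * S) ≤
      (1 + τ) * A + (1 + 1 / τ) * D) :
    γ * (A + B) ≤ (A - E * B) + 2 * κ * T' := by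
  have h1 : (1 + 1 / τ) * D ≤ γ / 3 * A := by
    have : (1 + 1 / τ) * D ≤ (1 + 1 / τ) * (c1 * A) :=
      mul_le_mul_of_nonneg_left hD (by positivity)
    have h2 : (1 + 1 / τ) * c1 * A ≤ γ / 3 * A := mul_le_mul_of_nonneg_right hc1 hA
    linarith
  have h2 : (E + 3 * κ / 4 + 16 * κ * V) * S ≤ γ / 3 * A := by
    have : (E + 3 * κ / 4 + 16 * κ * V) * S ≤ (E + 3 * κ / 4 + 16 * κ * V) * (c2 * A) :=
      mul_le_mul_of_nonneg_left hS (by positivity)
    have h2 : (E + 3 * κ / 4 + 16 * κ * V) * c2 * A ≤ γ / 3 * A :=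
      mul_le_mul_of_nonneg_right hc2 hA
    linarith
  have h3 : τ * A ≤ γ / 3 * A := mul_le_mul_of_nonneg_right hτγ hA
  have h4 : (E + 3 * κ / 4) * B - 2 * κ * T' ≤ (1 + γ) * A := by nlinarith
  have h5 : (1 - γ) * ((E + 3 * κ / 4) * B - 2 * κ * T') ≤ (1 - γ) * ((1 + γ) * A) :=
    mul_le_mul_of_nonneg_left h4 (by linarith)
  have h6 : 0 ≤ ((1 - γ) * (E + 3 * κ / 4) - (1 + γ) * (E + γ)) * B := by
    refine mul_nonneg ?_ hB
    nlinarith
  have h7 : 0 ≤ κ * γ * T' := by positivity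
  have h8 : 0 ≤ (1 + γ) * ((A - E * B) + 2 * κ * T' - γ * (A + B)) := by nlinarith
  have h9 : 0 ≤ (A - E * B) + 2 * κ * T' - γ * (A + B) := by
    by_contra h
    push Not at h
    have : (1 + γ) * ((A - E * B) + 2 * κ * T' - γ * (A + B)) < 0 :=
      mul_neg_of_pos_of_neg (by linarith) h
    linarith
  linarith

set_option maxHeartbeats 1000000 in
theorem taskCOER : TaskCOER := by
  intro hGAP hCUT hPO hGEO m n inc M hM hm hn
  obtain ⟨κ, hκ, hgap⟩ := hGAP (M + 1) (by linarith)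
  obtain ⟨C0, hC0, hcut⟩ := hCUT
  have hE : 0 < E0 M := by unfold E0; positivity
  set N : ℝ := (Fintype.card (Fin m × Fin n) : ℝ) with hN
  have hN0 : 0 ≤ N := by positivity
  set V : ℝ := (Fintype.card (Idx m n) : ℝ) with hV
  have hV0 : 0 ≤ V := by positivity
  obtain ⟨γ, hγ, hγ1, hγ2⟩ : ∃ γ : ℝ, 0 < γ ∧ γ ≤ 1 ∧
      γ * (2 * E0 M + 3 * κ / 4 + 2) ≤ 3 * κ / 4 := by
    refine ⟨(3 * κ / 4) / (2 * E0 M + 3 * κ / 4 + 2), by positivity, ?_, ?_⟩
    · rw [div_le_one (by positivity)]; linarith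
    · rw [div_mul_cancel₀ _ (by positivity)]
  set τ : ℝ := γ / 3 with hτd
  have hτ : 0 < τ := by positivity
  obtain ⟨K, hK1, hK⟩ : ∃ K : ℕ, 1 ≤ K ∧ (1 + 1 / τ) * (N * (N * (C0 / K))) ≤ γ / 3 := by
    obtain ⟨K, hK⟩ := exists_nat_gt ((1 + 1 / τ) * (N * (N * C0)) / (γ / 3))
    have hK0 : (0 : ℝ) < K := lt_of_le_of_lt (by positivity) hK
    refine ⟨K, by exact_mod_cast hK0, ?_⟩
    rw [div_lt_iff₀ (by positivity)] at hK
    have : (1 + 1 / τ) * (N * (N * (C0 / K))) = (1 + 1 / τ) * (N * (N * C0)) / K := by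
      field_simp
    rw [this, div_le_iff₀ hK0]
    linarith
  obtain ⟨ρ, hρ0, hρ1, hρ⟩ : ∃ ρ : ℝ, 0 < ρ ∧ ρ ≤ 1 / 4 ∧
      (E0 M + 3 * κ / 4 + 16 * κ * V) * (N * (12 * ρ ^ 2)) ≤ γ / 3 := by
    set Q := (E0 M + 3 * κ / 4 + 16 * κ * V) * (N * 12) with hQ
    have hQ0 : 0 ≤ Q := by positivity
    refine ⟨min (1 / 4) (γ / 3 / (Q + 1)), by positivity, min_le_left _ _, ?_⟩
    set ρ := min (1 / 4) (γ / 3 / (Q + 1))
    have h0 : 0 < ρ := by positivity
    have h1 : ρ ≤ 1 / 4 := min_le_left _ _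
    have h2 : ρ ≤ γ / 3 / (Q + 1) := min_le_right _ _
    rw [le_div_iff₀ (by positivity)] at h2
    have h3 : (E0 M + 3 * κ / 4 + 16 * κ * V) * (N * (12 * ρ ^ 2)) = Q * ρ ^ 2 := by
      rw [hQ]; ring
    rw [h3]
    have h4 : ρ ^ 2 ≤ ρ := by nlinarith
    have h5 : Q * ρ ^ 2 ≤ Q * ρ := mul_le_mul_of_nonneg_left h4 hQ0
    nlinarith
  obtain ⟨δ0, hδ0, hδ1, hδ⟩ : ∃ δ0 : ℝ, 0 < δ0 ∧ δ0 ≤ 1 / 4 ∧ ∀ t : ℝ, |t - 1 / 2| ≤ δ0 →
      E0 M - κ / 4 ≤ Real.pi ^ 2 * (2 + 1 / (M + t) ^ 2) := by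
    have hc : ContinuousAt (fun t : ℝ => Real.pi ^ 2 * (2 + 1 / (M + t) ^ 2)) (1 / 2) := by
      refine ContinuousAt.mul continuousAt_const (continuousAt_const.add ?_)
      refine ContinuousAt.div continuousAt_const (by fun_prop) ?_
      have : 0 < M + 1 / 2 := by linarith
      positivity
    obtain ⟨δ, hδ, h⟩ := Metric.continuousAt_iff.1 hc (κ / 4) (by positivity)
    refine ⟨min (1 / 4) (δ / 2), by positivity, min_le_left _ _, fun t ht => ?_⟩
    have h1 : |t - 1 / 2| < δ := by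
      have := ht.trans (min_le_right _ _)
      linarith
    have h2 := h (x := t) (by rw [Real.dist_eq]; exact h1)
    rw [Real.dist_eq, abs_lt] at h2
    unfold E0
    linarith [h2.1]
  refine ⟨δ0, min (1 / 8) (ρ / 4 ^ K), γ, 2 * κ, hδ0, hδ1, by positivity, min_le_left _ _, hγ,
    by positivity, ?_⟩
  intro w hw hww s hs f hf
  have hw8 : w ≤ 1 / 8 := hww.trans (min_le_left _ _)
  have hwρ : 4 ^ K * w ≤ ρ := by
    have := hww.trans (min_le_right _ _)
    rw [le_div_iff₀ (by positivity)] at this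
    linarith
  have hs' : ∀ v, |s v - 1 / 2| ≤ 1 / 4 := fun v => (hs v).trans hδ1
  obtain ⟨-, -, gdis, -, -, gvan, -⟩ := hGEO m n inc M w s hM hm hn hw hw8 hs'
  have hfu : f ∈ Dc univ := Dc_mono (subset_univ _) hf
  -- Poincaré
  have hpoinc : ∀ (W : Fin m × Fin n) (r : ℝ), w ≤ r → r ≤ 1 / 4 →
      ∫ p in cube (ctr W.1 W.2) r, f p ^ 2 ≤
        12 * r ^ 2 * ∫ p in cube (ctr W.1 W.2) (3 * r), gb f f p := by
    intro W r hr hr'
    refine hPO f hfu _ r (by linarith) ?_
    intro x y h1 h2 h3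
    have h4 : (x, y, (1 : ℝ)) ∉ Om m n inc M w s := by
      refine gvan W.1 W.2 x y ?_ ?_ ?_
      · simp only [ctr] at h1; linarith
      · simp only [ctr] at h2; linarith
      · simp only [ctr] at h3; linarith
    exact image_eq_zero_of_notMem_tsupport fun h => h4 (hf.2.2 h)
  have hwK : w ≤ 4 ^ K * w := by
    have : (1 : ℝ) ≤ 4 ^ K := one_le_pow₀ (by norm_num)
    nlinarith
  set R := 4 ^ K * w with hR
  have hR4 : R ≤ 1 / 4 := hwρ.trans hρ1
  choose χ hχ1 hχ2 hχ3 hχ4 hχ5 using fun W : Fin m × Fin n => hcut K hK1 (ctr W.1 W.2) w hw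
  -- the cut-off
  set X : P → ℝ := fun p => ∏ W ∈ (Finset.univ : Finset (Fin m × Fin n)), χ W p with hX
  have hX1 : ContDiff ℝ ∞ X := contDiff_prod fun W _ => hχ1 W
  have hX2 : ∀ p, 0 ≤ X p ∧ X p ≤ 1 := fun p =>
    ⟨Finset.prod_nonneg fun W _ => (hχ2 W p).1,
      Finset.prod_le_one (fun W _ => (hχ2 W p).1) fun W _ => (hχ2 W p).2⟩
  have hX3 : ∀ W : Fin m × Fin n, ∀ p ∈ cube (ctr W.1 W.2) (2 * w), X p = 0 := fun W p hp =>
    Finset.prod_eq_zero (Finset.mem_univ W) (hχ3 W p hp)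
  have hX4 : ∀ p, (∀ W : Fin m × Fin n, p ∉ cube (ctr W.1 W.2) R) → X p = 1 := fun p hp =>
    Finset.prod_eq_one fun W _ => hχ4 W p (hp W)
  set g : P → ℝ := fun p => X p * f p with hg
  have hgD : g ∈ Dc (Om m n inc M w s) := by
    refine ⟨hX1.mul hf.1, hf.2.1.mul_left, ?_⟩
    exact (tsupport_mul_subset_right).trans hf.2.2
  have hgs : tsupport g ⊆ ⋃ v, (bar m n M s v).set := by
    intro p hp
    rcases hgD.2.2 hp with h | h
    · exact h
    · exfalso
      simp only [mem_iUnion] at h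
      obtain ⟨i, j, _, h⟩ := h
      have h1 : p ∈ cube (ctr i j) (2 * w) := cube_mono _ (by linarith) h
      refine (notMem_tsupport_iff_eventuallyEq.2 ?_) hp
      filter_upwards [(cube_open _ _).mem_nhds h1] with q hq
      simp only [hg]
      rw [hX3 (i, j) q hq]
      simp
  obtain ⟨sD, sM, sE⟩ := split_Dc (fun v => (bar m n M s v).set) (fun v => box_open _)
    gdis hgD hgs
  have hA : 0 ≤ En f := integral_nonneg fun p => gb_self_nonneg f p
  have hB : 0 ≤ Ms f := integral_nonneg fun p => mul_self_nonneg _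
  have hfc : Continuous f := hf.1.continuous
  have hgc : Continuous g := hgD.1.continuous
  -- the energy of `g`
  set D : ℝ := ∫ p, gb X X p * f p ^ 2 with hD
  have hiD : ∀ Y : P → ℝ, ContDiff ℝ ∞ Y → Integrable fun p => gb Y Y p * f p ^ 2 := by
    intro Y hY
    refine int_of hf.2.1 ((cont_gb hY hY).mul (hfc.pow 2)) fun p hp => ?_
    rw [image_eq_zero_of_notMem_tsupport hp]; simp
  have h1 : En g ≤ (1 + τ) * En f + (1 + 1 / τ) * D := by
    have e : (1 + τ) * En f + (1 + 1 / τ) * D =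
        ∫ p, ((1 + τ) * gb f f p + (1 + 1 / τ) * (gb X X p * f p ^ 2)) := by
      rw [integral_add ((int_gb hf).const_mul _) ((hiD X hX1).const_mul _),
        integral_const_mul, integral_const_mul]
      rfl
    rw [e]
    exact integral_mono (int_gb hgD) (((int_gb hf).const_mul _).add ((hiD X hX1).const_mul _))
      fun p => gb_mul_le hX1 hf.1 hτ hX2 p
  have h2 : D ≤ (N * (N * (C0 / K))) * En f := by
    have e1 : D ≤ ∫ p, N * ∑ W : Fin m × Fin n, gb (χ W) (χ W) p * f p ^ 2 := by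
      refine integral_mono (hiD X hX1)
        ((integrable_finsetSum _ fun W _ => hiD (χ W) (hχ1 W)).const_mul _) fun p => ?_
      have := prod_cut (Finset.univ : Finset (Fin m × Fin n)) χ hχ1 hχ2 p
      simp only
      rw [← Finset.sum_mul, ← mul_assoc]
      refine mul_le_mul_of_nonneg_right ?_ (sq_nonneg _)
      simpa [hX, hN, Finset.card_univ] using this
    have e2 : ∫ p, N * ∑ W : Fin m × Fin n, gb (χ W) (χ W) p * f p ^ 2 =
        N * ∑ W : Fin m × Fin n, ∫ p, gb (χ W) (χ W) p * f p ^ 2 := by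
      rw [integral_const_mul, integral_finsetSum _ fun W _ => hiD (χ W) (hχ1 W)]
    have e3 : ∑ W : Fin m × Fin n, ∫ p, gb (χ W) (χ W) p * f p ^ 2 ≤
        ∑ W : Fin m × Fin n, C0 / K * En f := by
      refine Finset.sum_le_sum fun W _ => hχ5 W f hfu fun r hr1 hr2 => ?_
      exact hpoinc W r hr1 (hr2.trans hR4)
    rw [Finset.sum_const, Finset.card_univ, nsmul_eq_mul, ← hN] at e3
    calc D ≤ N * ∑ W : Fin m × Fin n, ∫ p, gb (χ W) (χ W) p * f p ^ 2 := by rw [← e2]; exact e1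
      _ ≤ N * (N * (C0 / K * En f)) := mul_le_mul_of_nonneg_left e3 hN0
      _ = _ := by ring
  -- the mass near the windows
  set S : ℝ := ∑ W : Fin m × Fin n, ∫ p in cube (ctr W.1 W.2) R, f p ^ 2 with hS
  have h3 : S ≤ (N * (12 * ρ ^ 2)) * En f := by
    have e1 : S ≤ ∑ W : Fin m × Fin n, 12 * ρ ^ 2 * En f := by
      refine Finset.sum_le_sum fun W _ => (hpoinc W R hwK hR4).trans ?_
      have e2 : ∫ p in cube (ctr W.1 W.2) (3 * R), gb f f p ≤ En f :=
        setIntegral_le_integral (int_gb hf) (Filter.Eventually.of_forall fun p =>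
          gb_self_nonneg f p)
      have e3 : R ^ 2 ≤ ρ ^ 2 := pow_le_pow_left₀ (by positivity) hwρ 2
      exact mul_le_mul (by linarith) e2 (integral_nonneg fun p => gb_self_nonneg f p)
        (by positivity)
    rw [Finset.sum_const, Finset.card_univ, nsmul_eq_mul, ← hN] at e1
    linarith
  have hi2 : Integrable fun p => f p ^ 2 := by
    have := int_sq hf
    simpa [sq] using this
  have hiS : ∀ W : Fin m × Fin n,
      Integrable ((cube (ctr W.1 W.2) R).indicator fun p => f p ^ 2) := fun W =>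
    hi2.indicator (cube_open _ _).measurableSet
  have hSi : S = ∫ p, ∑ W : Fin m × Fin n,
      (cube (ctr W.1 W.2) R).indicator (fun p => f p ^ 2) p := by
    rw [integral_finsetSum _ fun W _ => hiS W]
    refine Finset.sum_congr rfl fun W _ => ?_
    rw [integral_indicator (cube_open _ _).measurableSet]
  have hn0 : ∀ (W : Fin m × Fin n) (p : P),
      0 ≤ (cube (ctr W.1 W.2) R).indicator (fun p => f p ^ 2) p := fun W p =>
    indicator_nonneg (fun q _ => sq_nonneg (f q)) p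
  have hpt : ∀ p, (X p = 1) ∨ f p ^ 2 ≤ ∑ W : Fin m × Fin n,
      (cube (ctr W.1 W.2) R).indicator (fun p => f p ^ 2) p := by
    intro p
    by_cases h : ∀ W : Fin m × Fin n, p ∉ cube (ctr W.1 W.2) R
    · exact Or.inl (hX4 p h)
    · right
      push Not at h
      obtain ⟨W, hW⟩ := h
      have e1 : f p ^ 2 = (cube (ctr W.1 W.2) R).indicator (fun p => f p ^ 2) p := by
        rw [indicator_of_mem hW]
      rw [e1]
      exact Finset.single_le_sum
        (f := fun W : Fin m × Fin n => (cube (ctr W.1 W.2) R).indicator (fun p => f p ^ 2) p)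
        (fun W _ => hn0 W p) (Finset.mem_univ W)
  have hsn : ∀ p, 0 ≤ ∑ W : Fin m × Fin n,
      (cube (ctr W.1 W.2) R).indicator (fun p => f p ^ 2) p := fun p =>
    Finset.sum_nonneg fun W _ => hn0 W p
  have h4 : Ms f ≤ Ms g + S := by
    rw [hSi]
    unfold Ms Mb
    rw [← integral_add (int_sq hgD) (integrable_finsetSum _ fun W _ => hiS W)]
    refine integral_mono (int_sq hf)
      ((int_sq hgD).add (integrable_finsetSum _ fun W _ => hiS W)) fun p => ?_
    simp only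
    rcases hpt p with h | h
    · have := hsn p
      simp only [hg, h]
      linarith
    · have h9 := mul_self_nonneg (g p)
      rw [sq] at h
      linarith only [h, h9]
  have h5' : ∀ v, ∫ p in (bar m n M s v).set, (f p - g p) * (f p - g p) ≤ S := by
    intro v
    have i1 : Integrable fun p => (f p - g p) * (f p - g p) := by
      refine int_of hf.2.1 ((hfc.sub hgc).mul (hfc.sub hgc)) fun p hp => ?_
      simp only [hg]
      rw [image_eq_zero_of_notMem_tsupport hp]; simp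
    refine (setIntegral_le_integral i1 (Filter.Eventually.of_forall fun p =>
      mul_self_nonneg _)).trans ?_
    rw [hSi]
    refine integral_mono i1 (integrable_finsetSum _ fun W _ => hiS W) fun p => ?_
    simp only
    rcases hpt p with h | h
    · have := hsn p
      simp only [hg, h]
      linarith
    · refine le_trans ?_ h
      obtain ⟨x0, x1⟩ := hX2 p
      simp only [hg]
      have : (f p - X p * f p) * (f p - X p * f p) = (1 - X p) ^ 2 * f p ^ 2 := by ring
      rw [this]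
      have : (1 - X p) ^ 2 ≤ 1 := pow_le_one₀ (by linarith only [x1]) (by linarith only [x0])
      exact mul_le_of_le_one_left (sq_nonneg _) this
  have hside : ∀ v, (1 ≤ (bar m n M s v).b1 - (bar m n M s v).a1 ∧
      (bar m n M s v).b1 - (bar m n M s v).a1 ≤ M + 1) ∧
      (1 ≤ (bar m n M s v).b2 - (bar m n M s v).a2 ∧
      (bar m n M s v).b2 - (bar m n M s v).a2 ≤ M + 1) ∧
      (1 ≤ (bar m n M s v).b3 - (bar m n M s v).a3 ∧
      (bar m n M s v).b3 - (bar m n M s v).a3 ≤ M + 1) ∧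
      (bar m n M s v).mu = Real.pi ^ 2 * (2 + 1 / (M + s v) ^ 2) := by
    intro v
    have := abs_le.1 (hs' v)
    rcases v with i | j
    · simp only [bar, Box.mu]
      refine ⟨⟨by linarith, by linarith⟩, ⟨by linarith, by linarith⟩,
        ⟨by linarith, by linarith⟩, ?_⟩
      have e1 : M - -s (Sum.inl i) = M + s (Sum.inl i) := by ring
      have e2 : 2 * ((i : ℕ) : ℝ) + 1 - 2 * ((i : ℕ) : ℝ) = 1 := by ring
      rw [e1, e2]; ring
    · simp only [bar, Box.mu]
      refine ⟨⟨by linarith, by linarith⟩, ⟨by linarith, by linarith⟩,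
        ⟨by linarith, by linarith⟩, ?_⟩
      have e1 : M - -s (Sum.inr j) = M + s (Sum.inr j) := by ring
      have e2 : 2 * ((j : ℕ) : ℝ) + 1 - 2 * ((j : ℕ) : ℝ) = 1 := by ring
      rw [e1, e2]; ring
  have h5 : ∀ v, ((bar m n M s v).l g) ^ 2 ≤ 2 * ((bar m n M s v).l f) ^ 2 + 16 * S := by
    intro v
    obtain ⟨⟨a1, -⟩, ⟨a2, -⟩, ⟨a3, -⟩, -⟩ := hside v
    exact l_diff _ (by linarith) (by linarith) (by linarith) hfc hgc (h5' v)
  have h6 : ∀ v, (E0 M + 3 * κ / 4) * Ms ((bar m n M s v).set.indicator g) -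
      κ * (2 * ((bar m n M s v).l f) ^ 2 + 16 * S) ≤ En ((bar m n M s v).set.indicator g) := by
    intro v
    obtain ⟨⟨a1, b1⟩, ⟨a2, b2⟩, ⟨a3, b3⟩, hmu⟩ := hside v
    have e1 := hgap (bar m n M s v) a1 b1 a2 b2 a3 b3 _ (sD v)
    have e2 : (bar m n M s v).l ((bar m n M s v).set.indicator g) = (bar m n M s v).l g := by
      unfold Box.l
      refine setIntegral_congr_fun (box_open _).measurableSet fun p hp => ?_
      show (bar m n M s v).ef p * (bar m n M s v).set.indicator g p =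
        (bar m n M s v).ef p * g p
      rw [indicator_of_mem hp]
    rw [e2] at e1
    have e3 : E0 M - κ / 4 ≤ (bar m n M s v).mu := by
      rw [hmu]; exact hδ _ (hs v)
    have e4 : 0 ≤ Ms ((bar m n M s v).set.indicator g) :=
      integral_nonneg fun p => mul_self_nonneg _
    have e5 := mul_le_mul_of_nonneg_right e3 e4
    have e6 := mul_le_mul_of_nonneg_left (h5 v) hκ.le
    linarith
  have h7 : (E0 M + 3 * κ / 4) * (Ms f - S) -
      κ * (2 * (∑ v, ((bar m n M s v).l f) ^ 2) + 16 * V * S) ≤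
      (1 + τ) * En f + (1 + 1 / τ) * D := by
    have e1 := Finset.sum_le_sum fun v (_ : v ∈ (Finset.univ : Finset (Idx m n))) => h6 v
    rw [Finset.sum_sub_distrib, ← Finset.mul_sum, ← Finset.mul_sum, Finset.sum_add_distrib,
      ← Finset.mul_sum, Finset.sum_const, Finset.card_univ, nsmul_eq_mul, ← hV] at e1
    have e2 : (E0 M + 3 * κ / 4) * (Ms f - S) ≤
        (E0 M + 3 * κ / 4) * ∑ v, Ms ((bar m n M s v).set.indicator g) :=
      mul_le_mul_of_nonneg_left (by linarith) (by positivity)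
    linarith
  have hT : 0 ≤ ∑ v, ((bar m n M s v).l f) ^ 2 := Finset.sum_nonneg fun v _ => sq_nonneg _
  have := arith hA hB hT hκ hE hV0 hτ hγ hγ1 hγ2 le_rfl h2 hK h3 hρ h7
  unfold BE
  exact this

end Pool.Agent.H456R3.Mult.COER

theorem Pool.Agent.H456R3.Mult.taskCOER : Pool.Agent.H456R3.Mult.TaskCOER :=
  Pool.Agent.H456R3.Mult.COER.taskCOER
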