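import Pool.Agent.H791R3.Mult.CONT

/-!
Project H456-MULT, task CONT (proved in `Pool/Agent/H791R3/Mult`).
-/

namespace Pool.Agent.H456R3.Mult

/-- Continuity in the lengths. -/
theorem taskCONT : TaskCONT := Pool.Agent.H791R3.Mult.taskCONT

end Pool.Agent.H456R3.Mult
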