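import Pool.Agent.H456R3.Mult.Stmts

/-! Task CUT of project H456-MULT: averaged dyadic cut-off -/

open MeasureTheory Set
open scoped ContDiff

set_option autoImplicit false
set_option maxHeartbeats 4000000

noncomputable section

namespace Pool.Agent.H456R3.Mult.CUT

open Pool.Agent.H456R3.Mult

/-- the smooth transition -/
abbrev T : ℝ → ℝ := Real.smoothTransition

theorem T_smooth : ContDiff ℝ ∞ T := Real.smoothTransition.contDiff

theorem T_diff : Differentiable ℝ T := T_smooth.differentiable (by simp)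

theorem dT_cont : Continuous (deriv T) := T_smooth.continuous_deriv (by simp)

theorem dT_neg (x : ℝ) (hx : x ≤ 0) : deriv T x = 0 := by
  have h : ∀ y < 0, deriv T y = 0 := by
    intro y hy
    have h1 : T =ᶠ[nhds y] fun _ => 0 := by
      filter_upwards [Iio_mem_nhds hy] with z hz
      exact Real.smoothTransition.zero_of_nonpos (le_of_lt hz)
    rw [h1.deriv_eq]
    simp
  have hc : IsClosed {y | deriv T y = 0} := isClosed_eq dT_cont continuous_const
  have h2 : closure (Iio (0 : ℝ)) ⊆ {y | deriv T y = 0} := closure_minimal h hc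
  rw [closure_Iio] at h2
  exact h2 hx

theorem dT_pos (x : ℝ) (hx : 1 ≤ x) : deriv T x = 0 := by
  have h : ∀ y, 1 < y → deriv T y = 0 := by
    intro y hy
    have h1 : T =ᶠ[nhds y] fun _ => 1 := by
      filter_upwards [Ioi_mem_nhds hy] with z hz
      exact Real.smoothTransition.one_of_one_le (le_of_lt hz)
    rw [h1.deriv_eq]
    simp
  have hc : IsClosed {y | deriv T y = 0} := isClosed_eq dT_cont continuous_const
  have h2 : closure (Ioi (1 : ℝ)) ⊆ {y | deriv T y = 0} := closure_minimal h hc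
  rw [closure_Ioi] at h2
  exact h2 hx

theorem dT_bound : ∃ B : ℝ, 0 < B ∧ ∀ x, |deriv T x| ≤ B := by
  obtain ⟨B, hB⟩ := (isCompact_Icc (a := (0 : ℝ)) (b := 1)).exists_bound_of_continuousOn
    dT_cont.continuousOn
  refine ⟨max B 1, by positivity, fun x => ?_⟩
  by_cases h1 : x ≤ 0
  · rw [dT_neg x h1, abs_zero]
    positivity
  · by_cases h2 : 1 ≤ x
    · rw [dT_pos x h2, abs_zero]
      positivity
    · push Not at h1 h2
      have := hB x ⟨h1.le, h2.le⟩
      rw [Real.norm_eq_abs] at this
      exact this.trans (le_max_left _ _)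

/-- the square of the distance -/
def rho (c p : P) : ℝ := (p.1 - c.1) ^ 2 + (p.2.1 - c.2.1) ^ 2 + (p.2.2 - c.2.2) ^ 2

theorem rho_nonneg (c p : P) : 0 ≤ rho c p := by
  unfold rho
  positivity

theorem rho_smooth (c : P) : ContDiff ℝ ∞ (rho c) := by
  unfold rho
  fun_prop

/-- derivative of `rho` -/
def drho (c p : P) : P →L[ℝ] ℝ :=
  (2 * (p.1 - c.1)) • ContinuousLinearMap.fst ℝ ℝ (ℝ × ℝ) +
    (2 * (p.2.1 - c.2.1)) •
      (ContinuousLinearMap.fst ℝ ℝ ℝ).comp (ContinuousLinearMap.snd ℝ ℝ (ℝ × ℝ)) +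
    (2 * (p.2.2 - c.2.2)) •
      (ContinuousLinearMap.snd ℝ ℝ ℝ).comp (ContinuousLinearMap.snd ℝ ℝ (ℝ × ℝ))

theorem rho_deriv (c p : P) : HasFDerivAt (rho c) (drho c p) p := by
  have h1 : HasFDerivAt (fun p : P => p.1 - c.1) (ContinuousLinearMap.fst ℝ ℝ (ℝ × ℝ)) p :=
    (hasFDerivAt_fst).sub_const _
  have h2 : HasFDerivAt (fun p : P => p.2.1 - c.2.1)
      ((ContinuousLinearMap.fst ℝ ℝ ℝ).comp (ContinuousLinearMap.snd ℝ ℝ (ℝ × ℝ))) p :=
    (((ContinuousLinearMap.fst ℝ ℝ ℝ).comp
      (ContinuousLinearMap.snd ℝ ℝ (ℝ × ℝ))).hasFDerivAt (x := p)).sub_const _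
  have h3 : HasFDerivAt (fun p : P => p.2.2 - c.2.2)
      ((ContinuousLinearMap.snd ℝ ℝ ℝ).comp (ContinuousLinearMap.snd ℝ ℝ (ℝ × ℝ))) p :=
    (((ContinuousLinearMap.snd ℝ ℝ ℝ).comp
      (ContinuousLinearMap.snd ℝ ℝ (ℝ × ℝ))).hasFDerivAt (x := p)).sub_const _
  have h4 := ((h1.pow 2).add (h2.pow 2)).add (h3.pow 2)
  refine h4.congr_fderiv ?_
  unfold drho
  simp

variable (K : ℕ) (w : ℝ)

/-- scale -/
def al (k : ℕ) : ℝ := 1 / (4 * 16 ^ k * w ^ 2)

/-- profile -/
def F (t : ℝ) : ℝ := (1 / (K : ℝ)) * ∑ k ∈ Finset.range K, T (al w k * t - 3)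

/-- derivative of the profile -/
def dF (t : ℝ) : ℝ := (1 / (K : ℝ)) * ∑ k ∈ Finset.range K, deriv T (al w k * t - 3) * al w k

theorem F_deriv (t : ℝ) : HasDerivAt (F K w) (dF K w t) t := by
  unfold F dF
  refine HasDerivAt.const_mul _ ?_
  refine HasDerivAt.fun_sum fun k _ => ?_
  have h1 : HasDerivAt (fun t : ℝ => al w k * t - 3) (al w k) t := by
    simpa using ((hasDerivAt_id t).const_mul (al w k)).sub_const 3
  exact (T_diff _).hasDerivAt.comp t h1

theorem F_smooth : ContDiff ℝ ∞ (F K w) := by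
  unfold F
  refine contDiff_const.mul ?_
  refine ContDiff.sum fun k _ => ?_
  exact T_smooth.comp (by fun_prop)

/-- the cut-off -/
def chi (c : P) (p : P) : ℝ := F K w (rho c p)

theorem chi_smooth (c : P) : ContDiff ℝ ∞ (chi K w c) := (F_smooth K w).comp (rho_smooth c)

theorem chi_gb (c p : P) : gb (chi K w c) (chi K w c) p = 4 * rho c p * dF K w (rho c p) ^ 2 := by
  have h : HasFDerivAt (chi K w c) (dF K w (rho c p) • drho c p) p :=
    (F_deriv K w (rho c p)).comp_hasFDerivAt p (rho_deriv c p)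
  unfold gb dx dy dz
  rw [h.fderiv]
  simp [drho, rho]
  ring

/-- pointwise bound for the square of the gradient -/
theorem chi_bound (hK : 1 ≤ K) (hw : 0 < w) (B : ℝ) (hB : ∀ x, |deriv T x| ≤ B) (c p : P)
    (y : ℝ) (hy : 0 ≤ y) :
    gb (chi K w c) (chi K w c) p * y ≤
      ∑ k ∈ Finset.range K, (1 / (K : ℝ) ^ 2 * (16 * B ^ 2 * al w k)) *
        (cube c (4 ^ (k + 1) * w)).indicator (fun _ => y) p := by
  have hB0 : 0 ≤ B := (abs_nonneg _).trans (hB 0)
  have hal : ∀ k, 0 < al w k := by
    intro k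
    unfold al
    positivity
  have hterm : ∀ k ∈ Finset.range K, 0 ≤ (1 / (K : ℝ) ^ 2 * (16 * B ^ 2 * al w k)) *
        (cube c (4 ^ (k + 1) * w)).indicator (fun _ => y) p := by
    intro k _
    have := hal k
    exact mul_nonneg (by positivity) (indicator_nonneg (fun _ _ => hy) _)
  rw [chi_gb]
  set t := rho c p with ht
  have ht0 : 0 ≤ t := rho_nonneg c p
  by_cases h : ∃ k ∈ Finset.range K, deriv T (al w k * t - 3) ≠ 0
  · obtain ⟨k, hk, hkt⟩ := h
    have hk1 : 3 < al w k * t := by
      by_contra h1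
      exact hkt (dT_neg _ (by linarith))
    have hk2 : al w k * t < 4 := by
      by_contra h1
      exact hkt (dT_pos _ (by linarith))
    have htpos : 0 < t := by
      rcases ht0.lt_or_eq with h | h
      · exact h
      · rw [← h] at hk1
        linarith
    have hother : ∀ j ∈ Finset.range K, j ≠ k → deriv T (al w j * t - 3) * al w j = 0 := by
      intro j _ hjk
      have hrel : ∀ i j : ℕ, i < j → 16 * al w j ≤ al w i := by
        intro i j hij
        unfold al
        obtain ⟨d, rfl⟩ := Nat.exists_eq_add_of_lt hij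
        have h16 : (16 : ℝ) ^ (i + d + 1) = 16 * (16 ^ i * 16 ^ d) := by ring
        have hd : (1 : ℝ) ≤ 16 ^ d := one_le_pow₀ (by norm_num)
        rw [mul_one_div, div_le_div_iff₀ (by positivity) (by positivity), h16]
        have : (0 : ℝ) < 16 ^ i := by positivity
        have hw2 : 0 < w ^ 2 := by positivity
        nlinarith [mul_pos this hw2, mul_le_mul_of_nonneg_left hd (mul_pos this hw2).le]
      have h0 : deriv T (al w j * t - 3) = 0 := by
        rcases lt_or_gt_of_ne hjk with h1 | h1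
        · have h2 := hrel j k h1
          have h3 := mul_le_mul_of_nonneg_right h2 htpos.le
          exact dT_pos _ (by linarith)
        · have h2 := hrel k j h1
          have h3 := mul_le_mul_of_nonneg_right h2 htpos.le
          exact dT_neg _ (by linarith)
      rw [h0, zero_mul]
    have hdF : dF K w t = (1 / (K : ℝ)) * (deriv T (al w k * t - 3) * al w k) := by
      unfold dF
      rw [Finset.sum_eq_single k hother (fun h => absurd hk h)]
    have hmem : p ∈ cube c (4 ^ (k + 1) * w) := by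
      have h5 : t < (4 ^ (k + 1) * w) ^ 2 := by
        unfold al at hk2
        rw [one_div, inv_mul_lt_iff₀ (by positivity)] at hk2
        have h6 : ((4 : ℝ) ^ (k + 1) * w) ^ 2 = 4 * 16 ^ k * w ^ 2 * 4 := by
          rw [mul_pow, ← pow_mul, mul_comm (k + 1) 2, pow_mul]
          norm_num
          ring
        rw [h6]
        exact hk2
      have hr : (0 : ℝ) < 4 ^ (k + 1) * w := by positivity
      have key : ∀ a : ℝ, a ^ 2 ≤ t → -(4 ^ (k + 1) * w) < a ∧ a < 4 ^ (k + 1) * w := by
        intro a ha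
        exact abs_lt_of_sq_lt_sq' (lt_of_le_of_lt ha h5) hr.le
      have e1 := key (p.1 - c.1) (by rw [ht]; unfold rho; nlinarith [sq_nonneg (p.2.1 - c.2.1), sq_nonneg (p.2.2 - c.2.2)])
      have e2 := key (p.2.1 - c.2.1) (by rw [ht]; unfold rho; nlinarith [sq_nonneg (p.1 - c.1), sq_nonneg (p.2.2 - c.2.2)])
      have e3 := key (p.2.2 - c.2.2) (by rw [ht]; unfold rho; nlinarith [sq_nonneg (p.2.1 - c.2.1), sq_nonneg (p.1 - c.1)])
      refine ⟨⟨by linarith [e1.1], by linarith [e1.2]⟩, ⟨by linarith [e2.1], by linarith [e2.2]⟩,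
        ⟨by linarith [e3.1], by linarith [e3.2]⟩⟩
    refine le_trans ?_ (Finset.single_le_sum hterm hk)
    rw [indicator_of_mem hmem, hdF]
    refine mul_le_mul_of_nonneg_right ?_ hy
    have hb2 : (deriv T (al w k * t - 3)) ^ 2 ≤ B ^ 2 := by
      rw [← sq_abs]
      exact pow_le_pow_left₀ (abs_nonneg _) (hB _) 2
    have hK0 : (0 : ℝ) < (K : ℝ) := by
      have : 0 < K := hK
      exact_mod_cast this
    have h8 : 4 * t * ((1 / (K : ℝ)) * (deriv T (al w k * t - 3) * al w k)) ^ 2 =
        1 / (K : ℝ) ^ 2 * (4 * (al w k * t) * (deriv T (al w k * t - 3)) ^ 2 * al w k) := by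
      field_simp
    rw [h8]
    refine mul_le_mul_of_nonneg_left ?_ (by positivity)
    refine mul_le_mul_of_nonneg_right ?_ (hal k).le
    have h9 : 4 * (al w k * t) ≤ 16 := by linarith
    exact mul_le_mul h9 hb2 (by positivity) (by norm_num)
  · push Not at h
    have hdF : dF K w t = 0 := by
      unfold dF
      rw [Finset.sum_eq_zero, mul_zero]
      intro k hk
      rw [h k hk, zero_mul]
    rw [hdF]
    simp only [ne_eq, OfNat.ofNat_ne_zero, not_false_eq_true, zero_pow, mul_zero, zero_mul]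
    exact Finset.sum_nonneg hterm

theorem cube_meas (c : P) (r : ℝ) : MeasurableSet (cube c r) :=
  measurableSet_Ioo.prod (measurableSet_Ioo.prod measurableSet_Ioo)

theorem dir_cont (f : P → ℝ) (hf : ContDiff ℝ ∞ f) (v : P) : Continuous fun p => fderiv ℝ f p v :=
  (hf.continuous_fderiv (by simp)).clm_apply continuous_const

theorem dir_supp (f : P → ℝ) (hf : HasCompactSupport f) (v : P) :
    HasCompactSupport fun p => fderiv ℝ f p v :=
  (hf.fderiv (𝕜 := ℝ)).comp_left (g := fun L : P →L[ℝ] ℝ => L v) (by simp)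

theorem gb_int (f : P → ℝ) (hf : f ∈ Dc univ) : Integrable (gb f f) := by
  have hs : ContDiff ℝ ∞ f := hf.1
  have hc : HasCompactSupport f := hf.2.1
  have key : ∀ v : P, Integrable fun p => fderiv ℝ f p v * fderiv ℝ f p v := by
    intro v
    exact ((dir_cont f hs v).mul (dir_cont f hs v)).integrable_of_hasCompactSupport
      ((dir_supp f hc v).mul_right)
  exact ((key _).add (key _)).add (key _)

theorem sq_int (f : P → ℝ) (hf : f ∈ Dc univ) : Integrable (fun p => f p ^ 2) := by
  have hs : ContDiff ℝ ∞ f := hf.1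
  have hc : HasCompactSupport f := hf.2.1
  have h1 : (fun p => f p ^ 2) = fun p => f p * f p := by
    funext p
    ring
  rw [h1]
  exact (hs.continuous.mul hs.continuous).integrable_of_hasCompactSupport hc.mul_right

theorem gb_nonneg (f : P → ℝ) (p : P) : 0 ≤ gb f f p := by
  unfold gb
  have h1 := mul_self_nonneg (dx f p)
  have h2 := mul_self_nonneg (dy f p)
  have h3 := mul_self_nonneg (dz f p)
  linarith

theorem taskCUT : TaskCUT := by
  obtain ⟨B, hB0, hB⟩ := dT_bound
  refine ⟨768 * B ^ 2, by positivity, ?_⟩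
  intro K hK c w hw
  have hK0 : (0 : ℝ) < (K : ℝ) := by
    have : 0 < K := hK
    exact_mod_cast this
  refine ⟨chi K w c, chi_smooth K w c, ?_, ?_, ?_, ?_⟩
  · intro p
    unfold chi F
    constructor
    · refine mul_nonneg (by positivity) (Finset.sum_nonneg fun k _ => ?_)
      exact Real.smoothTransition.nonneg _
    · have h1 : ∑ k ∈ Finset.range K, T (al w k * rho c p - 3) ≤ ∑ _k ∈ Finset.range K, (1 : ℝ) :=
        Finset.sum_le_sum fun k _ => Real.smoothTransition.le_one _
      rw [Finset.sum_const, Finset.card_range, nsmul_eq_mul, mul_one] at h1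
      rw [one_div, inv_mul_le_iff₀ hK0, mul_one]
      exact h1
  · intro p hp
    unfold chi F
    rw [Finset.sum_eq_zero, mul_zero]
    intro k _
    apply Real.smoothTransition.zero_of_nonpos
    obtain ⟨⟨h1, h2⟩, ⟨h3, h4⟩, ⟨h5, h6⟩⟩ := hp
    have key : ∀ a : ℝ, -(2 * w) < a → a < 2 * w → a ^ 2 ≤ 4 * w ^ 2 := by
      intro a ha hb
      nlinarith
    have e1 := key (p.1 - c.1) (by linarith) (by linarith)
    have e2 := key (p.2.1 - c.2.1) (by linarith) (by linarith)
    have e3 := key (p.2.2 - c.2.2) (by linarith) (by linarith)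
    have e4 : rho c p ≤ 12 * w ^ 2 := by
      unfold rho
      linarith
    have e5 : al w k * rho c p ≤ 3 := by
      unfold al
      rw [one_div, inv_mul_le_iff₀ (by positivity)]
      have hd : (1 : ℝ) ≤ 16 ^ k := one_le_pow₀ (by norm_num)
      have hw2 : 0 < w ^ 2 := by positivity
      nlinarith
    linarith
  · intro p hp
    unfold chi F
    have h1 : ∀ k ∈ Finset.range K, T (al w k * rho c p - 3) = 1 := by
      intro k hk
      apply Real.smoothTransition.one_of_one_le
      have h2 : (4 ^ K * w) ^ 2 ≤ rho c p := by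
        by_contra h3
        push Not at h3
        apply hp
        have hr : (0 : ℝ) < 4 ^ K * w := by positivity
        have key : ∀ a : ℝ, a ^ 2 ≤ rho c p → -(4 ^ K * w) < a ∧ a < 4 ^ K * w := by
          intro a ha
          exact abs_lt_of_sq_lt_sq' (lt_of_le_of_lt ha h3) hr.le
        have e1 := key (p.1 - c.1) (by unfold rho; nlinarith [sq_nonneg (p.2.1 - c.2.1), sq_nonneg (p.2.2 - c.2.2)])
        have e2 := key (p.2.1 - c.2.1) (by unfold rho; nlinarith [sq_nonneg (p.1 - c.1), sq_nonneg (p.2.2 - c.2.2)])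
        have e3 := key (p.2.2 - c.2.2) (by unfold rho; nlinarith [sq_nonneg (p.2.1 - c.2.1), sq_nonneg (p.1 - c.1)])
        exact ⟨⟨by linarith [e1.1], by linarith [e1.2]⟩, ⟨by linarith [e2.1], by linarith [e2.2]⟩,
          ⟨by linarith [e3.1], by linarith [e3.2]⟩⟩
      have h4 : 4 ≤ al w k * rho c p := by
        unfold al
        rw [one_div, le_inv_mul_iff₀ (by positivity)]
        refine le_trans ?_ h2
        rw [Finset.mem_range] at hk
        have h5 : ((4 : ℝ) ^ K * w) ^ 2 = 16 ^ K * w ^ 2 := by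
          rw [mul_pow, ← pow_mul, mul_comm K 2, pow_mul]
          norm_num
        have h6 : (16 : ℝ) ^ (k + 1) ≤ 16 ^ K := pow_le_pow_right₀ (by norm_num) hk
        rw [h5]
        have hw2 : 0 < w ^ 2 := by positivity
        calc 4 * 16 ^ k * w ^ 2 * 4 = 16 ^ (k + 1) * w ^ 2 := by ring
          _ ≤ 16 ^ K * w ^ 2 := mul_le_mul_of_nonneg_right h6 hw2.le
      linarith
    rw [Finset.sum_congr rfl h1, Finset.sum_const, Finset.card_range, nsmul_eq_mul, mul_one,
      one_div, inv_mul_cancel₀ hK0.ne']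
  · intro f hf hP
    have hint : ∀ k ∈ Finset.range K, Integrable (fun p : P =>
        (1 / (K : ℝ) ^ 2 * (16 * B ^ 2 * al w k)) *
        (cube c (4 ^ (k + 1) * w)).indicator (fun p => f p ^ 2) p) := by
      intro k _
      exact ((sq_int f hf).indicator (cube_meas c _)).const_mul _
    have h1 : ∫ p, gb (chi K w c) (chi K w c) p * f p ^ 2 ≤
        ∫ p, ∑ k ∈ Finset.range K, (1 / (K : ℝ) ^ 2 * (16 * B ^ 2 * al w k)) *
        (cube c (4 ^ (k + 1) * w)).indicator (fun p => f p ^ 2) p := by
      refine integral_mono_of_nonneg ?_ (integrable_finsetSum _ hint) ?_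
      · exact Filter.Eventually.of_forall fun p => mul_nonneg (gb_nonneg _ _) (sq_nonneg _)
      · refine Filter.Eventually.of_forall fun p => ?_
        have h2 := chi_bound K w hK hw B hB c p (f p ^ 2) (sq_nonneg _)
        refine h2.trans (le_of_eq ?_)
        refine Finset.sum_congr rfl fun k _ => ?_
        congr 1
    refine h1.trans ?_
    rw [integral_finsetSum _ hint]
    have h3 : ∀ k ∈ Finset.range K, ∫ p : P, (1 / (K : ℝ) ^ 2 * (16 * B ^ 2 * al w k)) *
        (cube c (4 ^ (k + 1) * w)).indicator (fun p => f p ^ 2) p ≤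
        1 / (K : ℝ) ^ 2 * (768 * B ^ 2) * En f := by
      intro k hk
      rw [Finset.mem_range] at hk
      rw [integral_const_mul, integral_indicator (cube_meas c _)]
      have h4 := hP (4 ^ (k + 1) * w)
        (by
          have : (1 : ℝ) ≤ 4 ^ (k + 1) := one_le_pow₀ (by norm_num)
          nlinarith)
        (mul_le_mul_of_nonneg_right (pow_le_pow_right₀ (by norm_num) hk) hw.le)
      have h5 : ∫ p in cube c (3 * (4 ^ (k + 1) * w)), gb f f p ≤ En f := by
        unfold En Eb
        exact setIntegral_le_integral (gb_int f hf)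
          (Filter.Eventually.of_forall fun p => gb_nonneg _ _)
      have hal : 0 < al w k := by
        unfold al
        positivity
      have h6 : ∫ p in cube c (4 ^ (k + 1) * w), f p ^ 2 ≤ 12 * (4 ^ (k + 1) * w) ^ 2 * En f :=
        h4.trans (mul_le_mul_of_nonneg_left h5 (by positivity))
      refine (mul_le_mul_of_nonneg_left h6 (by positivity)).trans (le_of_eq ?_)
      have h7 : al w k * (12 * (4 ^ (k + 1) * w) ^ 2) = 48 := by
        have h8 : ((4 : ℝ) ^ (k + 1) * w) ^ 2 = 4 * 16 ^ k * w ^ 2 * 4 := by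
          rw [mul_pow, ← pow_mul, mul_comm (k + 1) 2, pow_mul]
          norm_num
          ring
        rw [h8]
        unfold al
        field_simp
        norm_num
      calc 1 / (K : ℝ) ^ 2 * (16 * B ^ 2 * al w k) * (12 * (4 ^ (k + 1) * w) ^ 2 * En f)
          = 1 / (K : ℝ) ^ 2 * (16 * B ^ 2 * (al w k * (12 * (4 ^ (k + 1) * w) ^ 2))) * En f := by
            ring
        _ = 1 / (K : ℝ) ^ 2 * (768 * B ^ 2) * En f := by
            rw [h7]
            ring
    refine (Finset.sum_le_sum h3).trans (le_of_eq ?_)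
    rw [Finset.sum_const, Finset.card_range, nsmul_eq_mul]
    field_simp

end Pool.Agent.H456R3.Mult.CUT
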