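import Pool.Agent.H456R3.Mult.Basic
import Pool.Agent.H456R3.Mult.COER

/-! Task FAR (project H456-MULT): different windows are almost orthogonal. -/

open MeasureTheory Set
open scoped ContDiff

set_option autoImplicit false

noncomputable section

namespace Pool.Agent.H456R3.Mult.FAR

open Pool.Agent.H456R3.Mult

lemma win_le (hTR : TaskTRACE) {f : P → ℝ} (hf : f ∈ Dc univ) (c : P) {w : ℝ} (hw : 0 < w)
    (hv : ∀ x y : ℝ, w ≤ |x - c.1| → |x - c.1| ≤ 3 * w → |y - c.2.1| ≤ w →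
      f (x, y, c.2.2) = 0) :
    |win c w f| ≤ 8 * (w * √w) * √(En f) := by
  have h1 : |win c w f| ≤ ∫ q in Ioo (c.1 - w) (c.1 + w) ×ˢ Ioo (c.2.1 - w) (c.2.1 + w),
      |f (q.1, q.2, c.2.2)| := abs_integral_le_integral_abs
  refine h1.trans ((hTR f hf c w hw hv).trans ?_)
  refine mul_le_mul_of_nonneg_left (Real.sqrt_le_sqrt ?_) (by positivity)
  exact setIntegral_le_integral (int_gb hf hf.1)
    (Filter.Eventually.of_forall fun p => gb_self_nonneg f p)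

lemma poinc_le (hPO : TaskPOINC) {f : P → ℝ} (hf : f ∈ Dc univ) (c : P) {r : ℝ} (hr : 0 < r)
    (hv : ∀ x y : ℝ, r ≤ |x - c.1| → |x - c.1| ≤ 3 * r → |y - c.2.1| ≤ r →
      f (x, y, c.2.2) = 0) :
    ∫ p in cube c r, f p ^ 2 ≤ 12 * r ^ 2 * En f := by
  refine (hPO f hf c r hr hv).trans ?_
  refine mul_le_mul_of_nonneg_left ?_ (by positivity)
  exact setIntegral_le_integral (int_gb hf hf.1)
    (Filter.Eventually.of_forall fun p => gb_self_nonneg f p)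

lemma vanish {m n : ℕ} {inc : Fin m → Fin n → Prop} {M w : ℝ} {s : Idx m n → ℝ}
    (hG6 : ∀ (i : Fin m) (j : Fin n) (x y : ℝ), w ≤ |x - (2 * (j : ℕ) + 1 / 2)| →
      |x - (2 * (j : ℕ) + 1 / 2)| ≤ 3 / 4 → |y - (2 * (i : ℕ) + 1 / 2)| ≤ 3 / 4 →
      (x, y, (1 : ℝ)) ∉ Om m n inc M w s) {f : P → ℝ} (hf : f ∈ Dc (Om m n inc M w s))
    (i : Fin m) (j : Fin n) {r : ℝ} (hr : w ≤ r) (hr' : r ≤ 1 / 4) :
    ∀ x y : ℝ, r ≤ |x - (ctr i j).1| → |x - (ctr i j).1| ≤ 3 * r → |y - (ctr i j).2.1| ≤ r →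
      f (x, y, (ctr i j).2.2) = 0 := by
  intro x y h1 h2 h3
  simp only [ctr] at h1 h2 h3 ⊢
  exact Dc_zero_of_notMem hf (hG6 i j x y (hr.trans h1) (h2.trans (by linarith))
    (h3.trans (by linarith)))

lemma l_le {b : Box} {g : P → ℝ} {ε : ℝ} (hε : ε ≤ 1) (hg : g ∈ Dc b.set)
    (h2 : |Ms g - 1| ≤ ε) (h4 : ∀ f ∈ Dc univ, |Mb g f - b.l f| ≤ ε * √(Ms f))
    {f : P → ℝ} (hf : f ∈ Dc univ) : |b.l f| ≤ 3 * √(Ms f) := by
  have h5 := h4 f hf
  have h6 := Mb_cs (Dc_univ hg) hf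
  have h7 : √(Ms g) ≤ 2 := by
    rw [show (2 : ℝ) = √(2 ^ 2) by simp]
    refine Real.sqrt_le_sqrt ?_
    have := (abs_le.1 h2).2
    linarith
  have h8 : 0 ≤ √(Ms f) := Real.sqrt_nonneg _
  have h9 : |b.l f| ≤ |Mb g f| + |Mb g f - b.l f| := by
    have : b.l f = Mb g f - (Mb g f - b.l f) := by ring
    calc |b.l f| = |Mb g f - (Mb g f - b.l f)| := by rw [← this]
      _ ≤ _ := abs_sub _ _
  nlinarith

lemma l_zero {m n : ℕ} {M : ℝ} {s : Idx m n → ℝ} {u v : Idx m n}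
    (hd : Disjoint (bar m n M s u).set (bar m n M s v).set) {g : P → ℝ}
    (hg : g ∈ Dc (bar m n M s v).set) : (bar m n M s u).l g = 0 := by
  unfold Box.l
  refine setIntegral_eq_zero_of_forall_eq_zero fun p hp => ?_
  rw [Dc_zero_of_notMem hg (fun h => (disjoint_left.1 hd) hp h), mul_zero]

lemma sqrt_add_form {V : Type*} [AddCommGroup V] [Module ℝ V] (B : V →ₗ[ℝ] V →ₗ[ℝ] ℝ)
    (hs : ∀ x y, B x y = B y x) (hp : ∀ x, 0 ≤ B x x) (x y : V) :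
    √(B (x + y) (x + y)) ≤ √(B x x) + √(B y y) := by
  have h := cs_form B hs hp x y
  refine Real.sqrt_le_iff.2 ⟨by positivity, ?_⟩
  simp only [map_add, LinearMap.add_apply]
  rw [hs y x, add_sq, Real.sq_sqrt (hp x), Real.sq_sqrt (hp y)]
  have := (abs_le.1 h).2
  nlinarith

lemma sqrt_smul_form {V : Type*} [AddCommGroup V] [Module ℝ V] (B : V →ₗ[ℝ] V →ₗ[ℝ] ℝ)
    (c : ℝ) (x : V) : √(B (c • x) (c • x)) = |c| * √(B x x) := by
  simp only [map_smul, LinearMap.smul_apply, smul_eq_mul]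
  rw [← mul_assoc, Real.sqrt_mul (mul_self_nonneg c), Real.sqrt_mul_self_eq_abs]

lemma sqrt_sum_form {V : Type*} [AddCommGroup V] [Module ℝ V] (B : V →ₗ[ℝ] V →ₗ[ℝ] ℝ)
    (hs : ∀ x y, B x y = B y x) (hp : ∀ x, 0 ≤ B x x) {ι : Type*} (t : Finset ι)
    (c : ι → ℝ) (G : ι → V) :
    √(B (∑ v ∈ t, c v • G v) (∑ v ∈ t, c v • G v)) ≤ ∑ v ∈ t, |c v| * √(B (G v) (G v)) := by
  classical
  induction t using Finset.induction_on with
  | empty => simp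
  | insert a t ha ih =>
    rw [Finset.sum_insert ha, Finset.sum_insert ha]
    refine (sqrt_add_form B hs hp _ _).trans ?_
    rw [sqrt_smul_form]
    linarith

lemma int_cut {Ω : Set P} {f χ : P → ℝ} (hf : f ∈ Dc Ω) (hχ : ContDiff ℝ ∞ χ) :
    Integrable (fun p => gb χ χ p * f p ^ 2) := by
  have hc : Continuous (gb χ χ) := COER.cont_gb hχ hχ
  have := int_mul_left hf (hc.mul hf.1.continuous)
  exact this.congr (Filter.Eventually.of_forall fun p => by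
    simp only [Pi.mul_apply]; ring)

lemma En_mul_le {Ω : Set P} {f χ : P → ℝ} (hf : f ∈ Dc Ω) (hχ : ContDiff ℝ ∞ χ)
    (h2 : ∀ p, 0 ≤ χ p ∧ χ p ≤ 1) :
    En (fun p => χ p * f p) ≤ 2 * En f + 2 * ∫ p, gb χ χ p * f p ^ 2 := by
  have h1 : (fun p => χ p * f p) ∈ Dc Ω := Dc_mul hχ hf
  unfold En Eb
  rw [← integral_const_mul, ← integral_const_mul, ← integral_add ((int_gb hf hf.1).const_mul 2)
    ((int_cut hf hχ).const_mul 2)]
  refine integral_mono (int_gb h1 h1.1) (((int_gb hf hf.1).const_mul 2).add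
    ((int_cut hf hχ).const_mul 2)) fun p => ?_
  have := COER.gb_mul_le hχ hf.1 one_pos h2 p
  simp only
  norm_num at this
  linarith


lemma notMem_bar {m n : ℕ} {M : ℝ} {s : Idx m n → ℝ} (v : Idx m n) (x y : ℝ) :
    ((x, y, (1 : ℝ)) : P) ∉ (bar m n M s v).set := by
  rintro ⟨-, -, h3⟩
  cases v with
  | inl i => simp [bar] at h3
  | inr j => simp [bar] at h3

lemma core {m n : ℕ} {inc : Fin m → Fin n → Prop} {M w : ℝ} {s : Idx m n → ℝ}
    (hw : 0 < w)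
    (hd : ∀ u v, u ≠ v → Disjoint (bar m n M s u).set (bar m n M s v).set)
    (g : Idx m n → P → ℝ) (hg : ∀ v, g v ∈ Dc (bar m n M s v).set)
    (hg1 : ∀ v, (bar m n M s v).l (g v) = 1)
    {ε2 : ℝ}
    (hE : ∀ v, ∀ f ∈ Dc univ,
      |Eb (g v) f - ∫ p in (bar m n M s v).set, gb (bar m n M s v).ef f p| ≤ ε2 * √(En f))
    (hMb : ∀ v, ∀ f ∈ Dc univ, |Mb (g v) f - (bar m n M s v).l f| ≤ ε2 * √(Ms f))
    (hl : ∀ v, ∀ f ∈ Dc univ, |(bar m n M s v).l f| ≤ 3 * √(Ms f))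
    {D : ℝ} (hL : ∀ v, ∀ f ∈ Dc (Om m n inc M w s), |(bar m n M s v).L f| ≤ D * √(En f))
    {c : P} (hc : c.2.2 = 1) {χ : P → ℝ} (hχ : ContDiff ℝ ∞ χ) (hχ1 : ∀ p, 0 ≤ χ p ∧ χ p ≤ 1)
    (hχ0 : ∀ p ∈ cube c (2 * w), χ p = 0)
    {φ : P → ℝ} (hφ : InK m n inc M w s φ) {κ : ℝ} (hκ : 0 ≤ κ)
    (hcut : ∫ p, gb χ χ p * φ p ^ 2 ≤ κ * En φ)
    {δ1 : ℝ} (hδ1 : 0 ≤ δ1)
    (hrep : ∀ ψ, InK m n inc M w s ψ → |BE M φ ψ - win c w ψ| ≤ δ1 * √(BE M ψ ψ)) :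
    BE M (fun p => χ p * φ p) (fun p => χ p * φ p) ≤ κ * En φ
      + δ1 * ((4 + 6 * κ) * √(En φ) + 3 * √(Ms φ) * ∑ v, √(En (g v)))
      + ∑ _v : Idx m n, 3 * √(Ms φ) *
        (D * √(En φ) + ε2 * √(En φ) + E0 M * (ε2 * √(Ms φ))) := by
  classical
  have hE0 : 0 ≤ E0 M := by unfold E0; positivity
  obtain ⟨hφ1, hφ2⟩ := hφ
  have hχφ : (fun p => χ p * φ p) ∈ Dc (Om m n inc M w s) := Dc_mul hχ hφ1
  have hX : (fun p => χ p ^ 2 * φ p) ∈ Dc (Om m n inc M w s) := Dc_mul (hχ.pow 2) hφ1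
  have hXe : (fun p => χ p ^ 2 * φ p) = fun p => χ p * (χ p * φ p) := by
    funext p; ring
  -- energy of X
  have hEX : √(En (fun p => χ p ^ 2 * φ p)) ≤ (4 + 6 * κ) * √(En φ) := by
    have h1 : En (fun p => χ p * (χ p * φ p)) ≤ 2 * En (fun p => χ p * φ p) +
        2 * ∫ p, gb χ χ p * (χ p * φ p) ^ 2 := En_mul_le hχφ hχ hχ1
    have h2 := En_mul_le hφ1 hχ hχ1
    have h3 : ∫ p, gb χ χ p * (χ p * φ p) ^ 2 ≤ ∫ p, gb χ χ p * φ p ^ 2 := by
      refine integral_mono (int_cut hχφ hχ) (int_cut hφ1 hχ) fun p => ?_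
      refine mul_le_mul_of_nonneg_left ?_ (gb_self_nonneg χ p)
      have h4 := hχ1 p
      have h5 : χ p ^ 2 ≤ 1 := by nlinarith
      rw [mul_pow]
      nlinarith [sq_nonneg (φ p)]
    have h6 := En_nonneg φ
    have h7 : En (fun p => χ p ^ 2 * φ p) ≤ (4 + 6 * κ) ^ 2 * En φ := by
      rw [hXe]
      nlinarith [mul_nonneg hκ h6, mul_nonneg (mul_nonneg hκ hκ) h6]
    calc √(En (fun p => χ p ^ 2 * φ p)) ≤ √((4 + 6 * κ) ^ 2 * En φ) := Real.sqrt_le_sqrt h7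
      _ = (4 + 6 * κ) * √(En φ) := by
        rw [Real.sqrt_mul (by positivity), Real.sqrt_sq (by positivity)]
  -- mass of X
  have hMX : √(Ms (fun p => χ p ^ 2 * φ p)) ≤ √(Ms φ) := by
    refine Real.sqrt_le_sqrt ?_
    refine integral_mono (int_mul_right hX hX.1.continuous) (int_mul_right hφ1 hφ1.1.continuous)
      fun p => ?_
    have h4 := hχ1 p
    have h5 : χ p ^ 2 ≤ 1 := by nlinarith
    have h6 : χ p ^ 2 * χ p ^ 2 ≤ 1 := by nlinarith [sq_nonneg (χ p)]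
    simp only
    nlinarith [mul_self_nonneg (φ p)]
  set cf : Idx m n → ℝ := fun v => (bar m n M s v).l (fun p => χ p ^ 2 * φ p) with hcf
  have hcfle : ∀ v, |cf v| ≤ 3 * √(Ms φ) := fun v =>
    (hl v _ (Dc_univ hX)).trans (by linarith)
  have hsub : ∀ v, (bar m n M s v).set ⊆ Om m n inc M w s := fun v =>
    (subset_iUnion (fun v => (bar m n M s v).set) v).trans subset_union_left
  set G : Idx m n → Dc (Om m n inc M w s) := fun v => ⟨g v, Dc_mono (hsub v) (hg v)⟩ with hG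
  set X' : Dc (Om m n inc M w s) := ⟨_, hX⟩ with hX'
  set φ' : Dc (Om m n inc M w s) := ⟨φ, hφ1⟩ with hφ'
  set Ψ : Dc (Om m n inc M w s) := X' + ∑ v, (-cf v) • G v with hΨ
  have hK : InK m n inc M w s (Ψ : P → ℝ) := by
    refine ⟨Ψ.2, fun u => ?_⟩
    rw [← lL_apply (bar m n M s u) Ψ, hΨ, map_add, map_sum]
    rw [Finset.sum_eq_single u]
    · rw [map_smul, lL_apply, lL_apply]
      change cf u + (-cf u) • (bar m n M s u).l (g u) = 0
      rw [hg1 u]; simp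
    · intro v _ hv
      rw [map_smul, lL_apply]
      change (-cf v) • (bar m n M s u).l (g v) = 0
      rw [l_zero (hd u v (Ne.symm hv)) (hg v)]; simp
    · intro h; exact absurd (Finset.mem_univ u) h
  have hwin : win c w (Ψ : P → ℝ) = 0 := by
    rw [← winL_apply c w Ψ, hΨ, map_add, map_sum]
    have h1 : winL c w (Om m n inc M w s) X' = 0 := by
      rw [winL_apply]
      refine setIntegral_eq_zero_of_forall_eq_zero fun q hq => ?_
      change χ (q.1, q.2, c.2.2) ^ 2 * φ (q.1, q.2, c.2.2) = 0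
      rw [hχ0]
      · simp
      · obtain ⟨⟨ha, hb⟩, ⟨hc1, hd1⟩⟩ := hq
        refine ⟨⟨?_, ?_⟩, ⟨?_, ?_⟩, ⟨?_, ?_⟩⟩ <;> simp only <;> linarith
    have h2 : ∀ v ∈ Finset.univ, winL c w (Om m n inc M w s) ((-cf v) • G v) = 0 := by
      intro v _
      rw [map_smul, winL_apply]
      have : win c w (G v : P → ℝ) = 0 := by
        refine setIntegral_eq_zero_of_forall_eq_zero fun q hq => ?_
        change g v (q.1, q.2, c.2.2) = 0
        rw [hc]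
        exact Dc_zero_of_notMem (hg v) (notMem_bar v _ _)
      rw [this]; simp
    rw [h1, Finset.sum_eq_zero h2]; simp
  have hΨE : √(En (Ψ : P → ℝ)) ≤ (4 + 6 * κ) * √(En φ) + 3 * √(Ms φ) * ∑ v, √(En (g v)) := by
    have h1 := sqrt_add_form (EbL (Om m n inc M w s)) (fun x y => Eb_comm _ _)
      (fun x => En_nonneg _) X' (∑ v, (-cf v) • G v)
    have h2 := sqrt_sum_form (EbL (Om m n inc M w s)) (fun x y => Eb_comm _ _)
      (fun x => En_nonneg _) Finset.univ (fun v => -cf v) G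
    have h3 : ∑ v, |(-cf v)| * √(EbL (Om m n inc M w s) (G v) (G v)) ≤
        3 * √(Ms φ) * ∑ v, √(En (g v)) := by
      rw [Finset.mul_sum]
      refine Finset.sum_le_sum fun v _ => ?_
      rw [abs_neg]
      exact mul_le_mul_of_nonneg_right (hcfle v) (Real.sqrt_nonneg _)
    have h4 : √(EbL (Om m n inc M w s) X' X') ≤ (4 + 6 * κ) * √(En φ) := hEX
    have h5 : √(En (Ψ : P → ℝ)) = √(EbL (Om m n inc M w s) (X' + ∑ v, (-cf v) • G v)
      (X' + ∑ v, (-cf v) • G v)) := rfl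
    rw [h5]
    linarith
  have hBΨ : √(BE M (Ψ : P → ℝ) Ψ) ≤ √(En (Ψ : P → ℝ)) := by
    refine Real.sqrt_le_sqrt ?_
    have := mul_nonneg hE0 (Ms_nonneg (Ψ : P → ℝ))
    unfold BE
    change En (Ψ : P → ℝ) - E0 M * Ms (Ψ : P → ℝ) ≤ _
    linarith
  have h1 := hrep Ψ hK
  rw [hwin, sub_zero] at h1
  have h2 : BE M φ (Ψ : P → ℝ) = BE M φ (fun p => χ p ^ 2 * φ p) -
      ∑ v, cf v * BE M φ (g v) := by
    have e : BEL M (Om m n inc M w s) φ' Ψ = BEL M (Om m n inc M w s) φ' X' +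
        ∑ v, (-cf v) * BEL M (Om m n inc M w s) φ' (G v) := by
      rw [hΨ, map_add, map_sum]
      simp only [map_smul, smul_eq_mul]
    rw [BEL_apply, BEL_apply] at e
    have e2 : ∑ v, (-cf v) * BEL M (Om m n inc M w s) φ' (G v) =
        - ∑ v, cf v * BE M φ (g v) := by
      rw [← Finset.sum_neg_distrib]
      refine Finset.sum_congr rfl fun v _ => ?_
      rw [BEL_apply]
      change -cf v * BE M φ (g v) = _
      ring
    rw [e2] at e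
    change BE M φ (Ψ : P → ℝ) = BE M φ (fun p => χ p ^ 2 * φ p) + _ at e
    rw [e]; ring
  have h3 : ∀ v, |BE M φ (g v)| ≤ D * √(En φ) + ε2 * √(En φ) + E0 M * (ε2 * √(Ms φ)) := by
    intro v
    have a1 := hE v φ (Dc_univ hφ1)
    have a2 := hMb v φ (Dc_univ hφ1)
    have a3 := hL v φ hφ1
    rw [hφ2 v, sub_zero] at a2
    rw [Box.L, hφ2 v, mul_zero, zero_sub, abs_neg] at a3
    have a4 : BE M φ (g v) = (Eb (g v) φ - ∫ p in (bar m n M s v).set,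
        gb (bar m n M s v).ef φ p) + (∫ p in (bar m n M s v).set,
        gb (bar m n M s v).ef φ p) - E0 M * Mb (g v) φ := by
      unfold BE
      rw [Eb_comm φ, Mb_comm φ]; ring
    rw [a4]
    have a5 : |E0 M * Mb (g v) φ| ≤ E0 M * (ε2 * √(Ms φ)) := by
      rw [abs_mul, abs_of_nonneg hE0]
      exact mul_le_mul_of_nonneg_left a2 hE0
    have a6 := abs_le.1 a1
    have a7 := abs_le.1 a3
    have a8 := abs_le.1 a5
    rw [abs_le]; constructor <;> linarith [a6.1, a6.2, a7.1, a7.2, a8.1, a8.2]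
  have h4 : ∑ v, cf v * BE M φ (g v) ≤ ∑ _v : Idx m n, 3 * √(Ms φ) *
        (D * √(En φ) + ε2 * √(En φ) + E0 M * (ε2 * √(Ms φ))) := by
    refine Finset.sum_le_sum fun v _ => ?_
    refine (le_abs_self _).trans ?_
    rw [abs_mul]
    exact mul_le_mul (hcfle v) (h3 v) (abs_nonneg _) (by positivity)
  have h5 := BE_cutoff M hφ1 hχ
  have h6 : δ1 * √(BE M (Ψ : P → ℝ) Ψ) ≤
      δ1 * ((4 + 6 * κ) * √(En φ) + 3 * √(Ms φ) * ∑ v, √(En (g v))) :=
    mul_le_mul_of_nonneg_left (hBΨ.trans hΨE) hδ1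
  have h7 := (abs_le.1 h1).2
  linarith


lemma apriori {e μ t β γ : ℝ} (he : 0 ≤ e) (hμ : 0 ≤ μ) (ht : 0 < t) (hγ : 0 < γ)
    (h1 : γ * (e ^ 2 + μ ^ 2) ≤ β ^ 2) (h2 : β ^ 2 ≤ 8 * t * e + t * β) :
    e ≤ (17 / γ + 1) * t ∧ μ ≤ ((16 * (17 / γ + 1) + 1) / γ + 1) * t := by
  have h3 : β ^ 2 ≤ 16 * t * e + t ^ 2 := by nlinarith [sq_nonneg (t - β)]
  have hS : 0 < 17 / γ := by positivity
  have hSγ : γ * (17 / γ) = 17 := by field_simp
  have h4 : e ≤ (17 / γ + 1) * t := by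
    by_contra hcon
    push Not at hcon
    have h5 : t < e := by nlinarith
    have h6 : γ * e ^ 2 ≤ 16 * t * e + t ^ 2 := by nlinarith [sq_nonneg μ]
    have h7 : γ * ((17 / γ + 1) * t) * e < γ * e * e := by
      have : 0 < e := lt_trans ht h5
      have := mul_lt_mul_of_pos_left hcon hγ
      nlinarith
    have h8 : γ * ((17 / γ + 1) * t) * e = (17 + γ) * (t * e) := by
      have : γ * ((17 / γ + 1) * t) * e = (γ * (17 / γ) + γ) * (t * e) := by ring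
      rw [this, hSγ]
    have h9 : t ^ 2 < t * e := by nlinarith
    have h10 : 0 < t * e := by nlinarith
    nlinarith
  refine ⟨h4, ?_⟩
  set S1 := 17 / γ + 1 with hS1
  have hS1p : 0 < S1 := by positivity
  have hA : 0 < (16 * S1 + 1) / γ := by positivity
  have hAγ : γ * ((16 * S1 + 1) / γ) = 16 * S1 + 1 := by field_simp
  set A := (16 * S1 + 1) / γ with hAdef
  by_contra hcon
  push Not at hcon
  have h6 : γ * μ ^ 2 ≤ 16 * t * e + t ^ 2 := by nlinarith [sq_nonneg e]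
  have h7 : 16 * t * e + t ^ 2 ≤ (16 * S1 + 1) * t ^ 2 := by nlinarith
  have h8 : ((A + 1) * t) ^ 2 < μ ^ 2 := by
    have : 0 < (A + 1) * t := by positivity
    nlinarith
  have h9 : A * t ^ 2 ≤ ((A + 1) * t) ^ 2 := by
    have : 0 < t ^ 2 := by positivity
    nlinarith
  have h10 : γ * (A * t ^ 2) < γ * μ ^ 2 := mul_lt_mul_of_pos_left (lt_of_le_of_lt h9 h8) hγ
  have h11 : γ * (A * t ^ 2) = (16 * S1 + 1) * t ^ 2 := by rw [← mul_assoc, hAγ]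
  linarith

lemma far_win {m n : ℕ} {i i' : Fin m} {j j' : Fin n} (h : (i, j) ≠ (i', j')) {w r : ℝ}
    (hw : w ≤ 1 / 8) (hr : r ≤ 1 / 4) {q : ℝ × ℝ}
    (hq : q ∈ Ioo ((ctr i j).1 - w) ((ctr i j).1 + w) ×ˢ
      Ioo ((ctr i j).2.1 - w) ((ctr i j).2.1 + w)) :
    ((q.1, q.2, (ctr i j).2.2) : P) ∉ cube (ctr i' j') r := by
  rintro ⟨⟨a1, a2⟩, ⟨b1, b2⟩, -⟩
  obtain ⟨⟨c1, c2⟩, ⟨d1, d2⟩⟩ := hq
  simp only [ctr] at a1 a2 b1 b2 c1 c2 d1 d2
  by_cases hj : j = j'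
  · have hi : i ≠ i' := fun hi => h (by rw [hi, hj])
    have hi' : (i : ℕ) ≠ (i' : ℕ) := fun h => hi (Fin.ext h)
    rcases lt_or_gt_of_ne hi' with h1 | h1
    · have : ((i : ℕ) : ℝ) + 1 ≤ ((i' : ℕ) : ℝ) := by exact_mod_cast h1
      linarith
    · have : ((i' : ℕ) : ℝ) + 1 ≤ ((i : ℕ) : ℝ) := by exact_mod_cast h1
      linarith
  · have hj' : (j : ℕ) ≠ (j' : ℕ) := fun h => hj (Fin.ext h)
    rcases lt_or_gt_of_ne hj' with h1 | h1
    · have : ((j : ℕ) : ℝ) + 1 ≤ ((j' : ℕ) : ℝ) := by exact_mod_cast h1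
      linarith
    · have : ((j' : ℕ) : ℝ) + 1 ≤ ((j : ℕ) : ℝ) := by exact_mod_cast h1
      linarith

lemma far_l {m n : ℕ} {inc : Fin m → Fin n → Prop} {M w : ℝ} {s : Idx m n → ℝ}
    (hl : ∀ v, ∀ f ∈ Dc univ, |(bar m n M s v).l f| ≤ 3 * √(Ms f))
    {c : P} {r : ℝ} {χ : P → ℝ} (hχ : ContDiff ℝ ∞ χ) (hχ1 : ∀ p, 0 ≤ χ p ∧ χ p ≤ 1)
    (hχ2 : ∀ p, p ∉ cube c r → χ p = 1)
    {φ : P → ℝ} (hφ : InK m n inc M w s φ) {T : ℝ} (hT : ∫ p in cube c r, φ p ^ 2 ≤ T)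
    (v : Idx m n) : ((bar m n M s v).l (fun p => χ p * φ p)) ^ 2 ≤ 9 * T := by
  obtain ⟨hφ1, hφ2⟩ := hφ
  have hχφ : (fun p => χ p * φ p) ∈ Dc (Om m n inc M w s) := Dc_mul hχ hφ1
  have hχ' : ContDiff ℝ ∞ (fun p => 1 - χ p) := contDiff_const.sub hχ
  have hF : (fun p => (1 - χ p) * φ p) ∈ Dc (Om m n inc M w s) := Dc_mul hχ' hφ1
  have h1 : (bar m n M s v).l (fun p => χ p * φ p) =
      - (bar m n M s v).l (fun p => (1 - χ p) * φ p) := by
    have e := map_add (lL (bar m n M s v) (Om m n inc M w s)) ⟨_, hχφ⟩ ⟨_, hF⟩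
    have e2 : ((⟨_, hχφ⟩ : Dc (Om m n inc M w s)) + ⟨_, hF⟩) = ⟨φ, hφ1⟩ := by
      apply Subtype.ext
      funext p
      simp only [Submodule.coe_add, Pi.add_apply]
      ring
    rw [e2, lL_apply, lL_apply, lL_apply] at e
    simp only at e
    rw [hφ2 v] at e
    linarith
  have h2 : Ms (fun p => (1 - χ p) * φ p) ≤ T := by
    refine le_trans ?_ hT
    have hm : MeasurableSet (cube c r) := (COER.cube_open c r).measurableSet
    rw [← integral_indicator hm]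
    refine integral_mono (int_mul_right hF hF.1.continuous)
      ((int_sq hφ1).indicator hm) fun p => ?_
    simp only
    by_cases hp : p ∈ cube c r
    · rw [indicator_of_mem hp]
      have h3 := hχ1 p
      have h4 : (1 - χ p) ^ 2 ≤ 1 := by nlinarith
      nlinarith [sq_nonneg (φ p)]
    · rw [indicator_of_notMem hp, hχ2 p hp]; simp
  have h3 := hl v _ (Dc_univ hF)
  rw [h1, neg_sq, ← sq_abs]
  have h4 : |(bar m n M s v).l (fun p => (1 - χ p) * φ p)| ^ 2 ≤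
      (3 * √(Ms (fun p => (1 - χ p) * φ p))) ^ 2 := pow_le_pow_left₀ (abs_nonneg _) h3 2
  rw [mul_pow, Real.sq_sqrt (Ms_nonneg _)] at h4
  linarith


lemma ar1 {κ e S t η En' : ℝ} (he0 : 0 ≤ e) (he : e ≤ S * t) (hE : e ^ 2 = En') (hκ : 0 ≤ κ)
    (h : κ * S ^ 2 ≤ η / 5) : κ * En' ≤ η / 5 * t ^ 2 := by
  have h1 : e ^ 2 ≤ (S * t) ^ 2 := pow_le_pow_left₀ he0 he 2
  calc κ * En' = κ * e ^ 2 := by rw [hE]
    _ ≤ κ * (S * t) ^ 2 := mul_le_mul_of_nonneg_left h1 hκ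
    _ = κ * S ^ 2 * t ^ 2 := by ring
    _ ≤ η / 5 * t ^ 2 := mul_le_mul_of_nonneg_right h (sq_nonneg t)

lemma ar2 {κ C0 e μ S t Γ δ1 η : ℝ} (hκ : 0 ≤ κ) (hκC : κ ≤ C0) (he0 : 0 ≤ e)
    (he : e ≤ S * t) (hμ : μ ≤ S * t) (hΓ : 0 ≤ Γ) (hδ : 0 ≤ δ1)
    (h : δ1 * ((S * (4 + 6 * C0) + 3 * S * Γ) * t) ≤ η / 5 * t ^ 2) :
    δ1 * ((4 + 6 * κ) * e + 3 * μ * Γ) ≤ η / 5 * t ^ 2 := by
  refine le_trans (mul_le_mul_of_nonneg_left ?_ hδ) h
  have h1 : (4 + 6 * κ) * e ≤ (4 + 6 * C0) * (S * t) :=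
    mul_le_mul (by linarith) he he0 (by linarith)
  have h2 : 3 * μ * Γ ≤ 3 * (S * t) * Γ := mul_le_mul_of_nonneg_right (by linarith) hΓ
  calc _ ≤ (4 + 6 * C0) * (S * t) + 3 * (S * t) * Γ := add_le_add h1 h2
    _ = _ := by ring

lemma ar3 {e μ S t N C3 ε2 E w η : ℝ} (he0 : 0 ≤ e) (hμ0 : 0 ≤ μ) (ht : 0 ≤ t)
    (he : e ≤ S * t) (hμ : μ ≤ S * t) (hS : 0 ≤ S) (hN : 0 ≤ N) (hC3 : 0 ≤ C3) (hε2 : 0 ≤ ε2)
    (hE : 0 ≤ E) (htw : t ≤ w) (h1 : w * (15 * N * S ^ 2 * C3 + 1) ≤ η)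
    (h2 : ε2 * (15 * N * S ^ 2 * (1 + E) + 1) ≤ η) (hw : 0 ≤ w) :
    N * (3 * μ * ((C3 * t) * e + ε2 * e + E * (ε2 * μ))) ≤ 2 * (η / 5) * t ^ 2 := by
  have hSt : 0 ≤ S * t := mul_nonneg hS ht
  have a1 : (C3 * t) * e + ε2 * e + E * (ε2 * μ) ≤
      (C3 * t) * (S * t) + ε2 * (S * t) + E * (ε2 * (S * t)) :=
    add_le_add (add_le_add (mul_le_mul_of_nonneg_left he (mul_nonneg hC3 ht))
      (mul_le_mul_of_nonneg_left he hε2))
      (mul_le_mul_of_nonneg_left (mul_le_mul_of_nonneg_left hμ hε2) hE)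
  have a0 : 0 ≤ (C3 * t) * e + ε2 * e + E * (ε2 * μ) := by positivity
  have a2 : 3 * μ * ((C3 * t) * e + ε2 * e + E * (ε2 * μ)) ≤
      3 * (S * t) * ((C3 * t) * (S * t) + ε2 * (S * t) + E * (ε2 * (S * t))) :=
    mul_le_mul (by linarith) a1 a0 (by positivity)
  have a3 : 3 * N * S ^ 2 * C3 * t ≤ η / 5 := by
    have : 3 * N * S ^ 2 * C3 * t ≤ 3 * N * S ^ 2 * C3 * w :=
      mul_le_mul_of_nonneg_left htw (by positivity)
    linarith
  have a4 : 3 * N * S ^ 2 * (1 + E) * ε2 ≤ η / 5 := by linarith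
  calc N * (3 * μ * ((C3 * t) * e + ε2 * e + E * (ε2 * μ)))
      ≤ N * (3 * (S * t) * ((C3 * t) * (S * t) + ε2 * (S * t) + E * (ε2 * (S * t)))) :=
        mul_le_mul_of_nonneg_left a2 hN
    _ = (3 * N * S ^ 2 * C3 * t + 3 * N * S ^ 2 * (1 + E) * ε2) * t ^ 2 := by ring
    _ ≤ (2 * (η / 5)) * t ^ 2 := mul_le_mul_of_nonneg_right (by linarith) (sq_nonneg t)

lemma ar4 {e S t N C ρ r η En' : ℝ} (he0 : 0 ≤ e) (he : e ≤ S * t) (hE : e ^ 2 = En')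
    (hN : 0 ≤ N) (hC : 0 ≤ C) (hr0 : 0 ≤ r) (hr : r ≤ ρ) (hρ1 : ρ ≤ 1 / 4)
    (h : ρ * (540 * C * N * S ^ 2 + 1) ≤ η) :
    C * (N * (9 * (12 * r ^ 2 * En'))) ≤ η / 5 * t ^ 2 := by
  have h1 : e ^ 2 ≤ (S * t) ^ 2 := pow_le_pow_left₀ he0 he 2
  have hρ0 : 0 ≤ ρ := hr0.trans hr
  have h2 : r ^ 2 ≤ ρ := by nlinarith
  have h3 : r ^ 2 * En' ≤ ρ * (S * t) ^ 2 := by
    rw [← hE]; exact mul_le_mul h2 h1 (sq_nonneg e) hρ0
  calc C * (N * (9 * (12 * r ^ 2 * En'))) = C * N * 108 * (r ^ 2 * En') := by ring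
    _ ≤ C * N * 108 * (ρ * (S * t) ^ 2) := mul_le_mul_of_nonneg_left h3 (by positivity)
    _ = (108 * C * N * S ^ 2 * ρ) * t ^ 2 := by ring
    _ ≤ η / 5 * t ^ 2 := mul_le_mul_of_nonneg_right (by linarith) (sq_nonneg t)

theorem taskFAR : TaskFAR := by
  classical
  intro hCUT hPO hTR hGR hEA hGE m n inc M hM hm hn δ0 w0 γ C hC ε hε
  obtain ⟨hδ0, hδ0', hw0, hw0', hγ, hCpos, hco⟩ := hC
  obtain ⟨C0, hC0, hcut⟩ := hCUT
  obtain ⟨CG, h0, hCG, hh0, hgreen⟩ := hGR m n inc M hM hm hn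
  set N : ℝ := (Fintype.card (Idx m n) : ℝ) with hN
  have hN0 : 0 ≤ N := by positivity
  have hE0 : 0 ≤ E0 M := by unfold E0; positivity
  set S1 : ℝ := 17 / γ + 1 with hS1
  set S2 : ℝ := (16 * S1 + 1) / γ + 1 with hS2
  have hS1p : 0 < S1 := by positivity
  have hS2p : 0 < S2 := by positivity
  set S : ℝ := S1 + S2 with hS
  have hSp : 0 < S := by positivity
  set η : ℝ := γ * ε ^ 2 / 64 with hη
  have hηp : 0 < η := by positivity
  set C3 : ℝ := CG * (8 * (m * n) + 1) with hC3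
  have hC3p : 0 < C3 := by positivity
  obtain ⟨K, hK⟩ := exists_nat_ge (5 * C0 * S ^ 2 / η + 1)
  have hK1 : 1 ≤ (K : ℝ) := by
    have : 0 < 5 * C0 * S ^ 2 / η := by positivity
    linarith
  have hK1' : 1 ≤ K := by exact_mod_cast hK1
  have hKp : 0 < (K : ℝ) := by linarith
  set ρ : ℝ := min (1 / 4) (η / (540 * C * N * S ^ 2 + 1)) with hρ
  have hρp : 0 < ρ := lt_min (by norm_num) (by positivity)
  have hρ1 : ρ ≤ 1 / 4 := min_le_left _ _
  have hρ2 : ρ * (540 * C * N * S ^ 2 + 1) ≤ η := by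
    have : ρ ≤ η / (540 * C * N * S ^ 2 + 1) := min_le_right _ _
    rwa [le_div_iff₀ (by positivity)] at this
  set w1 : ℝ := min w0 (min (ρ / 4 ^ K) (η / (15 * N * S ^ 2 * C3 + 1))) with hw1
  refine ⟨w1, lt_min hw0 (lt_min (by positivity) (by positivity)), min_le_left _ _, ?_⟩
  intro w hw hww1 s hs
  have hww0 : w ≤ w0 := hww1.trans (min_le_left _ _)
  have hw8 : w ≤ 1 / 8 := hww0.trans hw0'
  have hwρ : 4 ^ K * w ≤ ρ := by
    have : w ≤ ρ / 4 ^ K := hww1.trans ((min_le_right _ _).trans (min_le_left _ _))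
    rw [le_div_iff₀ (by positivity)] at this
    linarith
  have hwη : w * (15 * N * S ^ 2 * C3 + 1) ≤ η := by
    have : w ≤ η / (15 * N * S ^ 2 * C3 + 1) :=
      hww1.trans ((min_le_right _ _).trans (min_le_right _ _))
    rwa [le_div_iff₀ (by positivity)] at this
  have hs' : ∀ v, |s v - 1 / 2| ≤ 1 / 4 := fun v => (hs v).trans hδ0'
  obtain ⟨-, -, hd, -, -, hG6, -⟩ := hGE m n inc M w s hM hm hn hw hw8 hs'
  obtain ⟨h, -, hhC, hh00, hgr⟩ := hgreen w hw hw8 s hs'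
  set ε2 : ℝ := min 1 (η / (15 * N * S ^ 2 * (1 + E0 M) + 1)) with hε2
  have hε2p : 0 < ε2 := lt_min one_pos (by positivity)
  have hε21 : ε2 ≤ 1 := min_le_left _ _
  have hε22 : ε2 * (15 * N * S ^ 2 * (1 + E0 M) + 1) ≤ η := by
    have : ε2 ≤ η / (15 * N * S ^ 2 * (1 + E0 M) + 1) := min_le_right _ _
    rwa [le_div_iff₀ (by positivity)] at this
  have hbox : ∀ v, (bar m n M s v).a1 < (bar m n M s v).b1 ∧
      (bar m n M s v).a2 < (bar m n M s v).b2 ∧ (bar m n M s v).a3 < (bar m n M s v).b3 := by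
    intro v
    have := abs_le.1 (hs' v)
    cases v with
    | inl i => simp only [bar]; refine ⟨?_, ?_, ?_⟩ <;> linarith [this.1]
    | inr j => simp only [bar]; refine ⟨?_, ?_, ?_⟩ <;> linarith [this.1]
  choose g hg hg1 hg2 hg3 hg4 using fun v => hEA (bar m n M s v) (hbox v).1 (hbox v).2.1
    (hbox v).2.2 ε2 hε2p
  have hl : ∀ v, ∀ f ∈ Dc univ, |(bar m n M s v).l f| ≤ 3 * √(Ms f) := fun v f hf =>
    l_le hε21 (hg v) (hg2 v) (fun f hf => (hg4 v f hf).2) hf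
  set Γ : ℝ := ∑ v, √(En (g v)) with hΓ
  have hΓ0 : 0 ≤ Γ := Finset.sum_nonneg fun v _ => Real.sqrt_nonneg _
  set t : ℝ := w * √w with ht
  have hsw : 0 < √w := Real.sqrt_pos.2 hw
  have htp : 0 < t := by positivity
  have ht2 : t ^ 2 = w ^ 3 := by
    rw [ht, mul_pow, Real.sq_sqrt hw.le]; ring
  have htw : t ≤ w := by
    have : √w ≤ 1 := by
      have h1 : √w ≤ √1 := Real.sqrt_le_sqrt (by linarith)
      rwa [Real.sqrt_one] at h1
    exact mul_le_of_le_one_right hw.le this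
  set R : ℝ := S * (4 + 6 * C0) + 3 * S * Γ with hR
  have hRp : 0 < R := by positivity
  set δ1 : ℝ := t * min 1 (η / (5 * R)) with hδ1
  have hδ1p : 0 < δ1 := mul_pos htp (lt_min one_pos (by positivity))
  have hδ1t : δ1 ≤ t := by
    exact mul_le_of_le_one_right htp.le (min_le_left _ _)
  have hδ1R : δ1 * (R * t) ≤ η / 5 * t ^ 2 := by
    have h1 : min 1 (η / (5 * R)) ≤ η / (5 * R) := min_le_right _ _
    have h2 : δ1 * (R * t) = min 1 (η / (5 * R)) * R * t ^ 2 := by rw [hδ1]; ring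
    rw [h2]
    refine mul_le_mul_of_nonneg_right ?_ (by positivity)
    calc min 1 (η / (5 * R)) * R ≤ η / (5 * R) * R := mul_le_mul_of_nonneg_right h1 hRp.le
      _ = η / 5 := by field_simp
  refine ⟨δ1, hδ1p, ?_⟩
  intro i i' j j' _ _ hne φ hφ hrep
  obtain ⟨hφ1, hφ2⟩ := hφ
  have hwr : w ≤ 4 ^ K * w := by
    exact le_mul_of_one_le_left hw.le (one_le_pow₀ (by norm_num))
  have hr4 : 4 ^ K * w ≤ 1 / 4 := hwρ.trans hρ1
  -- trace
  have htr : ∀ (i : Fin m) (j : Fin n), ∀ f ∈ Dc (Om m n inc M w s),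
      |win (ctr i j) w f| ≤ 8 * t * √(En f) := fun i j f hf =>
    win_le hTR (Dc_univ hf) _ hw (vanish hG6 hf i j le_rfl (hwr.trans hr4))
  -- a priori bound
  set e : ℝ := √(En φ) with he
  set μ : ℝ := √(Ms φ) with hμ
  have he0 : 0 ≤ e := Real.sqrt_nonneg _
  have hμ0 : 0 ≤ μ := Real.sqrt_nonneg _
  have he2 : e ^ 2 = En φ := Real.sq_sqrt (En_nonneg _)
  have hμ2 : μ ^ 2 = Ms φ := Real.sq_sqrt (Ms_nonneg _)
  have hcoφ : γ * (En φ + Ms φ) ≤ BE M φ φ := by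
    have := hco w hw hww0 s hs φ hφ1
    simpa [hφ2] using this
  have hBφ : 0 ≤ BE M φ φ :=
    le_trans (mul_nonneg hγ.le (add_nonneg (En_nonneg φ) (Ms_nonneg φ))) hcoφ
  have hap : e ≤ S1 * t ∧ μ ≤ S2 * t := by
    refine apriori (β := √(BE M φ φ)) he0 hμ0 htp hγ ?_ ?_
    · rw [Real.sq_sqrt hBφ, he2, hμ2]; exact hcoφ
    · rw [Real.sq_sqrt hBφ]
      have h1 := (abs_le.1 (hrep φ ⟨hφ1, hφ2⟩)).2
      have h2 := (abs_le.1 (htr i' j' φ hφ1)).2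
      have h3 : δ1 * √(BE M φ φ) ≤ t * √(BE M φ φ) :=
        mul_le_mul_of_nonneg_right hδ1t (Real.sqrt_nonneg _)
      linarith
  have heS : e ≤ S * t := hap.1.trans (mul_le_mul_of_nonneg_right (by linarith) htp.le)
  have hμS : μ ≤ S * t := hap.2.trans (mul_le_mul_of_nonneg_right (by linarith) htp.le)
  -- the boundary functional
  have hL : ∀ v, ∀ f ∈ Dc (Om m n inc M w s), |(bar m n M s v).L f| ≤ (C3 * t) * √(En f) := by
    intro v f hf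
    have h1 := hgr v f hf
    have h2 : |∑ i, ∑ j, h v i j * win (ctr i j) w f| ≤ (m * n) * (CG * (8 * t * √(En f))) := by
      refine (Finset.abs_sum_le_sum_abs _ _).trans ?_
      have h3 : ∀ i ∈ (Finset.univ : Finset (Fin m)), |∑ j, h v i j * win (ctr i j) w f| ≤
          n * (CG * (8 * t * √(En f))) := by
        intro i _
        refine (Finset.abs_sum_le_sum_abs _ _).trans ?_
        have h4 : ∀ j ∈ (Finset.univ : Finset (Fin n)), |h v i j * win (ctr i j) w f| ≤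
            CG * (8 * t * √(En f)) := by
          intro j _
          rw [abs_mul]
          exact mul_le_mul (hhC v i j) (htr i j f hf) (abs_nonneg _) hCG.le
        refine (Finset.sum_le_sum h4).trans ?_
        simp
      refine (Finset.sum_le_sum h3).trans ?_
      simp [mul_assoc]
    have h5 : CG * w * (w * √w) * √(En f) ≤ CG * t * √(En f) := by
      have : w ≤ 1 := by linarith
      have h6 : CG * w * t ≤ CG * t := by
        have h9 : CG * w * t = CG * t * w := by ring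
        rw [h9]
        exact mul_le_of_le_one_right (by positivity) this
      exact mul_le_mul_of_nonneg_right h6 (Real.sqrt_nonneg _)
    have h7 : |(bar m n M s v).L f| ≤ |∑ i, ∑ j, h v i j * win (ctr i j) w f| +
        |(bar m n M s v).L f - ∑ i, ∑ j, h v i j * win (ctr i j) w f| := by
      have := abs_add_le (∑ i, ∑ j, h v i j * win (ctr i j) w f)
        ((bar m n M s v).L f - ∑ i, ∑ j, h v i j * win (ctr i j) w f)
      rwa [add_sub_cancel] at this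
    have h8 : (C3 * t) * √(En f) = (m * n) * (CG * (8 * t * √(En f))) + CG * t * √(En f) := by
      rw [hC3]; ring
    rw [h8]; linarith
  -- the cut-off
  obtain ⟨χ, hχ, hχ1, hχ0, hχ2, hχc⟩ := hcut K hK1' (ctr i' j') w hw
  set κ : ℝ := C0 / K with hκ
  have hκ0 : 0 ≤ κ := by positivity
  have hκC : κ ≤ C0 := div_le_self hC0.le hK1
  have hpo : ∀ r : ℝ, w ≤ r → r ≤ 4 ^ K * w → ∀ x y : ℝ, r ≤ |x - (ctr i' j').1| →
      |x - (ctr i' j').1| ≤ 3 * r → |y - (ctr i' j').2.1| ≤ r →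
      φ (x, y, (ctr i' j').2.2) = 0 := fun r h1 h2 =>
    vanish hG6 hφ1 i' j' h1 (h2.trans hr4)
  have hcutφ : ∫ p, gb χ χ p * φ p ^ 2 ≤ κ * En φ :=
    hχc φ (Dc_univ hφ1) fun r h1 h2 =>
      hPO φ (Dc_univ hφ1) _ r (lt_of_lt_of_le hw h1) (hpo r h1 h2)
  have hcore := core hw hd g hg hg1 (fun v f hf => (hg4 v f hf).1)
    (fun v f hf => (hg4 v f hf).2) hl hL (c := ctr i' j') rfl hχ hχ1 hχ0 ⟨hφ1, hφ2⟩ hκ0 hcutφ hδ1p.le hrep
  have hχφ : (fun p => χ p * φ p) ∈ Dc (Om m n inc M w s) := Dc_mul hχ hφ1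
  have hcoχ := hco w hw hww0 s hs _ hχφ
  have hT : ∫ p in cube (ctr i' j') (4 ^ K * w), φ p ^ 2 ≤ 12 * (4 ^ K * w) ^ 2 * En φ :=
    poinc_le hPO (Dc_univ hφ1) _ (lt_of_lt_of_le hw hwr) (hpo _ hwr le_rfl)
  have hL2 : ∑ v, ((bar m n M s v).l (fun p => χ p * φ p)) ^ 2 ≤
      N * (9 * (12 * (4 ^ K * w) ^ 2 * En φ)) := by
    refine (Finset.sum_le_sum fun v _ => far_l hl hχ hχ1 hχ2 ⟨hφ1, hφ2⟩ hT v).trans ?_
    rw [Finset.sum_const, nsmul_eq_mul, Finset.card_univ]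
  rw [Finset.sum_const, nsmul_eq_mul, Finset.card_univ] at hcore
  have hκS : κ * S ^ 2 ≤ η / 5 := by
    have h1 : 5 * C0 * S ^ 2 / η ≤ K := by linarith
    rw [div_le_iff₀ hηp] at h1
    rw [hκ, div_mul_eq_mul_div, div_le_iff₀ hKp]
    linarith
  have b1 : κ * En φ ≤ η / 5 * t ^ 2 := ar1 he0 heS he2 hκ0 hκS
  have b2 : δ1 * ((4 + 6 * κ) * e + 3 * μ * Γ) ≤ η / 5 * t ^ 2 :=
    ar2 hκ0 hκC he0 heS hμS hΓ0 hδ1p.le hδ1R
  have b3 : N * (3 * μ * ((C3 * t) * e + ε2 * e + E0 M * (ε2 * μ))) ≤ 2 * (η / 5) * t ^ 2 :=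
    ar3 he0 hμ0 htp.le heS hμS hSp.le hN0 hC3p.le hε2p.le hE0 htw hwη hε22 hw.le
  have b4 : C * (N * (9 * (12 * (4 ^ K * w) ^ 2 * En φ))) ≤ η / 5 * t ^ 2 :=
    ar4 he0 heS he2 hN0 hCpos.le (by positivity) hwρ hρ1 hρ2
  have b5 : C * ∑ v, ((bar m n M s v).l (fun p => χ p * φ p)) ^ 2 ≤
      C * (N * (9 * (12 * (4 ^ K * w) ^ 2 * En φ))) := mul_le_mul_of_nonneg_left hL2 hCpos.le
  have b6 : 0 ≤ γ * Ms (fun p => χ p * φ p) := mul_nonneg hγ.le (Ms_nonneg _)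
  have b7 : γ * En (fun p => χ p * φ p) ≤ η * t ^ 2 := by linarith
  have b8 : En (fun p => χ p * φ p) ≤ (ε / 8 * t) ^ 2 := by
    have h1 : γ * En (fun p => χ p * φ p) ≤ γ * (ε / 8 * t) ^ 2 := by
      refine b7.trans (le_of_eq ?_)
      rw [hη]; ring
    exact le_of_mul_le_mul_left h1 hγ
  have b9 : √(En (fun p => χ p * φ p)) ≤ ε / 8 * t := by
    rw [← Real.sqrt_sq (by positivity : 0 ≤ ε / 8 * t)]
    exact Real.sqrt_le_sqrt b8
  have b10 : win (ctr i j) w φ = win (ctr i j) w (fun p => χ p * φ p) := by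
    refine setIntegral_congr_fun (measurableSet_Ioo.prod measurableSet_Ioo) fun q hq => ?_
    have : χ (q.1, q.2, (ctr i j).2.2) = 1 := hχ2 _ (far_win hne hw8 hr4 hq)
    simp only [this, one_mul]
  have b11 := htr i j _ hχφ
  rw [b10, ← ht2]
  calc |win (ctr i j) w (fun p => χ p * φ p)| ≤ 8 * t * √(En (fun p => χ p * φ p)) := b11
    _ ≤ 8 * t * (ε / 8 * t) := mul_le_mul_of_nonneg_left b9 (by positivity)
    _ = ε * t ^ 2 := by ring

end Pool.Agent.H456R3.Mult.FAR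

theorem Pool.Agent.H456R3.Mult.taskFAR : Pool.Agent.H456R3.Mult.TaskFAR :=
  Pool.Agent.H456R3.Mult.FAR.taskFAR
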