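import Pool.Agent.H456R3.Mult.Asm3

/-! TaskFAR (project H456-MULT), backup version. -/

open MeasureTheory Set
open scoped ContDiff

set_option autoImplicit false

noncomputable section

namespace Pool.Agent.H456R3.Mult.FarB

open Pool.Agent.H456R3.Mult

lemma bar_mu_le {m n : ℕ} {M : ℝ} (hM1 : 1 ≤ M) {s : Idx m n → ℝ}
    (hs : ∀ v, |s v - 1 / 2| ≤ 1 / 4) (v : Idx m n) : (bar m n M s v).mu ≤ 30 := by
  rw [bar_mu]
  have h1 := abs_le.1 (hs v)
  have h2 : (1 : ℝ) ≤ M + s v := by linarith [h1.1]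
  have h3 : 1 / (M + s v) ^ 2 ≤ 1 := by
    rw [div_le_one (by positivity)]; nlinarith
  have hpi : Real.pi ^ 2 ≤ 10 := by nlinarith [Real.pi_lt_d2, Real.pi_pos]
  have hpi0 : 0 < Real.pi ^ 2 := by positivity
  nlinarith

lemma Ms_mul_le {Ω : Set P} {χ f : P → ℝ} (hχ : ContDiff ℝ ∞ χ) (hf : f ∈ Dc Ω)
    (h : ∀ p, |χ p| ≤ 1) : Ms (fun p => χ p * f p) ≤ Ms f := by
  simp only [Ms, Mb]
  refine integral_mono ?_ ?_ fun p => ?_
  · have := int_mul_right (Dc_mul hχ hf) (Dc_mul hχ hf).1.continuous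
    exact this
  · exact int_mul_right hf hf.1.continuous
  · have h1 : (χ p) ^ 2 ≤ 1 := by
      rw [← sq_abs]; nlinarith [h p, abs_nonneg (χ p)]
    have e : χ p * f p * (χ p * f p) = (χ p) ^ 2 * (f p * f p) := by ring
    simp only
    rw [e]
    nlinarith [mul_self_nonneg (f p)]

lemma En_sq_mul_le {Ω : Set P} {χ f : P → ℝ} (hχ : ContDiff ℝ ∞ χ) (hf : f ∈ Dc Ω)
    (h : ∀ p, 0 ≤ χ p ∧ χ p ≤ 1) :
    En (fun p => χ p ^ 2 * f p) ≤ 2 * En f + 8 * ∫ p, gb χ χ p * f p ^ 2 := by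
  have hχd : Differentiable ℝ χ := hχ.differentiable (by simp)
  have hfd := Dc_diff hf
  have hχ2 : ContDiff ℝ ∞ (fun p => χ p ^ 2) := hχ.pow 2
  have hχ2d : Differentiable ℝ (fun p => χ p ^ 2) := hχ2.differentiable (by simp)
  have h2 : (fun p => χ p ^ 2 * f p) ∈ Dc Ω := Dc_mul hχ2 hf
  have hi : Integrable (fun p => gb χ χ p * f p ^ 2) := by
    have hc : Continuous (gb χ χ) :=
      (((smooth_dx hχ).continuous.mul (smooth_dx hχ).continuous).add
        ((smooth_dy hχ).continuous.mul (smooth_dy hχ).continuous)).add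
        ((smooth_dz hχ).continuous.mul (smooth_dz hχ).continuous)
    have := int_mul_left hf (hc.mul hf.1.continuous)
    exact this.congr (Filter.Eventually.of_forall fun p => by
      simp only [Pi.mul_apply]; ring)
  have hpow : (fun p => χ p ^ 2) = fun p => χ p * χ p := by funext p; ring
  have ex : ∀ p, dx (fun p => χ p ^ 2 * f p) p = 2 * χ p * dx χ p * f p + χ p ^ 2 * dx f p := by
    intro p
    rw [dx_mul hχ2d hfd, hpow, dx_mul hχd hχd]; ring
  have ey : ∀ p, dy (fun p => χ p ^ 2 * f p) p = 2 * χ p * dy χ p * f p + χ p ^ 2 * dy f p := by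
    intro p
    rw [dy_mul hχ2d hfd, hpow, dy_mul hχd hχd]; ring
  have ez : ∀ p, dz (fun p => χ p ^ 2 * f p) p = 2 * χ p * dz χ p * f p + χ p ^ 2 * dz f p := by
    intro p
    rw [dz_mul hχ2d hfd, hpow, dz_mul hχd hχd]; ring
  have key : ∀ (c a b f' : ℝ), 0 ≤ c → c ≤ 1 →
      (2 * c * a * f' + c ^ 2 * b) * (2 * c * a * f' + c ^ 2 * b) ≤
        2 * (b * b) + 8 * (a * a * f' ^ 2) := by
    intro c a b f' h0 h1
    have h2 : c ^ 2 ≤ 1 := by nlinarith
    have h3 : (c ^ 2) * (c ^ 2) ≤ 1 := by nlinarith [sq_nonneg c]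
    have h4 : (2 * c * a * f' + c ^ 2 * b) * (2 * c * a * f' + c ^ 2 * b) ≤
      2 * (c ^ 2 * b) ^ 2 + 2 * (2 * c * a * f') ^ 2 := by
      nlinarith [sq_nonneg (2 * c * a * f' - c ^ 2 * b)]
    have h5 : (c ^ 2 * b) ^ 2 ≤ b * b := by
      have : (c ^ 2 * b) ^ 2 = (c ^ 2 * c ^ 2) * (b * b) := by ring
      rw [this]; nlinarith [mul_self_nonneg b]
    have h6 : (2 * c * a * f') ^ 2 ≤ 4 * (a * a * f' ^ 2) := by
      have : (2 * c * a * f') ^ 2 = 4 * (c ^ 2 * (a * f') ^ 2) := by ring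
      rw [this]
      nlinarith [sq_nonneg (a * f')]
    linarith
  simp only [En, Eb]
  rw [← integral_const_mul, ← integral_const_mul, ← integral_add]
  · refine integral_mono (int_gb h2 h2.1) ?_ fun p => ?_
    · exact ((int_gb hf hf.1).const_mul 2).add (hi.const_mul 8)
    · simp only [gb]
      rw [ex, ey, ez]
      have k1 := key (χ p) (dx χ p) (dx f p) (f p) (h p).1 (h p).2
      have k2 := key (χ p) (dy χ p) (dy f p) (f p) (h p).1 (h p).2
      have k3 := key (χ p) (dz χ p) (dz f p) (f p) (h p).1 (h p).2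
      nlinarith
  · exact (int_gb hf hf.1).const_mul 2
  · exact hi.const_mul 8

theorem taskFAR : TaskFAR := by
  intro hCUT hPO hT hG hE hGEO m n inc M hM1 hM2 hM3 δ0 w0 γ C hC ε hε
  classical
  obtain ⟨C0, hC0, hcut⟩ := hCUT
  obtain ⟨Cg, h0, hCg, hh0, hgreen⟩ := hG m n inc M hM1 hM2 hM3
  obtain ⟨hδ0, hδ04, hw0, hw08, hγ, hCp, hco⟩ := hC
  have hsγ : 0 < √γ := Real.sqrt_pos.2 hγ
  set k : ℝ := (Fintype.card (Idx m n) : ℝ) with hk
  have hk0 : 0 ≤ k := by positivity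
  have hE0 := E0_pos M
  set c2 : ℝ := 8 / √γ + 1 with hc2
  have hc2p : 0 < c2 := by positivity
  set c3 : ℝ := c2 / √γ with hc3
  have hc3p : 0 < c3 := by positivity
  set c4 : ℝ := (8 * ((m : ℝ) * n) * Cg + Cg) * c3 with hc4
  have hc4p : 0 < c4 := by positivity
  set c5 : ℝ := √(2 + 8 * C0) * c3 + k * (c3 * 6) with hc5
  have hc5p : 0 < c5 := by positivity
  -- target
  set T : ℝ := γ * ε ^ 2 / 320 with hTd
  have hTp : 0 < T := by positivity
  -- choose K
  obtain ⟨K0, hK0⟩ := exists_nat_gt (C0 * c3 ^ 2 / T)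
  set K : ℕ := K0 + 1 with hK
  have hK1 : 1 ≤ K := by omega
  have hKp : (0 : ℝ) < K := by positivity
  have hKT : C0 / K * c3 ^ 2 ≤ T := by
    have h1 : C0 * c3 ^ 2 / T ≤ K := by
      have : (K0 : ℝ) ≤ K := by rw [hK]; push_cast; linarith
      linarith
    rw [div_le_iff₀ hTp] at h1
    rw [div_mul_eq_mul_div, div_le_iff₀ hKp]
    linarith
  -- choose ρ
  set ρ : ℝ := min (1 / 4) (T / (C * k * 12 * c3 ^ 2 + 1)) with hρ
  have hρp : 0 < ρ := by positivity
  have hρ4 : ρ ≤ 1 / 4 := min_le_left _ _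
  have hρT : C * k * (12 * ρ ^ 2) * c3 ^ 2 ≤ T := by
    have h1 : ρ ^ 2 ≤ ρ := by nlinarith
    have h2 : ρ * (C * k * 12 * c3 ^ 2 + 1) ≤ T := by
      calc ρ * (C * k * 12 * c3 ^ 2 + 1) ≤ T / (C * k * 12 * c3 ^ 2 + 1) *
            (C * k * 12 * c3 ^ 2 + 1) :=
            mul_le_mul_of_nonneg_right (min_le_right _ _) (by positivity)
        _ = T := by field_simp
    have h3 : 0 ≤ C * k * 12 * c3 ^ 2 := by positivity
    calc C * k * (12 * ρ ^ 2) * c3 ^ 2 = (C * k * 12 * c3 ^ 2) * ρ ^ 2 := by ring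
      _ ≤ (C * k * 12 * c3 ^ 2) * ρ := mul_le_mul_of_nonneg_left h1 h3
      _ ≤ T := by nlinarith
  set w1 : ℝ := min w0 (min (ρ / 4 ^ K) (T / (k * c3 * c4 + 1))) with hw1
  refine ⟨w1, by positivity, min_le_left _ _, fun w hw hww s hs => ?_⟩
  have hww0 : w ≤ w0 := hww.trans (min_le_left _ _)
  have hw8 : w ≤ 1 / 8 := hww0.trans hw08
  have hwρ : 4 ^ K * w ≤ ρ := by
    have := hww.trans ((min_le_right _ _).trans (min_le_left _ _))
    rw [le_div_iff₀ (by positivity)] at this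
    linarith
  have hwT : k * c3 * c4 * w ≤ T := by
    have h1 := hww.trans ((min_le_right _ _).trans (min_le_right _ _))
    rw [le_div_iff₀ (by positivity)] at h1
    nlinarith
  have hs4 : ∀ v, |s v - 1 / 2| ≤ 1 / 4 := fun v => (hs v).trans hδ04
  set Ω := Om m n inc M w s with hΩ
  set A : ℝ := w * √w with hA
  have hsw : 0 < √w := Real.sqrt_pos.2 hw
  have hAp : 0 < A := by positivity
  have hA2 : A ^ 2 = w ^ 3 := by rw [hA, mul_pow, Real.sq_sqrt hw.le]; ring
  have hAw : A ≤ w := by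
    have h1 : √w ≤ 1 := by
      rw [Real.sqrt_le_left (by norm_num)]; linarith
    rw [hA]; nlinarith
  -- δ1 and ε'
  set ε' : ℝ := min 1 (T / (k * c3 * ((1 + E0 M) * c3) + 1)) with hε'
  have hε'p : 0 < ε' := by positivity
  have hε'1 : ε' ≤ 1 := min_le_left _ _
  have hε'T : k * c3 * (ε' * ((1 + E0 M) * c3)) ≤ T := by
    have h1 : ε' * (k * c3 * ((1 + E0 M) * c3) + 1) ≤ T := by
      calc ε' * (k * c3 * ((1 + E0 M) * c3) + 1) ≤ T / (k * c3 * ((1 + E0 M) * c3) + 1) *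
            (k * c3 * ((1 + E0 M) * c3) + 1) :=
            mul_le_mul_of_nonneg_right (min_le_right _ _) (by positivity)
        _ = T := by field_simp
    nlinarith
  set δ1 : ℝ := min A (T * A / c5) with hδ1
  have hδ1p : 0 < δ1 := by positivity
  have hδ1A : δ1 ≤ A := min_le_left _ _
  have hδ1T : δ1 * (c5 * A) ≤ T * A ^ 2 := by
    calc δ1 * (c5 * A) ≤ T * A / c5 * (c5 * A) :=
          mul_le_mul_of_nonneg_right (min_le_right _ _) (by positivity)
      _ = T * A ^ 2 := by field_simp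
  refine ⟨δ1, hδ1p, fun i i' j j' hij hij' hne φ hφ hrep => ?_⟩
  obtain ⟨h, hh1, hh2, hh3, hh4⟩ := hgreen w hw hw8 s hs4
  have hgeo := hGEO m n inc M w s hM1 hM2 hM3 hw hw8 hs4
  have hdis := hgeo.2.2.1
  have hvan := hgeo.2.2.2.2.2.1
  -- coercivity on the kernel
  have hker : ∀ f, InK m n inc M w s f → γ * (En f + Ms f) ≤ BE M f f := by
    intro f hf
    have := hco w hw hww0 s hs f hf.1
    have e : ∑ v, ((bar m n M s v).l f) ^ 2 = 0 := Finset.sum_eq_zero fun v _ => by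
      rw [hf.2 v]; ring
    rw [e, mul_zero, add_zero] at this
    exact this
  have hBpos : ∀ f, InK m n inc M w s f → 0 ≤ BE M f f := fun f hf =>
    (mul_nonneg hγ.le (add_nonneg (En_nonneg f) (Ms_nonneg f))).trans (hker f hf)
  have hEnB : ∀ f, InK m n inc M w s f → √(En f) ≤ √(BE M f f) / √γ := by
    intro f hf
    rw [← Real.sqrt_div (hBpos f hf)]
    refine Real.sqrt_le_sqrt ?_
    rw [le_div_iff₀ hγ]
    have q1 := hker f hf
    rw [mul_add] at q1
    have q2 := mul_nonneg hγ.le (Ms_nonneg f)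
    linarith
  have hMsB : ∀ f, InK m n inc M w s f → √(Ms f) ≤ √(BE M f f) / √γ := by
    intro f hf
    rw [← Real.sqrt_div (hBpos f hf)]
    refine Real.sqrt_le_sqrt ?_
    rw [le_div_iff₀ hγ]
    have q1 := hker f hf
    rw [mul_add] at q1
    have q2 := mul_nonneg hγ.le (En_nonneg f)
    linarith
  -- size of φ
  set X : ℝ := √(BE M φ φ) with hX
  have hX0 : 0 ≤ X := Real.sqrt_nonneg _
  have hXX : BE M φ φ = X * X := (Real.mul_self_sqrt (hBpos φ hφ)).symm
  have hwb := win_bound hT hGEO (inc := inc) hM1 hM2 hM3 hw hw8 hs4 i' j' hφ.1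
  have hXb : X ≤ c2 * A := by
    have h1 := hrep φ hφ
    have h2 := (abs_le.1 h1).2
    have h3 := (abs_le.1 hwb).2
    have h4 := hEnB φ hφ
    have h5 : 8 * (w * √w) * √(En φ) ≤ 8 * A * (X / √γ) :=
      mul_le_mul_of_nonneg_left h4 (by positivity)
    have h6 : X * X ≤ (8 / √γ * A + δ1) * X := by
      have : 8 * A * (X / √γ) = 8 / √γ * A * X := by ring
      rw [add_mul]
      linarith
    by_contra hneg
    push Not at hneg
    have hXpos : 0 < X := lt_of_le_of_lt (by positivity) hneg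
    have h7 := le_of_mul_le_mul_right h6 hXpos
    have h8 : 8 / √γ * A + δ1 ≤ c2 * A := by rw [hc2, add_mul, one_mul]; linarith
    linarith
  have hEnφ : √(En φ) ≤ c3 * A := by
    refine (hEnB φ hφ).trans ?_
    rw [hc3, div_mul_eq_mul_div]
    exact div_le_div_of_nonneg_right hXb hsγ.le
  have hMsφ : √(Ms φ) ≤ c3 * A := by
    refine (hMsB φ hφ).trans ?_
    rw [hc3, div_mul_eq_mul_div]
    exact div_le_div_of_nonneg_right hXb hsγ.le
  have hEnφ2 : En φ ≤ (c3 * A) ^ 2 := by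
    rw [← Real.sq_sqrt (En_nonneg φ)]
    exact pow_le_pow_left₀ (Real.sqrt_nonneg _) hEnφ 2
  -- the cut-off
  obtain ⟨χ, hχ, hχ01, hχ0, hχ1, hχint⟩ := hcut K hK1 (ctr i' j') w hw
  have hpo : ∀ r : ℝ, w ≤ r → r ≤ 4 ^ K * w →
      ∫ p in cube (ctr i' j') r, φ p ^ 2 ≤ 12 * r ^ 2 * ∫ p in cube (ctr i' j') (3 * r), gb φ φ p := by
    intro r hr1 hr2
    have hr4 : r ≤ 1 / 4 := hr2.trans (hwρ.trans hρ4)
    refine hPO φ (Dc_univ hφ.1) (ctr i' j') r (hw.trans_le hr1) fun x y hx hx' hy => ?_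
    refine Dc_zero_of_notMem hφ.1 (hvan i' j' x y (hr1.trans hx) ?_ ?_)
    · refine hx'.trans ?_; linarith
    · refine hy.trans ?_; linarith
  have hI := hχint φ (Dc_univ hφ.1) hpo
  have hI0 : 0 ≤ ∫ p, gb χ χ p * φ p ^ 2 := integral_nonneg fun p =>
    mul_nonneg (gb_self_nonneg χ p) (sq_nonneg _)
  have hχd : Differentiable ℝ χ := hχ.differentiable (by simp)
  set ψ1 : P → ℝ := fun p => χ p ^ 2 * φ p with hψ1
  have hψ1D : ψ1 ∈ Dc Ω := Dc_mul (hχ.pow 2) hφ.1
  set ξ : P → ℝ := fun p => χ p * φ p with hξ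
  have hξD : ξ ∈ Dc Ω := Dc_mul hχ hφ.1
  have hMsψ1 : Ms ψ1 ≤ Ms φ := Ms_mul_le (hχ.pow 2) hφ.1 (fun p => by
    rw [abs_of_nonneg (sq_nonneg _)]
    exact pow_le_one₀ (hχ01 p).1 (hχ01 p).2)
  have hEnψ1 : En ψ1 ≤ (2 + 8 * C0) * En φ := by
    have h1 := En_sq_mul_le hχ hφ.1 hχ01
    have h2 : C0 / K * En φ ≤ C0 * En φ := by
      refine mul_le_mul_of_nonneg_right ?_ (En_nonneg φ)
      rw [div_le_iff₀ hKp]
      have : (1 : ℝ) ≤ K := by exact_mod_cast hK1
      exact le_mul_of_one_le_right hC0.le this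
    have h3 : En ψ1 ≤ 2 * En φ + 8 * ∫ p, gb χ χ p * φ p ^ 2 := h1
    linarith
  -- approximations of the eigenfunctions
  have hgex : ∀ v, ∃ g ∈ Dc (bar m n M s v).set, (bar m n M s v).l g = 1 ∧ |Ms g - 1| ≤ ε' ∧
      |En g - (bar m n M s v).mu| ≤ ε' ∧
      ∀ f ∈ Dc univ, |Eb g f - ∫ p in (bar m n M s v).set, gb (bar m n M s v).ef f p| ≤
        ε' * √(En f) ∧ |Mb g f - (bar m n M s v).l f| ≤ ε' * √(Ms f) := by
    intro v
    obtain ⟨h1, h2, h3⟩ := bar_nondeg hM1 hs4 v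
    exact hE (bar m n M s v) h1 h2 h3 ε' hε'p
  choose g hgD hgl hg1 hg2 hg3 using hgex
  let G : Idx m n → Dc Ω := fun v => ⟨g v, Dc_mono (bar_subset_Om v) (hgD v)⟩
  let F : Dc Ω := ⟨ψ1, hψ1D⟩
  let Ψ : Dc Ω := F - ∑ v, (bar m n M s v).l ψ1 • G v
  have hΨl : ∀ u, (bar m n M s u).l (Ψ : P → ℝ) = 0 := by
    intro u
    have e : (bar m n M s u).l (Ψ : P → ℝ) = lL (bar m n M s u) _ Ψ := rfl
    rw [e]
    simp only [Ψ]
    rw [map_sub, map_sum, Finset.sum_eq_single u]
    · rw [map_smul]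
      change (bar m n M s u).l ψ1 - (bar m n M s u).l ψ1 • (bar m n M s u).l (g u) = 0
      rw [hgl u]; simp
    · intro v _ hvu
      rw [map_smul]
      change (bar m n M s v).l ψ1 • (bar m n M s u).l (g v) = 0
      rw [l_zero_of_disjoint (hdis u v (Ne.symm hvu)) (hgD v)]; simp
    · intro h; exact absurd (Finset.mem_univ u) h
  have hwinG : ∀ v, win (ctr i' j') w (g v) = 0 := by
    intro v
    simp only [win]
    refine integral_eq_zero_of_ae (Filter.Eventually.of_forall fun q => ?_)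
    simp only [Pi.zero_apply]
    refine Dc_zero_of_notMem (hgD v) fun h => ?_
    rcases v with a | b
    · have := h.2.2.2
      simp [bar, ctr] at this
    · have := h.2.2.1
      simp [bar, ctr] at this
  have hwinψ1 : win (ctr i' j') w ψ1 = 0 := by
    simp only [win]
    refine setIntegral_eq_zero_of_forall_eq_zero fun q hq => ?_
    have hmem : ((q.1, q.2, (ctr i' j').2.2) : P) ∈ cube (ctr i' j') (2 * w) := by
      refine ⟨?_, ?_, ?_⟩
      · have := hq.1
        simp only [mem_Ioo] at this ⊢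
        constructor <;> linarith [this.1, this.2]
      · have := hq.2
        simp only [mem_Ioo] at this ⊢
        constructor <;> linarith [this.1, this.2]
      · simp only [mem_Ioo]
        constructor <;> linarith
    simp only [hψ1]
    rw [hχ0 _ hmem]; ring
  have hwinΨ : win (ctr i' j') w (Ψ : P → ℝ) = 0 := by
    have e : win (ctr i' j') w (Ψ : P → ℝ) = winL (ctr i' j') w _ Ψ := rfl
    rw [e]
    simp only [Ψ]
    rw [map_sub, map_sum, Finset.sum_eq_zero, sub_zero]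
    · exact hwinψ1
    · intro v _
      rw [map_smul]
      change (bar m n M s v).l ψ1 • win (ctr i' j') w (g v) = 0
      rw [hwinG]; simp
  have hΨK : InK m n inc M w s (Ψ : P → ℝ) := ⟨Ψ.2, hΨl⟩
  -- coefficients
  have hlψ1 : ∀ v, |(bar m n M s v).l ψ1| ≤ c3 * A := fun v => by
    obtain ⟨h1, h2, h3⟩ := bar_nondeg hM1 hs4 v
    exact (abs_l_le hE h1 h2 h3 (Dc_univ hψ1D)).trans
      ((Real.sqrt_le_sqrt hMsψ1).trans hMsφ)
  -- size of Ψ
  have hsym : ∀ x y, EbL Ω x y = EbL Ω y x := fun x y => Eb_comm _ _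
  have hpos : ∀ x, 0 ≤ EbL Ω x x := fun x => En_nonneg _
  have hEng : ∀ v, √(En (g v)) ≤ 6 := by
    intro v
    rw [Real.sqrt_le_left (by norm_num)]
    have h1 := (abs_le.1 (hg2 v)).2
    have h2 := bar_mu_le hM1 hs4 v
    linarith
  have hEnΨ : √(En (Ψ : P → ℝ)) ≤ c5 * A := by
    let x : Option (Idx m n) → Dc Ω := fun o => match o with
      | none => F
      | some v => (-(bar m n M s v).l ψ1) • G v
    have h := sqrt_add_le_sum (EbL Ω) hsym hpos Finset.univ x
    have e1 : ∑ o, x o = Ψ := by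
      rw [Fintype.sum_option]
      simp only [x, Ψ]
      rw [sub_eq_add_neg, ← Finset.sum_neg_distrib]
      congr 1
      refine Finset.sum_congr rfl fun v _ => ?_
      exact neg_smul ((bar m n M s v).l ψ1) (G v)
    rw [e1, Fintype.sum_option] at h
    have e3 : √(EbL Ω (x none) (x none)) ≤ √(2 + 8 * C0) * (c3 * A) := by
      change √(En ψ1) ≤ _
      refine (Real.sqrt_le_sqrt hEnψ1).trans ?_
      rw [Real.sqrt_mul (by positivity)]
      exact mul_le_mul_of_nonneg_left hEnφ (Real.sqrt_nonneg _)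
    have e4 : ∑ v, √(EbL Ω (x (some v)) (x (some v))) ≤ ∑ _v : Idx m n, c3 * A * 6 := by
      refine Finset.sum_le_sum fun v _ => ?_
      have e2 : EbL Ω (x (some v)) (x (some v)) = ((bar m n M s v).l ψ1) ^ 2 * En (g v) := by
        simp only [x, map_smul, LinearMap.smul_apply, smul_eq_mul]
        change -(bar m n M s v).l ψ1 * (-(bar m n M s v).l ψ1 * En (g v)) = _
        ring
      rw [e2, Real.sqrt_mul (sq_nonneg _), Real.sqrt_sq_eq_abs]
      exact mul_le_mul (hlψ1 v) (hEng v) (Real.sqrt_nonneg _) (by positivity)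
    rw [Finset.sum_const, Finset.card_univ, nsmul_eq_mul] at e4
    have e5 : √(En (Ψ : P → ℝ)) ≤ √(2 + 8 * C0) * (c3 * A) + k * (c3 * A * 6) :=
      h.trans (add_le_add e3 e4)
    refine e5.trans (le_of_eq ?_)
    rw [hc5]; ring
  have hBΨ : √(BE M (Ψ : P → ℝ) (Ψ : P → ℝ)) ≤ c5 * A := by
    refine (Real.sqrt_le_sqrt ?_).trans hEnΨ
    have : BE M (Ψ : P → ℝ) (Ψ : P → ℝ) = En (Ψ : P → ℝ) - E0 M * Ms (Ψ : P → ℝ) := rfl
    rw [this]
    have q2 := mul_nonneg hE0.le (Ms_nonneg (Ψ : P → ℝ))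
    linarith
  have hφΨ : |BE M φ (Ψ : P → ℝ)| ≤ T * A ^ 2 := by
    have h1 := hrep _ hΨK
    rw [hwinΨ, sub_zero] at h1
    exact h1.trans ((mul_le_mul_of_nonneg_left hBΨ hδ1p.le).trans hδ1T)
  -- `B(φ, g_v)`
  have hφg : ∀ v, |BE M φ (g v)| ≤ c4 * A ^ 2 + ε' * ((1 + E0 M) * c3) * A := by
    intro v
    have h1 := (hg3 v φ (Dc_univ hφ.1)).1
    have h2 := (hg3 v φ (Dc_univ hφ.1)).2
    have h3 := hφ.2 v
    have e : BE M φ (g v) = - (bar m n M s v).L φ +
        (Eb (g v) φ - ∫ p in (bar m n M s v).set, gb (bar m n M s v).ef φ p) -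
        E0 M * (Mb (g v) φ - (bar m n M s v).l φ) := by
      rw [BE_comm]
      simp only [BE, Box.L, h3]; ring
    have hL : |(bar m n M s v).L φ| ≤ c4 * A ^ 2 := by
      have h5 := hh4 v φ hφ.1
      have h6 : |∑ i, ∑ j, h v i j * win (ctr i j) w φ| ≤
          (m : ℝ) * n * (Cg * (8 * A * (c3 * A))) := by
        refine (Finset.abs_sum_le_sum_abs _ _).trans ?_
        have q1 : ∀ a ∈ (Finset.univ : Finset (Fin m)), |∑ j, h v a j * win (ctr a j) w φ| ≤
            (n : ℝ) * (Cg * (8 * A * (c3 * A))) := by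
          intro a _
          refine (Finset.abs_sum_le_sum_abs _ _).trans ?_
          have q2 : ∀ b ∈ (Finset.univ : Finset (Fin n)), |h v a b * win (ctr a b) w φ| ≤
              Cg * (8 * A * (c3 * A)) := by
            intro b _
            rw [abs_mul]
            refine mul_le_mul (hh2 v a b) ?_ (abs_nonneg _) hCg.le
            exact (win_bound hT hGEO (inc := inc) hM1 hM2 hM3 hw hw8 hs4 a b hφ.1).trans
              (mul_le_mul_of_nonneg_left hEnφ (by positivity))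
          refine (Finset.sum_le_sum q2).trans ?_
          simp
        refine (Finset.sum_le_sum q1).trans ?_
        simp only [Finset.sum_const, Finset.card_univ, nsmul_eq_mul, Fintype.card_fin]
        exact le_of_eq (by ring)
      have h7 : Cg * w * (w * √w) * √(En φ) ≤ Cg * A * (c3 * A) := by
        have a1 : Cg * w * (w * √w) * √(En φ) ≤ Cg * w * A * (c3 * A) :=
          mul_le_mul_of_nonneg_left hEnφ (by positivity)
        have a2 : Cg * w * A * (c3 * A) ≤ Cg * 1 * A * (c3 * A) := by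
          refine mul_le_mul_of_nonneg_right (mul_le_mul_of_nonneg_right
            (mul_le_mul_of_nonneg_left (by linarith) hCg.le) hAp.le) (by positivity)
        rw [mul_one] at a2
        exact a1.trans a2
      have h8 : |(bar m n M s v).L φ| ≤
          |(bar m n M s v).L φ - ∑ i, ∑ j, h v i j * win (ctr i j) w φ| +
          |∑ i, ∑ j, h v i j * win (ctr i j) w φ| := by
        have := abs_add_le ((bar m n M s v).L φ - ∑ i, ∑ j, h v i j * win (ctr i j) w φ)
          (∑ i, ∑ j, h v i j * win (ctr i j) w φ)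
        rwa [sub_add_cancel] at this
      have h9 : c4 * A ^ 2 = (m : ℝ) * n * (Cg * (8 * A * (c3 * A))) + Cg * A * (c3 * A) := by
        rw [hc4]; ring
      rw [h9]; linarith
    have hr1 : |Eb (g v) φ - ∫ p in (bar m n M s v).set, gb (bar m n M s v).ef φ p| ≤
        ε' * (c3 * A) := h1.trans (mul_le_mul_of_nonneg_left hEnφ hε'p.le)
    have hr2 : |Mb (g v) φ - (bar m n M s v).l φ| ≤ ε' * (c3 * A) :=
      h2.trans (mul_le_mul_of_nonneg_left hMsφ hε'p.le)
    rw [e]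
    have hr3 := mul_le_mul_of_nonneg_left hr2 hE0.le
    have b1 := abs_le.1 hL
    have b2 := abs_le.1 hr1
    have b3 := abs_le.1 hr2
    have b4 := mul_le_mul_of_nonneg_left b3.1 hE0.le
    have b5 := mul_le_mul_of_nonneg_left b3.2 hE0.le
    have b6 : ε' * ((1 + E0 M) * c3) * A = ε' * (c3 * A) + E0 M * (ε' * (c3 * A)) := by ring
    rw [abs_le, b6]
    constructor
    · linarith [b1.1, b1.2, b2.1, b2.2]
    · linarith [b1.1, b1.2, b2.1, b2.2]
  -- `B(φ, ψ1)`
  have hφψ1 : BE M φ ψ1 ≤ T * A ^ 2 + k * (c3 * A * (c4 * A ^ 2 + ε' * ((1 + E0 M) * c3) * A)) := by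
    have e1 : BE M φ (Ψ : P → ℝ) = BE M φ ψ1 - ∑ v, (bar m n M s v).l ψ1 * BE M φ (g v) := by
      let Φ : Dc Ω := ⟨φ, hφ.1⟩
      have hBL : ∀ x y : Dc Ω, BEL M Ω x y = BE M (x : P → ℝ) (y : P → ℝ) := fun x y =>
        BEL_apply x y
      have this : BEL M Ω Φ Ψ = BEL M Ω Φ F - ∑ v, (bar m n M s v).l ψ1 * BEL M Ω Φ (G v) := by
        simp only [Ψ]
        rw [map_sub, map_sum]
        congr 1
        refine Finset.sum_congr rfl fun v _ => ?_
        rw [map_smul, smul_eq_mul]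
      rw [hBL, hBL] at this
      exact this
    have e2 : |∑ v, (bar m n M s v).l ψ1 * BE M φ (g v)| ≤
        k * (c3 * A * (c4 * A ^ 2 + ε' * ((1 + E0 M) * c3) * A)) := by
      refine (Finset.abs_sum_le_sum_abs _ _).trans ?_
      have : ∀ v ∈ (Finset.univ : Finset (Idx m n)), |(bar m n M s v).l ψ1 * BE M φ (g v)| ≤
          c3 * A * (c4 * A ^ 2 + ε' * ((1 + E0 M) * c3) * A) := by
        intro v _
        rw [abs_mul]
        exact mul_le_mul (hlψ1 v) (hφg v) (abs_nonneg _) (by positivity)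
      refine (Finset.sum_le_sum this).trans ?_
      rw [Finset.sum_const, Finset.card_univ, nsmul_eq_mul]
    have h1 := (abs_le.1 hφΨ).2
    have h2 := (abs_le.1 e2).2
    linarith
  -- `B(χφ, χφ)`
  have hcutid : BE M φ ψ1 = BE M ξ ξ - ∫ p, gb χ χ p * φ p ^ 2 := BE_cutoff M hφ.1 hχ
  -- coefficients of χφ
  have hlξ : ∀ v, ((bar m n M s v).l ξ) ^ 2 ≤ 12 * ρ ^ 2 * (c3 * A) ^ 2 := by
    intro v
    have hχ' : ContDiff ℝ ∞ (fun p => 1 - χ p) := contDiff_const.sub hχ
    have hζD : (fun p => (1 - χ p) * φ p) ∈ Dc Ω := Dc_mul hχ' hφ.1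
    have e1 : (bar m n M s v).l ξ = - (bar m n M s v).l (fun p => (1 - χ p) * φ p) := by
      have h1 := hφ.2 v
      have h2 : (bar m n M s v).l ξ + (bar m n M s v).l (fun p => (1 - χ p) * φ p) =
          (bar m n M s v).l φ := by
        have a1 := (lL (bar m n M s v) Ω).map_add ⟨ξ, hξD⟩ ⟨_, hζD⟩
        simp only [lL_apply] at a1
        rw [← a1]
        congr 1
        funext p
        simp only [Submodule.coe_add, Pi.add_apply, hξ]
        ring
      linarith
    obtain ⟨g1, g2, g3⟩ := bar_nondeg hM1 hs4 v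
    have h2 := abs_l_le hE g1 g2 g3 (Dc_univ hζD)
    have h3 : Ms (fun p => (1 - χ p) * φ p) ≤ ∫ p in cube (ctr i' j') (4 ^ K * w), φ p ^ 2 := by
      simp only [Ms, Mb]
      have hcm : MeasurableSet (cube (ctr i' j') (4 ^ K * w)) :=
        (isOpen_Ioo.prod (isOpen_Ioo.prod isOpen_Ioo)).measurableSet
      rw [← integral_indicator hcm]
      refine integral_mono (int_mul_right hζD hζD.1.continuous) ((int_sq hφ.1).indicator hcm)
        fun p => ?_
      simp only
      by_cases hp : p ∈ cube (ctr i' j') (4 ^ K * w)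
      · rw [indicator_of_mem hp]
        have := hχ01 p
        have h5 : (1 - χ p) ^ 2 ≤ 1 := pow_le_one₀ (by linarith [this.2]) (by linarith [this.1])
        have e : (1 - χ p) * φ p * ((1 - χ p) * φ p) = (1 - χ p) ^ 2 * φ p ^ 2 := by ring
        rw [e]
        exact mul_le_of_le_one_left (sq_nonneg _) h5
      · rw [indicator_of_notMem hp, hχ1 p hp]; simp
    have hwr : w ≤ 4 ^ K * w := by
      have : (1 : ℝ) ≤ 4 ^ K := one_le_pow₀ (by norm_num)
      exact le_mul_of_one_le_left hw.le this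
    have h4 := hpo (4 ^ K * w) hwr le_rfl
    have h5 : ∫ p in cube (ctr i' j') (3 * (4 ^ K * w)), gb φ φ p ≤ En φ :=
      setIntegral_le_integral (int_gb hφ.1 hφ.1.1) (Filter.Eventually.of_forall fun p =>
        gb_self_nonneg φ p)
    have h6 : Ms (fun p => (1 - χ p) * φ p) ≤ 12 * ρ ^ 2 * (c3 * A) ^ 2 := by
      refine h3.trans (h4.trans ?_)
      have a1 : (4 ^ K * w) ^ 2 ≤ ρ ^ 2 := pow_le_pow_left₀ (by positivity) hwρ 2
      exact mul_le_mul (by linarith) (h5.trans hEnφ2) (integral_nonneg fun p =>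
        gb_self_nonneg φ p) (by positivity)
    rw [e1, neg_sq, ← sq_abs]
    calc |(bar m n M s v).l (fun p => (1 - χ p) * φ p)| ^ 2 ≤
          (√(Ms (fun p => (1 - χ p) * φ p))) ^ 2 := pow_le_pow_left₀ (abs_nonneg _) h2 2
      _ = Ms (fun p => (1 - χ p) * φ p) := Real.sq_sqrt (Ms_nonneg _)
      _ ≤ _ := h6
  have hsuml : ∑ v, ((bar m n M s v).l ξ) ^ 2 ≤ k * (12 * ρ ^ 2 * (c3 * A) ^ 2) := by
    refine (Finset.sum_le_sum fun v _ => hlξ v).trans ?_
    rw [Finset.sum_const, Finset.card_univ, nsmul_eq_mul]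
  have hcoξ := hco w hw hww0 s hs ξ hξD
  have hfin : γ * En ξ ≤ 5 * T * A ^ 2 := by
    have t1 : ∫ p, gb χ χ p * φ p ^ 2 ≤ T * A ^ 2 := by
      refine hI.trans ?_
      calc C0 / K * En φ ≤ C0 / K * (c3 * A) ^ 2 :=
            mul_le_mul_of_nonneg_left hEnφ2 (by positivity)
        _ = (C0 / K * c3 ^ 2) * A ^ 2 := by ring
        _ ≤ T * A ^ 2 := mul_le_mul_of_nonneg_right hKT (by positivity)
    have t2 : C * ∑ v, ((bar m n M s v).l ξ) ^ 2 ≤ T * A ^ 2 := by
      calc C * ∑ v, ((bar m n M s v).l ξ) ^ 2 ≤ C * (k * (12 * ρ ^ 2 * (c3 * A) ^ 2)) :=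
            mul_le_mul_of_nonneg_left hsuml hCp.le
        _ = (C * k * (12 * ρ ^ 2) * c3 ^ 2) * A ^ 2 := by ring
        _ ≤ T * A ^ 2 := mul_le_mul_of_nonneg_right hρT (by positivity)
    have t3 : k * (c3 * A * (c4 * A ^ 2)) ≤ T * A ^ 2 := by
      calc k * (c3 * A * (c4 * A ^ 2)) = (k * c3 * c4 * A) * A ^ 2 := by ring
        _ ≤ (k * c3 * c4 * w) * A ^ 2 := by
            refine mul_le_mul_of_nonneg_right ?_ (by positivity)
            exact mul_le_mul_of_nonneg_left hAw (by positivity)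
        _ ≤ T * A ^ 2 := mul_le_mul_of_nonneg_right hwT (by positivity)
    have t4 : k * (c3 * A * (ε' * ((1 + E0 M) * c3) * A)) ≤ T * A ^ 2 := by
      calc k * (c3 * A * (ε' * ((1 + E0 M) * c3) * A)) =
            (k * c3 * (ε' * ((1 + E0 M) * c3))) * A ^ 2 := by ring
        _ ≤ T * A ^ 2 := mul_le_mul_of_nonneg_right hε'T (by positivity)
    have t5 : k * (c3 * A * (c4 * A ^ 2 + ε' * ((1 + E0 M) * c3) * A)) =
        k * (c3 * A * (c4 * A ^ 2)) + k * (c3 * A * (ε' * ((1 + E0 M) * c3) * A)) := by ring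
    have t6 := mul_nonneg hγ.le (Ms_nonneg ξ)
    rw [hcutid, t5] at hφψ1
    rw [mul_add] at hcoξ
    linarith
  have hEnξ : √(En ξ) ≤ ε / 8 * A := by
    rw [Real.sqrt_le_left (by positivity)]
    have h1 : γ * En ξ ≤ γ * (ε / 8 * A) ^ 2 := by
      refine hfin.trans (le_of_eq ?_)
      rw [hTd]; ring
    exact le_of_mul_le_mul_left h1 hγ
  -- the window (i, j) does not see the cut-off
  have hwinξ : win (ctr i j) w φ = win (ctr i j) w ξ := by
    simp only [win]
    refine setIntegral_congr_fun (measurableSet_Ioo.prod measurableSet_Ioo) fun q hq => ?_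
    have hnot : ((q.1, q.2, (ctr i j).2.2) : P) ∉ cube (ctr i' j') (4 ^ K * w) := by
      intro hmem
      have hr := hwρ.trans hρ4
      have m1 := hmem.1
      have m2 := hmem.2.1
      have n1 := hq.1
      have n2 := hq.2
      simp only [ctr, mem_Ioo] at m1 m2 n1 n2
      apply hne
      have e1 : (i : ℕ) = (i' : ℕ) := by
        by_contra hc
        rcases lt_or_gt_of_ne hc with hlt | hlt
        · have : ((i : ℕ) : ℝ) + 1 ≤ (i' : ℕ) := by exact_mod_cast hlt
          linarith [m2.1, m2.2, n2.1, n2.2]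
        · have : ((i' : ℕ) : ℝ) + 1 ≤ (i : ℕ) := by exact_mod_cast hlt
          linarith [m2.1, m2.2, n2.1, n2.2]
      have e2 : (j : ℕ) = (j' : ℕ) := by
        by_contra hc
        rcases lt_or_gt_of_ne hc with hlt | hlt
        · have : ((j : ℕ) : ℝ) + 1 ≤ (j' : ℕ) := by exact_mod_cast hlt
          linarith [m1.1, m1.2, n1.1, n1.2]
        · have : ((j' : ℕ) : ℝ) + 1 ≤ (j : ℕ) := by exact_mod_cast hlt
          linarith [m1.1, m1.2, n1.1, n1.2]
      exact Prod.ext (Fin.ext e1) (Fin.ext e2)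
    simp only [hξ]
    rw [hχ1 _ hnot, one_mul]
  rw [hwinξ]
  refine (win_bound hT hGEO (inc := inc) hM1 hM2 hM3 hw hw8 hs4 i j hξD).trans ?_
  calc 8 * (w * √w) * √(En ξ) ≤ 8 * A * (ε / 8 * A) :=
        mul_le_mul_of_nonneg_left hEnξ (by positivity)
    _ = ε * w ^ 3 := by rw [← hA2]; ring

end Pool.Agent.H456R3.Mult.FarB
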