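import Mathlib
import Pool.Agent.H456R3.Mult.Stmts

/-!
Project H456-MULT, task TaskGAP: spectral gap inequality of a box with sides in `[1, Λ]`.
One-dimensional inequality by subtracting the multiple of the sine that agrees at the midpoint and
a ground state argument on the two halves; tensorisation by commuting projections.
-/

set_option autoImplicit false

noncomputable section

namespace Pool.Agent.H456R3.Mult.GapH

open MeasureTheory Set

section OneD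
open intervalIntegral

/-- Wirtinger with a non-sharp constant, by a ground state. -/
lemma wirt (a m : ℝ) (ham : a < m) (w : ℝ) (hw : w = 3 * Real.pi / (4 * (m - a)))
    (h h' : ℝ → ℝ) (hh : ∀ x, HasDerivAt h (h' x) x) (hh' : Continuous h')
    (ha : h a = 0) (hm : h m = 0) :
    w ^ 2 * ∫ x in a..m, h x ^ 2 ≤ ∫ x in a..m, h' x ^ 2 := by
  have hcont : Continuous h := continuous_iff_continuousAt.2 fun x => (hh x).continuousAt
  have hpi := Real.pi_pos
  have hma : 0 < m - a := sub_pos.2 ham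
  set θ : ℝ → ℝ := fun x => w * (x - a) + Real.pi / 8 with hθ
  have hw0 : 0 < w := by rw [hw]; positivity
  have hsin : ∀ x ∈ Icc a m, 0 < Real.sin (θ x) := by
    intro x hx
    apply Real.sin_pos_of_pos_of_lt_pi
    · have : 0 ≤ w * (x - a) := mul_nonneg hw0.le (sub_nonneg.2 hx.1)
      simp only [hθ]; linarith
    · have h1 : w * (x - a) ≤ w * (m - a) := mul_le_mul_of_nonneg_left (by linarith [hx.2]) hw0.le
      have h2 : w * (m - a) = 3 * Real.pi / 4 := by rw [hw]; field_simp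
      simp only [hθ]; linarith
  have hθd : ∀ x, HasDerivAt θ w x := by
    intro x
    have := ((hasDerivAt_id x).sub_const a).const_mul w
    simpa [hθ] using this.add_const (Real.pi / 8)
  set G : ℝ → ℝ := fun x => w * h x ^ 2 * (Real.cos (θ x) / Real.sin (θ x)) with hG
  set G' : ℝ → ℝ := fun x => 2 * w * h x * h' x * (Real.cos (θ x) / Real.sin (θ x)) -
    w ^ 2 * h x ^ 2 * (1 + (Real.cos (θ x) / Real.sin (θ x)) ^ 2) with hG'
  have hGd : ∀ x ∈ Icc a m, HasDerivAt G (G' x) x := by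
    intro x hx
    have hs := (hsin x hx).ne'
    have h1 := (((hh x).pow 2).const_mul w)
    have h2 := ((hθd x).cos.div (hθd x).sin hs)
    have h3 := h1.mul h2
    refine HasDerivAt.congr_deriv h3 ?_
    simp only [hG', Nat.cast_ofNat, Nat.add_one_sub_one, pow_one, Pi.pow_apply, Pi.div_apply]
    field_simp
    ring
  have hcot : ContinuousOn (fun x => Real.cos (θ x) / Real.sin (θ x)) (Icc a m) := by
    apply ContinuousOn.div
    · exact (Real.continuous_cos.comp (by fun_prop)).continuousOn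
    · exact (Real.continuous_sin.comp (by fun_prop)).continuousOn
    · intro x hx; exact (hsin x hx).ne'
  have hG'c : ContinuousOn G' (Icc a m) := by
    simp only [hG']
    apply ContinuousOn.sub
    · exact (by fun_prop : ContinuousOn (fun x => 2 * w * h x * h' x) (Icc a m)).mul hcot
    · exact (by fun_prop : ContinuousOn (fun x => w ^ 2 * h x ^ 2) (Icc a m)).mul
        (continuousOn_const.add (hcot.pow 2))
  have hint : ∫ x in a..m, G' x = 0 := by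
    rw [integral_eq_sub_of_hasDerivAt (f := G)]
    · simp [hG, ha, hm]
    · intro x hx; rw [uIcc_of_le ham.le] at hx; exact hGd x hx
    · apply ContinuousOn.intervalIntegrable; rwa [uIcc_of_le ham.le]
  have key : 0 ≤ ∫ x in a..m, (h' x ^ 2 - w ^ 2 * h x ^ 2 - G' x) := by
    apply integral_nonneg ham.le
    intro x hx
    have : h' x ^ 2 - w ^ 2 * h x ^ 2 - G' x =
        (h' x - w * h x * (Real.cos (θ x) / Real.sin (θ x))) ^ 2 := by
      simp only [hG']; ring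
    rw [this]; positivity
  have i1 : IntervalIntegrable (fun x => h' x ^ 2) volume a m := (hh'.pow 2).intervalIntegrable _ _
  have i2 : IntervalIntegrable (fun x => w ^ 2 * h x ^ 2) volume a m :=
    (continuous_const.mul (hcont.pow 2)).intervalIntegrable _ _
  have i3 : IntervalIntegrable G' volume a m := by
    apply ContinuousOn.intervalIntegrable; rwa [uIcc_of_le ham.le]
  rw [integral_sub (i1.sub i2) i3, integral_sub i1 i2, hint, intervalIntegral.integral_const_mul] at key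
  linarith

/-- integral of sin² over the whole interval -/
lemma int_sin_sq (a b : ℝ) (hab : a < b) :
    ∫ x in a..b, Real.sin (Real.pi * (x - a) / (b - a)) ^ 2 = (b - a) / 2 := by
  have hL : 0 < b - a := sub_pos.2 hab
  have hpi := Real.pi_pos
  obtain ⟨L, hLd⟩ : ∃ L, L = b - a := ⟨_, rfl⟩
  rw [← hLd] at hL ⊢
  have hd : ∀ x ∈ uIcc a b, HasDerivAt (fun x => (x - a) / 2 - L / (4 * Real.pi) *
      Real.sin (2 * (Real.pi * (x - a) / L))) (Real.sin (Real.pi * (x - a) / L) ^ 2) x := by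
    intro x _
    have h0 : HasDerivAt (fun x : ℝ => 2 * (Real.pi * (x - a) / L)) (2 * (Real.pi / L)) x := by
      have := ((((hasDerivAt_id x).sub_const a).const_mul Real.pi).div_const L).const_mul 2
      simpa using this
    have h1 := (((hasDerivAt_id x).sub_const a).div_const 2).sub (h0.sin.const_mul (L / (4 * Real.pi)))
    refine HasDerivAt.congr_deriv h1 ?_
    rw [Real.cos_two_mul, Real.sin_sq]
    field_simp
    ring
  rw [integral_eq_sub_of_hasDerivAt hd]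
  · have e : 2 * (Real.pi * (b - a) / L) = 2 * Real.pi := by rw [← hLd]; field_simp
    rw [e]; simp [hLd]
  · apply Continuous.intervalIntegrable; fun_prop

/-- the one-dimensional gap inequality -/
lemma one_d (a b : ℝ) (hab : a < b) (g g' : ℝ → ℝ) (hg : ∀ x, HasDerivAt g (g' x) x)
    (hg' : Continuous g') (ha : g a = 0) (hb : g b = 0) :
    (Real.pi / (b - a)) ^ 2 * (∫ x in a..b, g x ^ 2) + 5 / 4 * (Real.pi / (b - a)) ^ 2 *
      ((∫ x in a..b, g x ^ 2) - (2 / (b - a)) *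
        (∫ x in a..b, g x * Real.sin (Real.pi * (x - a) / (b - a))) ^ 2) ≤
      ∫ x in a..b, g' x ^ 2 := by
  have hL : 0 < b - a := sub_pos.2 hab
  have hpi := Real.pi_pos
  have hgc : Continuous g := continuous_iff_continuousAt.2 fun x => (hg x).continuousAt
  obtain ⟨L, hLd⟩ : ∃ L, L = b - a := ⟨_, rfl⟩
  have hSS := int_sin_sq a b hab
  rw [← hLd] at hL hSS ⊢
  obtain ⟨p, hp⟩ : ∃ p, p = Real.pi / L := ⟨_, rfl⟩
  rw [← hp]
  have hp0 : 0 < p := by rw [hp]; positivity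
  obtain ⟨m, hm⟩ : ∃ m, m = (a + b) / 2 := ⟨_, rfl⟩
  have ham : a < m := by linarith
  have hmb : m < b := by linarith
  set S : ℝ → ℝ := fun x => Real.sin (Real.pi * (x - a) / L) with hS
  set C : ℝ → ℝ := fun x => p * Real.cos (Real.pi * (x - a) / L) with hC
  have hSd : ∀ x, HasDerivAt S (C x) x := by
    intro x
    have h0 : HasDerivAt (fun x : ℝ => Real.pi * (x - a) / L) p x := by
      have := (((hasDerivAt_id x).sub_const a).const_mul Real.pi).div_const L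
      simpa [hp] using this
    refine HasDerivAt.congr_deriv h0.sin ?_
    simp only [hC]; ring
  have hCd : ∀ x, HasDerivAt C (-p ^ 2 * S x) x := by
    intro x
    have h0 : HasDerivAt (fun x : ℝ => Real.pi * (x - a) / L) p x := by
      have := (((hasDerivAt_id x).sub_const a).const_mul Real.pi).div_const L
      simpa [hp] using this
    refine HasDerivAt.congr_deriv (h0.cos.const_mul p) ?_
    simp only [hS]; ring
  have hSa : S a = 0 := by simp [hS]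
  have hSb : S b = 0 := by
    have : Real.pi * (b - a) / L = Real.pi := by rw [← hLd]; field_simp
    simp [hS, this]
  have hSm : S m = 1 := by
    have : Real.pi * (m - a) / L = Real.pi / 2 := by
      rw [hm]; field_simp; linarith
    simp [hS, this]
  have hSc : Continuous S := by simp only [hS]; fun_prop
  have hCc : Continuous C := by simp only [hC]; fun_prop
  set c := g m with hc
  set h : ℝ → ℝ := fun x => g x - c * S x with hh
  set h' : ℝ → ℝ := fun x => g' x - c * C x with hh'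
  have hhd : ∀ x, HasDerivAt h (h' x) x := fun x => (hg x).sub ((hSd x).const_mul c)
  have hh'c : Continuous h' := hg'.sub (continuous_const.mul hCc)
  have hhc : Continuous h := hgc.sub (continuous_const.mul hSc)
  have h1 := wirt a m ham (3 * Real.pi / (4 * (m - a))) rfl h h' hhd hh'c (by simp [hh, ha, hSa])
    (by simp [hh, hSm, hc])
  have h2 := wirt m b hmb (3 * Real.pi / (4 * (b - m))) rfl h h' hhd hh'c (by simp [hh, hSm, hc])
    (by simp [hh, hb, hSb])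
  have e1 : 3 * Real.pi / (4 * (m - a)) = 3 / 2 * p := by
    rw [hp, show m - a = L / 2 by rw [hm, hLd]; ring]; field_simp; ring
  have e2 : 3 * Real.pi / (4 * (b - m)) = 3 / 2 * p := by
    rw [hp, show b - m = L / 2 by rw [hm, hLd]; ring]; field_simp; ring
  rw [e1] at h1
  rw [e2] at h2
  have ii : ∀ (F : ℝ → ℝ), Continuous F → ∀ u v : ℝ, IntervalIntegrable F volume u v :=
    fun F hF u v => hF.intervalIntegrable _ _
  have h3 : (3 / 2 * p) ^ 2 * (∫ x in a..b, h x ^ 2) ≤ ∫ x in a..b, h' x ^ 2 := by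
    rw [← integral_add_adjacent_intervals (ii (fun x => h x ^ 2) (hhc.pow 2) a m)
        (ii (fun x => h x ^ 2) (hhc.pow 2) m b),
      ← integral_add_adjacent_intervals (ii (fun x => h' x ^ 2) (hh'c.pow 2) a m)
        (ii (fun x => h' x ^ 2) (hh'c.pow 2) m b)]
    linarith
  -- J(g) = J(h)
  have h4 : ∫ x in a..b, ((g' x ^ 2 - p ^ 2 * g x ^ 2) - (h' x ^ 2 - p ^ 2 * h x ^ 2)) = 0 := by
    have hd : ∀ x ∈ uIcc a b, HasDerivAt (fun x => 2 * c * (h x * C x) + c ^ 2 * (S x * C x))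
        ((g' x ^ 2 - p ^ 2 * g x ^ 2) - (h' x ^ 2 - p ^ 2 * h x ^ 2)) x := by
      intro x _
      refine HasDerivAt.congr_deriv ((((hhd x).mul (hCd x)).const_mul (2 * c)).add
        (((hSd x).mul (hCd x)).const_mul (c ^ 2))) ?_
      simp only [hh, hh']
      ring
    rw [integral_eq_sub_of_hasDerivAt hd]
    · simp [hh, ha, hb, hSa, hSb]
    · exact ii _ (by fun_prop) a b
  rw [integral_sub (ii _ (by fun_prop) a b) (ii _ (by fun_prop) a b),
    integral_sub (ii _ (by fun_prop) a b) (ii _ (by fun_prop) a b),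
    integral_sub (ii _ (by fun_prop) a b) (ii _ (by fun_prop) a b),
    intervalIntegral.integral_const_mul, intervalIntegral.integral_const_mul] at h4
  -- the projection
  have h5 : ∫ x in a..b, h x ^ 2 = (∫ x in a..b, g x ^ 2) - 2 * c * (∫ x in a..b, g x * S x) +
      c ^ 2 * (∫ x in a..b, S x ^ 2) := by
    rw [← intervalIntegral.integral_const_mul, ← intervalIntegral.integral_const_mul,
      ← integral_sub (ii _ (by fun_prop) a b) (ii _ (by fun_prop) a b),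
      ← integral_add (ii _ (by fun_prop) a b) (ii _ (by fun_prop) a b)]
    congr 1
    ext x
    simp only [hh]
    ring
  have hSS' : ∫ x in a..b, S x ^ 2 = L / 2 := hSS
  rw [hSS'] at h5
  set U := ∫ x in a..b, g x * S x with hU
  set A := ∫ x in a..b, g x ^ 2 with hA
  set B := ∫ x in a..b, g' x ^ 2 with hB
  set D := ∫ x in a..b, h x ^ 2 with hD
  set E := ∫ x in a..b, h' x ^ 2 with hE
  have h6 : A - 2 / L * U ^ 2 ≤ D := by
    have : D - (A - 2 / L * U ^ 2) = 2 / L * (U - c * L / 2) ^ 2 := by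
      rw [h5]; field_simp; ring
    have h7 : 0 ≤ 2 / L * (U - c * L / 2) ^ 2 := by positivity
    linarith
  have h8 : p ^ 2 * (A - 2 / L * U ^ 2) ≤ p ^ 2 * D := mul_le_mul_of_nonneg_left h6 (by positivity)
  nlinarith


end OneD

def Nice {α : Type*} [MeasurableSpace α] (F : α → ℝ) : Prop := Measurable F ∧ ∃ C, ∀ p, |F p| ≤ C

section
variable {α β : Type*} [MeasurableSpace α] [MeasurableSpace β]

lemma Nice.integrable {F : α → ℝ} (h : Nice F) (μ : Measure α) [IsFiniteMeasure μ] :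
    Integrable F μ := by
  obtain ⟨h1, C, hC⟩ := h
  exact Integrable.of_bound h1.aestronglyMeasurable C (Filter.Eventually.of_forall fun p => hC p)

lemma Nice.mul {F G : α → ℝ} (h : Nice F) (h' : Nice G) : Nice (fun p => F p * G p) := by
  obtain ⟨h1, C, hC⟩ := h
  obtain ⟨h2, D, hD⟩ := h'
  refine ⟨h1.mul h2, C * D, fun p => ?_⟩
  rw [abs_mul]
  exact mul_le_mul (hC p) (hD p) (abs_nonneg _) ((abs_nonneg _).trans (hC p))

lemma Nice.sub {F G : α → ℝ} (h : Nice F) (h' : Nice G) : Nice (fun p => F p - G p) := by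
  obtain ⟨h1, C, hC⟩ := h
  obtain ⟨h2, D, hD⟩ := h'
  refine ⟨h1.sub h2, C + D, fun p => ?_⟩
  exact (abs_sub _ _).trans (add_le_add (hC p) (hD p))

lemma Nice.add {F G : α → ℝ} (h : Nice F) (h' : Nice G) : Nice (fun p => F p + G p) := by
  obtain ⟨h1, C, hC⟩ := h
  obtain ⟨h2, D, hD⟩ := h'
  refine ⟨h1.add h2, C + D, fun p => ?_⟩
  exact (abs_add_le _ _).trans (add_le_add (hC p) (hD p))

lemma Nice.sq {F : α → ℝ} (h : Nice F) : Nice (fun p => F p ^ 2) := by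
  have := h.mul h
  simpa [pow_two] using this

lemma nice_const (c : ℝ) : Nice (fun _ : α => c) := ⟨measurable_const, |c|, fun _ => le_rfl⟩

lemma Nice.cmul {F : α → ℝ} (h : Nice F) (c : ℝ) : Nice (fun p => c * F p) :=
  (nice_const c).mul h

lemma Nice.comp {F : α → ℝ} (h : Nice F) {g : β → α} (hg : Measurable g) :
    Nice (fun p => F (g p)) := by
  obtain ⟨h1, C, hC⟩ := h
  exact ⟨h1.comp hg, C, fun p => hC _⟩

lemma Nice.int_right {F : α × β → ℝ} (h : Nice F) (ν : Measure β) [IsFiniteMeasure ν] :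
    Nice (fun x => ∫ y, F (x, y) ∂ν) := by
  obtain ⟨h1, C, hC⟩ := h
  refine ⟨(h1.stronglyMeasurable.integral_prod_right').measurable, C * ν.real univ, fun x => ?_⟩
  have := norm_integral_le_of_norm_le_const (μ := ν) (f := fun y => F (x, y)) (C := C)
    (Filter.Eventually.of_forall fun y => by rw [Real.norm_eq_abs]; exact hC (x, y))
  rwa [Real.norm_eq_abs] at this

lemma Nice.int_left {F : α × β → ℝ} (h : Nice F) (μ : Measure α) [IsFiniteMeasure μ] :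
    Nice (fun y => ∫ x, F (x, y) ∂μ) := by
  have := (h.comp (measurable_swap (α := β) (β := α))).int_right μ
  simpa using this

lemma cs1 (μ : Measure α) [IsFiniteMeasure μ] {f φ : α → ℝ} (hf : Nice f) (hφ : Nice φ)
    (h1 : ∫ x, φ x ^ 2 ∂μ = 1) : (∫ x, f x * φ x ∂μ) ^ 2 ≤ ∫ x, f x ^ 2 ∂μ := by
  set c := ∫ x, f x * φ x ∂μ with hc
  have h0 : 0 ≤ ∫ x, (f x - c * φ x) ^ 2 ∂μ := integral_nonneg fun x => sq_nonneg _
  have h2 : ∫ x, (f x - c * φ x) ^ 2 ∂μ = ∫ x, ((f x ^ 2 - (2 * c) * (f x * φ x)) + c ^ 2 * φ x ^ 2) ∂μ := by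
    congr 1; ext x; ring
  rw [h2, integral_add ((hf.sq.sub ((hf.mul hφ).cmul _)).integrable μ) ((hφ.sq.cmul _).integrable μ),
    integral_sub (hf.sq.integrable μ) (((hf.mul hφ).cmul _).integrable μ), integral_const_mul,
    integral_const_mul, h1, ← hc] at h0
  nlinarith

lemma proj2 (μ : Measure α) [IsFiniteMeasure μ] (ν : Measure β) [IsFiniteMeasure ν]
    {F : α × β → ℝ} {φ : α → ℝ} {ψ : β → ℝ} (hF : Nice F) (hφ : Nice φ) (hψ : Nice ψ)
    (h1 : ∫ x, φ x ^ 2 ∂μ = 1) (h2 : ∫ y, ψ y ^ 2 ∂ν = 1) :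
    (∫ y, (∫ x, F (x, y) * φ x ∂μ) ^ 2 ∂ν) + (∫ x, (∫ y, F (x, y) * ψ y ∂ν) ^ 2 ∂μ) ≤
      (∫ x, ∫ y, F (x, y) ^ 2 ∂ν ∂μ) + (∫ x, (∫ y, F (x, y) * ψ y ∂ν) * φ x ∂μ) ^ 2 := by
  have hφ' : Nice (fun p : α × β => φ p.1) := hφ.comp measurable_fst
  have hψ' : Nice (fun p : α × β => ψ p.2) := hψ.comp measurable_snd
  set A : β → ℝ := fun y => ∫ x, F (x, y) * φ x ∂μ with hA
  set B : α → ℝ := fun x => ∫ y, F (x, y) * ψ y ∂ν with hB
  have hAn : Nice A := (hF.mul hφ').int_left μ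
  have hBn : Nice B := (hF.mul hψ').int_right ν
  have hA' : Nice (fun p : α × β => A p.2) := hAn.comp measurable_snd
  set τ := ∫ x, B x * φ x ∂μ with hτ
  have hτ' : ∫ y, A y * ψ y ∂ν = τ := by
    have e1 : ∫ y, A y * ψ y ∂ν = ∫ y, ∫ x, F (x, y) * φ x * ψ y ∂μ ∂ν := by
      congr 1; ext y; rw [hA, ← integral_mul_const]
    have e2 : τ = ∫ x, ∫ y, F (x, y) * φ x * ψ y ∂ν ∂μ := by
      rw [hτ]; congr 1; ext x; rw [hB, ← integral_mul_const]; congr 1; ext y; ring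
    rw [e1, e2]
    exact (integral_integral_swap (f := fun x y => F (x, y) * φ x * ψ y)
      (((hF.mul hφ').mul hψ').integrable (μ.prod ν))).symm
  set H : α × β → ℝ := fun p => F p - φ p.1 * A p.2 with hH
  have hHn : Nice H := hF.sub (hφ'.mul hA')
  have hslx : ∀ x : α, Measurable (fun y : β => (x, y)) := fun x => measurable_prodMk_left
  have hsly : ∀ y : β, Measurable (fun x : α => (x, y)) := fun y => measurable_prodMk_right
  have hcs : ∀ x, (B x - φ x * τ) ^ 2 ≤ ∫ y, H (x, y) ^ 2 ∂ν := by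
    intro x
    have := cs1 ν (hHn.comp (hslx x)) hψ h2
    refine le_trans (le_of_eq ?_) this
    congr 1
    have : ∀ y, H (x, y) * ψ y = F (x, y) * ψ y - φ x * (A y * ψ y) := by
      intro y; simp only [hH]; ring
    simp_rw [this]
    rw [integral_sub (((hF.mul hψ').comp (hslx x)).integrable ν)
      (((hAn.mul hψ).cmul _).integrable ν), integral_const_mul, hτ']
  have hI : ∫ x, (B x - φ x * τ) ^ 2 ∂μ ≤ ∫ x, ∫ y, H (x, y) ^ 2 ∂ν ∂μ := by
    apply integral_mono ((hBn.sub (hφ.mul (nice_const τ))).sq.integrable μ)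
      ((hHn.sq.int_right ν).integrable μ)
    exact hcs
  have hL : ∫ x, (B x - φ x * τ) ^ 2 ∂μ = ∫ x, B x ^ 2 ∂μ - τ ^ 2 := by
    have e : ∀ x, (B x - φ x * τ) ^ 2 = (B x ^ 2 - (2 * τ) * (B x * φ x)) + τ ^ 2 * φ x ^ 2 := by
      intro x; ring
    simp_rw [e]
    rw [integral_add ((hBn.sq.sub ((hBn.mul hφ).cmul _)).integrable μ)
      ((hφ.sq.cmul _).integrable μ), integral_sub (hBn.sq.integrable μ)
      (((hBn.mul hφ).cmul _).integrable μ), integral_const_mul, integral_const_mul, h1, ← hτ]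
    ring
  have hR : ∫ x, ∫ y, H (x, y) ^ 2 ∂ν ∂μ = (∫ x, ∫ y, F (x, y) ^ 2 ∂ν ∂μ) - ∫ y, A y ^ 2 ∂ν := by
    rw [integral_integral_swap (f := fun x y => H (x, y) ^ 2) (hHn.sq.integrable (μ.prod ν)),
      integral_integral_swap (f := fun x y => F (x, y) ^ 2) (hF.sq.integrable (μ.prod ν)),
      ← integral_sub ((hF.sq.int_left μ).integrable ν) (hAn.sq.integrable ν)]
    congr 1
    ext y
    have e : ∀ x, H (x, y) ^ 2 = (F (x, y) ^ 2 - (2 * A y) * (F (x, y) * φ x)) + A y ^ 2 * φ x ^ 2 := by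
      intro x; simp only [hH]; ring
    simp_rw [e]
    rw [integral_add (((hF.sq.comp (hsly y)).sub (((hF.comp (hsly y)).mul hφ).cmul _)).integrable μ)
      ((hφ.sq.cmul _).integrable μ), integral_sub ((hF.sq.comp (hsly y)).integrable μ)
      ((((hF.comp (hsly y)).mul hφ).cmul _).integrable μ), integral_const_mul, integral_const_mul,
      h1]
    have : ∫ x, F (x, y) * φ x ∂μ = A y := rfl
    rw [this]
    ring
  rw [hL, hR] at hI
  linarith

end

lemma proj3 (μ₁ μ₂ μ₃ : Measure ℝ) [IsFiniteMeasure μ₁] [IsFiniteMeasure μ₂] [IsFiniteMeasure μ₃]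
    {f : ℝ × ℝ × ℝ → ℝ} {s₁ s₂ s₃ : ℝ → ℝ} (hf : Nice f) (h1 : Nice s₁) (h2 : Nice s₂)
    (h3 : Nice s₃) (e1 : ∫ x, s₁ x ^ 2 ∂μ₁ = 1) (e2 : ∫ x, s₂ x ^ 2 ∂μ₂ = 1)
    (e3 : ∫ x, s₃ x ^ 2 ∂μ₃ = 1) :
    (∫ q, (∫ x, f (x, q) * s₁ x ∂μ₁) ^ 2 ∂(μ₂.prod μ₃)) +
      (∫ x, ∫ z, (∫ y, f (x, y, z) * s₂ y ∂μ₂) ^ 2 ∂μ₃ ∂μ₁) +
      (∫ x, ∫ y, (∫ z, f (x, y, z) * s₃ z ∂μ₃) ^ 2 ∂μ₂ ∂μ₁) ≤
    2 * (∫ p, f p ^ 2 ∂(μ₁.prod (μ₂.prod μ₃))) +
      (∫ p, s₁ p.1 * s₂ p.2.1 * s₃ p.2.2 * f p ∂(μ₁.prod (μ₂.prod μ₃))) ^ 2 := by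
  set ψ : ℝ × ℝ → ℝ := fun q => s₂ q.1 * s₃ q.2 with hψ
  have hψn : Nice ψ := (h2.comp measurable_fst).mul (h3.comp measurable_snd)
  have hψ1 : ∫ q, ψ q ^ 2 ∂(μ₂.prod μ₃) = 1 := by
    have : ∀ q : ℝ × ℝ, ψ q ^ 2 = s₂ q.1 ^ 2 * s₃ q.2 ^ 2 := by
      intro q; simp only [hψ]; ring
    simp_rw [this]
    rw [integral_prod_mul (fun x => s₂ x ^ 2) (fun x => s₃ x ^ 2), e2, e3, one_mul]
  have k1 := proj2 μ₁ (μ₂.prod μ₃) hf h1 hψn e1 hψ1
  set W : ℝ → ℝ := fun x => ∫ q, f (x, q) * ψ q ∂(μ₂.prod μ₃) with hW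
  have hψ' : Nice (fun p : ℝ × ℝ × ℝ => ψ p.2) := hψn.comp measurable_snd
  have hWn : Nice W := (hf.mul hψ').int_right _
  have hslx : ∀ x : ℝ, Measurable (fun q : ℝ × ℝ => (x, q)) := fun x => measurable_prodMk_left
  have k2 : ∀ x, (∫ z, (∫ y, f (x, y, z) * s₂ y ∂μ₂) ^ 2 ∂μ₃) +
      (∫ y, (∫ z, f (x, y, z) * s₃ z ∂μ₃) ^ 2 ∂μ₂) ≤ (∫ y, ∫ z, f (x, y, z) ^ 2 ∂μ₃ ∂μ₂) + W x ^ 2 := by
    intro x
    have := proj2 μ₂ μ₃ (hf.comp (hslx x)) h2 h3 e2 e3
    refine this.trans (le_of_eq ?_)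
    congr 2
    rw [hW]
    simp only
    rw [integral_prod _ (((hf.comp (hslx x)).mul hψn).integrable _)]
    congr 1
    ext y
    rw [← integral_mul_const]
    congr 1
    ext z
    simp only [hψ]
    ring
  -- integrate over x
  have n2 : Nice (fun x => ∫ z, (∫ y, f (x, y, z) * s₂ y ∂μ₂) ^ 2 ∂μ₃) := by
    have a1 : Nice (fun p : (ℝ × ℝ) × ℝ => f (p.1.1, p.2, p.1.2) * s₂ p.2) :=
      (hf.comp (g := fun p : (ℝ × ℝ) × ℝ => (p.1.1, p.2, p.1.2)) (by fun_prop)).mul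
        (h2.comp measurable_snd)
    exact ((a1.int_right μ₂).sq).int_right μ₃
  have n3 : Nice (fun x => ∫ y, (∫ z, f (x, y, z) * s₃ z ∂μ₃) ^ 2 ∂μ₂) := by
    have a1 : Nice (fun p : (ℝ × ℝ) × ℝ => f (p.1.1, p.1.2, p.2) * s₃ p.2) :=
      (hf.comp (g := fun p : (ℝ × ℝ) × ℝ => (p.1.1, p.1.2, p.2)) (by fun_prop)).mul
        (h3.comp measurable_snd)
    exact ((a1.int_right μ₃).sq).int_right μ₂
  have n4 : Nice (fun x => ∫ y, ∫ z, f (x, y, z) ^ 2 ∂μ₃ ∂μ₂) := by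
    have a1 : Nice (fun p : (ℝ × ℝ) × ℝ => f (p.1.1, p.1.2, p.2) ^ 2) :=
      (hf.sq.comp (g := fun p : (ℝ × ℝ) × ℝ => (p.1.1, p.1.2, p.2)) (by fun_prop))
    exact (a1.int_right μ₃).int_right μ₂
  have k3 : (∫ x, ∫ z, (∫ y, f (x, y, z) * s₂ y ∂μ₂) ^ 2 ∂μ₃ ∂μ₁) +
      (∫ x, ∫ y, (∫ z, f (x, y, z) * s₃ z ∂μ₃) ^ 2 ∂μ₂ ∂μ₁) ≤
      (∫ x, ∫ y, ∫ z, f (x, y, z) ^ 2 ∂μ₃ ∂μ₂ ∂μ₁) + ∫ x, W x ^ 2 ∂μ₁ := by
    rw [← integral_add (n2.integrable μ₁) (n3.integrable μ₁),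
      ← integral_add (n4.integrable μ₁) (hWn.sq.integrable μ₁)]
    exact integral_mono ((n2.add n3).integrable μ₁) ((n4.add hWn.sq).integrable μ₁) k2
  have e4 : ∫ x, ∫ y, ∫ z, f (x, y, z) ^ 2 ∂μ₃ ∂μ₂ ∂μ₁ = ∫ p, f p ^ 2 ∂(μ₁.prod (μ₂.prod μ₃)) := by
    rw [integral_prod _ (hf.sq.integrable _)]
    congr 1
    ext x
    rw [integral_prod _ ((hf.sq.comp (hslx x)).integrable _)]
  have e5 : ∫ x, ∫ q, f (x, q) ^ 2 ∂(μ₂.prod μ₃) ∂μ₁ = ∫ p, f p ^ 2 ∂(μ₁.prod (μ₂.prod μ₃)) := by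
    rw [integral_prod _ (hf.sq.integrable _)]
  have e6 : ∫ x, W x * s₁ x ∂μ₁ =
      ∫ p, s₁ p.1 * s₂ p.2.1 * s₃ p.2.2 * f p ∂(μ₁.prod (μ₂.prod μ₃)) := by
    have hn : Nice (fun p : ℝ × ℝ × ℝ => s₁ p.1 * s₂ p.2.1 * s₃ p.2.2 * f p) :=
      (((h1.comp measurable_fst).mul (h2.comp (g := fun p : ℝ × ℝ × ℝ => p.2.1) (by fun_prop))).mul
        (h3.comp (g := fun p : ℝ × ℝ × ℝ => p.2.2) (by fun_prop))).mul hf
    rw [integral_prod _ (hn.integrable _)]
    congr 1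
    ext x
    rw [hW]
    simp only
    rw [← integral_mul_const]
    congr 1
    ext q
    simp only [hψ]
    ring
  rw [e5, e6] at k1
  rw [e4] at k3
  linarith


/-- normalised sine -/
def sn (a b : ℝ) (x : ℝ) : ℝ := √(2 / (b - a)) * Real.sin (Real.pi * (x - a) / (b - a))

lemma sn_cont (a b : ℝ) : Continuous (sn a b) := by unfold sn; fun_prop

lemma sn_nice (a b : ℝ) : Nice (sn a b) := by
  refine ⟨(sn_cont a b).measurable, √(2 / (b - a)), fun x => ?_⟩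
  unfold sn
  rw [abs_mul, abs_of_nonneg (Real.sqrt_nonneg _)]
  exact mul_le_of_le_one_right (Real.sqrt_nonneg _) (Real.abs_sin_le_one _)

lemma sn_norm (a b : ℝ) (hab : a < b) : ∫ x in Ioo a b, sn a b x ^ 2 = 1 := by
  have h := int_sin_sq a b hab
  have hL : 0 < b - a := sub_pos.2 hab
  rw [intervalIntegral.integral_of_le hab.le, integral_Ioc_eq_integral_Ioo] at h
  have : ∀ x, sn a b x ^ 2 = 2 / (b - a) * Real.sin (Real.pi * (x - a) / (b - a)) ^ 2 := by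
    intro x
    unfold sn
    rw [mul_pow, Real.sq_sqrt (by positivity)]
  simp_rw [this]
  rw [integral_const_mul, h]
  field_simp

lemma one_d' (a b : ℝ) (hab : a < b) (g g' : ℝ → ℝ) (hg : ∀ x, HasDerivAt g (g' x) x)
    (hg' : Continuous g') (ha : g a = 0) (hb : g b = 0) :
    (Real.pi / (b - a)) ^ 2 * (∫ x in Ioo a b, g x ^ 2) + 5 / 4 * (Real.pi / (b - a)) ^ 2 *
      ((∫ x in Ioo a b, g x ^ 2) - (∫ x in Ioo a b, g x * sn a b x) ^ 2) ≤
      ∫ x in Ioo a b, g' x ^ 2 := by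
  have h := one_d a b hab g g' hg hg' ha hb
  have hL : 0 < b - a := sub_pos.2 hab
  rw [intervalIntegral.integral_of_le hab.le, intervalIntegral.integral_of_le hab.le,
    intervalIntegral.integral_of_le hab.le, integral_Ioc_eq_integral_Ioo,
    integral_Ioc_eq_integral_Ioo, integral_Ioc_eq_integral_Ioo] at h
  have e : (∫ x in Ioo a b, g x * sn a b x) ^ 2 =
      2 / (b - a) * (∫ x in Ioo a b, g x * Real.sin (Real.pi * (x - a) / (b - a))) ^ 2 := by
    have : ∀ x, g x * sn a b x = √(2 / (b - a)) * (g x * Real.sin (Real.pi * (x - a) / (b - a))) := by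
      intro x; unfold sn; ring
    simp_rw [this]
    rw [integral_const_mul, mul_pow, Real.sq_sqrt (by positivity)]
  rw [e]
  exact h

theorem box_gap (b : Box) (h1 : b.a1 < b.b1) (h2 : b.a2 < b.b2) (h3 : b.a3 < b.b3) (κ : ℝ)
    (hκ0 : 0 ≤ κ)
    (k1 : κ ≤ 5 / 4 * (Real.pi / (b.b1 - b.a1)) ^ 2) (k2 : κ ≤ 5 / 4 * (Real.pi / (b.b2 - b.a2)) ^ 2)
    (k3 : κ ≤ 5 / 4 * (Real.pi / (b.b3 - b.a3)) ^ 2) (f : P → ℝ) (hf : f ∈ Dc b.set) :
    b.mu * Ms f + κ * (Ms f - (b.l f) ^ 2) ≤ En f := by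
  obtain ⟨hfc, hfs, hft⟩ := hf
  set μ₁ : Measure ℝ := volume.restrict (Ioo b.a1 b.b1) with hμ₁
  set μ₂ : Measure ℝ := volume.restrict (Ioo b.a2 b.b2) with hμ₂
  set μ₃ : Measure ℝ := volume.restrict (Ioo b.a3 b.b3) with hμ₃
  have : IsFiniteMeasure μ₁ := ⟨by rw [hμ₁]; simp⟩
  have : IsFiniteMeasure μ₂ := ⟨by rw [hμ₂]; simp⟩
  have : IsFiniteMeasure μ₃ := ⟨by rw [hμ₃]; simp⟩
  have hμ : (volume : Measure P).restrict b.set = μ₁.prod (μ₂.prod μ₃) := by
    rw [Box.set, Measure.volume_eq_prod, Measure.volume_eq_prod, ← Measure.prod_restrict,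
      ← Measure.prod_restrict]
  have hcont : Continuous f := hfc.continuous
  have hdiff : Differentiable ℝ f := hfc.differentiable (by simp)
  have hfd : Continuous (fderiv ℝ f) := hfc.continuous_fderiv (by simp)
  have hfds : HasCompactSupport (fderiv ℝ f) := hfs.fderiv ℝ
  have hnf : Nice f := by
    obtain ⟨C, hC⟩ := hcont.bounded_above_of_compact_support hfs
    exact ⟨hcont.measurable, C, fun p => by simpa using hC p⟩
  have hnd : ∀ v : P, Continuous (fun p => fderiv ℝ f p v) ∧ Nice (fun p => fderiv ℝ f p v) := by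
    intro v
    have c : Continuous (fun p => fderiv ℝ f p v) := hfd.clm_apply continuous_const
    obtain ⟨C, hC⟩ := hfd.bounded_above_of_compact_support hfds
    refine ⟨c, c.measurable, C * ‖v‖, fun p => ?_⟩
    calc |fderiv ℝ f p v| = ‖fderiv ℝ f p v‖ := (Real.norm_eq_abs _).symm
      _ ≤ ‖fderiv ℝ f p‖ * ‖v‖ := (fderiv ℝ f p).le_opNorm v
      _ ≤ C * ‖v‖ := mul_le_mul_of_nonneg_right (hC p) (norm_nonneg _)
  have hz : ∀ p, p ∉ b.set → f p = 0 := fun p hp =>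
    image_eq_zero_of_notMem_tsupport fun h => hp (hft h)
  have hzd : ∀ p, p ∉ b.set → fderiv ℝ f p = 0 := fun p hp =>
    image_eq_zero_of_notMem_tsupport fun h => hp (hft (tsupport_fderiv_subset ℝ h))
  set D1 : P → ℝ := dx f with hD1
  set D2 : P → ℝ := dy f with hD2
  set D3 : P → ℝ := dz f with hD3
  have n1 : Nice D1 := (hnd (1, 0, 0)).2
  have n2 : Nice D2 := (hnd (0, 1, 0)).2
  have n3 : Nice D3 := (hnd (0, 0, 1)).2
  have c1 : Continuous D1 := (hnd (1, 0, 0)).1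
  have c2 : Continuous D2 := (hnd (0, 1, 0)).1
  have c3 : Continuous D3 := (hnd (0, 0, 1)).1
  -- the quantities over the product measure
  have hMs : Ms f = ∫ p, f p ^ 2 ∂(μ₁.prod (μ₂.prod μ₃)) := by
    rw [← hμ, Ms, Mb, ← setIntegral_eq_integral_of_forall_compl_eq_zero (s := b.set)]
    · simp_rw [pow_two]
    · intro p hp; rw [hz p hp, mul_zero]
  have hEn : En f = (∫ p, D1 p ^ 2 ∂(μ₁.prod (μ₂.prod μ₃))) + (∫ p, D2 p ^ 2 ∂(μ₁.prod (μ₂.prod μ₃))) +
      (∫ p, D3 p ^ 2 ∂(μ₁.prod (μ₂.prod μ₃))) := by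
    rw [← integral_add (n1.sq.integrable _) (n2.sq.integrable _),
      ← integral_add ((n1.sq.add n2.sq).integrable _) (n3.sq.integrable _), ← hμ, En, Eb,
      ← setIntegral_eq_integral_of_forall_compl_eq_zero (s := b.set)]
    · congr 1
      ext p
      simp only [gb, hD1, hD2, hD3]
      ring
    · intro p hp
      simp only [gb, dx, dy, dz, hzd p hp]
      simp
  have hl : b.l f = ∫ p, sn b.a1 b.b1 p.1 * sn b.a2 b.b2 p.2.1 * sn b.a3 b.b3 p.2.2 * f p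
      ∂(μ₁.prod (μ₂.prod μ₃)) := by
    rw [← hμ, Box.l]
    congr 1
    ext p
    congr 1
    simp only [Box.ef, sn]
    have e : √(8 / ((b.b1 - b.a1) * (b.b2 - b.a2) * (b.b3 - b.a3))) =
        √(2 / (b.b1 - b.a1)) * √(2 / (b.b2 - b.a2)) * √(2 / (b.b3 - b.a3)) := by
      have g1 := sub_pos.2 h1
      have g2 := sub_pos.2 h2
      have g3 := sub_pos.2 h3
      rw [← Real.sqrt_mul (by positivity), ← Real.sqrt_mul (by positivity)]
      congr 1
      field_simp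
      norm_num
    rw [e]
    ring
  have s1 := sn_norm b.a1 b.b1 h1
  have s2 := sn_norm b.a2 b.b2 h2
  have s3 := sn_norm b.a3 b.b3 h3
  have P3 := proj3 μ₁ μ₂ μ₃ hnf (sn_nice b.a1 b.b1) (sn_nice b.a2 b.b2) (sn_nice b.a3 b.b3) s1 s2 s3
  rw [← hl, ← hMs] at P3
  set N := Ms f with hN
  set G1 := ∫ q, (∫ x, f (x, q) * sn b.a1 b.b1 x ∂μ₁) ^ 2 ∂(μ₂.prod μ₃) with hG1
  set G2 := ∫ x, ∫ z, (∫ y, f (x, y, z) * sn b.a2 b.b2 y ∂μ₂) ^ 2 ∂μ₃ ∂μ₁ with hG2
  set G3 := ∫ x, ∫ y, (∫ z, f (x, y, z) * sn b.a3 b.b3 z ∂μ₃) ^ 2 ∂μ₂ ∂μ₁ with hG3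
  -- slices
  have hslx : ∀ x : ℝ, Measurable (fun q : ℝ × ℝ => (x, q)) := fun x => measurable_prodMk_left
  have hslq : ∀ q : ℝ × ℝ, Measurable (fun x : ℝ => (x, q)) := fun q => measurable_prodMk_right
  have nd1 : ∀ q : ℝ × ℝ, ∀ x, HasDerivAt (fun x => f (x, q)) (D1 (x, q)) x := by
    intro q x
    have hl : HasDerivAt (fun t : ℝ => ((t, q) : P)) ((1, 0) : P) x :=
      (hasDerivAt_id x).prodMk (hasDerivAt_const x q)
    exact (hdiff (x, q)).hasFDerivAt.comp_hasDerivAt x hl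
  have nd2 : ∀ (x z : ℝ), ∀ y, HasDerivAt (fun y => f (x, y, z)) (D2 (x, y, z)) y := by
    intro x z y
    have hl : HasDerivAt (fun t : ℝ => ((x, t, z) : P)) ((0, 1, 0) : P) y :=
      (hasDerivAt_const y x).prodMk ((hasDerivAt_id y).prodMk (hasDerivAt_const y z))
    exact (hdiff (x, y, z)).hasFDerivAt.comp_hasDerivAt y hl
  have nd3 : ∀ (x y : ℝ), ∀ z, HasDerivAt (fun z => f (x, y, z)) (D3 (x, y, z)) z := by
    intro x y z
    have hl : HasDerivAt (fun t : ℝ => ((x, y, t) : P)) ((0, 0, 1) : P) z :=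
      (hasDerivAt_const z x).prodMk ((hasDerivAt_const z y).prodMk (hasDerivAt_id z))
    exact (hdiff (x, y, z)).hasFDerivAt.comp_hasDerivAt z hl
  have E1 : (Real.pi / (b.b1 - b.a1)) ^ 2 * N + 5 / 4 * (Real.pi / (b.b1 - b.a1)) ^ 2 * (N - G1) ≤
      ∫ p, D1 p ^ 2 ∂(μ₁.prod (μ₂.prod μ₃)) := by
    have i1 : Nice (fun q => ∫ x, f (x, q) ^ 2 ∂μ₁) := hnf.sq.int_left μ₁
    have i2 : Nice (fun q => (∫ x, f (x, q) * sn b.a1 b.b1 x ∂μ₁) ^ 2) :=
      ((hnf.mul ((sn_nice b.a1 b.b1).comp (g := fun p : P => p.1) (by fun_prop))).int_left μ₁).sq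
    have i3 : Nice (fun q => ∫ x, D1 (x, q) ^ 2 ∂μ₁) := n1.sq.int_left μ₁
    have hpt : ∀ q : ℝ × ℝ, (Real.pi / (b.b1 - b.a1)) ^ 2 * (∫ x, f (x, q) ^ 2 ∂μ₁) +
        5 / 4 * (Real.pi / (b.b1 - b.a1)) ^ 2 * ((∫ x, f (x, q) ^ 2 ∂μ₁) -
          (∫ x, f (x, q) * sn b.a1 b.b1 x ∂μ₁) ^ 2) ≤ ∫ x, D1 (x, q) ^ 2 ∂μ₁ := by
      intro q
      apply one_d' b.a1 b.b1 h1 (fun x => f (x, q)) (fun x => D1 (x, q)) (nd1 q)
        (c1.comp (by fun_prop))
      · exact hz _ fun h => lt_irrefl _ h.1.1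
      · exact hz _ fun h => lt_irrefl _ h.1.2
    have hint := integral_mono (μ := μ₂.prod μ₃)
      (((i1.cmul _).add ((i1.sub i2).cmul _)).integrable _) (i3.integrable _) hpt
    rw [integral_add ((i1.cmul _).integrable _) (((i1.sub i2).cmul _).integrable _),
      integral_const_mul, integral_const_mul, integral_sub (i1.integrable _) (i2.integrable _)] at hint
    rw [hMs, integral_prod_symm _ (hnf.sq.integrable _), integral_prod_symm _ (n1.sq.integrable _)]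
    exact hint
  have E2 : (Real.pi / (b.b2 - b.a2)) ^ 2 * N + 5 / 4 * (Real.pi / (b.b2 - b.a2)) ^ 2 * (N - G2) ≤
      ∫ p, D2 p ^ 2 ∂(μ₁.prod (μ₂.prod μ₃)) := by
    have j : ∀ {F : P → ℝ}, Nice F → Nice (fun p : (ℝ × ℝ) × ℝ => F (p.1.1, p.2, p.1.2)) :=
      fun h => h.comp (g := fun p : (ℝ × ℝ) × ℝ => (p.1.1, p.2, p.1.2)) (by fun_prop)
    have i1 : Nice (fun q : ℝ × ℝ => ∫ y, f (q.1, y, q.2) ^ 2 ∂μ₂) := (j hnf.sq).int_right μ₂
    have i2 : Nice (fun q : ℝ × ℝ => (∫ y, f (q.1, y, q.2) * sn b.a2 b.b2 y ∂μ₂) ^ 2) :=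
      (((j hnf).mul ((sn_nice b.a2 b.b2).comp
        (g := fun p : (ℝ × ℝ) × ℝ => p.2) (by fun_prop))).int_right μ₂).sq
    have i3 : Nice (fun q : ℝ × ℝ => ∫ y, D2 (q.1, y, q.2) ^ 2 ∂μ₂) := (j n2.sq).int_right μ₂
    have hpt : ∀ q : ℝ × ℝ, (Real.pi / (b.b2 - b.a2)) ^ 2 * (∫ y, f (q.1, y, q.2) ^ 2 ∂μ₂) +
        5 / 4 * (Real.pi / (b.b2 - b.a2)) ^ 2 * ((∫ y, f (q.1, y, q.2) ^ 2 ∂μ₂) -
          (∫ y, f (q.1, y, q.2) * sn b.a2 b.b2 y ∂μ₂) ^ 2) ≤ ∫ y, D2 (q.1, y, q.2) ^ 2 ∂μ₂ := by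
      intro q
      apply one_d' b.a2 b.b2 h2 (fun y => f (q.1, y, q.2)) (fun y => D2 (q.1, y, q.2)) (nd2 q.1 q.2)
        (c2.comp (by fun_prop))
      · exact hz _ fun h => lt_irrefl _ h.2.1.1
      · exact hz _ fun h => lt_irrefl _ h.2.1.2
    have hint := integral_mono (μ := μ₁.prod μ₃)
      (((i1.cmul _).add ((i1.sub i2).cmul _)).integrable _) (i3.integrable _) hpt
    rw [integral_add ((i1.cmul _).integrable _) (((i1.sub i2).cmul _).integrable _),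
      integral_const_mul, integral_const_mul, integral_sub (i1.integrable _) (i2.integrable _),
      integral_prod _ (i1.integrable _), integral_prod _ (i2.integrable _),
      integral_prod _ (i3.integrable _)] at hint
    have sw : ∀ {F : P → ℝ}, Nice F → ∫ p, F p ∂(μ₁.prod (μ₂.prod μ₃)) =
        ∫ x, ∫ z, ∫ y, F (x, y, z) ∂μ₂ ∂μ₃ ∂μ₁ := by
      intro F hF
      rw [integral_prod _ (hF.integrable _)]
      congr 1
      ext x
      rw [integral_prod_symm _ ((hF.comp (hslx x)).integrable _)]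
    rw [hMs, sw hnf.sq, sw n2.sq]
    exact hint
  have E3 : (Real.pi / (b.b3 - b.a3)) ^ 2 * N + 5 / 4 * (Real.pi / (b.b3 - b.a3)) ^ 2 * (N - G3) ≤
      ∫ p, D3 p ^ 2 ∂(μ₁.prod (μ₂.prod μ₃)) := by
    have j : ∀ {F : P → ℝ}, Nice F → Nice (fun p : (ℝ × ℝ) × ℝ => F (p.1.1, p.1.2, p.2)) :=
      fun h => h.comp (g := fun p : (ℝ × ℝ) × ℝ => (p.1.1, p.1.2, p.2)) (by fun_prop)
    have i1 : Nice (fun q : ℝ × ℝ => ∫ z, f (q.1, q.2, z) ^ 2 ∂μ₃) := (j hnf.sq).int_right μ₃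
    have i2 : Nice (fun q : ℝ × ℝ => (∫ z, f (q.1, q.2, z) * sn b.a3 b.b3 z ∂μ₃) ^ 2) :=
      (((j hnf).mul ((sn_nice b.a3 b.b3).comp
        (g := fun p : (ℝ × ℝ) × ℝ => p.2) (by fun_prop))).int_right μ₃).sq
    have i3 : Nice (fun q : ℝ × ℝ => ∫ z, D3 (q.1, q.2, z) ^ 2 ∂μ₃) := (j n3.sq).int_right μ₃
    have hpt : ∀ q : ℝ × ℝ, (Real.pi / (b.b3 - b.a3)) ^ 2 * (∫ z, f (q.1, q.2, z) ^ 2 ∂μ₃) +
        5 / 4 * (Real.pi / (b.b3 - b.a3)) ^ 2 * ((∫ z, f (q.1, q.2, z) ^ 2 ∂μ₃) -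
          (∫ z, f (q.1, q.2, z) * sn b.a3 b.b3 z ∂μ₃) ^ 2) ≤ ∫ z, D3 (q.1, q.2, z) ^ 2 ∂μ₃ := by
      intro q
      apply one_d' b.a3 b.b3 h3 (fun z => f (q.1, q.2, z)) (fun z => D3 (q.1, q.2, z)) (nd3 q.1 q.2)
        (c3.comp (by fun_prop))
      · exact hz _ fun h => lt_irrefl _ h.2.2.1
      · exact hz _ fun h => lt_irrefl _ h.2.2.2
    have hint := integral_mono (μ := μ₁.prod μ₂)
      (((i1.cmul _).add ((i1.sub i2).cmul _)).integrable _) (i3.integrable _) hpt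
    rw [integral_add ((i1.cmul _).integrable _) (((i1.sub i2).cmul _).integrable _),
      integral_const_mul, integral_const_mul, integral_sub (i1.integrable _) (i2.integrable _),
      integral_prod _ (i1.integrable _), integral_prod _ (i2.integrable _),
      integral_prod _ (i3.integrable _)] at hint
    have sw : ∀ {F : P → ℝ}, Nice F → ∫ p, F p ∂(μ₁.prod (μ₂.prod μ₃)) =
        ∫ x, ∫ y, ∫ z, F (x, y, z) ∂μ₃ ∂μ₂ ∂μ₁ := by
      intro F hF
      rw [integral_prod _ (hF.integrable _)]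
      congr 1
      ext x
      rw [integral_prod _ ((hF.comp (hslx x)).integrable _)]
    rw [hMs, sw hnf.sq, sw n3.sq]
    exact hint
  -- nonnegativity of the defects
  have d1 : G1 ≤ N := by
    have i1 : Nice (fun q => ∫ x, f (x, q) ^ 2 ∂μ₁) := hnf.sq.int_left μ₁
    have i2 : Nice (fun q => (∫ x, f (x, q) * sn b.a1 b.b1 x ∂μ₁) ^ 2) :=
      ((hnf.mul ((sn_nice b.a1 b.b1).comp (g := fun p : P => p.1) (by fun_prop))).int_left μ₁).sq
    rw [hMs, integral_prod_symm _ (hnf.sq.integrable _)]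
    exact integral_mono (i2.integrable _) (i1.integrable _) fun q =>
      cs1 μ₁ (hnf.comp (hslq q)) (sn_nice b.a1 b.b1) s1
  have d2 : G2 ≤ N := by
    have j : ∀ {F : P → ℝ}, Nice F → Nice (fun p : (ℝ × ℝ) × ℝ => F (p.1.1, p.2, p.1.2)) :=
      fun h => h.comp (g := fun p : (ℝ × ℝ) × ℝ => (p.1.1, p.2, p.1.2)) (by fun_prop)
    have i1 : Nice (fun q : ℝ × ℝ => ∫ y, f (q.1, y, q.2) ^ 2 ∂μ₂) := (j hnf.sq).int_right μ₂
    have i2 : Nice (fun q : ℝ × ℝ => (∫ y, f (q.1, y, q.2) * sn b.a2 b.b2 y ∂μ₂) ^ 2) :=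
      (((j hnf).mul ((sn_nice b.a2 b.b2).comp
        (g := fun p : (ℝ × ℝ) × ℝ => p.2) (by fun_prop))).int_right μ₂).sq
    have hint := integral_mono (μ := μ₁.prod μ₃) (i2.integrable _) (i1.integrable _) fun q =>
      cs1 μ₂ (hnf.comp (g := fun y : ℝ => ((q.1, y, q.2) : P)) (by fun_prop)) (sn_nice b.a2 b.b2) s2
    rw [integral_prod _ (i1.integrable _), integral_prod _ (i2.integrable _)] at hint
    rw [hMs, integral_prod _ (hnf.sq.integrable _)]
    refine hint.trans (le_of_eq ?_)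
    congr 1
    ext x
    rw [integral_prod_symm _ ((hnf.sq.comp (hslx x)).integrable _)]
  have d3 : G3 ≤ N := by
    have j : ∀ {F : P → ℝ}, Nice F → Nice (fun p : (ℝ × ℝ) × ℝ => F (p.1.1, p.1.2, p.2)) :=
      fun h => h.comp (g := fun p : (ℝ × ℝ) × ℝ => (p.1.1, p.1.2, p.2)) (by fun_prop)
    have i1 : Nice (fun q : ℝ × ℝ => ∫ z, f (q.1, q.2, z) ^ 2 ∂μ₃) := (j hnf.sq).int_right μ₃
    have i2 : Nice (fun q : ℝ × ℝ => (∫ z, f (q.1, q.2, z) * sn b.a3 b.b3 z ∂μ₃) ^ 2) :=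
      (((j hnf).mul ((sn_nice b.a3 b.b3).comp
        (g := fun p : (ℝ × ℝ) × ℝ => p.2) (by fun_prop))).int_right μ₃).sq
    have hint := integral_mono (μ := μ₁.prod μ₂) (i2.integrable _) (i1.integrable _) fun q =>
      cs1 μ₃ (hnf.comp (g := fun z : ℝ => ((q.1, q.2, z) : P)) (by fun_prop)) (sn_nice b.a3 b.b3) s3
    rw [integral_prod _ (i1.integrable _), integral_prod _ (i2.integrable _)] at hint
    rw [hMs, integral_prod _ (hnf.sq.integrable _)]
    refine hint.trans (le_of_eq ?_)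
    congr 1
    ext x
    rw [integral_prod _ ((hnf.sq.comp (hslx x)).integrable _)]
  have f1 : κ * (N - G1) ≤ 5 / 4 * (Real.pi / (b.b1 - b.a1)) ^ 2 * (N - G1) :=
    mul_le_mul_of_nonneg_right k1 (sub_nonneg.2 d1)
  have f2 : κ * (N - G2) ≤ 5 / 4 * (Real.pi / (b.b2 - b.a2)) ^ 2 * (N - G2) :=
    mul_le_mul_of_nonneg_right k2 (sub_nonneg.2 d2)
  have f3 : κ * (N - G3) ≤ 5 / 4 * (Real.pi / (b.b3 - b.a3)) ^ 2 * (N - G3) :=
    mul_le_mul_of_nonneg_right k3 (sub_nonneg.2 d3)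
  have f4 : κ * (N - b.l f ^ 2) ≤ κ * ((N - G1) + (N - G2) + (N - G3)) :=
    mul_le_mul_of_nonneg_left (by linarith) hκ0
  have f5 : b.mu = (Real.pi / (b.b1 - b.a1)) ^ 2 + (Real.pi / (b.b2 - b.a2)) ^ 2 +
      (Real.pi / (b.b3 - b.a3)) ^ 2 := by
    unfold Box.mu
    rw [div_pow, div_pow, div_pow]
    ring
  rw [hEn, f5]
  nlinarith

end Pool.Agent.H456R3.Mult.GapH

namespace Pool.Agent.H456R3.Mult

open GapH in
theorem taskGAP : TaskGAP := by
  intro Λ hΛ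
  have hpi := Real.pi_pos
  have hΛ0 : 0 < Λ := by linarith
  refine ⟨5 / 4 * (Real.pi / Λ) ^ 2, by positivity, ?_⟩
  intro b h1 h1' h2 h2' h3 h3' f hf
  have key : ∀ L : ℝ, 1 ≤ L → L ≤ Λ → 5 / 4 * (Real.pi / Λ) ^ 2 ≤ 5 / 4 * (Real.pi / L) ^ 2 := by
    intro L hL hL'
    have : Real.pi / Λ ≤ Real.pi / L := div_le_div_of_nonneg_left hpi.le (by linarith) hL'
    have h0 : 0 ≤ Real.pi / Λ := by positivity
    gcongr
  exact box_gap b (by linarith) (by linarith) (by linarith) _ (by positivity)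
    (key _ h1 h1') (key _ h2 h2') (key _ h3 h3') f hf

end Pool.Agent.H456R3.Mult
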