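import Pool.Agent.H456R3.Mult.Stmts

/-!
Project H456-MULT (MP_92c74b_an): TaskGEO, geometry of the domain.
-/

open MeasureTheory Set
open scoped ContDiff

set_option autoImplicit false

noncomputable section

namespace Pool.Agent.H456R3.Mult

namespace GEO

variable {m n : ℕ} {inc : Fin m → Fin n → Prop} {M w : ℝ} {s : Idx m n → ℝ}

lemma mem_lo {i : Fin m} {p : P} : p ∈ (bar m n M s (Sum.inl i)).set ↔
    (-s (Sum.inl i) < p.1 ∧ p.1 < M) ∧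
    (2 * ((i : ℕ) : ℝ) < p.2.1 ∧ p.2.1 < 2 * ((i : ℕ) : ℝ) + 1) ∧ (0 < p.2.2 ∧ p.2.2 < 1) :=
  Iff.rfl

lemma mem_up {j : Fin n} {p : P} : p ∈ (bar m n M s (Sum.inr j)).set ↔
    (2 * ((j : ℕ) : ℝ) < p.1 ∧ p.1 < 2 * ((j : ℕ) : ℝ) + 1) ∧
    (-s (Sum.inr j) < p.2.1 ∧ p.2.1 < M) ∧ (1 < p.2.2 ∧ p.2.2 < 2) :=
  Iff.rfl

lemma mem_cu {i : Fin m} {j : Fin n} {p : P} : p ∈ cube (ctr i j) w ↔
    (2 * ((j : ℕ) : ℝ) + 1 / 2 - w < p.1 ∧ p.1 < 2 * ((j : ℕ) : ℝ) + 1 / 2 + w) ∧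
    (2 * ((i : ℕ) : ℝ) + 1 / 2 - w < p.2.1 ∧ p.2.1 < 2 * ((i : ℕ) : ℝ) + 1 / 2 + w) ∧
    (1 - w < p.2.2 ∧ p.2.2 < 1 + w) :=
  Iff.rfl

lemma mem_Om {p : P} : p ∈ Om m n inc M w s ↔ (∃ i : Fin m, p ∈ (bar m n M s (Sum.inl i)).set) ∨
    (∃ j : Fin n, p ∈ (bar m n M s (Sum.inr j)).set) ∨
    ∃ (i : Fin m) (j : Fin n), inc i j ∧ p ∈ cube (ctr i j) w := by
  unfold Om
  simp only [mem_union, mem_iUnion, Sum.exists]
  constructor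
  · rintro ((h | h) | ⟨i, j, h, h'⟩)
    · exact Or.inl h
    · exact Or.inr (Or.inl h)
    · exact Or.inr (Or.inr ⟨i, j, h, h'⟩)
  · rintro (h | h | ⟨i, j, h, h'⟩)
    · exact Or.inl (Or.inl h)
    · exact Or.inl (Or.inr h)
    · exact Or.inr ⟨i, j, h, h'⟩

lemma box_open (b : Box) : IsOpen b.set :=
  isOpen_Ioo.prod (isOpen_Ioo.prod isOpen_Ioo)

lemma cube_open (c : P) (r : ℝ) : IsOpen (cube c r) :=
  isOpen_Ioo.prod (isOpen_Ioo.prod isOpen_Ioo)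

lemma box_pre (b : Box) : IsPreconnected b.set :=
  isPreconnected_Ioo.prod (isPreconnected_Ioo.prod isPreconnected_Ioo)

lemma cube_pre (c : P) (r : ℝ) : IsPreconnected (cube c r) :=
  isPreconnected_Ioo.prod (isPreconnected_Ioo.prod isPreconnected_Ioo)

lemma fin_lt (i : Fin m) (h : 2 * (m : ℝ) ≤ M) : 2 * ((i : ℕ) : ℝ) + 2 ≤ M := by
  have : ((i : ℕ) : ℝ) + 1 ≤ m := by exact_mod_cast i.2
  linarith

lemma win_lo {i : Fin m} {j : Fin n} (hn : 2 * (n : ℝ) ≤ M) (hw : 0 < w) (hw8 : w ≤ 1 / 8)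
    (hs : ∀ v, |s v - 1 / 2| ≤ 1 / 4) {p : P} (hp : p ∈ cube (ctr i j) w) (hz : p.2.2 < 1) :
    p ∈ (bar m n M s (Sum.inl i)).set := by
  rw [mem_cu] at hp
  rw [mem_lo]
  have h1 := fin_lt j hn
  have h2 := abs_le.1 (hs (Sum.inl i))
  have h3 : (0 : ℝ) ≤ ((j : ℕ) : ℝ) := by positivity
  refine ⟨⟨?_, ?_⟩, ⟨?_, ?_⟩, ⟨?_, hz⟩⟩ <;> linarith [hp.1.1, hp.1.2, hp.2.1.1, hp.2.1.2,
    hp.2.2.1, hp.2.2.2, h2.1, h2.2]

lemma win_up {i : Fin m} {j : Fin n} (hm : 2 * (m : ℝ) ≤ M) (hw : 0 < w) (hw8 : w ≤ 1 / 8)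
    (hs : ∀ v, |s v - 1 / 2| ≤ 1 / 4) {p : P} (hp : p ∈ cube (ctr i j) w) (hz : 1 < p.2.2) :
    p ∈ (bar m n M s (Sum.inr j)).set := by
  rw [mem_cu] at hp
  rw [mem_up]
  have h1 := fin_lt i hm
  have h2 := abs_le.1 (hs (Sum.inr j))
  have h3 : (0 : ℝ) ≤ ((i : ℕ) : ℝ) := by positivity
  refine ⟨⟨?_, ?_⟩, ⟨?_, ?_⟩, ⟨hz, ?_⟩⟩ <;> linarith [hp.1.1, hp.1.2, hp.2.1.1, hp.2.1.2,
    hp.2.2.1, hp.2.2.2, h2.1, h2.2]

/-- the point just below the window -/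
lemma pt_lo {i : Fin m} {j : Fin n} (hw : 0 < w) :
    ((2 * ((j : ℕ) : ℝ) + 1 / 2, 2 * ((i : ℕ) : ℝ) + 1 / 2, 1 - w / 2) : P) ∈
      cube (ctr i j) w := by
  rw [mem_cu]
  refine ⟨⟨?_, ?_⟩, ⟨?_, ?_⟩, ⟨?_, ?_⟩⟩ <;> dsimp only <;> linarith

lemma pt_up {i : Fin m} {j : Fin n} (hw : 0 < w) :
    ((2 * ((j : ℕ) : ℝ) + 1 / 2, 2 * ((i : ℕ) : ℝ) + 1 / 2, 1 + w / 2) : P) ∈
      cube (ctr i j) w := by
  rw [mem_cu]
  refine ⟨⟨?_, ?_⟩, ⟨?_, ?_⟩, ⟨?_, ?_⟩⟩ <;> dsimp only <;> linarith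

/-- lower bar, window and upper bar -/
def tri (m n : ℕ) (M w : ℝ) (s : Idx m n → ℝ) (i : Fin m) (j : Fin n) : Set P :=
  ((bar m n M s (Sum.inl i)).set ∪ cube (ctr i j) w) ∪ (bar m n M s (Sum.inr j)).set

lemma tri_pre {i : Fin m} {j : Fin n} (hm : 2 * (m : ℝ) ≤ M) (hn : 2 * (n : ℝ) ≤ M)
    (hw : 0 < w) (hw8 : w ≤ 1 / 8) (hs : ∀ v, |s v - 1 / 2| ≤ 1 / 4) :
    IsPreconnected (tri m n M w s i j) := by
  have hlo := pt_lo (i := i) (j := j) hw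
  have hup := pt_up (i := i) (j := j) hw
  refine IsPreconnected.union _ (Or.inr hup) ?_ (IsPreconnected.union _ ?_ hlo (box_pre _)
    (cube_pre _ _)) (box_pre _)
  · exact win_up hm hw hw8 hs hup (by dsimp only; linarith)
  · exact win_lo hn hw hw8 hs hlo (by dsimp only; linarith)

lemma tri_sub {i : Fin m} {j : Fin n} (h : inc i j) :
    tri m n M w s i j ⊆ Om m n inc M w s := by
  intro p hp
  rw [mem_Om]
  rcases hp with (hp | hp) | hp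
  · exact Or.inl ⟨i, hp⟩
  · exact Or.inr (Or.inr ⟨i, j, h, hp⟩)
  · exact Or.inr (Or.inl ⟨j, hp⟩)

/-- a point of a lower bar -/
lemma pt_bar {i : Fin m} (hM : 1 ≤ M) (hs : ∀ v, |s v - 1 / 2| ≤ 1 / 4) :
    ((0, 2 * ((i : ℕ) : ℝ) + 1 / 2, 1 / 2) : P) ∈ (bar m n M s (Sum.inl i)).set := by
  rw [mem_lo]
  have h2 := abs_le.1 (hs (Sum.inl i))
  refine ⟨⟨?_, ?_⟩, ⟨?_, ?_⟩, ⟨?_, ?_⟩⟩ <;> dsimp only <;> linarith [h2.1, h2.2]

/-- a point of an upper bar -/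
lemma pt_bar' {j : Fin n} (hM : 1 ≤ M) (hs : ∀ v, |s v - 1 / 2| ≤ 1 / 4) :
    ((2 * ((j : ℕ) : ℝ) + 1 / 2, 0, 3 / 2) : P) ∈ (bar m n M s (Sum.inr j)).set := by
  rw [mem_up]
  have h2 := abs_le.1 (hs (Sum.inr j))
  refine ⟨⟨?_, ?_⟩, ⟨?_, ?_⟩, ⟨?_, ?_⟩⟩ <;> dsimp only <;> linarith [h2.1, h2.2]

lemma bdd (hM : 1 ≤ M) (hm : 2 * (m : ℝ) ≤ M) (hn : 2 * (n : ℝ) ≤ M) (hw8 : w ≤ 1 / 8)
    (hs : ∀ v, |s v - 1 / 2| ≤ 1 / 4) : Bornology.IsBounded (Om m n inc M w s) := by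
  refine (Metric.isBounded_closedBall (x := (0 : P)) (r := M + 2)).subset ?_
  intro p hp
  rw [mem_closedBall_zero_iff]
  have key : ∀ a b c : ℝ, |a| ≤ M + 2 → |b| ≤ M + 2 → |c| ≤ M + 2 → ‖((a, b, c) : P)‖ ≤ M + 2 := by
    intro a b c ha hb hc
    rw [Prod.norm_def, Prod.norm_def]
    exact max_le ha (max_le hb hc)
  obtain ⟨a, b, c⟩ := p
  rw [mem_Om] at hp
  rcases hp with ⟨i, hp⟩ | ⟨j, hp⟩ | ⟨i, j, _, hp⟩
  · rw [mem_lo] at hp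
    dsimp only at hp
    have h1 := fin_lt i hm
    have h2 := abs_le.1 (hs (Sum.inl i))
    have h3 : (0 : ℝ) ≤ ((i : ℕ) : ℝ) := by positivity
    apply key <;> rw [abs_le] <;> constructor <;> linarith [hp.1.1, hp.1.2, hp.2.1.1, hp.2.1.2,
      hp.2.2.1, hp.2.2.2, h2.1, h2.2]
  · rw [mem_up] at hp
    dsimp only at hp
    have h1 := fin_lt j hn
    have h2 := abs_le.1 (hs (Sum.inr j))
    have h3 : (0 : ℝ) ≤ ((j : ℕ) : ℝ) := by positivity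
    apply key <;> rw [abs_le] <;> constructor <;> linarith [hp.1.1, hp.1.2, hp.2.1.1, hp.2.1.2,
      hp.2.2.1, hp.2.2.2, h2.1, h2.2]
  · rw [mem_cu] at hp
    dsimp only at hp
    have h1 := fin_lt j hn
    have h1' := fin_lt i hm
    have h3 : (0 : ℝ) ≤ ((j : ℕ) : ℝ) := by positivity
    have h3' : (0 : ℝ) ≤ ((i : ℕ) : ℝ) := by positivity
    apply key <;> rw [abs_le] <;> constructor <;> linarith [hp.1.1, hp.1.2, hp.2.1.1, hp.2.1.2,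
      hp.2.2.1, hp.2.2.2]

lemma nat_sep {a b : ℕ} (h : |(a : ℝ) - b| < 1) : a = b := by
  have h1 := abs_lt.1 h
  have h2 : a < b + 1 := by
    have : (a : ℝ) < b + 1 := by linarith
    exact_mod_cast this
  have h3 : b < a + 1 := by
    have : (b : ℝ) < a + 1 := by linarith
    exact_mod_cast this
  omega

lemma disj (u v : Idx m n) (h : u ≠ v) :
    Disjoint (bar m n M s u).set (bar m n M s v).set := by
  rw [Set.disjoint_left]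
  rintro p hu hv
  apply h
  rcases u with i | i <;> rcases v with j | j
  · rw [mem_lo] at hu hv
    have : (i : ℕ) = j := nat_sep (by
      rw [abs_lt]
      constructor <;> linarith [hu.2.1.1, hu.2.1.2, hv.2.1.1, hv.2.1.2])
    rw [Fin.ext this]
  · rw [mem_lo] at hu
    rw [mem_up] at hv
    linarith [hu.2.2.2, hv.2.2.1]
  · rw [mem_up] at hu
    rw [mem_lo] at hv
    linarith [hv.2.2.2, hu.2.2.1]
  · rw [mem_up] at hu hv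
    have : (i : ℕ) = j := nat_sep (by
      rw [abs_lt]
      constructor <;> linarith [hu.1.1, hu.1.2, hv.1.1, hv.1.2])
    rw [Fin.ext this]

lemma conn (hM : 1 ≤ M) (hm : 2 * (m : ℝ) ≤ M) (hn : 2 * (n : ℝ) ≤ M) (hw : 0 < w)
    (hw8 : w ≤ 1 / 8) (hs : ∀ v, |s v - 1 / 2| ≤ 1 / 4) (hm0 : 0 < m)
    (h1 : ∀ j, ∃ i, inc i j) (h2 : ∀ i i', i ≠ i' → ∃ j, inc i j ∧ inc i' j) :
    IsConnected (Om m n inc M w s) := by
  classical
  let i0 : Fin m := ⟨0, hm0⟩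
  let x0 : P := (0, 2 * ((i0 : ℕ) : ℝ) + 1 / 2, 1 / 2)
  have hx0 : x0 ∈ (bar m n M s (Sum.inl i0)).set := pt_bar hM hs
  have hlow : ∀ i : Fin m, ∃ t ⊆ Om m n inc M w s, x0 ∈ t ∧
      (bar m n M s (Sum.inl i)).set ⊆ t ∧ IsPreconnected t := by
    intro i
    by_cases hi : i0 = i
    · subst hi
      exact ⟨_, fun p hp => mem_Om.2 (Or.inl ⟨_, hp⟩), hx0, Subset.refl _, box_pre _⟩
    · obtain ⟨j, hj, hj'⟩ := h2 i0 i hi
      refine ⟨tri m n M w s i0 j ∪ tri m n M w s i j, union_subset (tri_sub hj) (tri_sub hj'),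
        Or.inl (Or.inl (Or.inl hx0)), fun p hp => Or.inr (Or.inl (Or.inl hp)), ?_⟩
      have hp := pt_bar' (m := m) (M := M) (s := s) (j := j) hM hs
      exact IsPreconnected.union _ (Or.inr hp) (Or.inr hp) (tri_pre hm hn hw hw8 hs)
        (tri_pre hm hn hw hw8 hs)
  have hij : ∀ (i : Fin m) (j : Fin n), inc i j → ∃ t ⊆ Om m n inc M w s, x0 ∈ t ∧
      tri m n M w s i j ⊆ t ∧ IsPreconnected t := by
    intro i j hinc
    obtain ⟨t, ht, hx, hb, hp⟩ := hlow i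
    have hpt := pt_bar (n := n) (M := M) (s := s) (i := i) hM hs
    exact ⟨t ∪ tri m n M w s i j, union_subset ht (tri_sub hinc), Or.inl hx,
      subset_union_right, IsPreconnected.union _ (hb hpt) (Or.inl (Or.inl hpt)) hp
        (tri_pre hm hn hw hw8 hs)⟩
  refine ⟨⟨x0, mem_Om.2 (Or.inl ⟨i0, hx0⟩)⟩, isPreconnected_of_forall x0 ?_⟩
  intro y hy
  rw [mem_Om] at hy
  rcases hy with ⟨i, hy⟩ | ⟨j, hy⟩ | ⟨i, j, hinc, hy⟩
  · obtain ⟨t, ht, hx, hb, hp⟩ := hlow i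
    exact ⟨t, ht, hx, hb hy, hp⟩
  · obtain ⟨i, hi⟩ := h1 j
    obtain ⟨t, ht, hx, hb, hp⟩ := hij i j hi
    exact ⟨t, ht, hx, hb (Or.inr hy), hp⟩
  · obtain ⟨t, ht, hx, hb, hp⟩ := hij i j hinc
    exact ⟨t, ht, hx, hb (Or.inl (Or.inr hy)), hp⟩

end GEO

open GEO

theorem taskGEO : TaskGEO := by
  intro m n inc M w s hM hm hn hw hw8 hs
  have h5 : ∀ p ∈ Om m n inc M w s, p.2.2 = 1 → ∃ i j, inc i j ∧ p ∈ cube (ctr i j) w := by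
    intro p hp hz
    rw [mem_Om] at hp
    rcases hp with ⟨i, hp⟩ | ⟨j, hp⟩ | ⟨i, j, hinc, hp⟩
    · rw [mem_lo] at hp
      linarith [hp.2.2.2]
    · rw [mem_up] at hp
      linarith [hp.2.2.1]
    · exact ⟨i, j, hinc, hp⟩
  refine ⟨?_, bdd hM hm hn hw8 hs, fun u v h => disj u v h,
    fun hm0 h1 h2 => conn hM hm hn hw hw8 hs hm0 h1 h2, h5, ?_, ?_⟩
  · unfold Om
    exact (isOpen_iUnion fun v => box_open _).union
      (isOpen_iUnion fun i => isOpen_iUnion fun j => isOpen_iUnion fun _ => cube_open _ _)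
  · intro i j x y hx1 hx2 hy hmem
    obtain ⟨i', j', _, hp⟩ := h5 _ hmem rfl
    rw [mem_cu] at hp
    dsimp only at hp
    have ha := abs_le.1 hx2
    have hj : (j : ℕ) = j' := nat_sep (by
      rw [abs_lt]
      constructor <;> linarith [hp.1.1, hp.1.2, ha.1, ha.2])
    rw [hj] at hx1
    have : |x - (2 * ((j' : ℕ) : ℝ) + 1 / 2)| < w := by
      rw [abs_lt]
      constructor <;> linarith [hp.1.1, hp.1.2]
    linarith
  · intro i j p hp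
    rcases lt_trichotomy p.2.2 1 with hz | hz | hz
    · exact Or.inl (Or.inl (win_lo hn hw hw8 hs hp hz))
    · exact Or.inr hz
    · exact Or.inl (Or.inr (win_up hm hw hw8 hs hp hz))

end Pool.Agent.H456R3.Mult
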