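import Pool.Agent.H456R3.Mult.Stmts

/-!
Project H456-MULT, TaskGV (helper510): dual functions with uniform bounds.
-/

open MeasureTheory Set
open scoped ContDiff

set_option autoImplicit false

noncomputable section

namespace Pool.Agent.H456R3.Mult
namespace GVX

theorem sin_ge {c t : ℝ} (hc : 0 ≤ c) (h1 : c ≤ t) (h2 : t ≤ 1 - c) :
    2 * c ≤ Real.sin (Real.pi * t) := by
  have hp := Real.pi_pos
  rcases le_total t (1/2) with h | h
  · have h3 := Real.mul_le_sin (x := Real.pi * t) (by nlinarith) (by nlinarith)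
    have h4 : 2 / Real.pi * (Real.pi * t) = 2 * t := by field_simp
    rw [h4] at h3
    linarith
  · have h3 := Real.mul_le_sin (x := Real.pi * (1 - t)) (by nlinarith) (by nlinarith)
    have h4 : 2 / Real.pi * (Real.pi * (1 - t)) = 2 * (1 - t) := by field_simp
    have h5 : Real.sin (Real.pi * (1 - t)) = Real.sin (Real.pi * t) := by
      rw [← Real.sin_pi_sub]; congr 1; ring
    rw [h4, h5] at h3
    linarith

/-- the fixed centre inside all the bars -/
def cen (m n : ℕ) : Idx m n → P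
  | Sum.inl i => (1/2, 2 * (i : ℕ) + 1/2, 1/2)
  | Sum.inr j => (2 * (j : ℕ) + 1/2, 1/2, 3/2)

/-- the fixed bump -/
def bmp (c : P) : ContDiffBump c := ⟨1/8, 1/5, by norm_num, by norm_num⟩

theorem mem_ball {c p : P} (h : p ∈ Metric.closedBall c (1/5)) :
    |p.1 - c.1| ≤ 1/5 ∧ |p.2.1 - c.2.1| ≤ 1/5 ∧ |p.2.2 - c.2.2| ≤ 1/5 := by
  rw [Metric.mem_closedBall, Prod.dist_eq, Prod.dist_eq, max_le_iff, max_le_iff, Real.dist_eq,
    Real.dist_eq, Real.dist_eq] at h
  exact h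

/-- lower bound of the eigenfunction -/
def c0 (M : ℝ) : ℝ := √(8 / (M + 1)) * (2 * (1 / (4 * (M + 1))) * (2 * (1/4)) * (2 * (1/4)))

theorem c0_pos {M : ℝ} (hM : 1 ≤ M) : 0 < c0 M := by
  unfold c0
  have : 0 < M + 1 := by linarith
  positivity

theorem long_ge {M s x : ℝ} (hM : 1 ≤ M) (hs : |s - 1/2| ≤ 1/4) (hx : |x - 1/2| ≤ 1/5) :
    2 * (1 / (4 * (M + 1))) ≤ Real.sin (Real.pi * (x - -s) / (M - -s)) := by
  rw [abs_le] at hs hx
  have h0 : 0 < M - -s := by linarith [hs.1]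
  have h1 : 0 < M + 1 := by linarith
  have e : Real.pi * (x - -s) / (M - -s) = Real.pi * ((x - -s) / (M - -s)) := by ring
  rw [e]
  apply sin_ge (by positivity)
  · rw [div_le_div_iff₀ (by positivity) h0]
    nlinarith [hs.1, hs.2, hx.1, hx.2]
  · rw [div_le_iff₀ h0]
    have : (1 - 1 / (4 * (M + 1))) * (M - -s) = (M + s) - (M + s) / (4 * (M + 1)) := by
      field_simp
      ring
    rw [this]
    have h2 : (M + s) / (4 * (M + 1)) ≤ 1 / 4 := by
      rw [div_le_div_iff₀ (by positivity) (by norm_num)]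
      nlinarith [hs.2]
    have h3 : x ≤ 7/10 := by linarith [hx.2]
    linarith

theorem short_ge {a x : ℝ} (hx : |x - (a + 1/2)| ≤ 1/5) :
    2 * (1/4) ≤ Real.sin (Real.pi * (x - a) / (a + 1 - a)) := by
  rw [abs_le] at hx
  have e : Real.pi * (x - a) / (a + 1 - a) = Real.pi * (x - a) := by
    have : a + 1 - a = 1 := by ring
    rw [this, div_one]
  rw [e]
  apply sin_ge (by norm_num) <;> linarith [hx.1, hx.2]

theorem coef_ge {M s : ℝ} (hM : 1 ≤ M) (hs : |s - 1/2| ≤ 1/4) :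
    √(8 / (M + 1)) ≤ √(8 / (M - -s)) := by
  rw [abs_le] at hs
  apply Real.sqrt_le_sqrt
  apply div_le_div_of_nonneg_left (by norm_num) (by linarith [hs.1]) (by linarith [hs.2])

theorem prod4 {x1 x2 x3 y1 y2 y3 r r' : ℝ} (h1 : 0 ≤ x1) (h1' : x1 ≤ y1) (h2 : 0 ≤ x2)
    (h2' : x2 ≤ y2) (h3 : 0 ≤ x3) (h3' : x3 ≤ y3) (hr : 0 ≤ r) (hr' : r ≤ r') :
    r * (x1 * x2 * x3) ≤ r' * (y1 * y2 * y3) := by
  have a1 : x1 * x2 ≤ y1 * y2 := mul_le_mul h1' h2' h2 (h1.trans h1')
  have a2 : x1 * x2 * x3 ≤ y1 * y2 * y3 :=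
    mul_le_mul a1 h3' h3 ((mul_nonneg h1 h2).trans a1)
  exact mul_le_mul hr' a2 (mul_nonneg (mul_nonneg h1 h2) h3) (hr.trans hr')

theorem ef_ge {m n : ℕ} {M : ℝ} (hM : 1 ≤ M) {s : Idx m n → ℝ} (hs : ∀ v, |s v - 1/2| ≤ 1/4)
    (v : Idx m n) {p : P} (hp : p ∈ Metric.closedBall (cen m n v) (1/5)) :
    c0 M ≤ (bar m n M s v).ef p := by
  obtain ⟨h1, h2, h3⟩ := mem_ball hp
  have hM1 : 0 < M + 1 := by linarith
  have hc := coef_ge hM (hs v)
  rcases v with i | j
  · simp only [cen] at h1 h2 h3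
    have a1 := long_ge hM (hs (Sum.inl i)) h1
    have a2 := short_ge (a := 2 * (i : ℕ)) h2
    have a3 := short_ge (a := 0) (x := p.2.2) (by simpa using h3)
    have e3 : Real.pi * (p.2.2 - 0) / (0 + 1 - 0) = Real.pi * (p.2.2 - 0) / (1 - 0) := by norm_num
    rw [e3] at a3
    simp only [bar, Box.ef]
    have ec : (M - -s (Sum.inl i)) * (2 * ((i : ℕ) : ℝ) + 1 - 2 * ((i : ℕ) : ℝ)) * (1 - 0) =
        M - -s (Sum.inl i) := by ring
    rw [ec]
    unfold c0
    exact prod4 (by positivity) a1 (by positivity) a2 (by positivity) a3 (by positivity) hc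
  · simp only [cen] at h1 h2 h3
    have a1 := long_ge hM (hs (Sum.inr j)) h2
    have a2 := short_ge (a := 2 * (j : ℕ)) h1
    have a3 := short_ge (a := 1) (x := p.2.2) (by
      have : (1:ℝ) + 1/2 = 3/2 := by norm_num
      rw [this]; exact h3)
    have e3 : Real.pi * (p.2.2 - 1) / (1 + 1 - 1) = Real.pi * (p.2.2 - 1) / (2 - 1) := by norm_num
    rw [e3] at a3
    simp only [bar, Box.ef]
    have ec : (2 * ((j : ℕ) : ℝ) + 1 - 2 * ((j : ℕ) : ℝ)) * (M - -s (Sum.inr j)) * (2 - 1) =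
        M - -s (Sum.inr j) := by ring
    rw [ec]
    have e4 : c0 M = √(8 / (M + 1)) * ((2 * (1/4)) * (2 * (1 / (4 * (M + 1)))) * (2 * (1/4))) := by
      unfold c0; ring
    rw [e4]
    exact prod4 (by positivity) a2 (by positivity) a1 (by positivity) a3 (by positivity) hc

theorem ball_sub {m n : ℕ} {M : ℝ} (hM : 1 ≤ M) {s : Idx m n → ℝ} (hs : ∀ v, |s v - 1/2| ≤ 1/4)
    (v : Idx m n) : Metric.closedBall (cen m n v) (1/5) ⊆ (bar m n M s v).set := by
  intro p hp
  obtain ⟨h1, h2, h3⟩ := mem_ball hp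
  have hv := abs_le.1 (hs v)
  rw [abs_le] at h1 h2 h3
  rcases v with i | j
  · simp only [cen] at h1 h2 h3
    refine ⟨⟨?_, ?_⟩, ⟨?_, ?_⟩, ?_, ?_⟩ <;> simp only [bar] <;> linarith [h1.1, h1.2, h2.1, h2.2, h3.1, h3.2, hv.1, hv.2]
  · simp only [cen] at h1 h2 h3
    refine ⟨⟨?_, ?_⟩, ⟨?_, ?_⟩, ?_, ?_⟩ <;> simp only [bar] <;> linarith [h1.1, h1.2, h2.1, h2.2, h3.1, h3.2, hv.1, hv.2]

theorem bmp_tsupport (c : P) : tsupport (bmp c) = Metric.closedBall c (1/5) :=
  (bmp c).tsupport_eq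

theorem ef_cont (b : Box) : Continuous b.ef := by
  unfold Box.ef
  fun_prop

theorem l_ge {m n : ℕ} {M : ℝ} (hM : 1 ≤ M) {s : Idx m n → ℝ} (hs : ∀ v, |s v - 1/2| ≤ 1/4)
    (v : Idx m n) :
    c0 M * ∫ p, bmp (cen m n v) p ≤ (bar m n M s v).l (bmp (cen m n v)) := by
  set φ := bmp (cen m n v) with hφ
  have hz : ∀ p, p ∉ (bar m n M s v).set → φ p = 0 := by
    intro p hp
    apply image_eq_zero_of_notMem_tsupport
    rw [bmp_tsupport]
    exact fun h => hp (ball_sub hM hs v h)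
  unfold Box.l
  rw [setIntegral_eq_integral_of_forall_compl_eq_zero (fun p hp => by rw [hz p hp, mul_zero]),
    ← integral_const_mul]
  have hcs : HasCompactSupport φ := φ.hasCompactSupport
  have hct : Continuous φ := φ.continuous
  apply integral_mono
  · exact (hct.integrable_of_hasCompactSupport hcs).const_mul _
  · exact ((ef_cont _).mul hct).integrable_of_hasCompactSupport hcs.mul_left
  · intro p
    by_cases hp : p ∈ Metric.closedBall (cen m n v) (1/5)
    · exact mul_le_mul_of_nonneg_right (ef_ge hM hs v hp) φ.nonneg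
    · have : φ p = 0 := by
        apply image_eq_zero_of_notMem_tsupport
        rw [bmp_tsupport]; exact hp
      simp only [this, mul_zero, le_refl]

theorem En_smul (a : ℝ) {f : P → ℝ} (hf : ContDiff ℝ ∞ f) : En (a • f) = a ^ 2 * En f := by
  unfold En Eb
  rw [← integral_const_mul]
  congr 1
  funext p
  have hd : DifferentiableAt ℝ f p := (hf.differentiable (by simp)).differentiableAt
  unfold gb dx dy dz
  rw [fderiv_const_smul hd]
  simp only [_root_.smul_apply, smul_eq_mul]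
  ring

theorem Ms_smul (a : ℝ) (f : P → ℝ) : Ms (a • f) = a ^ 2 * Ms f := by
  unfold Ms Mb
  rw [← integral_const_mul]
  congr 1
  funext p
  simp only [Pi.smul_apply, smul_eq_mul]
  ring

theorem l_smul (b : Box) (a : ℝ) (f : P → ℝ) : b.l (a • f) = a * b.l f := by
  unfold Box.l
  rw [← integral_const_mul]
  congr 1
  funext p
  simp only [Pi.smul_apply, smul_eq_mul]
  ring

theorem En_nonneg (f : P → ℝ) : 0 ≤ En f := by
  unfold En Eb
  apply integral_nonneg
  intro p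
  unfold gb
  simp only [Pi.zero_apply]
  nlinarith [mul_self_nonneg (dx f p), mul_self_nonneg (dy f p), mul_self_nonneg (dz f p)]

theorem Ms_nonneg (f : P → ℝ) : 0 ≤ Ms f := by
  unfold Ms Mb
  apply integral_nonneg
  intro p
  exact mul_self_nonneg _

/-- energy constant of the bump -/
def KK (m n : ℕ) (M : ℝ) (v : Idx m n) : ℝ :=
  (En (bmp (cen m n v)) + Ms (bmp (cen m n v))) / (c0 M * ∫ p, bmp (cen m n v) p) ^ 2

end GVX

open GVX in
theorem taskGV : TaskGV := by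
  intro m n M hM
  have hK : ∀ v : Idx m n, 0 ≤ KK m n M v := fun v =>
    div_nonneg (add_nonneg (En_nonneg _) (Ms_nonneg _)) (sq_nonneg _)
  refine ⟨1 + ∑ v, KK m n M v, ?_, ?_⟩
  · have := Finset.sum_nonneg (fun v (_ : v ∈ (Finset.univ : Finset (Idx m n))) => hK v)
    linarith
  · intro s hs v
    set φ : P → ℝ := ⇑(bmp (cen m n v)) with hφ
    have hI : 0 < ∫ p, bmp (cen m n v) p := (bmp (cen m n v)).integral_pos
    have h1 := l_ge hM hs v
    have h2 : 0 < c0 M * ∫ p, bmp (cen m n v) p := mul_pos (c0_pos hM) hI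
    have h3 : 0 < (bar m n M s v).l φ := lt_of_lt_of_le h2 h1
    have hcd : ContDiff ℝ ∞ φ := (bmp (cen m n v)).contDiff
    have hmem : φ ∈ Dc (bar m n M s v).set := by
      refine ⟨hcd, (bmp (cen m n v)).hasCompactSupport, ?_⟩
      rw [hφ, bmp_tsupport]
      exact ball_sub hM hs v
    refine ⟨((bar m n M s v).l φ)⁻¹ • φ, Submodule.smul_mem _ _ hmem, ?_, ?_⟩
    · rw [l_smul, inv_mul_cancel₀ h3.ne']
    · rw [En_smul _ hcd, Ms_smul, ← mul_add]
      have h4 : ((bar m n M s v).l φ)⁻¹ ^ 2 * (En φ + Ms φ) ≤ KK m n M v := by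
        unfold KK
        rw [inv_pow, mul_comm, ← div_eq_mul_inv]
        apply div_le_div_of_nonneg_left (add_nonneg (En_nonneg _) (Ms_nonneg _)) (by positivity)
        exact pow_le_pow_left₀ h2.le h1 2
      have h5 : KK m n M v ≤ ∑ v, KK m n M v :=
        Finset.single_le_sum (fun v _ => hK v) (Finset.mem_univ v)
      linarith

end Pool.Agent.H456R3.Mult
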