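import Pool.Agent.Helper728.Coag.Brouwer
import Pool.Agent.H456R3.Mult.Stmts

/-!
Task LA of project H456-MULT: linear algebra and Brouwer.
-/

set_option autoImplicit false

noncomputable section

namespace Pool.Agent.H456R3.Mult

namespace LA

theorem clamp_abs {R x : ℝ} (hR : 0 ≤ R) : |max (-R) (min R x)| ≤ R := by
  rw [abs_le]
  constructor
  · exact le_max_left _ _
  · exact max_le (by linarith) (min_le_left _ _)

theorem clamp_eq {R x : ℝ} (hx : |x| ≤ R) : max (-R) (min R x) = x := by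
  rw [abs_le] at hx
  rw [min_eq_right hx.2, max_eq_right hx.1]

theorem sum_abs_le {n : ℕ} (g : Fin n → ℝ) (B : ℝ) (h : ∀ f, |g f| ≤ B) :
    |∑ f, g f| ≤ n * B := by
  calc |∑ f, g f| ≤ ∑ f, |g f| := Finset.abs_sum_le_sum_abs _ _
    _ ≤ ∑ _f : Fin n, B := Finset.sum_le_sum fun f _ => h f
    _ = n * B := by simp

theorem sum_erase_abs_le {n : ℕ} (e : Fin n) (g : Fin n → ℝ) (B : ℝ) (hB : 0 ≤ B)
    (h : ∀ f, f ≠ e → |g f| ≤ B) : |∑ f ∈ Finset.univ.erase e, g f| ≤ n * B := by
  calc |∑ f ∈ Finset.univ.erase e, g f| ≤ ∑ f ∈ Finset.univ.erase e, |g f| :=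
        Finset.abs_sum_le_sum_abs _ _
    _ ≤ ∑ _f ∈ Finset.univ.erase e, B :=
        Finset.sum_le_sum fun f hf => h f (Finset.ne_of_mem_erase hf)
    _ ≤ ∑ _f : Fin n, B :=
        Finset.sum_le_sum_of_subset_of_nonneg (Finset.erase_subset _ _) fun _ _ _ => hB
    _ = n * B := by simp

/-- completion of squares in blocks -/
theorem block {N n : ℕ} (q : Fin N ⊕ Fin n → ℝ) (G : (Fin N ⊕ Fin n) → (Fin N ⊕ Fin n) → ℝ)
    (t : ℝ) (Y : Fin n → Fin N → ℝ) (hs : ∀ u v, G u v = G v u)
    (hA : ∀ e i, ∑ f, ((if e = f then q (Sum.inr e) else 0) - G (Sum.inr e) (Sum.inr f)) * Y f i =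
      G (Sum.inr e) (Sum.inl i))
    (hB : ∀ i j, ∑ e, Y e i * G (Sum.inr e) (Sum.inl j) =
      (if i = j then q (Sum.inl i) else 0) - G (Sum.inl i) (Sum.inl j) + t)
    (c : Fin N ⊕ Fin n → ℝ) :
    quad (fun u v => (if u = v then q u else 0) - G u v) c =
      - t * (∑ i, c (Sum.inl i)) ^ 2 +
        quad (fun e f => (if e = f then q (Sum.inr e) else 0) - G (Sum.inr e) (Sum.inr f))
          (fun e => c (Sum.inr e) - ∑ i, Y e i * c (Sum.inl i)) := by
  set D : Fin n → Fin n → ℝ :=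
    fun e f => (if e = f then q (Sum.inr e) else 0) - G (Sum.inr e) (Sum.inr f) with hD
  set H : Fin N → Fin N → ℝ :=
    fun i j => (if i = j then q (Sum.inl i) else 0) - G (Sum.inl i) (Sum.inl j) with hH
  have hDs : ∀ e f, D e f = D f e := by
    intro e f
    simp only [hD]
    rw [hs (Sum.inr e) (Sum.inr f)]
    by_cases h : e = f
    · subst h; rfl
    · rw [if_neg h, if_neg (Ne.symm h)]
  set x : Fin n → ℝ := fun e => c (Sum.inr e) with hx
  set y : Fin N → ℝ := fun i => c (Sum.inl i) with hy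
  set z : Fin n → ℝ := fun e => ∑ i, Y e i * y i with hz
  have hDz : ∀ e, ∑ f, D e f * z f = ∑ i, G (Sum.inr e) (Sum.inl i) * y i := by
    intro e
    simp only [hz, Finset.mul_sum]
    rw [Finset.sum_comm]
    refine Finset.sum_congr rfl fun i _ => ?_
    rw [← hA e i, Finset.sum_mul]
    refine Finset.sum_congr rfl fun f _ => ?_
    simp only [hD]; ring
  have hL : quad (fun u v => (if u = v then q u else 0) - G u v) c =
      (∑ i, ∑ j, H i j * y i * y j) - (∑ e, x e * ∑ i, G (Sum.inr e) (Sum.inl i) * y i) -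
        (∑ e, x e * ∑ i, G (Sum.inr e) (Sum.inl i) * y i) + ∑ e, ∑ f, D e f * x e * x f := by
    unfold quad
    rw [Fintype.sum_sum_type]
    simp only [Fintype.sum_sum_type, Finset.sum_add_distrib]
    have e1 : ∑ i : Fin N, ∑ f : Fin n, ((if (Sum.inl i : Fin N ⊕ Fin n) = Sum.inr f then
        q (Sum.inl i) else 0) - G (Sum.inl i) (Sum.inr f)) * c (Sum.inl i) * c (Sum.inr f) =
        - ∑ e, x e * ∑ i, G (Sum.inr e) (Sum.inl i) * y i := by
      rw [Finset.sum_comm, ← Finset.sum_neg_distrib]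
      refine Finset.sum_congr rfl fun e _ => ?_
      rw [Finset.mul_sum, ← Finset.sum_neg_distrib]
      refine Finset.sum_congr rfl fun i _ => ?_
      rw [if_neg (by simp), hs (Sum.inl i) (Sum.inr e)]
      simp only [hx, hy]; ring
    have e2 : ∑ e : Fin n, ∑ i : Fin N, ((if (Sum.inr e : Fin N ⊕ Fin n) = Sum.inl i then
        q (Sum.inr e) else 0) - G (Sum.inr e) (Sum.inl i)) * c (Sum.inr e) * c (Sum.inl i) =
        - ∑ e, x e * ∑ i, G (Sum.inr e) (Sum.inl i) * y i := by
      rw [← Finset.sum_neg_distrib]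
      refine Finset.sum_congr rfl fun e _ => ?_
      rw [Finset.mul_sum, ← Finset.sum_neg_distrib]
      refine Finset.sum_congr rfl fun i _ => ?_
      rw [if_neg (by simp)]
      simp only [hx, hy]; ring
    rw [e1, e2]
    have e3 : ∑ i : Fin N, ∑ j : Fin N, ((if (Sum.inl i : Fin N ⊕ Fin n) = Sum.inl j then
        q (Sum.inl i) else 0) - G (Sum.inl i) (Sum.inl j)) * c (Sum.inl i) * c (Sum.inl j) =
        ∑ i, ∑ j, H i j * y i * y j := by
      refine Finset.sum_congr rfl fun i _ => Finset.sum_congr rfl fun j _ => ?_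
      simp only [hH, hy, Sum.inl.injEq]
    have e4 : ∑ e : Fin n, ∑ f : Fin n, ((if (Sum.inr e : Fin N ⊕ Fin n) = Sum.inr f then
        q (Sum.inr e) else 0) - G (Sum.inr e) (Sum.inr f)) * c (Sum.inr e) * c (Sum.inr f) =
        ∑ e, ∑ f, D e f * x e * x f := by
      refine Finset.sum_congr rfl fun i _ => Finset.sum_congr rfl fun j _ => ?_
      simp only [hD, hx, Sum.inr.injEq]
    rw [e3, e4]; ring
  have hR : quad D (fun e => x e - z e) = (∑ e, ∑ f, D e f * x e * x f) -
      (∑ e, x e * ∑ f, D e f * z f) - (∑ e, x e * ∑ f, D e f * z f) +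
        ∑ e, z e * ∑ f, D e f * z f := by
    unfold quad
    have e1 : ∑ e, x e * ∑ f, D e f * z f = ∑ e, ∑ f, D e f * x f * z e := by
      simp only [Finset.mul_sum]
      rw [Finset.sum_comm]
      refine Finset.sum_congr rfl fun e _ => Finset.sum_congr rfl fun f _ => ?_
      rw [hDs f e]; ring
    have e2 : ∑ e, x e * ∑ f, D e f * z f = ∑ e, ∑ f, D e f * x e * z f := by
      simp only [Finset.mul_sum]
      refine Finset.sum_congr rfl fun e _ => Finset.sum_congr rfl fun f _ => ?_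
      ring
    have e3 : ∑ e, z e * ∑ f, D e f * z f = ∑ e, ∑ f, D e f * z e * z f := by
      simp only [Finset.mul_sum]
      refine Finset.sum_congr rfl fun e _ => Finset.sum_congr rfl fun f _ => ?_
      ring
    rw [e3]
    nth_rewrite 1 [e1]
    rw [e2, ← Finset.sum_sub_distrib, ← Finset.sum_sub_distrib, ← Finset.sum_add_distrib]
    refine Finset.sum_congr rfl fun e _ => ?_
    rw [← Finset.sum_sub_distrib, ← Finset.sum_sub_distrib, ← Finset.sum_add_distrib]
    refine Finset.sum_congr rfl fun f _ => ?_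
    ring
  have hZ : ∑ e, z e * ∑ f, D e f * z f = (∑ i, ∑ j, H i j * y i * y j) + t * (∑ i, y i) ^ 2 := by
    have e0 : ∑ e, z e * ∑ f, D e f * z f =
        ∑ i, ∑ j, (∑ e, Y e i * G (Sum.inr e) (Sum.inl j)) * (y i * y j) := by
      have e1 : ∀ e, z e * ∑ f, D e f * z f =
          ∑ i, ∑ j, Y e i * G (Sum.inr e) (Sum.inl j) * (y i * y j) := by
        intro e
        rw [hDz e]
        simp only [hz]
        rw [Finset.sum_mul_sum]
        refine Finset.sum_congr rfl fun i _ => Finset.sum_congr rfl fun j _ => ?_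
        ring
      simp only [e1]
      rw [Finset.sum_comm]
      refine Finset.sum_congr rfl fun i _ => ?_
      rw [Finset.sum_comm]
      refine Finset.sum_congr rfl fun j _ => ?_
      rw [Finset.sum_mul]
    have e5 : t * (∑ i, y i) ^ 2 = ∑ i, ∑ j, t * (y i * y j) := by
      rw [sq, Finset.sum_mul_sum, Finset.mul_sum]
      refine Finset.sum_congr rfl fun i _ => ?_
      rw [Finset.mul_sum]
    rw [e0, e5, ← Finset.sum_add_distrib]
    refine Finset.sum_congr rfl fun i _ => ?_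
    rw [← Finset.sum_add_distrib]
    refine Finset.sum_congr rfl fun j _ => ?_
    rw [hB i j]
    simp only [hH]
    ring
  have hXZ : ∑ e, x e * ∑ f, D e f * z f = ∑ e, x e * ∑ i, G (Sum.inr e) (Sum.inl i) * y i :=
    Finset.sum_congr rfl fun e _ => by rw [hDz e]
  rw [hL]
  change _ = -t * (∑ i, y i) ^ 2 + quad D (fun e => x e - z e)
  rw [hR, hZ, hXZ]
  ring

/-- diagonal dominance -/
theorem psd {n : ℕ} (D : Fin n → Fin n → ℝ) (ε : ℝ) (hε : 0 ≤ ε) (hn : n * ε ≤ 1)
    (hd : ∀ e, 1 ≤ D e e) (ho : ∀ e f, e ≠ f → |D e f| ≤ ε) (x : Fin n → ℝ) : 0 ≤ quad D x := by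
  unfold quad
  have h1 : ∀ e f, (if e = f then x e ^ 2 else 0) - ε * (x e ^ 2 + x f ^ 2) / 2 ≤
      D e f * x e * x f := by
    intro e f
    by_cases h : e = f
    · subst h
      rw [if_pos rfl]
      nlinarith [hd e, sq_nonneg (x e), mul_nonneg hε (sq_nonneg (x e)),
        mul_nonneg (sub_nonneg.2 (hd e)) (sq_nonneg (x e))]
    · rw [if_neg h]
      have h2 : |D e f * x e * x f| ≤ ε * (x e ^ 2 + x f ^ 2) / 2 := by
        rw [mul_assoc, abs_mul, abs_mul]
        have h3 : |x e| * |x f| ≤ (x e ^ 2 + x f ^ 2) / 2 := by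
          nlinarith [sq_nonneg (|x e| - |x f|), sq_abs (x e), sq_abs (x f)]
        calc |D e f| * (|x e| * |x f|) ≤ ε * ((x e ^ 2 + x f ^ 2) / 2) :=
              mul_le_mul (ho e f h) h3 (by positivity) hε
          _ = _ := by ring
      have := neg_abs_le (D e f * x e * x f)
      linarith
  have h2 : ∑ e, ∑ f, ((if e = f then x e ^ 2 else 0) - ε * (x e ^ 2 + x f ^ 2) / 2) =
      (1 - n * ε) * ∑ e, x e ^ 2 := by
    have e1 : ∀ e f, ((if e = f then x e ^ 2 else 0) - ε * (x e ^ 2 + x f ^ 2) / 2 : ℝ) =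
        (if e = f then x e ^ 2 else 0) - (ε / 2 * x e ^ 2 + ε / 2 * x f ^ 2) := by
      intro e f; ring
    simp only [e1, Finset.sum_sub_distrib, Finset.sum_add_distrib]
    simp only [Finset.sum_ite_eq, Finset.mem_univ, if_true, Finset.sum_const, Finset.card_univ,
      Fintype.card_fin, nsmul_eq_mul, ← Finset.mul_sum]
    ring
  have h3 : 0 ≤ (1 - n * ε) * ∑ e, x e ^ 2 :=
    mul_nonneg (by linarith) (Finset.sum_nonneg fun e _ => sq_nonneg _)
  rw [← h2] at h3
  exact h3.trans (Finset.sum_le_sum fun e _ => Finset.sum_le_sum fun f _ => h1 e f)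

/-- no other edge is incident to both ends -/
theorem edge_unique {N n : ℕ} {a b : Fin n → Fin N} (hab : ∀ e, a e < b e)
    (huniq : ∀ i j, i < j → ∃! e, a e = i ∧ b e = j) {e f : Fin n} (hne : f ≠ e)
    (h1 : b e = a f ∨ b e = b f) : a e ≠ a f ∧ a e ≠ b f := by
  constructor
  · intro h
    rcases h1 with h2 | h2
    · exact absurd (h.trans h2.symm) (hab e).ne
    · obtain ⟨g, _, hg⟩ := huniq (a e) (b e) (hab e)
      exact hne ((hg f ⟨h.symm, h2.symm⟩).trans (hg e ⟨rfl, rfl⟩).symm)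
  · intro h
    rcases h1 with h2 | h2
    · have h3 := hab e
      have h4 := hab f
      rw [h, h2] at h3
      exact absurd (h3.trans h4) (lt_irrefl _)
    · exact absurd (h.trans h2.symm) (hab e).ne

end LA

open LA in
theorem taskLA : TaskLA := by
  classical
  intro N n a b hab huniq C1 c1 hc1 hC1
  have hn0 : (0 : ℝ) ≤ n := Nat.cast_nonneg n
  obtain ⟨RY, hRY⟩ : ∃ RY : ℝ, RY = C1 + 1 := ⟨_, rfl⟩
  obtain ⟨t, ht⟩ : ∃ t : ℝ, t = c1 ^ 2 / 3 := ⟨_, rfl⟩
  have ht0 : 0 < t := by rw [ht]; positivity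
  have hRY1 : 1 < RY := by linarith
  have hRY0 : 0 < RY := by linarith
  obtain ⟨δ, hδ⟩ : ∃ δ : ℝ, δ = min 1 (min (c1 / 2) (t / 2)) := ⟨_, rfl⟩
  have hδ0 : 0 < δ := by
    rw [hδ]; exact lt_min one_pos (lt_min (by positivity) (by positivity))
  have hδ1 : δ ≤ 1 := by rw [hδ]; exact min_le_left _ _
  have hδ2 : δ ≤ c1 / 2 := by rw [hδ]; exact (min_le_right _ _).trans (min_le_left _ _)
  have hδ3 : δ ≤ t / 2 := by rw [hδ]; exact (min_le_right _ _).trans (min_le_right _ _)
  obtain ⟨K, hK⟩ : ∃ K : ℝ, K = 1 + n * RY + n * C1 * (1 + n * RY) + n * RY + 1 := ⟨_, rfl⟩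
  have hK1 : n * RY ≤ K := by
    rw [hK]
    have : 0 ≤ n * C1 * (1 + n * RY) := by positivity
    have : 0 ≤ n * RY := by positivity
    linarith
  have hK2 : 1 + n * RY ≤ K := by
    rw [hK]
    have : 0 ≤ n * C1 * (1 + n * RY) := by positivity
    have : 0 ≤ n * RY := by positivity
    linarith
  have hK3 : 1 + n * C1 * (1 + n * RY) + n * RY ≤ K := by
    rw [hK]
    have : 0 ≤ n * RY := by positivity
    linarith
  have hK0 : 0 < K := lt_of_lt_of_le (by positivity) hK2
  obtain ⟨ε, hε⟩ : ∃ ε : ℝ, ε = δ / K := ⟨_, rfl⟩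
  have hεK : ε * K = δ := by rw [hε]; field_simp
  have hε0 : 0 < ε := by rw [hε]; positivity
  obtain ⟨η, hη⟩ : ∃ η : ℝ, η = ε + n * (ε * RY) := ⟨_, rfl⟩
  have hη0 : 0 < η := by rw [hη]; positivity
  have f1 : n * (ε * RY) ≤ δ := by
    rw [← hεK]
    calc n * (ε * RY) = ε * (n * RY) := by ring
      _ ≤ ε * K := mul_le_mul_of_nonneg_left hK1 hε0.le
  have f3 : η ≤ δ := by
    rw [← hεK, hη]
    calc ε + n * (ε * RY) = ε * (1 + n * RY) := by ring
      _ ≤ ε * K := mul_le_mul_of_nonneg_left hK2 hε0.le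
  have f2 : ε + n * (C1 * η + ε * RY) ≤ δ := by
    rw [← hεK, hη]
    calc ε + n * (C1 * (ε + n * (ε * RY)) + ε * RY)
        = ε * (1 + n * C1 * (1 + n * RY) + n * RY) := by ring
      _ ≤ ε * K := mul_le_mul_of_nonneg_left hK3 hε0.le
  have hηR : η ≤ RY := by linarith
  obtain ⟨Q, hQ⟩ : ∃ Q : ℝ, Q = t + C1 + n * (C1 * RY) + C1 * (C1 + c1 / 2) / (t / 2) := ⟨_, rfl⟩
  have hQ0 : 0 < Q := by rw [hQ]; positivity
  have hQ1 : t + C1 + n * (C1 * RY) ≤ Q := by
    rw [hQ]
    have : 0 ≤ C1 * (C1 + c1 / 2) / (t / 2) := by positivity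
    linarith
  have hQ2 : C1 + C1 * (C1 + c1 / 2) / (t / 2) ≤ Q := by
    rw [hQ]
    have : 0 ≤ (n : ℝ) * (C1 * RY) := by positivity
    linarith
  refine ⟨ε, hε0, Q, hQ0, t, ht0, ?_⟩
  intro G hcont hG
  let Rb : Fin n → Fin N → ℝ := fun e i => if i = a e ∨ i = b e then RY else η
  have hRb0 : ∀ e i, 0 < Rb e i := by
    intro e i; simp only [Rb]; split_ifs <;> assumption
  have hRbR : ∀ e i, Rb e i ≤ RY := by
    intro e i; simp only [Rb]; split_ifs
    · exact le_rfl
    · exact hηR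
  let E := (Fin N ⊕ Fin n → ℝ) × (Fin n → Fin N → ℝ)
  let qc : E → (Fin N ⊕ Fin n → ℝ) := fun x v => max (-Q) (min Q (x.1 v))
  let Yc : E → Fin n → Fin N → ℝ := fun x e i => max (-(Rb e i)) (min (Rb e i) (x.2 e i))
  have hqc : ∀ x v, |qc x v| ≤ Q := fun x v => clamp_abs hQ0.le
  have hYc : ∀ x e i, |Yc x e i| ≤ Rb e i := fun x e i => clamp_abs (hRb0 e i).le
  have hYcR : ∀ x e i, |Yc x e i| ≤ RY := fun x e i => (hYc x e i).trans (hRbR e i)
  have hqcc : Continuous qc := by
    refine continuous_pi fun v => ?_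
    exact continuous_const.max (continuous_const.min ((continuous_apply v).comp continuous_fst))
  have hYcc : ∀ e i, Continuous fun x => Yc x e i := by
    intro e i
    exact continuous_const.max (continuous_const.min
      ((continuous_apply i).comp ((continuous_apply e).comp continuous_snd)))
  have hGc : ∀ u v, Continuous fun x => G (qc x) u v := fun u v =>
    (hcont u v).comp_continuous hqcc (fun x w => hqc x w)
  have hGs : ∀ x u v, G (qc x) u v = G (qc x) v u := fun x => (hG (qc x) (hqc x)).1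
  have hGb : ∀ x u v, |G (qc x) u v| ≤ C1 := fun x => (hG (qc x) (hqc x)).2.1
  have hGi : ∀ x i e, (i = a e ∨ i = b e) → c1 ≤ G (qc x) (Sum.inl i) (Sum.inr e) :=
    fun x => (hG (qc x) (hqc x)).2.2.1
  have hGn : ∀ x i e, i ≠ a e → i ≠ b e → |G (qc x) (Sum.inl i) (Sum.inr e)| ≤ ε :=
    fun x => (hG (qc x) (hqc x)).2.2.2.1
  have hGij : ∀ x i j, i ≠ j → |G (qc x) (Sum.inl i) (Sum.inl j)| ≤ ε :=
    fun x => (hG (qc x) (hqc x)).2.2.2.2.1
  have hGef : ∀ x e f, e ≠ f → |G (qc x) (Sum.inr e) (Sum.inr f)| ≤ ε :=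
    fun x => (hG (qc x) (hqc x)).2.2.2.2.2
  let SY : E → Fin n → Fin N → ℝ := fun x e i =>
    ∑ f ∈ Finset.univ.erase e, G (qc x) (Sum.inr e) (Sum.inr f) * Yc x f i
  let num : E → Fin n → Fin N → ℝ := fun x e i => G (qc x) (Sum.inr e) (Sum.inl i) + SY x e i
  let SD : E → Fin n → ℝ := fun x e =>
    ∑ f ∈ Finset.univ.erase e, G (qc x) (Sum.inl (a e)) (Sum.inr f) * Yc x f (b e)
  let den : E → Fin n → ℝ := fun x e => t - G (qc x) (Sum.inl (a e)) (Sum.inl (b e)) - SD x e
  let d : E → Fin n → ℝ := fun x e => qc x (Sum.inr e) - G (qc x) (Sum.inr e) (Sum.inr e)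
  have hSY : ∀ x e i, |SY x e i| ≤ n * (ε * RY) := by
    intro x e i
    refine sum_erase_abs_le e _ _ (by positivity) fun f hf => ?_
    rw [abs_mul]
    exact mul_le_mul (hGef x e f (Ne.symm hf)) (hYcR x f i) (abs_nonneg _) hε0.le
  have hSD : ∀ x e, |SD x e| ≤ n * (C1 * η + ε * RY) := by
    intro x e
    refine sum_erase_abs_le e _ _ (by positivity) fun f hf => ?_
    rw [abs_mul]
    by_cases h : b e = a f ∨ b e = b f
    · have h1 := edge_unique hab huniq hf h
      have h2 := mul_le_mul (hGn x (a e) f h1.1 h1.2) (hYcR x f (b e)) (abs_nonneg _) hε0.le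
      have h3 : 0 ≤ C1 * η := by positivity
      linarith
    · have h1 : Rb f (b e) = η := if_neg h
      have h2 := hYc x f (b e)
      rw [h1] at h2
      have h3 := mul_le_mul (hGb x (Sum.inl (a e)) (Sum.inr f)) h2 (abs_nonneg _) hC1.le
      have h4 : 0 ≤ ε * RY := by positivity
      linarith
  have hnum : ∀ x e i, |num x e i| ≤ Rb e i := by
    intro x e i
    have h1 := abs_add_le (G (qc x) (Sum.inr e) (Sum.inl i)) (SY x e i)
    have h2 := hSY x e i
    by_cases h : i = a e ∨ i = b e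
    · have h3 : Rb e i = RY := if_pos h
      have h4 := hGb x (Sum.inr e) (Sum.inl i)
      rw [h3]
      change |G (qc x) (Sum.inr e) (Sum.inl i) + SY x e i| ≤ RY
      linarith
    · have h3 : Rb e i = η := if_neg h
      push Not at h
      have h4 := hGn x i e h.1 h.2
      rw [hGs x (Sum.inl i) (Sum.inr e)] at h4
      rw [h3, hη]
      change |G (qc x) (Sum.inr e) (Sum.inl i) + SY x e i| ≤ _
      linarith
  have hnum2 : ∀ x e, c1 / 2 ≤ num x e (b e) ∧ num x e (b e) ≤ C1 + c1 / 2 := by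
    intro x e
    have h2 := abs_le.1 (hSY x e (b e))
    have h3 := hGi x (b e) e (Or.inr rfl)
    rw [hGs x (Sum.inl (b e)) (Sum.inr e)] at h3
    have h4 := (abs_le.1 (hGb x (Sum.inr e) (Sum.inl (b e)))).2
    constructor
    · change c1 / 2 ≤ G (qc x) (Sum.inr e) (Sum.inl (b e)) + SY x e (b e)
      linarith [h2.1]
    · change G (qc x) (Sum.inr e) (Sum.inl (b e)) + SY x e (b e) ≤ _
      linarith [h2.2]
  have hden : ∀ x e, t / 2 ≤ den x e ∧ den x e ≤ 3 * t / 2 := by
    intro x e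
    have h1 := abs_le.1 (hSD x e)
    have h2 := abs_le.1 (hGij x (a e) (b e) (hab e).ne)
    constructor
    · change t / 2 ≤ t - G (qc x) (Sum.inl (a e)) (Sum.inl (b e)) - SD x e
      linarith [h1.2, h2.2]
    · change t - G (qc x) (Sum.inl (a e)) (Sum.inl (b e)) - SD x e ≤ _
      linarith [h1.1, h2.1]
  let F1 : E → (Fin N ⊕ Fin n → ℝ) := fun x => Sum.elim
    (fun i => -t + G (qc x) (Sum.inl i) (Sum.inl i) +
      ∑ e, G (qc x) (Sum.inl i) (Sum.inr e) * Yc x e i)
    (fun e => G (qc x) (Sum.inr e) (Sum.inr e) +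
      G (qc x) (Sum.inl (a e)) (Sum.inr e) * num x e (b e) / max (den x e) (t / 2))
  let F2 : E → (Fin n → Fin N → ℝ) := fun x e i => num x e i / max (d x e) 1
  have hSYc : ∀ e i, Continuous fun x => SY x e i := fun e i =>
    continuous_finsetSum _ fun f _ => (hGc _ _).mul (hYcc _ _)
  have hnumc : ∀ e i, Continuous fun x => num x e i := fun e i => (hGc _ _).add (hSYc _ _)
  have hSDc : ∀ e, Continuous fun x => SD x e := fun e =>
    continuous_finsetSum _ fun f _ => (hGc _ _).mul (hYcc _ _)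
  have hdenc : ∀ e, Continuous fun x => den x e := fun e =>
    (continuous_const.sub (hGc _ _)).sub (hSDc e)
  have hdc : ∀ e, Continuous fun x => d x e := fun e =>
    ((continuous_apply (Sum.inr e)).comp hqcc).sub (hGc _ _)
  have hF1c : Continuous F1 := by
    refine continuous_pi fun v => ?_
    rcases v with i | e
    · exact (continuous_const.add (hGc _ _)).add
        (continuous_finsetSum _ fun f _ => (hGc _ _).mul (hYcc _ _))
    · refine (hGc _ _).add (((hGc _ _).mul (hnumc _ _)).div ((hdenc e).max continuous_const) ?_)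
      intro x
      exact (lt_of_lt_of_le (by positivity) (le_max_right _ _)).ne'
  have hF2c : Continuous F2 := by
    refine continuous_pi fun e => continuous_pi fun i => ?_
    refine (hnumc _ _).div ((hdc e).max continuous_const) ?_
    intro x
    exact (lt_of_lt_of_le one_pos (le_max_right _ _)).ne'
  have hF1b : ∀ x v, |F1 x v| ≤ Q := by
    intro x v
    rcases v with i | e
    · have h1 := hGb x (Sum.inl i) (Sum.inl i)
      have h2 : |∑ e, G (qc x) (Sum.inl i) (Sum.inr e) * Yc x e i| ≤ n * (C1 * RY) := by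
        refine sum_abs_le _ _ fun e => ?_
        rw [abs_mul]
        exact mul_le_mul (hGb _ _ _) (hYcR _ _ _) (abs_nonneg _) hC1.le
      refine le_trans ?_ hQ1
      change |-t + G (qc x) (Sum.inl i) (Sum.inl i) +
        ∑ e, G (qc x) (Sum.inl i) (Sum.inr e) * Yc x e i| ≤ _
      rw [abs_le] at h1 h2 ⊢
      constructor <;> linarith [h1.1, h1.2, h2.1, h2.2]
    · have h1 := hGb x (Sum.inr e) (Sum.inr e)
      have h2 : |G (qc x) (Sum.inl (a e)) (Sum.inr e) * num x e (b e) / max (den x e) (t / 2)| ≤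
          C1 * (C1 + c1 / 2) / (t / 2) := by
        rw [abs_div, abs_mul]
        have h3 : |num x e (b e)| ≤ C1 + c1 / 2 := by
          rw [abs_of_nonneg (by linarith [(hnum2 x e).1])]; exact (hnum2 x e).2
        refine div_le_div₀ (by positivity) (mul_le_mul (hGb _ _ _) h3 (abs_nonneg _) hC1.le)
          (by positivity) ?_
        exact (le_max_right _ _).trans (le_abs_self _)
      refine le_trans ?_ hQ2
      change |G (qc x) (Sum.inr e) (Sum.inr e) +
        G (qc x) (Sum.inl (a e)) (Sum.inr e) * num x e (b e) / max (den x e) (t / 2)| ≤ _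
      exact (abs_add_le _ _).trans (add_le_add h1 h2)
  have hF2b : ∀ x e i, |F2 x e i| ≤ Rb e i := by
    intro x e i
    change |num x e i / max (d x e) 1| ≤ _
    rw [abs_div]
    have h1 : (1 : ℝ) ≤ |max (d x e) 1| := (le_max_right _ _).trans (le_abs_self _)
    exact (div_le_self (abs_nonneg _) h1).trans (hnum x e i)
  obtain ⟨x, hx⟩ := Pool.Agent.Helper728.Coag.Brouwer.brouwer (E := E) (fun x => (F1 x, F2 x))
    (hF1c.prodMk hF2c) (max Q RY) (by
      intro x
      refine max_le ?_ ?_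
      · refine (pi_norm_le_iff_of_nonneg (le_max_of_le_left hQ0.le)).2 fun v => ?_
        exact (hF1b x v).trans (le_max_left _ _)
      · refine (pi_norm_le_iff_of_nonneg (le_max_of_le_left hQ0.le)).2 fun e => ?_
        refine (pi_norm_le_iff_of_nonneg (le_max_of_le_left hQ0.le)).2 fun i => ?_
        exact ((hF2b x e i).trans (hRbR e i)).trans (le_max_right _ _))
  have hx1 : ∀ v, F1 x v = x.1 v := fun v => congrFun (congrArg Prod.fst hx) v
  have hx2 : ∀ e i, F2 x e i = x.2 e i := fun e i => congrFun (congrFun (congrArg Prod.snd hx) e) i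
  have hq : ∀ v, |x.1 v| ≤ Q := fun v => by rw [← hx1 v]; exact hF1b x v
  have hqx : qc x = x.1 := funext fun v => clamp_eq (hq v)
  have hYx : ∀ e i, Yc x e i = x.2 e i := fun e i =>
    clamp_eq (by rw [← hx2 e i]; exact hF2b x e i)
  -- equations
  have hE1 : ∀ e, d x e = G (qc x) (Sum.inl (a e)) (Sum.inr e) * num x e (b e) / den x e := by
    intro e
    have h1 := hx1 (Sum.inr e)
    have h2 : G (qc x) (Sum.inr e) (Sum.inr e) +
      G (qc x) (Sum.inl (a e)) (Sum.inr e) * num x e (b e) / max (den x e) (t / 2) =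
        x.1 (Sum.inr e) := h1
    rw [max_eq_left (hden x e).1] at h2
    have h3 : d x e = x.1 (Sum.inr e) - G (qc x) (Sum.inr e) (Sum.inr e) := by
      change qc x (Sum.inr e) - G (qc x) (Sum.inr e) (Sum.inr e) = _
      rw [hqx]
    rw [h3, ← h2]; ring
  have hd1 : ∀ e, 1 ≤ d x e := by
    intro e
    rw [hE1 e, le_div_iff₀ (lt_of_lt_of_le (by positivity) (hden x e).1)]
    have h1 := hGi x (a e) e (Or.inl rfl)
    have h2 := (hnum2 x e).1
    have h3 := (hden x e).2
    have h4 : c1 * (c1 / 2) ≤ G (qc x) (Sum.inl (a e)) (Sum.inr e) * num x e (b e) :=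
      mul_le_mul h1 h2 (by positivity) (by linarith)
    rw [ht] at h3
    nlinarith
  have hE2 : ∀ e i, d x e * x.2 e i = num x e i := by
    intro e i
    have h1 : num x e i / max (d x e) 1 = x.2 e i := hx2 e i
    rw [max_eq_left (hd1 e)] at h1
    rw [← h1]
    have : d x e ≠ 0 := by linarith [hd1 e]
    field_simp
  have hE3 : ∀ e, G (qc x) (Sum.inl (a e)) (Sum.inr e) * x.2 e (b e) = den x e := by
    intro e
    have h1 := hE1 e
    rw [← hE2 e (b e)] at h1
    have h2 : d x e ≠ 0 := by linarith [hd1 e]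
    have h3 : den x e ≠ 0 := (lt_of_lt_of_le (by positivity) (hden x e).1).ne'
    rw [eq_div_iff h3] at h1
    have h4 : d x e * den x e = d x e * (G (qc x) (Sum.inl (a e)) (Sum.inr e) * x.2 e (b e)) := by
      rw [h1]; ring
    exact (mul_left_cancel₀ h2 h4).symm
  have hE4 : ∀ i, x.1 (Sum.inl i) = -t + G (qc x) (Sum.inl i) (Sum.inl i) +
      ∑ e, G (qc x) (Sum.inl i) (Sum.inr e) * x.2 e i := by
    intro i
    rw [← hx1 (Sum.inl i)]
    change -t + G (qc x) (Sum.inl i) (Sum.inl i) +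
      ∑ e, G (qc x) (Sum.inl i) (Sum.inr e) * Yc x e i = _
    simp only [hYx]
  rw [hqx] at hE3 hE4
  have hGs' : ∀ u v, G x.1 u v = G x.1 v u := by rw [← hqx]; exact hGs x
  have hA : ∀ e i, ∑ f, ((if e = f then x.1 (Sum.inr e) else 0) -
      G x.1 (Sum.inr e) (Sum.inr f)) * x.2 f i = G x.1 (Sum.inr e) (Sum.inl i) := by
    intro e i
    rw [← Finset.add_sum_erase _ _ (Finset.mem_univ e), if_pos rfl]
    have h1 : ∑ f ∈ Finset.univ.erase e, ((if e = f then x.1 (Sum.inr e) else 0) -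
        G x.1 (Sum.inr e) (Sum.inr f)) * x.2 f i = - SY x e i := by
      change _ = - ∑ f ∈ Finset.univ.erase e, G (qc x) (Sum.inr e) (Sum.inr f) * Yc x f i
      rw [← Finset.sum_neg_distrib]
      refine Finset.sum_congr rfl fun f hf => ?_
      rw [if_neg (Ne.symm (Finset.ne_of_mem_erase hf)), hYx, hqx]
      ring
    rw [h1]
    have h2 := hE2 e i
    have h3 : d x e = x.1 (Sum.inr e) - G x.1 (Sum.inr e) (Sum.inr e) := by
      change qc x (Sum.inr e) - G (qc x) (Sum.inr e) (Sum.inr e) = _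
      rw [hqx]
    have h4 : num x e i = G x.1 (Sum.inr e) (Sum.inl i) + SY x e i := by
      change G (qc x) (Sum.inr e) (Sum.inl i) + SY x e i = _
      rw [hqx]
    rw [h3, h4] at h2
    linarith
  -- the form `Σ_e Y_ei G_ej` is symmetric
  have hsym : ∀ i j, ∑ e, x.2 e i * G x.1 (Sum.inr e) (Sum.inl j) =
      ∑ e, x.2 e j * G x.1 (Sum.inr e) (Sum.inl i) := by
    intro i j
    simp only [← hA, Finset.mul_sum]
    rw [Finset.sum_comm]
    refine Finset.sum_congr rfl fun e _ => Finset.sum_congr rfl fun f _ => ?_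
    rw [hGs' (Sum.inr f) (Sum.inr e)]
    by_cases h : e = f
    · subst h; rw [if_pos rfl]; ring
    · rw [if_neg h, if_neg (Ne.symm h)]; ring
  have hlt : ∀ i j, i < j → ∑ e, x.2 e j * G x.1 (Sum.inr e) (Sum.inl i) =
      t - G x.1 (Sum.inl i) (Sum.inl j) := by
    intro i j hij
    obtain ⟨e, ⟨he1, he2⟩, _⟩ := huniq i j hij
    have h1 := hE3 e
    rw [← Finset.add_sum_erase _ _ (Finset.mem_univ e)]
    have h2 : ∑ f ∈ Finset.univ.erase e, x.2 f j * G x.1 (Sum.inr f) (Sum.inl i) = SD x e := by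
      change _ = ∑ f ∈ Finset.univ.erase e, G (qc x) (Sum.inl (a e)) (Sum.inr f) * Yc x f (b e)
      refine Finset.sum_congr rfl fun f _ => ?_
      rw [hYx, hqx, he1, he2, hGs' (Sum.inr f) (Sum.inl i)]
      ring
    have h3 : den x e = t - G x.1 (Sum.inl (a e)) (Sum.inl (b e)) - SD x e := by
      change t - G (qc x) (Sum.inl (a e)) (Sum.inl (b e)) - SD x e = _
      rw [hqx]
    rw [h2]
    rw [h3, he1, he2] at h1
    rw [hGs' (Sum.inr e) (Sum.inl i)]
    linarith
  have hB : ∀ i j, ∑ e, x.2 e i * G x.1 (Sum.inr e) (Sum.inl j) =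
      (if i = j then x.1 (Sum.inl i) else 0) - G x.1 (Sum.inl i) (Sum.inl j) + t := by
    intro i j
    rcases lt_trichotomy i j with h | h | h
    · rw [hsym i j, hlt i j h, if_neg h.ne]; ring
    · subst h
      rw [if_pos rfl, hE4 i]
      have : ∑ e, x.2 e i * G x.1 (Sum.inr e) (Sum.inl i) =
          ∑ e, G x.1 (Sum.inl i) (Sum.inr e) * x.2 e i :=
        Finset.sum_congr rfl fun e _ => by rw [hGs' (Sum.inl i) (Sum.inr e)]; ring
      rw [this]; ring
    · rw [hlt j i h, if_neg h.ne', hGs' (Sum.inl j) (Sum.inl i)]; ring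
  refine ⟨x.1, hq, x.2, fun e f => (if e = f then x.1 (Sum.inr e) else 0) -
    G x.1 (Sum.inr e) (Sum.inr f), ?_, ?_⟩
  · intro y
    refine psd _ ε hε0.le ?_ ?_ ?_ y
    · have h1 : (n : ℝ) * ε ≤ n * (ε * RY) := by
        refine mul_le_mul_of_nonneg_left ?_ hn0
        nlinarith
      linarith
    · intro e
      have h3 : d x e = x.1 (Sum.inr e) - G x.1 (Sum.inr e) (Sum.inr e) := by
        change qc x (Sum.inr e) - G (qc x) (Sum.inr e) (Sum.inr e) = _
        rw [hqx]
      have h4 := hd1 e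
      rw [h3] at h4
      simpa using h4
    · intro e f hef
      simp only [if_neg hef, zero_sub, abs_neg]
      rw [← hqx]
      exact hGef x e f hef
  · intro c
    exact block x.1 (G x.1) t x.2 hGs' hA hB c

end Pool.Agent.H456R3.Mult
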