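import Pool.Agent.H456R3.Mult.Stmts

/-!
Task POINC of project H456-MULT (by helper857).
-/

open MeasureTheory Set
open scoped ContDiff

set_option autoImplicit false

noncomputable section

namespace Pool.Agent.H456R3.Mult

namespace PoincAux

theorem cs_interval {g : ℝ → ℝ} (hg : Continuous g) {a b : ℝ} (hab : a ≤ b) :
    (∫ t in a..b, g t) ^ 2 ≤ (b - a) * ∫ t in a..b, g t ^ 2 := by
  rcases hab.eq_or_lt with rfl | h
  · simp
  · have h0 : 0 < b - a := sub_pos.2 h
    obtain ⟨I, hI⟩ : ∃ I, I = ∫ t in a..b, g t := ⟨_, rfl⟩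
    obtain ⟨Q, hQ⟩ : ∃ Q, Q = ∫ t in a..b, g t ^ 2 := ⟨_, rfl⟩
    obtain ⟨l, hl⟩ : ∃ l, l = I / (b - a) := ⟨_, rfl⟩
    have h1 : 0 ≤ ∫ t in a..b, (g t - l) ^ 2 :=
      intervalIntegral.integral_nonneg hab (fun t _ => sq_nonneg _)
    have h2 : ∫ t in a..b, (g t - l) ^ 2 = Q - 2 * l * I + l ^ 2 * (b - a) := by
      have h3 : ∀ t, (g t - l) ^ 2 = g t ^ 2 - 2 * l * g t + l ^ 2 := fun t => by ring
      simp_rw [h3]
      rw [intervalIntegral.integral_add, intervalIntegral.integral_sub,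
        intervalIntegral.integral_const_mul, intervalIntegral.integral_const, smul_eq_mul,
        ← hI, ← hQ]
      · ring
      · exact (by fun_prop : Continuous fun t => g t ^ 2).intervalIntegrable _ _
      · exact (by fun_prop : Continuous fun t => 2 * l * g t).intervalIntegrable _ _
      · exact (by fun_prop : Continuous fun t => g t ^ 2 - 2 * l * g t).intervalIntegrable _ _
      · exact (continuous_const).intervalIntegrable _ _
    rw [h2] at h1
    rw [← hI, ← hQ]
    have h4 : l * (b - a) = I := by rw [hl]; field_simp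
    have h5 : Q - 2 * l * I + l ^ 2 * (b - a) = Q - l * I := by
      have : l ^ 2 * (b - a) = l * I := by rw [← h4]; ring
      rw [this]; ring
    rw [h5] at h1
    have h6 : 0 ≤ (b - a) * (Q - l * I) := mul_nonneg h0.le h1
    have h7 : (b - a) * (Q - l * I) = (b - a) * Q - I ^ 2 := by
      have : (b - a) * (l * I) = I ^ 2 := by rw [← h4]; ring
      linear_combination -this
    linarith

theorem cs_Ioo {g : ℝ → ℝ} (hg : Continuous g) {a b : ℝ} (hab : a ≤ b) {u v : ℝ}
    (hu : u ≤ a) (hv : b ≤ v) :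
    (∫ t in a..b, g t) ^ 2 ≤ (b - a) * ∫ t in Ioo u v, g t ^ 2 := by
  refine (cs_interval hg hab).trans ?_
  refine mul_le_mul_of_nonneg_left ?_ (sub_nonneg.2 hab)
  rw [intervalIntegral.integral_of_le hab, ← integral_Ioc_eq_integral_Ioo]
  refine setIntegral_mono_set ?_ ?_ ?_
  · exact ((by fun_prop : Continuous fun t => g t ^ 2).integrableOn_Icc
      (a := u) (b := v)).mono_set Ioc_subset_Icc_self
  · exact Filter.Eventually.of_forall fun t => sq_nonneg _
  · exact (Ioc_subset_Ioc hu hv).eventuallyLE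

/-- the derivative along the first direction -/
theorem hd_x {f : P → ℝ} (hf : ContDiff ℝ ∞ f) (x y z t : ℝ) :
    HasDerivAt (fun t => f (x + t, y, z)) (dx f (x + t, y, z)) t := by
  have h1 : HasFDerivAt f (fderiv ℝ f (x + t, y, z)) (x + t, y, z) :=
    ((hf.differentiable (by simp)) _).hasFDerivAt
  have h2 : HasDerivAt (fun t : ℝ => ((x + t, y, z) : P)) (1, 0, 0) t := by
    refine HasDerivAt.prodMk ?_ (HasDerivAt.prodMk (hasDerivAt_const _ _) (hasDerivAt_const _ _))
    simpa using (hasDerivAt_id t).const_add x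
  exact h1.comp_hasDerivAt t h2

theorem hd_z {f : P → ℝ} (hf : ContDiff ℝ ∞ f) (x y z : ℝ) :
    HasDerivAt (fun z => f (x, y, z)) (dz f (x, y, z)) z := by
  have h1 : HasFDerivAt f (fderiv ℝ f (x, y, z)) (x, y, z) :=
    ((hf.differentiable (by simp)) _).hasFDerivAt
  have h2 : HasDerivAt (fun z : ℝ => ((x, y, z) : P)) (0, 0, 1) z := by
    refine HasDerivAt.prodMk (hasDerivAt_const _ _) (HasDerivAt.prodMk (hasDerivAt_const _ _) ?_)
    exact hasDerivAt_id z
  exact h1.comp_hasDerivAt z h2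

theorem cont_fd {f : P → ℝ} (hf : ContDiff ℝ ∞ f) (v : P) :
    Continuous fun p => fderiv ℝ f p v :=
  (hf.continuous_fderiv (by simp)).clm_apply continuous_const

theorem cont_dx {f : P → ℝ} (hf : ContDiff ℝ ∞ f) : Continuous (dx f) := cont_fd hf _
theorem cont_dy {f : P → ℝ} (hf : ContDiff ℝ ∞ f) : Continuous (dy f) := cont_fd hf _
theorem cont_dz {f : P → ℝ} (hf : ContDiff ℝ ∞ f) : Continuous (dz f) := cont_fd hf _

theorem meas_cube (c : P) (r : ℝ) : MeasurableSet (cube c r) :=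
  measurableSet_Ioo.prod (measurableSet_Ioo.prod measurableSet_Ioo)

theorem cube_subset_Icc (c : P) (r : ℝ) :
    cube c r ⊆ Icc ((c.1 - r, c.2.1 - r, c.2.2 - r) : P) (c.1 + r, c.2.1 + r, c.2.2 + r) := by
  rintro p ⟨h1, h2, h3⟩
  exact ⟨⟨h1.1.le, h2.1.le, h3.1.le⟩, ⟨h1.2.le, h2.2.le, h3.2.le⟩⟩

theorem int_cube {g : P → ℝ} (hg : Continuous g) (c : P) (r : ℝ) :
    IntegrableOn g (cube c r) :=
  (hg.continuousOn.integrableOn_compact isCompact_Icc).mono_set (cube_subset_Icc c r)

/-- Fubini on the cube -/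
theorem fub {g : P → ℝ} (hg : Continuous g) (c : P) (r : ℝ) :
    ∫ p in cube c r, g p = ∫ x in Ioo (c.1 - r) (c.1 + r), ∫ y in Ioo (c.2.1 - r) (c.2.1 + r),
      ∫ z in Ioo (c.2.2 - r) (c.2.2 + r), g (x, y, z) := by
  have h1 : ∫ p in cube c r, g p = ∫ x in Ioo (c.1 - r) (c.1 + r),
      ∫ q in Ioo (c.2.1 - r) (c.2.1 + r) ×ˢ Ioo (c.2.2 - r) (c.2.2 + r), g (x, q) := by
    have := int_cube hg c r
    unfold cube at this ⊢
    exact setIntegral_prod g this
  rw [h1]
  refine setIntegral_congr_fun measurableSet_Ioo fun x _ => ?_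
  have hx : Continuous fun q : ℝ × ℝ => g (x, q) := by fun_prop
  have h2 : IntegrableOn (fun q : ℝ × ℝ => g (x, q))
      (Ioo (c.2.1 - r) (c.2.1 + r) ×ˢ Ioo (c.2.2 - r) (c.2.2 + r)) := by
    refine (hx.continuousOn.integrableOn_compact (isCompact_Icc
      (a := ((c.2.1 - r, c.2.2 - r) : ℝ × ℝ)) (b := (c.2.1 + r, c.2.2 + r)))).mono_set ?_
    rintro p ⟨h2, h3⟩
    exact ⟨⟨h2.1.le, h3.1.le⟩, ⟨h2.2.le, h3.2.le⟩⟩
  exact setIntegral_prod (fun q : ℝ × ℝ => g (x, q)) h2

theorem mp_shift (t : ℝ) :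
    MeasurePreserving (fun p : P => p + ((t, 0, 0) : P)) volume volume := by
  have h := (measurePreserving_add_right (volume : Measure ℝ) t).prod
    (MeasurePreserving.id (volume : Measure (ℝ × ℝ)))
  have e : (fun p : P => p + ((t, 0, 0) : P)) = Prod.map (fun x => x + t) id := by
    funext p
    ext <;> simp
  rw [e]
  exact h

/-- translation in the first direction -/
theorem shift_le {h : P → ℝ} (hh : Continuous h) (h0 : ∀ p, 0 ≤ h p) (c : P) {r t : ℝ}
    (hr : 0 < r) (ht0 : 0 ≤ t) (ht : t ≤ 2 * r) :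
    ∫ p in cube c r, h (p.1 + t, p.2.1, p.2.2) ≤ ∫ p in cube c (3 * r), h p := by
  have e1 : ∫ p in cube c r, h (p.1 + t, p.2.1, p.2.2) =
      ∫ p, (fun q : P => (cube c r).indicator (fun _ => h q) (q - ((t, 0, 0) : P)))
        (p + ((t, 0, 0) : P)) := by
    rw [← integral_indicator (meas_cube c r)]
    refine integral_congr_ae (Filter.Eventually.of_forall fun p => ?_)
    simp only [add_sub_cancel_right]
    by_cases hp : p ∈ cube c r
    · rw [indicator_of_mem hp, indicator_of_mem hp]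
      congr 1
      ext <;> simp
    · rw [indicator_of_notMem hp, indicator_of_notMem hp]
  rw [e1, (mp_shift t).integral_comp (Homeomorph.addRight ((t, 0, 0) : P)).measurableEmbedding
    (fun q : P => (cube c r).indicator (fun _ => h q) (q - ((t, 0, 0) : P)))]
  rw [← integral_indicator (meas_cube c (3 * r))]
  refine integral_mono_of_nonneg ?_ ?_ ?_
  · refine Filter.Eventually.of_forall fun q => ?_
    exact indicator_nonneg (fun _ _ => h0 q) _
  · exact (integrable_indicator_iff (meas_cube c (3 * r))).2 (int_cube hh c (3 * r))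
  · refine Filter.Eventually.of_forall fun q => ?_
    simp only
    by_cases hq : q - ((t, 0, 0) : P) ∈ cube c r
    · rw [indicator_of_mem hq]
      have hq' : q ∈ cube c (3 * r) := by
        obtain ⟨h1, h2, h3⟩ := hq
        simp only [Prod.fst_sub, Prod.snd_sub, sub_zero, mem_Ioo] at h1 h2 h3
        refine ⟨?_, ?_, ?_⟩
        · exact ⟨by linarith [h1.1], by linarith [h1.2]⟩
        · exact ⟨by linarith [h2.1], by linarith [h2.2]⟩
        · exact ⟨by linarith [h3.1], by linarith [h3.2]⟩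
      rw [indicator_of_mem hq']
    · rw [indicator_of_notMem hq]
      exact indicator_nonneg (fun _ _ => h0 _) _

end PoincAux

open PoincAux

theorem taskPOINC : TaskPOINC := by
  rintro f ⟨hf, -, -⟩ c r hr h0
  have hcx := cont_dx hf
  have hcz := cont_dz hf
  have hcf := hf.continuous
  -- the pointwise bound
  have key : ∀ p ∈ cube c r, f p ^ 2 ≤
      4 * r * (∫ t in Ioo (0 : ℝ) (2 * r), dx f (p.1 + t, p.2.1, p.2.2) ^ 2) +
      2 * r * (∫ ζ in Ioo (c.2.2 - r) (c.2.2 + r), dz f (p.1 + 2 * r, p.2.1, ζ) ^ 2) := by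
    rintro ⟨x, y, z⟩ ⟨hx, hy, hz⟩
    simp only [mem_Ioo] at hx hy hz
    simp only
    have hgx : Continuous fun t => dx f (x + t, y, z) := by fun_prop
    have hgz : Continuous fun ζ => dz f (x + 2 * r, y, ζ) := by fun_prop
    have e1 : ∫ t in (0 : ℝ)..(2 * r), dx f (x + t, y, z) = f (x + 2 * r, y, z) - f (x, y, z) := by
      rw [intervalIntegral.integral_eq_sub_of_hasDerivAt (fun t _ => hd_x hf x y z t)
        (hgx.intervalIntegrable _ _)]
      simp
    have e0 : f (x + 2 * r, y, c.2.2) = 0 := by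
      apply h0
      · rw [le_abs]; left; linarith [hx.1]
      · rw [abs_le]; constructor <;> linarith [hx.1, hx.2]
      · rw [abs_le]; constructor <;> linarith [hy.1, hy.2]
    have e2 : ∫ ζ in c.2.2..z, dz f (x + 2 * r, y, ζ) = f (x + 2 * r, y, z) := by
      rw [intervalIntegral.integral_eq_sub_of_hasDerivAt (fun t _ => hd_z hf (x + 2 * r) y t)
        (hgz.intervalIntegrable _ _), e0, sub_zero]
    have b1 : (f (x + 2 * r, y, z) - f (x, y, z)) ^ 2 ≤
        2 * r * ∫ t in Ioo (0 : ℝ) (2 * r), dx f (x + t, y, z) ^ 2 := by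
      rw [← e1]
      have := cs_Ioo hgx (a := 0) (b := 2 * r) (by linarith) (u := 0) (v := 2 * r) le_rfl le_rfl
      simpa using this
    have hI0 : 0 ≤ ∫ ζ in Ioo (c.2.2 - r) (c.2.2 + r), dz f (x + 2 * r, y, ζ) ^ 2 :=
      setIntegral_nonneg measurableSet_Ioo fun _ _ => sq_nonneg _
    have b2 : (f (x + 2 * r, y, z)) ^ 2 ≤
        r * ∫ ζ in Ioo (c.2.2 - r) (c.2.2 + r), dz f (x + 2 * r, y, ζ) ^ 2 := by
      rw [← e2]
      rcases le_total c.2.2 z with hz' | hz'
      · refine (cs_Ioo hgz hz' (u := c.2.2 - r) (v := c.2.2 + r) (by linarith)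
          (by linarith [hz.2])).trans ?_
        exact mul_le_mul_of_nonneg_right (by linarith [hz.2]) hI0
      · rw [intervalIntegral.integral_symm, neg_sq]
        refine (cs_Ioo hgz hz' (u := c.2.2 - r) (v := c.2.2 + r) (by linarith [hz.1])
          (by linarith)).trans ?_
        exact mul_le_mul_of_nonneg_right (by linarith [hz.1]) hI0
    have b3 : f (x, y, z) ^ 2 ≤ 2 * (f (x + 2 * r, y, z) - f (x, y, z)) ^ 2 +
        2 * (f (x + 2 * r, y, z)) ^ 2 := by
      nlinarith [sq_nonneg (2 * f (x + 2 * r, y, z) - f (x, y, z))]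
    linarith
  -- integration
  have hFx : Continuous fun q : P × ℝ => dx f (q.1.1 + q.2, q.1.2.1, q.1.2.2) ^ 2 := by fun_prop
  have hFz : Continuous fun q : P => dz f (q.1 + 2 * r, q.2.1, q.2.2) ^ 2 := by fun_prop
  have hG : Continuous fun p : P => ∫ ζ in Ioo (c.2.2 - r) (c.2.2 + r),
      dz f (p.1 + 2 * r, p.2.1, ζ) ^ 2 := by
    have h1 : Continuous (Function.uncurry fun (p : P) (ζ : ℝ) =>
        dz f (p.1 + 2 * r, p.2.1, ζ) ^ 2) := by
      unfold Function.uncurry
      fun_prop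
    have h2 := continuous_parametric_integral_of_continuous (μ := (volume : Measure ℝ)) h1
      (isCompact_Icc (a := c.2.2 - r) (b := c.2.2 + r))
    refine h2.congr fun p => ?_
    rw [integral_Icc_eq_integral_Ioo]
  have hH : Continuous fun p : P => ∫ t in Ioo (0 : ℝ) (2 * r),
      dx f (p.1 + t, p.2.1, p.2.2) ^ 2 := by
    have h1 : Continuous (Function.uncurry fun (p : P) (t : ℝ) =>
        dx f (p.1 + t, p.2.1, p.2.2) ^ 2) := by
      unfold Function.uncurry
      fun_prop
    have h2 := continuous_parametric_integral_of_continuous (μ := (volume : Measure ℝ)) h1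
      (isCompact_Icc (a := (0 : ℝ)) (b := 2 * r))
    refine h2.congr fun p => ?_
    rw [integral_Icc_eq_integral_Ioo]
  have s1 : ∫ p in cube c r, f p ^ 2 ≤
      4 * r * (∫ p in cube c r, ∫ t in Ioo (0 : ℝ) (2 * r), dx f (p.1 + t, p.2.1, p.2.2) ^ 2) +
      2 * r * (∫ p in cube c r, ∫ ζ in Ioo (c.2.2 - r) (c.2.2 + r),
        dz f (p.1 + 2 * r, p.2.1, ζ) ^ 2) := by
    rw [← integral_const_mul, ← integral_const_mul, ← integral_add
      (int_cube (hH.const_mul _) c r) (int_cube (hG.const_mul _) c r)]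
    exact setIntegral_mono_on (int_cube (hcf.pow 2) c r)
      ((int_cube (hH.const_mul _) c r).add (int_cube (hG.const_mul _) c r)) (meas_cube c r) key
  have s2 : (∫ p in cube c r, ∫ t in Ioo (0 : ℝ) (2 * r), dx f (p.1 + t, p.2.1, p.2.2) ^ 2) ≤
      2 * r * ∫ p in cube c (3 * r), dx f p ^ 2 := by
    rw [integral_integral_swap]
    · have hb : ∀ t ∈ Ioo (0 : ℝ) (2 * r), ∫ p in cube c r, dx f (p.1 + t, p.2.1, p.2.2) ^ 2 ≤
          ∫ p in cube c (3 * r), dx f p ^ 2 := fun t ht =>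
        shift_le (h := fun p => dx f p ^ 2) (hcx.pow 2) (fun _ => sq_nonneg _) c hr ht.1.le ht.2.le
      calc ∫ t in Ioo (0 : ℝ) (2 * r), ∫ p in cube c r, dx f (p.1 + t, p.2.1, p.2.2) ^ 2
          ≤ ∫ _ in Ioo (0 : ℝ) (2 * r), ∫ p in cube c (3 * r), dx f p ^ 2 := by
            refine integral_mono_of_nonneg ?_ ?_ ?_
            · exact Filter.Eventually.of_forall fun t =>
                integral_nonneg fun _ => sq_nonneg _
            · exact integrable_const _
            · exact (ae_restrict_mem measurableSet_Ioo).mono hb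
        _ = 2 * r * ∫ p in cube c (3 * r), dx f p ^ 2 := by
            rw [setIntegral_const]
            simp [Measure.real, Real.volume_Ioo, hr.le]
    · have hc : IntegrableOn (fun q : P × ℝ => dx f (q.1.1 + q.2, q.1.2.1, q.1.2.2) ^ 2)
          (cube c r ×ˢ Ioo (0 : ℝ) (2 * r)) := by
        refine (hFx.continuousOn.integrableOn_compact
          ((isCompact_Icc (a := ((c.1 - r, c.2.1 - r, c.2.2 - r) : P))
            (b := (c.1 + r, c.2.1 + r, c.2.2 + r))).prod
            (isCompact_Icc (a := (0 : ℝ)) (b := 2 * r)))).mono_set ?_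
        exact prod_mono (cube_subset_Icc c r) Ioo_subset_Icc_self
      rw [IntegrableOn, Measure.volume_eq_prod, ← Measure.prod_restrict] at hc
      exact hc
  have s3 : (∫ p in cube c r, ∫ ζ in Ioo (c.2.2 - r) (c.2.2 + r),
        dz f (p.1 + 2 * r, p.2.1, ζ) ^ 2) ≤ 2 * r * ∫ p in cube c (3 * r), dz f p ^ 2 := by
    rw [fub hG]
    have e1 : ∀ x y : ℝ, (∫ _ in Ioo (c.2.2 - r) (c.2.2 + r),
        ∫ ζ in Ioo (c.2.2 - r) (c.2.2 + r), dz f (x + 2 * r, y, ζ) ^ 2) =
        2 * r * ∫ ζ in Ioo (c.2.2 - r) (c.2.2 + r), dz f (x + 2 * r, y, ζ) ^ 2 := by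
      intro x y
      rw [setIntegral_const]
      have : (c.2.2 + r - (c.2.2 - r)) = 2 * r := by ring
      simp [Measure.real, Real.volume_Ioo, this, hr.le]
    simp only [e1, integral_const_mul]
    refine mul_le_mul_of_nonneg_left ?_ (by linarith)
    rw [← fub (g := fun q : P => dz f (q.1 + 2 * r, q.2.1, q.2.2) ^ 2) hFz]
    exact shift_le (h := fun p => dz f p ^ 2) (hcz.pow 2) (fun _ => sq_nonneg _) c hr
      (by linarith) le_rfl
  have s4 : 12 * r ^ 2 * ∫ p in cube c (3 * r), gb f f p =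
      12 * r ^ 2 * (∫ p in cube c (3 * r), dx f p ^ 2) +
      12 * r ^ 2 * (∫ p in cube c (3 * r), dy f p ^ 2) +
      12 * r ^ 2 * (∫ p in cube c (3 * r), dz f p ^ 2) := by
    have hcy := cont_dy hf
    have e : ∀ p, gb f f p = dx f p ^ 2 + dy f p ^ 2 + dz f p ^ 2 := fun p => by
      unfold gb; ring
    simp only [e]
    rw [integral_add, integral_add]
    · ring
    · exact int_cube (hcx.pow 2) c _
    · exact int_cube (hcy.pow 2) c _
    · exact int_cube ((hcx.pow 2).add (hcy.pow 2)) c _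
    · exact int_cube (hcz.pow 2) c _
  have nx : 0 ≤ ∫ p in cube c (3 * r), dx f p ^ 2 := integral_nonneg fun _ => sq_nonneg _
  have ny : 0 ≤ ∫ p in cube c (3 * r), dy f p ^ 2 := integral_nonneg fun _ => sq_nonneg _
  have nz : 0 ≤ ∫ p in cube c (3 * r), dz f p ^ 2 := integral_nonneg fun _ => sq_nonneg _
  rw [s4]
  have m1 := mul_le_mul_of_nonneg_left s2 (by positivity : (0 : ℝ) ≤ 4 * r)
  have m2 := mul_le_mul_of_nonneg_left s3 (by positivity : (0 : ℝ) ≤ 2 * r)
  have hr2 : 0 ≤ r ^ 2 := sq_nonneg r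
  nlinarith [mul_nonneg hr2 nx, mul_nonneg hr2 ny, mul_nonneg hr2 nz]

end Pool.Agent.H456R3.Mult
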