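import Pool.Agent.H456R3.Mult.Stmts

open MeasureTheory Set
open scoped ContDiff

set_option autoImplicit false

noncomputable section

namespace Pool.Agent.H456R3.Mult

namespace TRACE

lemma cont_dx {f : P → ℝ} (hf : ContDiff ℝ ∞ f) : Continuous (dx f) :=
  (hf.continuous_fderiv (by simp)).clm_apply continuous_const

lemma cont_dz {f : P → ℝ} (hf : ContDiff ℝ ∞ f) : Continuous (dz f) :=
  (hf.continuous_fderiv (by simp)).clm_apply continuous_const

lemma cont_dy {f : P → ℝ} (hf : ContDiff ℝ ∞ f) : Continuous (dy f) :=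
  (hf.continuous_fderiv (by simp)).clm_apply continuous_const

/-- fundamental theorem along `z` -/
lemma abs_sub_z {f : P → ℝ} (hf : ContDiff ℝ ∞ f) (x y a b : ℝ) (hab : a ≤ b) :
    |f (x, y, b) - f (x, y, a)| ≤ ∫ z in a..b, |dz f (x, y, z)| := by
  have hd : ∀ z, HasDerivAt (fun t => f (x, y, t)) (dz f (x, y, z)) z := by
    intro z
    have h1 : HasFDerivAt f (fderiv ℝ f (x, y, z)) (x, y, z) :=
      ((hf.differentiable (by simp)) (x, y, z)).hasFDerivAt
    have h2 : HasDerivAt (fun t : ℝ => ((x, y, t) : P)) ((0, 0, 1) : P) z :=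
      (hasDerivAt_const z x).prodMk ((hasDerivAt_const z y).prodMk (hasDerivAt_id z))
    exact h1.comp_hasDerivAt z h2
  have hc : Continuous (fun z => dz f (x, y, z)) := (cont_dz hf).comp (by fun_prop)
  rw [← intervalIntegral.integral_eq_sub_of_hasDerivAt (fun z _ => hd z)
    (hc.intervalIntegrable _ _)]
  exact intervalIntegral.abs_integral_le_integral_abs hab

/-- fundamental theorem along `x` -/
lemma abs_sub_x {f : P → ℝ} (hf : ContDiff ℝ ∞ f) (y z a b : ℝ) (hab : a ≤ b) :
    |f (b, y, z) - f (a, y, z)| ≤ ∫ x in a..b, |dx f (x, y, z)| := by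
  have hd : ∀ x, HasDerivAt (fun t => f (t, y, z)) (dx f (x, y, z)) x := by
    intro x
    have h1 : HasFDerivAt f (fderiv ℝ f (x, y, z)) (x, y, z) :=
      ((hf.differentiable (by simp)) (x, y, z)).hasFDerivAt
    have h2 : HasDerivAt (fun t : ℝ => ((t, y, z) : P)) ((1, 0, 0) : P) x :=
      (hasDerivAt_id x).prodMk ((hasDerivAt_const x y).prodMk (hasDerivAt_const x z))
    exact h1.comp_hasDerivAt x h2
  have hc : Continuous (fun x => dx f (x, y, z)) := (cont_dx hf).comp (by fun_prop)
  rw [← intervalIntegral.integral_eq_sub_of_hasDerivAt (fun z _ => hd z)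
    (hc.intervalIntegrable _ _)]
  exact intervalIntegral.abs_integral_le_integral_abs hab

lemma intOn_box {F : P → ℝ} (hF : Continuous F) (a1 b1 a2 b2 a3 b3 : ℝ) :
    IntegrableOn F (Ioo a1 b1 ×ˢ Ioo a2 b2 ×ˢ Ioo a3 b3) :=
  (hF.continuousOn.integrableOn_compact
    (isCompact_Icc.prod (isCompact_Icc.prod isCompact_Icc))).mono_set
      (prod_mono Ioo_subset_Icc_self (prod_mono Ioo_subset_Icc_self Ioo_subset_Icc_self))

lemma box_int2 {F : ℝ × ℝ → ℝ} (hF : Continuous F) {a1 b1 a2 b2 : ℝ}
    (h1 : a1 ≤ b1) (h2 : a2 ≤ b2) :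
    ∫ p in Ioo a1 b1 ×ˢ Ioo a2 b2, F p =
      ∫ x in a1..b1, ∫ y in a2..b2, F (x, y) := by
  have hI : IntegrableOn F (Ioo a1 b1 ×ˢ Ioo a2 b2) :=
    (hF.continuousOn.integrableOn_compact (isCompact_Icc.prod isCompact_Icc)).mono_set
      (prod_mono Ioo_subset_Icc_self Ioo_subset_Icc_self)
  rw [Measure.volume_eq_prod, setIntegral_prod _ hI]
  simp_rw [intervalIntegral.integral_of_le h1, intervalIntegral.integral_of_le h2,
    integral_Ioc_eq_integral_Ioo]

lemma box_int {F : P → ℝ} (hF : Continuous F) {a1 b1 a2 b2 a3 b3 : ℝ}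
    (h1 : a1 ≤ b1) (h2 : a2 ≤ b2) (h3 : a3 ≤ b3) :
    ∫ p in Ioo a1 b1 ×ˢ Ioo a2 b2 ×ˢ Ioo a3 b3, F p =
      ∫ x in a1..b1, ∫ y in a2..b2, ∫ z in a3..b3, F (x, y, z) := by
  have hI := intOn_box hF a1 b1 a2 b2 a3 b3
  rw [Measure.volume_eq_prod, setIntegral_prod _ hI]
  simp_rw [intervalIntegral.integral_of_le h1, integral_Ioc_eq_integral_Ioo]
  congr 1
  ext x
  exact box_int2 (F := fun q => F (x, q.1, q.2)) (by fun_prop) h2 h3

/-- Cauchy-Schwarz in the form we need -/
lemma cs_box {f : P → ℝ} (hf : ContDiff ℝ ∞ f) (c : P) (w : ℝ) (hw : 0 < w) :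
    ∫ p in Ioo (c.1 - w) (c.1 + 3 * w) ×ˢ Ioo (c.2.1 - w) (c.2.1 + w) ×ˢ Ioo (c.2.2 - w) c.2.2,
      (|dz f p| + 2 * |dx f p|) ≤ 8 * (w * √w) * √(∫ p in cube c (3 * w), gb f f p) := by
  set B : Set P := Ioo (c.1 - w) (c.1 + 3 * w) ×ˢ Ioo (c.2.1 - w) (c.2.1 + w) ×ˢ
    Ioo (c.2.2 - w) c.2.2 with hB
  set D := ∫ p in cube c (3 * w), gb f f p with hD
  have hgb0 : ∀ p, 0 ≤ gb f f p := by
    intro p; unfold gb
    nlinarith [mul_self_nonneg (dx f p), mul_self_nonneg (dy f p), mul_self_nonneg (dz f p)]
  have hcgb : Continuous (gb f f) := by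
    have h1 := cont_dx hf
    have h2 := cont_dy hf
    have h3 := cont_dz hf
    unfold gb; fun_prop
  have hcF : Continuous (fun p => |dz f p| + 2 * |dx f p|) := by
    have h1 := cont_dx hf
    have h3 := cont_dz hf
    fun_prop
  have hsub : B ⊆ cube c (3 * w) := by
    refine prod_mono (Ioo_subset_Ioo (by linarith) (by linarith))
      (prod_mono (Ioo_subset_Ioo (by linarith) (by linarith))
        (Ioo_subset_Ioo (by linarith) (by linarith)))
  have hD1 : ∫ p in B, gb f f p ≤ D := by
    apply setIntegral_mono_set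
    · exact intOn_box hcgb _ _ _ _ _ _
    · exact Filter.Eventually.of_forall (fun p => hgb0 p)
    · exact hsub.eventuallyLE
  have hD0 : 0 ≤ D := by
    apply setIntegral_nonneg_ae
    · unfold cube; measurability
    · exact Filter.Eventually.of_forall (fun p _ => hgb0 p)
  have hone : ∫ _p in B, (1 : ℝ) = 8 * w ^ 3 := by
    rw [hB, box_int continuous_const (by linarith) (by linarith) (by linarith)]
    simp
    ring
  have key : ∀ l : ℝ, 0 < l →
      ∫ p in B, (|dz f p| + 2 * |dx f p|) ≤ 4 * l * w ^ 3 + 5 / (2 * l) * D := by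
    intro l hl
    have h1 : ∫ p in B, (|dz f p| + 2 * |dx f p|) ≤
        ∫ p in B, (l / 2 * 1 + 5 / (2 * l) * gb f f p) := by
      apply setIntegral_mono
      · exact intOn_box hcF _ _ _ _ _ _
      · exact intOn_box (F := fun p => l / 2 * 1 + 5 / (2 * l) * gb f f p) (by fun_prop) _ _ _ _ _ _
      · intro p
        have e1 : |dz f p| * |dz f p| = dz f p * dz f p := abs_mul_abs_self _
        have e2 : |dx f p| * |dx f p| = dx f p * dx f p := abs_mul_abs_self _
        have h2 : (|dz f p| + 2 * |dx f p|) ^ 2 ≤ 5 * gb f f p := by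
          unfold gb
          nlinarith [mul_self_nonneg (2 * |dz f p| - |dx f p|), mul_self_nonneg (dy f p)]
        have h3 : (|dz f p| + 2 * |dx f p|) ≤ l / 2 + (|dz f p| + 2 * |dx f p|) ^ 2 / (2 * l) := by
          have : 0 ≤ (l - (|dz f p| + 2 * |dx f p|)) ^ 2 / (2 * l) := by positivity
          have e : (l - (|dz f p| + 2 * |dx f p|)) ^ 2 / (2 * l) =
            l / 2 + (|dz f p| + 2 * |dx f p|) ^ 2 / (2 * l) - (|dz f p| + 2 * |dx f p|) := by
            field_simp; ring
          linarith
        have h4 : (|dz f p| + 2 * |dx f p|) ^ 2 / (2 * l) ≤ 5 * gb f f p / (2 * l) := by gcongr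
        have h5 : 5 * gb f f p / (2 * l) = 5 / (2 * l) * gb f f p := by ring
        show |dz f p| + 2 * |dx f p| ≤ l / 2 * 1 + 5 / (2 * l) * gb f f p
        linarith
    have h2 : ∫ p in B, (l / 2 * 1 + 5 / (2 * l) * gb f f p) =
        l / 2 * (8 * w ^ 3) + 5 / (2 * l) * ∫ p in B, gb f f p := by
      rw [integral_add, integral_const_mul, integral_const_mul, hone]
      · exact intOn_box (F := fun p => l / 2 * 1) (by fun_prop) _ _ _ _ _ _
      · exact intOn_box (F := fun p => 5 / (2 * l) * gb f f p) (by fun_prop) _ _ _ _ _ _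
    have h3 : 5 / (2 * l) * ∫ p in B, gb f f p ≤ 5 / (2 * l) * D := by gcongr
    calc _ ≤ _ := h1
      _ = _ := h2
      _ ≤ _ := by nlinarith [h3]
  rcases hD0.eq_or_lt with h0 | hpos
  · rw [← h0, Real.sqrt_zero, mul_zero]
    by_contra hcon
    rw [not_le] at hcon
    set X := ∫ p in B, (|dz f p| + 2 * |dx f p|) with hX
    have := key (X / (8 * w ^ 3)) (by positivity)
    rw [← h0, mul_zero, add_zero] at this
    have e : 4 * (X / (8 * w ^ 3)) * w ^ 3 = X / 2 := by field_simp; ring
    rw [e] at this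
    linarith
  · have hsD : 0 < √D := Real.sqrt_pos.2 hpos
    have hsw : 0 < √w := Real.sqrt_pos.2 hw
    have hk := key (√D / (w * √w)) (by positivity)
    have e1 : √D * √D = D := Real.mul_self_sqrt hD0
    have e2 : √w * √w = w := Real.mul_self_sqrt hw.le
    have e3 : 4 * (√D / (w * √w)) * w ^ 3 = 4 * (w * √w) * √D := by
      have : w ^ 3 = (w * √w) * (w * √w) := by nlinarith [e2]
      rw [this]; field_simp
    have e4 : 5 / (2 * (√D / (w * √w))) * D = 5 / 2 * (w * √w) * √D := by
      nth_rw 2 [← e1]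
      field_simp
    rw [e3, e4] at hk
    have : 0 ≤ (w * √w) * √D := by positivity
    linarith

lemma swap2 {F : ℝ → ℝ → ℝ} (hF : Continuous (Function.uncurry F)) (a b c d : ℝ) :
    ∫ x in a..b, ∫ y in c..d, F x y = ∫ y in c..d, ∫ x in a..b, F x y :=
  intervalIntegral_intervalIntegral_swap
    ((hF.continuousOn.integrableOn_compact (isCompact_uIcc.prod isCompact_uIcc)).mono_set
      (prod_mono uIoc_subset_uIcc uIoc_subset_uIcc))

end TRACE

open TRACE in
theorem taskTRACE : TaskTRACE := by
  rintro f ⟨hf, -, -⟩ c w hw hz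
  refine le_trans ?_ (cs_box hf c w hw)
  have cx := cont_dx hf
  have cz := cont_dz hf
  have cf : Continuous f := hf.continuous
  -- iterated integrals
  have hcF : Continuous (fun p : P => |dz f p| + 2 * |dx f p|) := by fun_prop
  rw [box_int hcF (by linarith) (by linarith) (by linarith),
    box_int2 (F := fun q : ℝ × ℝ => |f (q.1, q.2, c.2.2)|) (by fun_prop) (by linarith)
      (by linarith)]
  obtain ⟨c1, c2, c3⟩ := c
  simp only at hz ⊢
  -- the auxiliary functions
  set G : ℝ → ℝ → ℝ := fun x y => ∫ z in (c3 - w)..c3, |dz f (x, y, z)| with hG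
  set H : ℝ → ℝ → ℝ := fun y z => ∫ u in (c1 - w)..(c1 + 3 * w), |dx f (u, y, z)| with hH
  have hGc : Continuous (Function.uncurry G) := by
    have : Continuous (Function.uncurry (fun (q : ℝ × ℝ) (z : ℝ) => |dz f (q.1, q.2, z)|)) := by
      simp only [Function.uncurry_def]; fun_prop
    exact intervalIntegral.continuous_parametric_intervalIntegral_of_continuous' this _ _
  have hHc : Continuous (Function.uncurry H) := by
    have : Continuous (Function.uncurry (fun (q : ℝ × ℝ) (u : ℝ) => |dx f (u, q.1, q.2)|)) := by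
      simp only [Function.uncurry_def]; fun_prop
    exact intervalIntegral.continuous_parametric_intervalIntegral_of_continuous' this _ _
  set K : ℝ → ℝ := fun y => ∫ z in (c3 - w)..c3, H y z with hK
  have hKc : Continuous K :=
    intervalIntegral.continuous_parametric_intervalIntegral_of_continuous' hHc _ _
  set Φ : ℝ → ℝ := fun x => ∫ y in (c2 - w)..(c2 + w), G x y with hΦ
  have hΦc : Continuous Φ :=
    intervalIntegral.continuous_parametric_intervalIntegral_of_continuous' hGc _ _
  -- the pointwise bound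
  have hpt : ∀ x ∈ Icc (c1 - w) (c1 + w), ∀ y ∈ Icc (c2 - w) (c2 + w),
      w * |f (x, y, c3)| ≤ w * G x y + w * G (x + 2 * w) y + K y := by
    intro x hx y hy
    have h1 : ∀ z ∈ Icc (c3 - w) c3,
        |f (x, y, c3)| - G x y - G (x + 2 * w) y ≤ H y z := by
      intro z hz'
      have a0 : f (x + 2 * w, y, c3) = 0 := by
        apply hz
        · rw [abs_of_nonneg (by linarith [hx.1])]; linarith [hx.1]
        · rw [abs_of_nonneg (by linarith [hx.1])]; linarith [hx.2]
        · rw [abs_le]; constructor <;> linarith [hy.1, hy.2]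
      have a1 := abs_sub_z hf x y z c3 hz'.2
      have a2 := abs_sub_x hf y z x (x + 2 * w) (by linarith)
      have a3 := abs_sub_z hf (x + 2 * w) y z c3 hz'.2
      have b1 : ∫ t in z..c3, |dz f (x, y, t)| ≤ G x y := by
        apply intervalIntegral.integral_mono_interval hz'.1 hz'.2 le_rfl
        · exact Filter.Eventually.of_forall (fun t => abs_nonneg _)
        · exact Continuous.intervalIntegrable (by fun_prop) _ _
      have b3 : ∫ t in z..c3, |dz f (x + 2 * w, y, t)| ≤ G (x + 2 * w) y := by
        apply intervalIntegral.integral_mono_interval hz'.1 hz'.2 le_rfl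
        · exact Filter.Eventually.of_forall (fun t => abs_nonneg _)
        · exact Continuous.intervalIntegrable (by fun_prop) _ _
      have b2 : ∫ t in x..(x + 2 * w), |dx f (t, y, z)| ≤ H y z := by
        apply intervalIntegral.integral_mono_interval hx.1 (by linarith) (by linarith [hx.2])
        · exact Filter.Eventually.of_forall (fun t => abs_nonneg _)
        · exact Continuous.intervalIntegrable (by fun_prop) _ _
      rw [a0] at a3
      have t1 : |f (x, y, c3)| ≤ |f (x, y, c3) - f (x, y, z)| +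
          |f (x + 2 * w, y, z) - f (x, y, z)| + |0 - f (x + 2 * w, y, z)| := by
        have e : f (x, y, c3) = (f (x, y, c3) - f (x, y, z)) -
          (f (x + 2 * w, y, z) - f (x, y, z)) - (0 - f (x + 2 * w, y, z)) := by ring
        calc |f (x, y, c3)| = |(f (x, y, c3) - f (x, y, z)) -
          (f (x + 2 * w, y, z) - f (x, y, z)) - (0 - f (x + 2 * w, y, z))| := by rw [← e]
          _ ≤ |(f (x, y, c3) - f (x, y, z)) - (f (x + 2 * w, y, z) - f (x, y, z))| +
              |0 - f (x + 2 * w, y, z)| := abs_sub _ _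
          _ ≤ _ := by gcongr; exact abs_sub _ _
      linarith
    have h2 : ∫ _z in (c3 - w)..c3, (|f (x, y, c3)| - G x y - G (x + 2 * w) y) ≤ K y := by
      apply intervalIntegral.integral_mono_on (by linarith)
      · exact continuous_const.intervalIntegrable _ _
      · exact Continuous.intervalIntegrable (by fun_prop) _ _
      · exact h1
    rw [intervalIntegral.integral_const] at h2
    simp only [smul_eq_mul] at h2
    nlinarith [h2]
  -- integrate
  have hI : ∫ x in (c1 - w)..(c1 + w), ∫ y in (c2 - w)..(c2 + w), w * |f (x, y, c3)| ≤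
      ∫ x in (c1 - w)..(c1 + w), ∫ y in (c2 - w)..(c2 + w),
        (w * G x y + w * G (x + 2 * w) y + K y) := by
    apply intervalIntegral.integral_mono_on (by linarith)
    · refine Continuous.intervalIntegrable ?_ _ _
      apply intervalIntegral.continuous_parametric_intervalIntegral_of_continuous'
      simp only [Function.uncurry_def]; fun_prop
    · refine Continuous.intervalIntegrable ?_ _ _
      apply intervalIntegral.continuous_parametric_intervalIntegral_of_continuous'
      simp only [Function.uncurry_def]; fun_prop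
    · intro x hx
      apply intervalIntegral.integral_mono_on (by linarith)
      · exact Continuous.intervalIntegrable (by fun_prop) _ _
      · exact Continuous.intervalIntegrable (by fun_prop) _ _
      · exact hpt x hx
  have hL : ∫ x in (c1 - w)..(c1 + w), ∫ y in (c2 - w)..(c2 + w), w * |f (x, y, c3)| =
      w * ∫ x in (c1 - w)..(c1 + w), ∫ y in (c2 - w)..(c2 + w), |f (x, y, c3)| := by
    simp_rw [intervalIntegral.integral_const_mul]
  have hR : ∫ x in (c1 - w)..(c1 + w), ∫ y in (c2 - w)..(c2 + w),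
        (w * G x y + w * G (x + 2 * w) y + K y) =
      w * (∫ x in (c1 - w)..(c1 + 3 * w), Φ x) + 2 * w * ∫ y in (c2 - w)..(c2 + w), K y := by
    have e1 : ∀ x, ∫ y in (c2 - w)..(c2 + w), (w * G x y + w * G (x + 2 * w) y + K y) =
        w * Φ x + w * Φ (x + 2 * w) + ∫ y in (c2 - w)..(c2 + w), K y := by
      intro x
      rw [intervalIntegral.integral_add, intervalIntegral.integral_add,
        intervalIntegral.integral_const_mul, intervalIntegral.integral_const_mul]
      all_goals exact Continuous.intervalIntegrable (by fun_prop) _ _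
    simp_rw [e1]
    rw [intervalIntegral.integral_add, intervalIntegral.integral_add,
        intervalIntegral.integral_const_mul, intervalIntegral.integral_const_mul,
        intervalIntegral.integral_const,
        intervalIntegral.integral_comp_add_right (fun x => Φ x)]
    · have e2 : c1 - w + 2 * w = c1 + w := by ring
      have e3 : c1 + w + 2 * w = c1 + 3 * w := by ring
      rw [e2, e3, ← intervalIntegral.integral_add_adjacent_intervals
        (hΦc.intervalIntegrable (c1 - w) (c1 + w))
        (hΦc.intervalIntegrable (c1 + w) (c1 + 3 * w))]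
      simp only [smul_eq_mul]
      ring
    all_goals exact Continuous.intervalIntegrable (by fun_prop) _ _
  have hK2 : ∫ y in (c2 - w)..(c2 + w), K y =
      ∫ x in (c1 - w)..(c1 + 3 * w), ∫ y in (c2 - w)..(c2 + w), ∫ z in (c3 - w)..c3,
        |dx f (x, y, z)| := by
    have e1 : ∀ y, K y = ∫ x in (c1 - w)..(c1 + 3 * w), ∫ z in (c3 - w)..c3,
        |dx f (x, y, z)| := by
      intro y
      exact swap2 (F := fun z u => |dx f (u, y, z)|)
        (by simp only [Function.uncurry_def]; fun_prop) _ _ _ _
    simp_rw [e1]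
    refine swap2 (F := fun y x => ∫ z in (c3 - w)..c3, |dx f (x, y, z)|) ?_ _ _ _ _
    have : Continuous (Function.uncurry (fun (q : ℝ × ℝ) (z : ℝ) => |dx f (q.2, q.1, z)|)) := by
      simp only [Function.uncurry_def]; fun_prop
    exact intervalIntegral.continuous_parametric_intervalIntegral_of_continuous' this _ _
  set H2 : ℝ → ℝ → ℝ := fun x y => ∫ z in (c3 - w)..c3, |dx f (x, y, z)| with hH2
  have hH2c : Continuous (Function.uncurry H2) := by
    have : Continuous (Function.uncurry (fun (q : ℝ × ℝ) (z : ℝ) => |dx f (q.1, q.2, z)|)) := by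
      simp only [Function.uncurry_def]; fun_prop
    exact intervalIntegral.continuous_parametric_intervalIntegral_of_continuous' this _ _
  have hfin : ∫ x in (c1 - w)..(c1 + 3 * w), ∫ y in (c2 - w)..(c2 + w),
      ∫ z in (c3 - w)..c3, (|dz f (x, y, z)| + 2 * |dx f (x, y, z)|) =
      (∫ x in (c1 - w)..(c1 + 3 * w), Φ x) + 2 * ∫ y in (c2 - w)..(c2 + w), K y := by
    rw [hK2]
    have e1 : ∀ x y, ∫ z in (c3 - w)..c3, (|dz f (x, y, z)| + 2 * |dx f (x, y, z)|) =
        G x y + 2 * H2 x y := by
      intro x y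
      rw [intervalIntegral.integral_add, intervalIntegral.integral_const_mul]
      all_goals exact Continuous.intervalIntegrable (by fun_prop) _ _
    simp_rw [e1]
    have e2 : ∀ x, ∫ y in (c2 - w)..(c2 + w), (G x y + 2 * H2 x y) =
        Φ x + 2 * ∫ y in (c2 - w)..(c2 + w), H2 x y := by
      intro x
      rw [intervalIntegral.integral_add, intervalIntegral.integral_const_mul]
      all_goals exact Continuous.intervalIntegrable (by fun_prop) _ _
    simp_rw [e2]
    have hH3 : Continuous (fun x => ∫ y in (c2 - w)..(c2 + w), H2 x y) :=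
      intervalIntegral.continuous_parametric_intervalIntegral_of_continuous' hH2c _ _
    rw [intervalIntegral.integral_add, intervalIntegral.integral_const_mul]
    · exact hΦc.intervalIntegrable _ _
    · exact (continuous_const.mul hH3).intervalIntegrable _ _
  rw [hfin]
  rw [hL, hR] at hI
  have : w * (∫ x in (c1 - w)..(c1 + w), ∫ y in (c2 - w)..(c2 + w), |f (x, y, c3)|) ≤
      w * ((∫ x in (c1 - w)..(c1 + 3 * w), Φ x) + 2 * ∫ y in (c2 - w)..(c2 + w), K y) := by
    linarith
  exact le_of_mul_le_mul_left this hw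

end Pool.Agent.H456R3.Mult
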