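import Pool.Agent.H456R3.Mult.Stmts

/-!
Task TRANS of the project H456-MULT: transfer from `ℝ × ℝ × ℝ` to `EuclideanSpace ℝ (Fin 3)`.
-/

open MeasureTheory Set
open scoped ContDiff

set_option autoImplicit false

noncomputable section

namespace Pool.Agent.H456R3.Mult

/-- Euclidean three-space -/
abbrev TRANS_E := EuclideanSpace ℝ (Fin 3)

/-- the coordinates -/
def TRANS_l : TRANS_E ≃ₗ[ℝ] P where
  toFun x := (x 0, x 1, x 2)
  invFun p := !₂[p.1, p.2.1, p.2.2]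
  map_add' x y := by simp
  map_smul' c x := by simp
  left_inv x := by
    ext i
    fin_cases i <;> simp
  right_inv p := by simp

/-- the coordinates, continuous -/
def TRANS_e : TRANS_E ≃L[ℝ] P := TRANS_l.toContinuousLinearEquiv

lemma TRANS_apply (x : TRANS_E) : TRANS_e x = (x 0, x 1, x 2) := rfl

lemma TRANS_mp : MeasurePreserving (TRANS_e : TRANS_E → P) := by
  have h1 := PiLp.volume_preserving_ofLp (Fin 3)
  have h2 := volume_preserving_piFinSuccAbove (fun _ : Fin 3 => ℝ) 0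
  have h3 := volume_preserving_finTwoArrow ℝ
  have h4 : MeasurePreserving (fun p : ℝ × (Fin 2 → ℝ) => (p.1, (p.2 0, p.2 1))) := by
    have := (MeasurePreserving.id (volume : Measure ℝ)).prod h3
    exact this
  exact h4.comp (h2.comp h1)

lemma TRANS_int (g : P → ℝ) : ∫ x, g (TRANS_e x) = ∫ p, g p :=
  TRANS_mp.integral_comp TRANS_e.toHomeomorph.measurableEmbedding g

lemma TRANS_norm (φ : TRANS_E →L[ℝ] ℝ) : ‖φ‖ ^ 2 = φ (EuclideanSpace.single 0 1) ^ 2 +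
    φ (EuclideanSpace.single 1 1) ^ 2 + φ (EuclideanSpace.single 2 1) ^ 2 := by
  obtain ⟨v, rfl⟩ := (InnerProductSpace.toDual ℝ TRANS_E).surjective φ
  rw [LinearIsometryEquiv.norm_map, EuclideanSpace.real_norm_sq_eq, Fin.sum_univ_three]
  simp [InnerProductSpace.toDual_apply_apply, EuclideanSpace.inner_single_right]

lemma TRANS_grad (f : P → ℝ) (x : TRANS_E) :
    ‖fderiv ℝ (fun y => f (TRANS_e y)) x‖ ^ 2 = gb f f (TRANS_e x) := by
  have h1 : fderiv ℝ (fun y => f (TRANS_e y)) x =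
      (fderiv ℝ f (TRANS_e x)).comp (TRANS_e : TRANS_E →L[ℝ] P) :=
    TRANS_e.comp_right_fderiv
  rw [h1, TRANS_norm]
  have h0 : TRANS_e (EuclideanSpace.single 0 1) = ((1, 0, 0) : P) := by
    rw [TRANS_apply]; simp
  have h1' : TRANS_e (EuclideanSpace.single 1 1) = ((0, 1, 0) : P) := by
    rw [TRANS_apply]; simp
  have h2 : TRANS_e (EuclideanSpace.single 2 1) = ((0, 0, 1) : P) := by
    rw [TRANS_apply]; simp
  simp only [ContinuousLinearMap.comp_apply, ContinuousLinearEquiv.coe_coe, h0, h1', h2]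
  unfold gb dx dy dz
  ring

lemma TRANS_Ms (f : P → ℝ) : ∫ x, f (TRANS_e x) ^ 2 = Ms f := by
  rw [TRANS_int (fun p => f p ^ 2)]
  unfold Ms Mb
  simp only [sq]

lemma TRANS_En (f : P → ℝ) : ∫ x, ‖fderiv ℝ (fun y => f (TRANS_e y)) x‖ ^ 2 = En f := by
  simp only [TRANS_grad]
  rw [TRANS_int (fun p => gb f f p)]
  rfl

lemma TRANS_mem {Ω : Set P} {f : P → ℝ} (hf : f ∈ Dc Ω) :
    (fun x => f (TRANS_e x)) ∈ DcE (TRANS_e ⁻¹' Ω) := by
  obtain ⟨h1, h2, h3⟩ := hf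
  refine ⟨h1.comp TRANS_e.contDiff, h2.comp_homeomorph TRANS_e.toHomeomorph, ?_⟩
  have h4 : tsupport (fun x => f (TRANS_e x)) ⊆ TRANS_e ⁻¹' tsupport f :=
    tsupport_comp_subset_preimage f TRANS_e.continuous
  exact h4.trans (preimage_mono h3)

lemma TRANS_mem' {Ω : Set P} {g : TRANS_E → ℝ} (hg : g ∈ DcE (TRANS_e ⁻¹' Ω)) :
    (fun p => g (TRANS_e.symm p)) ∈ Dc Ω := by
  obtain ⟨h1, h2, h3⟩ := hg
  refine ⟨h1.comp TRANS_e.symm.contDiff, h2.comp_homeomorph TRANS_e.symm.toHomeomorph, ?_⟩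
  have h4 : tsupport (fun p => g (TRANS_e.symm p)) ⊆ TRANS_e.symm ⁻¹' tsupport g :=
    tsupport_comp_subset_preimage g TRANS_e.symm.continuous
  intro p hp
  have := h3 (h4 hp)
  simpa using this

/-- composition with the coordinates -/
def TRANS_T (Ω : Set P) : Dc Ω ≃ₗ[ℝ] DcE (TRANS_e ⁻¹' Ω) where
  toFun f := ⟨fun x => (f : P → ℝ) (TRANS_e x), TRANS_mem f.2⟩
  invFun g := ⟨fun p => (g : TRANS_E → ℝ) (TRANS_e.symm p), TRANS_mem' g.2⟩
  map_add' f g := rfl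
  map_smul' c f := rfl
  left_inv f := by
    apply Subtype.ext
    funext p
    show (f : P → ℝ) (TRANS_e (TRANS_e.symm p)) = _
    rw [ContinuousLinearEquiv.apply_symm_apply]
  right_inv g := by
    apply Subtype.ext
    funext x
    show (g : TRANS_E → ℝ) (TRANS_e.symm (TRANS_e x)) = _
    rw [ContinuousLinearEquiv.symm_apply_apply]

theorem taskTRANS : TaskTRANS := by
  rintro N ⟨Ω, hO, hC, hB, E, hE, ⟨l, hl⟩, hU⟩
  refine ⟨TRANS_e ⁻¹' Ω, hO.preimage TRANS_e.continuous, ?_, ?_, E, hE, ?_, ?_⟩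
  · exact TRANS_e.toHomeomorph.isConnected_preimage.2 hC
  · have h : TRANS_e ⁻¹' Ω = TRANS_e.symm '' Ω := (TRANS_e.image_symm_eq_preimage Ω).symm
    rw [h]
    exact TRANS_e.symm.lipschitz.isBounded_image hB
  · refine ⟨l.comp (TRANS_T Ω).symm.toLinearMap, fun g hg => ?_⟩
    obtain ⟨f, rfl⟩ := (TRANS_T Ω).surjective g
    have hf : l f = 0 := by simpa using hg
    have h1 := hl f hf
    have h2 : ∫ x, ((TRANS_T Ω f : DcE (TRANS_e ⁻¹' Ω)) : TRANS_E → ℝ) x ^ 2 = Ms (f : P → ℝ) :=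
      TRANS_Ms (f : P → ℝ)
    have h3 : ∫ x, ‖fderiv ℝ ((TRANS_T Ω f : DcE (TRANS_e ⁻¹' Ω)) : TRANS_E → ℝ) x‖ ^ 2 =
        En (f : P → ℝ) := TRANS_En (f : P → ℝ)
    rw [h2, h3]
    exact h1
  · intro ε hε
    obtain ⟨U, hUi, hUe⟩ := hU ε hε
    refine ⟨(TRANS_T Ω).toLinearMap.comp U, ?_, fun c => ?_⟩
    · exact (TRANS_T Ω).injective.comp hUi
    · have h2 : ∫ x, ((TRANS_T Ω (U c) : DcE (TRANS_e ⁻¹' Ω)) : TRANS_E → ℝ) x ^ 2 =
          Ms (U c : P → ℝ) := TRANS_Ms (U c : P → ℝ)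
      have h3 : ∫ x, ‖fderiv ℝ ((TRANS_T Ω (U c) : DcE (TRANS_e ⁻¹' Ω)) : TRANS_E → ℝ) x‖ ^ 2 =
          En (U c : P → ℝ) := TRANS_En (U c : P → ℝ)
      show (∫ x, ‖fderiv ℝ ((TRANS_T Ω (U c) : DcE (TRANS_e ⁻¹' Ω)) : TRANS_E → ℝ) x‖ ^ 2) ≤
        (E + ε) * ∫ x, ((TRANS_T Ω (U c) : DcE (TRANS_e ⁻¹' Ω)) : TRANS_E → ℝ) x ^ 2
      rw [h2, h3]
      exact hUe c

end Pool.Agent.H456R3.Mult
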