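import Pool.Agent.H456R3.Mult.Asm5
import Pool.Agent.H456R3.Mult.FARb
import Pool.Agent.H456R3.Mult.LA
import Pool.Agent.H456R3.Mult.ABS1
import Pool.Agent.H456R3.Mult.ABS2
import Pool.Agent.H456R3.Mult.ABS3
import Pool.Agent.H456R3.Mult.GEO
import Pool.Agent.H456R3.Mult.GAP
import Pool.Agent.H851R3.EAPP
import Pool.Agent.H456R3.Mult.POINC
import Pool.Agent.H456R3.Mult.TRACE
import Pool.Agent.H456R3.Mult.CUT
import Pool.Agent.H456R3.Mult.BUMP
import Pool.Agent.H456R3.Mult.GV
import Pool.Agent.H456R3.Mult.GREEN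
import Pool.Agent.H456R3.Mult.CONT
import Pool.Agent.H456R3.Mult.COER
import Pool.Agent.H456R3.Mult.TRANS

/-! Final assembly (project H456-MULT). -/

set_option autoImplicit false

namespace Pool.Agent.H456R3.Mult

/-- For every `N ≥ 2` there is a bounded connected open set in `ℝ³` with the properties of
`DomainProp N`. -/
theorem domainProp_all (N : ℕ) (hN : 2 ≤ N) : DomainProp N :=
  domain_prop taskLA taskABS1 taskABS2 taskABS3 taskGEO taskGAP
    Pool.Agent.H851R3.EAPP.taskEAPP taskPOINC taskTRACE CUT.taskCUT taskBUMP taskGV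
    (taskGREEN taskTRACE taskGEO) taskCONT taskCOER FarB.taskFAR N hN

theorem domainPropE_all (N : ℕ) (hN : 2 ≤ N) : DomainPropE N := taskTRANS N (domainProp_all N hN)

end Pool.Agent.H456R3.Mult
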