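import Pool.Agent.H456R3.Mult.Stmts

open MeasureTheory Set
open scoped ContDiff

set_option autoImplicit false

namespace Pool.Agent.H456R3.Mult.GreenT

/-! ### one dimension -/

theorem ibp1 (a b : ℝ) (hab : a < b) (φ φ' : ℝ → ℝ) (hφ : ∀ t, HasDerivAt φ (φ' t) t)
    (hc : Continuous φ') :
    ∫ t in Ioo a b, (Real.pi / (b - a) * Real.cos (Real.pi * (t - a) / (b - a))) * φ' t =
      -(Real.pi / (b - a)) * (φ b + φ a) +
        (Real.pi / (b - a)) ^ 2 * ∫ t in Ioo a b, Real.sin (Real.pi * (t - a) / (b - a)) * φ t := by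
  have hba : b - a ≠ 0 := by linarith [hab] |> fun h : (0:ℝ) < b - a => h.ne'
  rw [← integral_Ioc_eq_integral_Ioo, ← integral_Ioc_eq_integral_Ioo,
    ← intervalIntegral.integral_of_le hab.le, ← intervalIntegral.integral_of_le hab.le]
  have hu : ∀ t, HasDerivAt (fun t => Real.pi / (b - a) * Real.cos (Real.pi * (t - a) / (b - a)))
      (-(Real.pi / (b - a)) ^ 2 * Real.sin (Real.pi * (t - a) / (b - a))) t := by
    intro t
    have h1 : HasDerivAt (fun t => Real.pi * (t - a) / (b - a)) (Real.pi / (b - a)) t := by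
      have := (((hasDerivAt_id t).sub_const a).const_mul Real.pi).div_const (b - a)
      simpa using this
    have h2 := (h1.cos).const_mul (Real.pi / (b - a))
    refine h2.congr_deriv ?_
    ring
  have hcφ : Continuous φ := continuous_iff_continuousAt.2 fun t => (hφ t).continuousAt
  rw [intervalIntegral.integral_mul_deriv_eq_deriv_mul (fun x _ => hu x) (fun x _ => hφ x)
    ((by fun_prop : Continuous fun t =>
      -(Real.pi / (b - a)) ^ 2 * Real.sin (Real.pi * (t - a) / (b - a))).intervalIntegrable _ _)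
    (hc.intervalIntegrable _ _)]
  have e1 : Real.cos (Real.pi * (b - a) / (b - a)) = -1 := by
    rw [mul_div_assoc, div_self hba, mul_one, Real.cos_pi]
  have e2 : Real.cos (Real.pi * (a - a) / (b - a)) = 1 := by simp
  rw [e1, e2]
  have e3 : ∫ x in a..b, -(Real.pi / (b - a)) ^ 2 * Real.sin (Real.pi * (x - a) / (b - a)) * φ x =
      -(Real.pi / (b - a)) ^ 2 * ∫ x in a..b, Real.sin (Real.pi * (x - a) / (b - a)) * φ x := by
    rw [← intervalIntegral.integral_const_mul]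
    congr 1; funext x; ring
  rw [e3]; ring

/-! ### integrability and Fubini on open boxes -/

theorem intOn2 (H : ℝ × ℝ → ℝ) (hH : Continuous H) (a b c d : ℝ) :
    IntegrableOn H (Ioo a b ×ˢ Ioo c d) :=
  (hH.continuousOn.integrableOn_compact (isCompact_Icc.prod isCompact_Icc)).mono_set
    (prod_mono (Ioo_subset_Icc_self (a := a) (b := b)) (Ioo_subset_Icc_self (a := c) (b := d)))

theorem intOn3 (H : P → ℝ) (hH : Continuous H) (b : Box) : IntegrableOn H b.set :=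
  (hH.continuousOn.integrableOn_compact
    (isCompact_Icc.prod (isCompact_Icc.prod isCompact_Icc))).mono_set
    (prod_mono (Ioo_subset_Icc_self (a := b.a1) (b := b.b1))
      (prod_mono (Ioo_subset_Icc_self (a := b.a2) (b := b.b2))
        (Ioo_subset_Icc_self (a := b.a3) (b := b.b3))))

theorem zero_x (G : P → ℝ) (hG : Continuous G) (b : Box)
    (h : ∀ y ∈ Ioo b.a2 b.b2, ∀ z ∈ Ioo b.a3 b.b3, ∫ x in Ioo b.a1 b.b1, G (x, y, z) = 0) :
    ∫ p in b.set, G p = 0 := by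
  have h1 := intOn3 G hG b
  unfold Box.set at h1 ⊢
  rw [Measure.volume_eq_prod] at h1 ⊢
  rw [← setIntegral_prod_swap, setIntegral_prod]
  · have : ∀ q ∈ Ioo b.a2 b.b2 ×ˢ Ioo b.a3 b.b3,
        ∫ x in Ioo b.a1 b.b1, G ((q, x) : (ℝ × ℝ) × ℝ).swap = 0 := by
      rintro ⟨y, z⟩ ⟨hy, hz⟩
      exact h y hy z hz
    rw [setIntegral_congr_fun (measurableSet_Ioo.prod measurableSet_Ioo) this]
    simp
  · exact h1.swap

theorem zero_y (G : P → ℝ) (hG : Continuous G) (b : Box)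
    (h : ∀ x ∈ Ioo b.a1 b.b1, ∀ z ∈ Ioo b.a3 b.b3, ∫ y in Ioo b.a2 b.b2, G (x, y, z) = 0) :
    ∫ p in b.set, G p = 0 := by
  have h1 := intOn3 G hG b
  unfold Box.set at h1 ⊢
  rw [Measure.volume_eq_prod] at h1 ⊢
  rw [setIntegral_prod _ h1]
  have : ∀ x ∈ Ioo b.a1 b.b1, ∫ q in Ioo b.a2 b.b2 ×ˢ Ioo b.a3 b.b3, G (x, q) = 0 := by
    intro x hx
    have h2 := intOn2 (fun q => G (x, q)) (by fun_prop) b.a2 b.b2 b.a3 b.b3
    rw [Measure.volume_eq_prod] at h2 ⊢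
    rw [← setIntegral_prod_swap, setIntegral_prod]
    · have : ∀ z ∈ Ioo b.a3 b.b3,
          ∫ y in Ioo b.a2 b.b2, G (x, ((z, y) : ℝ × ℝ).swap) = 0 := by
        intro z hz
        exact h x hx z hz
      rw [setIntegral_congr_fun measurableSet_Ioo this]
      simp
    · exact h2.swap
  rw [setIntegral_congr_fun measurableSet_Ioo this]
  simp

theorem zero_z (G : P → ℝ) (hG : Continuous G) (b : Box)
    (h : ∀ x ∈ Ioo b.a1 b.b1, ∀ y ∈ Ioo b.a2 b.b2, ∫ z in Ioo b.a3 b.b3, G (x, y, z) = 0) :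
    ∫ p in b.set, G p = 0 := by
  have h1 := intOn3 G hG b
  unfold Box.set at h1 ⊢
  rw [Measure.volume_eq_prod] at h1 ⊢
  rw [setIntegral_prod _ h1]
  have : ∀ x ∈ Ioo b.a1 b.b1, ∫ q in Ioo b.a2 b.b2 ×ˢ Ioo b.a3 b.b3, G (x, q) = 0 := by
    intro x hx
    have h2 := intOn2 (fun q => G (x, q)) (by fun_prop) b.a2 b.b2 b.a3 b.b3
    rw [Measure.volume_eq_prod] at h2 ⊢
    rw [setIntegral_prod _ h2]
    have : ∀ y ∈ Ioo b.a2 b.b2, ∫ z in Ioo b.a3 b.b3, G (x, y, z) = 0 := by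
      intro y hy
      exact h x hx y hy
    rw [setIntegral_congr_fun measurableSet_Ioo this]
    simp
  rw [setIntegral_congr_fun measurableSet_Ioo this]
  simp

theorem flat (K : ℝ × ℝ → ℝ) (hK : Continuous K) (b : Box) (h3 : b.a3 < b.b3) :
    ∫ p in b.set, (1 / (b.b3 - b.a3)) * K (p.1, p.2.1) =
      ∫ q in Ioo b.a1 b.b1 ×ˢ Ioo b.a2 b.b2, K q := by
  have h1 := intOn3 (fun p : P => (1 / (b.b3 - b.a3)) * K (p.1, p.2.1)) (by fun_prop) b
  unfold Box.set at h1 ⊢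
  rw [Measure.volume_eq_prod] at h1 ⊢
  rw [setIntegral_prod _ h1]
  have h4 := intOn2 K hK b.a1 b.b1 b.a2 b.b2
  rw [Measure.volume_eq_prod] at h4
  rw [Measure.volume_eq_prod ℝ ℝ, setIntegral_prod _ h4]
  refine setIntegral_congr_fun measurableSet_Ioo ?_
  intro x hx
  have h2 := intOn2 (fun q : ℝ × ℝ => (1 / (b.b3 - b.a3)) * K (x, q.1)) (by fun_prop)
    b.a2 b.b2 b.a3 b.b3
  rw [Measure.volume_eq_prod] at h2
  show ∫ q in Ioo b.a2 b.b2 ×ˢ Ioo b.a3 b.b3, (1 / (b.b3 - b.a3)) * K (x, q.1) ∂(volume.prod volume) = _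
  rw [setIntegral_prod _ h2]
  refine setIntegral_congr_fun measurableSet_Ioo ?_
  intro y hy
  have hne : b.b3 - b.a3 ≠ 0 := by linarith [h3] |> fun h : (0:ℝ) < b.b3 - b.a3 => h.ne'
  simp only [integral_const, smul_eq_mul]
  rw [measureReal_restrict_apply_univ, Real.volume_real_Ioo_of_le h3.le]
  field_simp

/-! ### derivatives -/

theorem hasx (F : P → ℝ) (hF : Differentiable ℝ F) (x y z : ℝ) :
    HasDerivAt (fun t => F (t, y, z)) (dx F (x, y, z)) x := by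
  have h1 : HasFDerivAt F (fderiv ℝ F (x, y, z)) (x, y, z) := (hF _).hasFDerivAt
  have h2 : HasDerivAt (fun t : ℝ => ((t, y, z) : P)) ((1, 0, 0) : P) x :=
    (hasDerivAt_id x).prodMk ((hasDerivAt_const x y).prodMk (hasDerivAt_const x z))
  exact h1.comp_hasDerivAt x h2

theorem hasy (F : P → ℝ) (hF : Differentiable ℝ F) (x y z : ℝ) :
    HasDerivAt (fun t => F (x, t, z)) (dy F (x, y, z)) y := by
  have h1 : HasFDerivAt F (fderiv ℝ F (x, y, z)) (x, y, z) := (hF _).hasFDerivAt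
  have h2 : HasDerivAt (fun t : ℝ => ((x, t, z) : P)) ((0, 1, 0) : P) y :=
    (hasDerivAt_const y x).prodMk ((hasDerivAt_id y).prodMk (hasDerivAt_const y z))
  exact h1.comp_hasDerivAt y h2

theorem hasz (F : P → ℝ) (hF : Differentiable ℝ F) (x y z : ℝ) :
    HasDerivAt (fun t => F (x, y, t)) (dz F (x, y, z)) z := by
  have h1 : HasFDerivAt F (fderiv ℝ F (x, y, z)) (x, y, z) := (hF _).hasFDerivAt
  have h2 : HasDerivAt (fun t : ℝ => ((x, y, t) : P)) ((0, 0, 1) : P) z :=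
    (hasDerivAt_const z x).prodMk ((hasDerivAt_const z y).prodMk (hasDerivAt_id z))
  exact h1.comp_hasDerivAt z h2

theorem cont_d (F : P → ℝ) (hF : ContDiff ℝ ∞ F) :
    Continuous (dx F) ∧ Continuous (dy F) ∧ Continuous (dz F) := by
  have h : Continuous (fderiv ℝ F) := hF.continuous_fderiv (by simp)
  exact ⟨h.clm_apply continuous_const, h.clm_apply continuous_const,
    h.clm_apply continuous_const⟩

theorem ef_smooth (b : Box) : ContDiff ℝ ∞ b.ef := by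
  unfold Box.ef
  fun_prop

/-- the three factors -/
noncomputable def u (a b t : ℝ) : ℝ := Real.sin (Real.pi * (t - a) / (b - a))
noncomputable def u' (a b t : ℝ) : ℝ := Real.pi / (b - a) * Real.cos (Real.pi * (t - a) / (b - a))
noncomputable def cc (b : Box) : ℝ := √(8 / ((b.b1 - b.a1) * (b.b2 - b.a2) * (b.b3 - b.a3)))

theorem hasu (a b t : ℝ) : HasDerivAt (u a b) (u' a b t) t := by
  have h1 : HasDerivAt (fun t => Real.pi * (t - a) / (b - a)) (Real.pi / (b - a)) t := by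
    have := (((hasDerivAt_id t).sub_const a).const_mul Real.pi).div_const (b - a)
    simpa using this
  refine h1.sin.congr_deriv ?_
  unfold u'; ring

theorem ef_eq (b : Box) (x y z : ℝ) :
    b.ef (x, y, z) = cc b * (u b.a1 b.b1 x * u b.a2 b.b2 y * u b.a3 b.b3 z) := rfl

theorem dx_ef (b : Box) (x y z : ℝ) :
    dx b.ef (x, y, z) = cc b * (u' b.a1 b.b1 x * u b.a2 b.b2 y * u b.a3 b.b3 z) := by
  refine (hasx b.ef ((ef_smooth b).differentiable (by simp)) x y z).unique ?_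
  show HasDerivAt (fun t => cc b * (u b.a1 b.b1 t * u b.a2 b.b2 y * u b.a3 b.b3 z)) _ x
  exact (((hasu b.a1 b.b1 x).mul_const _).mul_const _).const_mul _

theorem dy_ef (b : Box) (x y z : ℝ) :
    dy b.ef (x, y, z) = cc b * (u b.a1 b.b1 x * u' b.a2 b.b2 y * u b.a3 b.b3 z) := by
  refine (hasy b.ef ((ef_smooth b).differentiable (by simp)) x y z).unique ?_
  show HasDerivAt (fun t => cc b * (u b.a1 b.b1 x * u b.a2 b.b2 t * u b.a3 b.b3 z)) _ y
  exact (((hasu b.a2 b.b2 y).const_mul _).mul_const _).const_mul _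

theorem dz_ef (b : Box) (x y z : ℝ) :
    dz b.ef (x, y, z) = cc b * (u b.a1 b.b1 x * u b.a2 b.b2 y * u' b.a3 b.b3 z) := by
  refine (hasz b.ef ((ef_smooth b).differentiable (by simp)) x y z).unique ?_
  show HasDerivAt (fun t => cc b * (u b.a1 b.b1 x * u b.a2 b.b2 y * u b.a3 b.b3 t)) _ z
  exact ((hasu b.a3 b.b3 z).const_mul _).const_mul _

theorem cu (a b : ℝ) : Continuous (u a b) := by unfold u; fun_prop

/-- the coefficient on the horizontal faces -/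
noncomputable def Aco (b : Box) (q : ℝ × ℝ) : ℝ :=
  Real.pi / (b.b3 - b.a3) * cc b * (u b.a1 b.b1 q.1 * u b.a2 b.b2 q.2)

theorem cAco (b : Box) : Continuous (Aco b) := by
  unfold Aco
  have h1 := cu b.a1 b.b1
  have h2 := cu b.a2 b.b2
  fun_prop

/-- Green's formula for a box -/
theorem green (b : Box) (h1 : b.a1 < b.b1) (h2 : b.a2 < b.b2) (h3 : b.a3 < b.b3) (f : P → ℝ)
    (hf : ContDiff ℝ ∞ f)
    (hx : ∀ y ∈ Ioo b.a2 b.b2, ∀ z ∈ Ioo b.a3 b.b3, f (b.a1, y, z) = 0 ∧ f (b.b1, y, z) = 0)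
    (hy : ∀ x ∈ Ioo b.a1 b.b1, ∀ z ∈ Ioo b.a3 b.b3, f (x, b.a2, z) = 0 ∧ f (x, b.b2, z) = 0) :
    b.L f = ∫ q in Ioo b.a1 b.b1 ×ˢ Ioo b.a2 b.b2,
      Aco b q * (f (q.1, q.2, b.b3) + f (q.1, q.2, b.a3)) := by
  have hfd : Differentiable ℝ f := hf.differentiable (by simp)
  have hfc : Continuous f := hf.continuous
  obtain ⟨cdx, cdy, cdz⟩ := cont_d f hf
  obtain ⟨edx, edy, edz⟩ := cont_d b.ef (ef_smooth b)
  have hec : Continuous b.ef := (ef_smooth b).continuous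
  -- x direction
  have X0 : ∫ p in b.set, (dx b.ef p * dx f p - (Real.pi / (b.b1 - b.a1)) ^ 2 * (b.ef p * f p)) = 0 := by
    refine zero_x _ (by fun_prop) b fun y hyy z hzz => ?_
    have i1 := ibp1 b.a1 b.b1 h1 (fun t => f (t, y, z)) (fun t => dx f (t, y, z))
      (fun t => hasx f hfd t y z) (by fun_prop)
    obtain ⟨e1, e2⟩ := hx y hyy z hzz
    simp only [e1, e2, add_zero, mul_zero, zero_add] at i1
    have e3 : ∀ x, dx b.ef (x, y, z) * dx f (x, y, z) -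
        (Real.pi / (b.b1 - b.a1)) ^ 2 * (b.ef (x, y, z) * f (x, y, z)) =
        (cc b * u b.a2 b.b2 y * u b.a3 b.b3 z) *
          ((Real.pi / (b.b1 - b.a1) * Real.cos (Real.pi * (x - b.a1) / (b.b1 - b.a1))) *
            dx f (x, y, z)) -
        (cc b * u b.a2 b.b2 y * u b.a3 b.b3 z) * ((Real.pi / (b.b1 - b.a1)) ^ 2 *
          (Real.sin (Real.pi * (x - b.a1) / (b.b1 - b.a1)) * f (x, y, z))) := by
      intro x
      rw [dx_ef, ef_eq]
      unfold u'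
      rw [show u b.a1 b.b1 x = Real.sin (Real.pi * (x - b.a1) / (b.b1 - b.a1)) from rfl]
      ring
    simp only [e3]
    rw [integral_sub, integral_const_mul, integral_const_mul, integral_const_mul, i1]
    · ring
    · exact ((by fun_prop : Continuous fun x => (cc b * u b.a2 b.b2 y * u b.a3 b.b3 z) *
          ((Real.pi / (b.b1 - b.a1) * Real.cos (Real.pi * (x - b.a1) / (b.b1 - b.a1))) *
            dx f (x, y, z))).integrableOn_Icc (a := b.a1) (b := b.b1)).mono_set Ioo_subset_Icc_self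
    · exact ((by fun_prop : Continuous fun x => (cc b * u b.a2 b.b2 y * u b.a3 b.b3 z) *
          ((Real.pi / (b.b1 - b.a1)) ^ 2 *
          (Real.sin (Real.pi * (x - b.a1) / (b.b1 - b.a1)) * f (x, y, z)))).integrableOn_Icc
            (a := b.a1) (b := b.b1)).mono_set Ioo_subset_Icc_self
  have Y0 : ∫ p in b.set, (dy b.ef p * dy f p - (Real.pi / (b.b2 - b.a2)) ^ 2 * (b.ef p * f p)) = 0 := by
    refine zero_y _ (by fun_prop) b fun x hxx z hzz => ?_
    have i1 := ibp1 b.a2 b.b2 h2 (fun t => f (x, t, z)) (fun t => dy f (x, t, z))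
      (fun t => hasy f hfd x t z) (by fun_prop)
    obtain ⟨e1, e2⟩ := hy x hxx z hzz
    simp only [e1, e2, add_zero, mul_zero, zero_add] at i1
    have e3 : ∀ y, dy b.ef (x, y, z) * dy f (x, y, z) -
        (Real.pi / (b.b2 - b.a2)) ^ 2 * (b.ef (x, y, z) * f (x, y, z)) =
        (cc b * u b.a1 b.b1 x * u b.a3 b.b3 z) *
          ((Real.pi / (b.b2 - b.a2) * Real.cos (Real.pi * (y - b.a2) / (b.b2 - b.a2))) *
            dy f (x, y, z)) -
        (cc b * u b.a1 b.b1 x * u b.a3 b.b3 z) * ((Real.pi / (b.b2 - b.a2)) ^ 2 *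
          (Real.sin (Real.pi * (y - b.a2) / (b.b2 - b.a2)) * f (x, y, z))) := by
      intro y
      rw [dy_ef, ef_eq]
      unfold u'
      rw [show u b.a2 b.b2 y = Real.sin (Real.pi * (y - b.a2) / (b.b2 - b.a2)) from rfl]
      ring
    simp only [e3]
    rw [integral_sub, integral_const_mul, integral_const_mul, integral_const_mul, i1]
    · ring
    · exact ((by fun_prop : Continuous fun y => (cc b * u b.a1 b.b1 x * u b.a3 b.b3 z) *
          ((Real.pi / (b.b2 - b.a2) * Real.cos (Real.pi * (y - b.a2) / (b.b2 - b.a2))) *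
            dy f (x, y, z))).integrableOn_Icc (a := b.a2) (b := b.b2)).mono_set Ioo_subset_Icc_self
    · exact ((by fun_prop : Continuous fun y => (cc b * u b.a1 b.b1 x * u b.a3 b.b3 z) *
          ((Real.pi / (b.b2 - b.a2)) ^ 2 *
          (Real.sin (Real.pi * (y - b.a2) / (b.b2 - b.a2)) * f (x, y, z)))).integrableOn_Icc
            (a := b.a2) (b := b.b2)).mono_set Ioo_subset_Icc_self
  set K : ℝ × ℝ → ℝ := fun q => Aco b q * (f (q.1, q.2, b.b3) + f (q.1, q.2, b.a3)) with hK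
  have hKc : Continuous K := by
    have := cAco b
    rw [hK]; fun_prop
  have Z0 : ∫ p in b.set, (dz b.ef p * dz f p - (Real.pi / (b.b3 - b.a3)) ^ 2 * (b.ef p * f p) +
      (1 / (b.b3 - b.a3)) * K (p.1, p.2.1)) = 0 := by
    refine zero_z _ (by fun_prop) b fun x hxx y hyy => ?_
    have i1 := ibp1 b.a3 b.b3 h3 (fun t => f (x, y, t)) (fun t => dz f (x, y, t))
      (fun t => hasz f hfd x y t) (by fun_prop)
    have e3 : ∀ z, dz b.ef (x, y, z) * dz f (x, y, z) -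
        (Real.pi / (b.b3 - b.a3)) ^ 2 * (b.ef (x, y, z) * f (x, y, z)) +
          (1 / (b.b3 - b.a3)) * K (x, y) =
        (cc b * u b.a1 b.b1 x * u b.a2 b.b2 y) *
          ((Real.pi / (b.b3 - b.a3) * Real.cos (Real.pi * (z - b.a3) / (b.b3 - b.a3))) *
            dz f (x, y, z)) -
        (cc b * u b.a1 b.b1 x * u b.a2 b.b2 y) * ((Real.pi / (b.b3 - b.a3)) ^ 2 *
          (Real.sin (Real.pi * (z - b.a3) / (b.b3 - b.a3)) * f (x, y, z))) +
          (1 / (b.b3 - b.a3)) * K (x, y) := by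
      intro z
      rw [dz_ef, ef_eq]
      unfold u'
      rw [show u b.a3 b.b3 z = Real.sin (Real.pi * (z - b.a3) / (b.b3 - b.a3)) from rfl]
      ring
    simp only [e3]
    have I1 : IntegrableOn (fun z => (cc b * u b.a1 b.b1 x * u b.a2 b.b2 y) *
          ((Real.pi / (b.b3 - b.a3) * Real.cos (Real.pi * (z - b.a3) / (b.b3 - b.a3))) *
            dz f (x, y, z))) (Ioo b.a3 b.b3) :=
      ((by fun_prop : Continuous fun z => (cc b * u b.a1 b.b1 x * u b.a2 b.b2 y) *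
          ((Real.pi / (b.b3 - b.a3) * Real.cos (Real.pi * (z - b.a3) / (b.b3 - b.a3))) *
            dz f (x, y, z))).integrableOn_Icc (a := b.a3) (b := b.b3)).mono_set Ioo_subset_Icc_self
    have I2 : IntegrableOn (fun z => (cc b * u b.a1 b.b1 x * u b.a2 b.b2 y) *
          ((Real.pi / (b.b3 - b.a3)) ^ 2 *
          (Real.sin (Real.pi * (z - b.a3) / (b.b3 - b.a3)) * f (x, y, z)))) (Ioo b.a3 b.b3) :=
      ((by fun_prop : Continuous fun z => (cc b * u b.a1 b.b1 x * u b.a2 b.b2 y) *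
          ((Real.pi / (b.b3 - b.a3)) ^ 2 *
          (Real.sin (Real.pi * (z - b.a3) / (b.b3 - b.a3)) * f (x, y, z)))).integrableOn_Icc
            (a := b.a3) (b := b.b3)).mono_set Ioo_subset_Icc_self
    have I3 : IntegrableOn (fun _ : ℝ => (1 / (b.b3 - b.a3)) * K (x, y)) (Ioo b.a3 b.b3) :=
      ((by fun_prop : Continuous fun _ : ℝ => (1 / (b.b3 - b.a3)) * K (x, y)).integrableOn_Icc
        (a := b.a3) (b := b.b3)).mono_set Ioo_subset_Icc_self
    have I12 : IntegrableOn (fun z => (cc b * u b.a1 b.b1 x * u b.a2 b.b2 y) *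
          ((Real.pi / (b.b3 - b.a3) * Real.cos (Real.pi * (z - b.a3) / (b.b3 - b.a3))) *
            dz f (x, y, z)) - (cc b * u b.a1 b.b1 x * u b.a2 b.b2 y) *
          ((Real.pi / (b.b3 - b.a3)) ^ 2 *
          (Real.sin (Real.pi * (z - b.a3) / (b.b3 - b.a3)) * f (x, y, z)))) (Ioo b.a3 b.b3) :=
      I1.sub I2
    rw [integral_add I12 I3, integral_sub I1 I2, integral_const_mul, integral_const_mul,
      integral_const_mul, i1]
    have hne : b.b3 - b.a3 ≠ 0 := (sub_pos.2 h3).ne'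
    have e4 : ∫ _z in Ioo b.a3 b.b3, (1 / (b.b3 - b.a3)) * K (x, y) = K (x, y) := by
      simp only [integral_const, smul_eq_mul]
      rw [measureReal_restrict_apply_univ, Real.volume_real_Ioo_of_le h3.le]
      field_simp
    rw [e4, hK]
    simp only [Aco]
    ring
  have J1 : IntegrableOn (fun p => dx b.ef p * dx f p) b.set := intOn3 _ (by fun_prop) b
  have J2 : IntegrableOn (fun p => dy b.ef p * dy f p) b.set := intOn3 _ (by fun_prop) b
  have J3 : IntegrableOn (fun p => dz b.ef p * dz f p) b.set := intOn3 _ (by fun_prop) b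
  have J4 : IntegrableOn (fun p => b.ef p * f p) b.set := intOn3 _ (by fun_prop) b
  have J5 : IntegrableOn (fun p : P => (1 / (b.b3 - b.a3)) * K (p.1, p.2.1)) b.set :=
    intOn3 _ (by fun_prop) b
  rw [integral_sub J1 (J4.const_mul _), integral_const_mul] at X0
  rw [integral_sub J2 (J4.const_mul _), integral_const_mul] at Y0
  have J34 : IntegrableOn (fun p => dz b.ef p * dz f p -
      (Real.pi / (b.b3 - b.a3)) ^ 2 * (b.ef p * f p)) b.set := J3.sub (J4.const_mul _)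
  rw [integral_add J34 J5, integral_sub J3 (J4.const_mul _),
    integral_const_mul, flat K hKc b h3] at Z0
  unfold Box.L Box.l Box.mu
  have e5 : ∫ p in b.set, gb b.ef f p = (∫ p in b.set, dx b.ef p * dx f p) +
      (∫ p in b.set, dy b.ef p * dy f p) + ∫ p in b.set, dz b.ef p * dz f p := by
    unfold gb
    have J12 : IntegrableOn (fun p => dx b.ef p * dx f p + dy b.ef p * dy f p) b.set := J1.add J2
    rw [integral_add J12 J3, integral_add J1 J2]
  rw [e5]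
  have e6 : Real.pi ^ 2 * (1 / (b.b1 - b.a1) ^ 2 + 1 / (b.b2 - b.a2) ^ 2 + 1 / (b.b3 - b.a3) ^ 2) =
      (Real.pi / (b.b1 - b.a1)) ^ 2 + (Real.pi / (b.b2 - b.a2)) ^ 2 +
        (Real.pi / (b.b3 - b.a3)) ^ 2 := by
    rw [div_pow, div_pow, div_pow]; ring
  rw [e6]
  linarith


/-! ### windows -/

theorem wsum {κ : Type} (S : Finset κ) (W : κ → Set (ℝ × ℝ)) (F : Set (ℝ × ℝ)) (G : ℝ × ℝ → ℝ)
    (hF : MeasurableSet F) (hW : ∀ k ∈ S, MeasurableSet (W k))
    (hd : Set.Pairwise (S : Set κ) (Function.onFun Disjoint W)) (hi : ∀ k ∈ S, IntegrableOn G (W k))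
    (hsub : ∀ k ∈ S, W k ⊆ F) (h0 : ∀ q ∈ F, (∀ k ∈ S, q ∉ W k) → G q = 0) :
    ∫ q in F, G q = ∑ k ∈ S, ∫ q in W k, G q := by
  rw [← integral_biUnion_finset S hW hd hi]
  refine setIntegral_eq_of_subset_of_forall_sdiff_eq_zero hF ?_ ?_
  · exact iUnion₂_subset hsub
  · rintro q ⟨hq, hq2⟩
    refine h0 q hq fun k hk hqk => hq2 ?_
    exact mem_iUnion₂.2 ⟨k, hk, hqk⟩

theorem werr (A g : ℝ × ℝ → ℝ) (hA : Continuous A) (hg : Continuous g) (a b c d a0 ε : ℝ)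
    (h : ∀ q ∈ Ioo a b ×ˢ Ioo c d, |A q - a0| ≤ ε) :
    |(∫ q in Ioo a b ×ˢ Ioo c d, A q * g q) - a0 * ∫ q in Ioo a b ×ˢ Ioo c d, g q| ≤
      ε * ∫ q in Ioo a b ×ˢ Ioo c d, |g q| := by
  rw [← integral_const_mul, ← integral_sub (intOn2 _ (by fun_prop) _ _ _ _)
    (intOn2 _ (by fun_prop) _ _ _ _), ← integral_const_mul, ← Real.norm_eq_abs]
  refine norm_integral_le_of_norm_le (intOn2 (fun q => ε * |g q|) (by fun_prop) _ _ _ _) ?_
  filter_upwards [ae_restrict_mem (measurableSet_Ioo.prod measurableSet_Ioo)] with q hq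
  rw [Real.norm_eq_abs, show A q * g q - a0 * g q = (A q - a0) * g q by ring, abs_mul]
  exact mul_le_mul_of_nonneg_right (h q hq) (abs_nonneg _)

theorem u_abs (a b t : ℝ) : |u a b t| ≤ 1 := Real.abs_sin_le_one _

theorem u_lip (a b t t' : ℝ) (h : 1 ≤ b - a) : |u a b t - u a b t'| ≤ Real.pi * |t - t'| := by
  unfold u
  have hb : 0 < b - a := by linarith
  have h1 : |Real.sin (Real.pi * (t - a) / (b - a)) - Real.sin (Real.pi * (t' - a) / (b - a))| ≤
      |Real.pi * (t - a) / (b - a) - Real.pi * (t' - a) / (b - a)| := by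
    have := Real.abs_sin_sub_sin_le (Real.pi * (t - a) / (b - a)) (Real.pi * (t' - a) / (b - a))
    simpa using this
  refine h1.trans ?_
  have e : Real.pi * (t - a) / (b - a) - Real.pi * (t' - a) / (b - a) =
      Real.pi * (t - t') / (b - a) := by ring
  rw [e, abs_div, abs_mul, abs_of_pos Real.pi_pos, abs_of_pos hb]
  exact div_le_self (by positivity) h

theorem ulow (a b t δ : ℝ) (hab : a < b) (h1 : a + δ ≤ t) (h2 : t ≤ b - δ) (hδ : 0 < δ) :
    2 * δ / (b - a) ≤ u a b t := by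
  unfold u
  have hL : 0 < b - a := by linarith
  have hp := Real.pi_pos
  rcases le_total (t - a) ((b - a) / 2) with h | h
  · have h3 := Real.mul_le_sin (x := Real.pi * (t - a) / (b - a))
      (by have : 0 ≤ t - a := by linarith
          positivity)
      (by rw [div_le_iff₀ hL]; nlinarith)
    refine le_trans ?_ h3
    have e : 2 / Real.pi * (Real.pi * (t - a) / (b - a)) = 2 * (t - a) / (b - a) := by
      field_simp
    rw [e]
    exact div_le_div_of_nonneg_right (by linarith) hL.le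
  · have e0 : Real.sin (Real.pi * (t - a) / (b - a)) = Real.sin (Real.pi * (b - t) / (b - a)) := by
      rw [← Real.sin_pi_sub]
      congr 1
      field_simp
      ring
    rw [e0]
    have h3 := Real.mul_le_sin (x := Real.pi * (b - t) / (b - a))
      (by have : 0 ≤ b - t := by linarith
          positivity)
      (by rw [div_le_iff₀ hL]; nlinarith)
    refine le_trans ?_ h3
    have e : 2 / Real.pi * (Real.pi * (b - t) / (b - a)) = 2 * (b - t) / (b - a) := by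
      field_simp
    rw [e]
    exact div_le_div_of_nonneg_right (by linarith) hL.le

/-- a box with third side one and area of the footprint at most `Q` -/
structure Bx (b : Box) (Q : ℝ) : Prop where
  s1 : 1 ≤ b.b1 - b.a1
  s2 : 1 ≤ b.b2 - b.a2
  s3 : b.b3 - b.a3 = 1
  ar : (b.b1 - b.a1) * (b.b2 - b.a2) ≤ Q

theorem cc_le (b : Box) (Q : ℝ) (hb : Bx b Q) : cc b ≤ 3 := by
  unfold cc
  rw [hb.s3, mul_one]
  have h : 1 ≤ (b.b1 - b.a1) * (b.b2 - b.a2) := one_le_mul_of_one_le_of_one_le hb.s1 hb.s2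
  have h2 : 8 / ((b.b1 - b.a1) * (b.b2 - b.a2)) ≤ 8 := div_le_self (by norm_num) h
  calc √(8 / ((b.b1 - b.a1) * (b.b2 - b.a2))) ≤ √(3 ^ 2) := Real.sqrt_le_sqrt (by linarith)
    _ = 3 := Real.sqrt_sq (by norm_num)

theorem cc_ge (b : Box) (Q : ℝ) (hb : Bx b Q) : 1 / Q ≤ cc b := by
  unfold cc
  rw [hb.s3, mul_one]
  have h : 1 ≤ (b.b1 - b.a1) * (b.b2 - b.a2) := one_le_mul_of_one_le_of_one_le hb.s1 hb.s2
  have hQ : 1 ≤ Q := h.trans hb.ar
  have hQ0 : 0 < Q := by linarith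
  have h0 : 0 < (b.b1 - b.a1) * (b.b2 - b.a2) := by linarith
  rw [Real.le_sqrt' (by positivity), div_pow, one_pow]
  rw [div_le_div_iff₀ (by positivity) h0]
  nlinarith [hb.ar]

theorem cc_nonneg (b : Box) : 0 ≤ cc b := Real.sqrt_nonneg _

theorem A_abs (b : Box) (Q : ℝ) (hb : Bx b Q) (q : ℝ × ℝ) : |Aco b q| ≤ 3 * Real.pi := by
  unfold Aco
  rw [hb.s3, div_one, abs_mul, abs_mul, abs_mul, abs_of_pos Real.pi_pos,
    abs_of_nonneg (cc_nonneg b)]
  have h1 := u_abs b.a1 b.b1 q.1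
  have h2 := u_abs b.a2 b.b2 q.2
  have h3 := cc_le b Q hb
  have h4 := cc_nonneg b
  have h5 : |u b.a1 b.b1 q.1| * |u b.a2 b.b2 q.2| ≤ 1 :=
    mul_le_one₀ h1 (abs_nonneg _) h2
  have h6 : 0 ≤ |u b.a1 b.b1 q.1| * |u b.a2 b.b2 q.2| := by positivity
  calc Real.pi * cc b * (|u b.a1 b.b1 q.1| * |u b.a2 b.b2 q.2|) ≤ Real.pi * 3 * 1 := by
        apply mul_le_mul _ h5 h6 (by positivity)
        exact mul_le_mul_of_nonneg_left h3 Real.pi_pos.le
    _ = 3 * Real.pi := by ring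

theorem A_lip (b : Box) (Q : ℝ) (hb : Bx b Q) (q q' : ℝ × ℝ) (w : ℝ) (h1 : |q.1 - q'.1| ≤ w)
    (h2 : |q.2 - q'.2| ≤ w) : |Aco b q - Aco b q'| ≤ 6 * Real.pi ^ 2 * w := by
  unfold Aco
  rw [hb.s3, div_one, ← mul_sub, abs_mul, abs_mul, abs_of_pos Real.pi_pos,
    abs_of_nonneg (cc_nonneg b)]
  have e : u b.a1 b.b1 q.1 * u b.a2 b.b2 q.2 - u b.a1 b.b1 q'.1 * u b.a2 b.b2 q'.2 =
      (u b.a1 b.b1 q.1 - u b.a1 b.b1 q'.1) * u b.a2 b.b2 q.2 +
        u b.a1 b.b1 q'.1 * (u b.a2 b.b2 q.2 - u b.a2 b.b2 q'.2) := by ring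
  have hw : 0 ≤ w := (abs_nonneg _).trans h1
  have l1 := (u_lip b.a1 b.b1 q.1 q'.1 hb.s1).trans (mul_le_mul_of_nonneg_left h1 Real.pi_pos.le)
  have l2 := (u_lip b.a2 b.b2 q.2 q'.2 hb.s2).trans (mul_le_mul_of_nonneg_left h2 Real.pi_pos.le)
  have b1 := u_abs b.a2 b.b2 q.2
  have b2 := u_abs b.a1 b.b1 q'.1
  have h3 : |u b.a1 b.b1 q.1 * u b.a2 b.b2 q.2 - u b.a1 b.b1 q'.1 * u b.a2 b.b2 q'.2| ≤
      2 * (Real.pi * w) := by
    rw [e]
    refine (abs_add_le _ _).trans ?_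
    rw [abs_mul, abs_mul]
    have hpw : 0 ≤ Real.pi * w := by positivity
    have t1 : |u b.a1 b.b1 q.1 - u b.a1 b.b1 q'.1| * |u b.a2 b.b2 q.2| ≤ Real.pi * w * 1 :=
      mul_le_mul l1 b1 (abs_nonneg _) hpw
    have t2 : |u b.a1 b.b1 q'.1| * |u b.a2 b.b2 q.2 - u b.a2 b.b2 q'.2| ≤ 1 * (Real.pi * w) :=
      mul_le_mul b2 l2 (abs_nonneg _) zero_le_one
    linarith
  calc Real.pi * cc b * |u b.a1 b.b1 q.1 * u b.a2 b.b2 q.2 - u b.a1 b.b1 q'.1 * u b.a2 b.b2 q'.2| ≤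
        Real.pi * 3 * (2 * (Real.pi * w)) := by
        apply mul_le_mul _ h3 (abs_nonneg _) (by positivity)
        exact mul_le_mul_of_nonneg_left (cc_le b Q hb) Real.pi_pos.le
    _ = 6 * Real.pi ^ 2 * w := by ring

theorem A_low (b : Box) (Q : ℝ) (hb : Bx b Q) (q : ℝ × ℝ) (h1 : b.a1 + 1 / 2 ≤ q.1)
    (h2 : q.1 ≤ b.b1 - 1 / 2) (h3 : b.a2 + 1 / 2 ≤ q.2) (h4 : q.2 ≤ b.b2 - 1 / 2) :
    Real.pi * (1 / Q) * (1 / Q) ≤ Aco b q := by
  unfold Aco
  have s1 := hb.s1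
  have s2 := hb.s2
  have l1 := ulow b.a1 b.b1 q.1 (1 / 2) (by linarith) h1 h2 (by norm_num)
  have l2 := ulow b.a2 b.b2 q.2 (1 / 2) (by linarith) h3 h4 (by norm_num)
  rw [show (2 : ℝ) * (1 / 2) = 1 by norm_num] at l1 l2
  rw [hb.s3, div_one]
  have hA : 1 ≤ (b.b1 - b.a1) * (b.b2 - b.a2) := one_le_mul_of_one_le_of_one_le s1 s2
  have hQ : 1 ≤ Q := hA.trans hb.ar
  have p1 : 0 < b.b1 - b.a1 := by linarith
  have p2 : 0 < b.b2 - b.a2 := by linarith
  have l3 : 1 / Q ≤ u b.a1 b.b1 q.1 * u b.a2 b.b2 q.2 := by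
    calc 1 / Q ≤ 1 / ((b.b1 - b.a1) * (b.b2 - b.a2)) :=
          one_div_le_one_div_of_le (by positivity) hb.ar
      _ = 1 / (b.b1 - b.a1) * (1 / (b.b2 - b.a2)) := by field_simp
      _ ≤ _ := mul_le_mul l1 l2 (by positivity) (le_trans (by positivity) l1)
  have l4 := cc_ge b Q hb
  have hQ0 : 0 < Q := by linarith
  apply mul_le_mul _ l3 (by positivity)
  · have := cc_nonneg b
    positivity
  · exact mul_le_mul_of_nonneg_left l4 Real.pi_pos.le


/-! ### the bars -/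

theorem mem_Om (m n : ℕ) (inc : Fin m → Fin n → Prop) (M w : ℝ) (s : Idx m n → ℝ) (x y z : ℝ) :
    (x, y, z) ∈ Om m n inc M w s ↔
      (∃ i : Fin m, (-s (Sum.inl i) < x ∧ x < M) ∧ (2 * ((i : ℕ) : ℝ) < y ∧ y < 2 * ((i : ℕ) : ℝ) + 1) ∧
        (0 < z ∧ z < 1)) ∨
      (∃ j : Fin n, (2 * ((j : ℕ) : ℝ) < x ∧ x < 2 * ((j : ℕ) : ℝ) + 1) ∧
        (-s (Sum.inr j) < y ∧ y < M) ∧ (1 < z ∧ z < 2)) ∨
      ∃ (i : Fin m) (j : Fin n), inc i j ∧
        (2 * ((j : ℕ) : ℝ) + 1 / 2 - w < x ∧ x < 2 * ((j : ℕ) : ℝ) + 1 / 2 + w) ∧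
        (2 * ((i : ℕ) : ℝ) + 1 / 2 - w < y ∧ y < 2 * ((i : ℕ) : ℝ) + 1 / 2 + w) ∧
        (1 - w < z ∧ z < 1 + w) := by
  unfold Om
  rw [mem_union, mem_iUnion, Sum.exists, mem_iUnion]
  simp only [mem_iUnion, bar, Box.set, cube, ctr, mem_prod, mem_Ioo, exists_prop, or_assoc]

theorem nat_loc (i i' : ℕ) (y : ℝ) (h1 : 2 * (i : ℝ) ≤ y) (h2 : y ≤ 2 * (i : ℝ) + 1)
    (h3 : 2 * (i' : ℝ) < y) (h4 : y < 2 * (i' : ℝ) + 1) : i = i' := by
  have h5 : 2 * (i : ℝ) < 2 * (i' : ℝ) + 1 := by linarith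
  have h6 : 2 * (i' : ℝ) < 2 * (i : ℝ) + 1 := by linarith
  have h7 : 2 * i < 2 * i' + 1 := by exact_mod_cast h5
  have h8 : 2 * i' < 2 * i + 1 := by exact_mod_cast h6
  omega

theorem f_zero (Ω : Set P) (f : P → ℝ) (hf : f ∈ Dc Ω) (p : P) (hp : p ∉ Ω) : f p = 0 := by
  by_contra h
  exact hp (hf.2.2 (subset_tsupport f (Function.mem_support.2 h)))

/-- everything about one bar that is needed -/
structure BarFacts (m n : ℕ) (inc : Fin m → Fin n → Prop) (M w : ℝ) (s : Idx m n → ℝ)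
    (v : Idx m n) : Prop where
  bx : Bx (bar m n M s v) (M + 1)
  hx : ∀ y ∈ Ioo (bar m n M s v).a2 (bar m n M s v).b2,
    ∀ z ∈ Ioo (bar m n M s v).a3 (bar m n M s v).b3,
    ((bar m n M s v).a1, y, z) ∉ Om m n inc M w s ∧ ((bar m n M s v).b1, y, z) ∉ Om m n inc M w s
  hy : ∀ x ∈ Ioo (bar m n M s v).a1 (bar m n M s v).b1,
    ∀ z ∈ Ioo (bar m n M s v).a3 (bar m n M s v).b3,
    (x, (bar m n M s v).a2, z) ∉ Om m n inc M w s ∧ (x, (bar m n M s v).b2, z) ∉ Om m n inc M w s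
  hz : ∀ f ∈ Dc (Om m n inc M w s), ∀ x ∈ Ioo (bar m n M s v).a1 (bar m n M s v).b1,
    ∀ y ∈ Ioo (bar m n M s v).a2 (bar m n M s v).b2,
    f (x, y, (bar m n M s v).b3) + f (x, y, (bar m n M s v).a3) = f (x, y, 1)
  ce : ∀ (i : Fin m) (j : Fin n), (v = Sum.inl i ∨ v = Sum.inr j) →
    ((bar m n M s v).a1 + 1 / 2 ≤ 2 * ((j : ℕ) : ℝ) + 1 / 2 ∧
      2 * ((j : ℕ) : ℝ) + 1 / 2 ≤ (bar m n M s v).b1 - 1 / 2) ∧
    ((bar m n M s v).a2 + 1 / 2 ≤ 2 * ((i : ℕ) : ℝ) + 1 / 2 ∧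
      2 * ((i : ℕ) : ℝ) + 1 / 2 ≤ (bar m n M s v).b2 - 1 / 2)
  lo : ∀ x ∈ Ioo (bar m n M s v).a1 (bar m n M s v).b1,
    ∀ y ∈ Ioo (bar m n M s v).a2 (bar m n M s v).b2, (x, y, (1 : ℝ)) ∈ Om m n inc M w s →
    ∃ (i : Fin m) (j : Fin n), inc i j ∧ (v = Sum.inl i ∨ v = Sum.inr j) ∧
      (2 * ((j : ℕ) : ℝ) + 1 / 2 - w < x ∧ x < 2 * ((j : ℕ) : ℝ) + 1 / 2 + w) ∧
      (2 * ((i : ℕ) : ℝ) + 1 / 2 - w < y ∧ y < 2 * ((i : ℕ) : ℝ) + 1 / 2 + w)

theorem fin_le (n : ℕ) (M : ℝ) (h : 2 * (n : ℝ) ≤ M) (j : Fin n) :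
    2 * ((j : ℕ) : ℝ) + 2 ≤ M := by
  have h1 : (j : ℕ) + 1 ≤ n := j.2
  have h2 : ((j : ℕ) : ℝ) + 1 ≤ (n : ℝ) := by exact_mod_cast h1
  linarith

theorem barFacts (m n : ℕ) (inc : Fin m → Fin n → Prop) (M w : ℝ) (s : Idx m n → ℝ) (hM : 1 ≤ M)
    (hm : 2 * (m : ℝ) ≤ M) (hn : 2 * (n : ℝ) ≤ M) (hw : 0 < w) (hw8 : w ≤ 1 / 8)
    (hs : ∀ v, |s v - 1 / 2| ≤ 1 / 4) (v : Idx m n) : BarFacts m n inc M w s v := by
  have hs' : ∀ v, 1 / 4 ≤ s v ∧ s v ≤ 3 / 4 := fun v => by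
    have := abs_le.1 (hs v)
    constructor <;> linarith [this.1, this.2]
  have hj : ∀ j : Fin n, 2 * ((j : ℕ) : ℝ) + 2 ≤ M := fin_le n M hn
  have hi : ∀ i : Fin m, 2 * ((i : ℕ) : ℝ) + 2 ≤ M := fin_le m M hm
  have h0 : ∀ k : ℕ, (0 : ℝ) ≤ (k : ℝ) := fun k => Nat.cast_nonneg k
  rcases v with i | j
  · obtain ⟨hs1, hs2⟩ := hs' (Sum.inl i)
    refine ⟨⟨?_, ?_, ?_, ?_⟩, ?_, ?_, ?_, ?_, ?_⟩
    · show 1 ≤ M - -s (Sum.inl i); linarith
    · show 1 ≤ (2 * ((i : ℕ) : ℝ) + 1) - 2 * ((i : ℕ) : ℝ); linarith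
    · show (1 : ℝ) - 0 = 1; norm_num
    · show (M - -s (Sum.inl i)) * ((2 * ((i : ℕ) : ℝ) + 1) - 2 * ((i : ℕ) : ℝ)) ≤ M + 1
      nlinarith
    · intro y hy z hz
      change y ∈ Ioo (2 * ((i : ℕ) : ℝ)) (2 * ((i : ℕ) : ℝ) + 1) at hy
      change z ∈ Ioo (0 : ℝ) 1 at hz
      refine ⟨?_, ?_⟩
      · change ((-s (Sum.inl i), y, z) : P) ∉ _
        rw [mem_Om]
        rintro (⟨i', ⟨a, -⟩, ⟨c, d⟩, -⟩ | ⟨j', -, -, ⟨a, -⟩⟩ | ⟨i', j', -, ⟨a, c⟩, -, -⟩)
        · have e : i = i' := Fin.ext (nat_loc _ _ y hy.1.le hy.2.le c d)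
          subst e; exact lt_irrefl _ a
        · linarith [hz.2]
        · have := h0 j'; linarith
      · change ((M, y, z) : P) ∉ _
        rw [mem_Om]
        rintro (⟨i', ⟨-, a⟩, -, -⟩ | ⟨j', -, -, ⟨a, -⟩⟩ | ⟨i', j', -, ⟨a, c⟩, -, -⟩)
        · exact lt_irrefl _ a
        · linarith [hz.2]
        · have := hj j'; linarith
    · intro x hx z hz
      change x ∈ Ioo (-s (Sum.inl i)) M at hx
      change z ∈ Ioo (0 : ℝ) 1 at hz
      refine ⟨?_, ?_⟩
      · change ((x, 2 * ((i : ℕ) : ℝ), z) : P) ∉ _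
        rw [mem_Om]
        rintro (⟨i', -, ⟨c, d⟩, -⟩ | ⟨j', -, -, ⟨a, -⟩⟩ | ⟨i', j', -, -, ⟨c, d⟩, -⟩)
        · have e := nat_loc i i' _ le_rfl (by linarith) c d
          rw [e] at c; exact lt_irrefl _ c
        · linarith [hz.2]
        · have e := nat_loc i i' _ le_rfl (by linarith) (by linarith) (by linarith)
          rw [e] at c; linarith
      · change ((x, 2 * ((i : ℕ) : ℝ) + 1, z) : P) ∉ _
        rw [mem_Om]
        rintro (⟨i', -, ⟨c, d⟩, -⟩ | ⟨j', -, -, ⟨a, -⟩⟩ | ⟨i', j', -, -, ⟨c, d⟩, -⟩)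
        · have e := nat_loc i i' _ (by linarith) le_rfl c d
          rw [e] at d; exact lt_irrefl _ d
        · linarith [hz.2]
        · have e := nat_loc i i' _ (by linarith) le_rfl (by linarith) (by linarith)
          rw [e] at d; linarith
    · intro f hf x hx y hy
      change f (x, y, 1) + f (x, y, 0) = f (x, y, 1)
      rw [f_zero _ f hf (x, y, 0), add_zero]
      rw [mem_Om]
      rintro (⟨i', -, -, ⟨a, -⟩⟩ | ⟨j', -, -, ⟨a, -⟩⟩ | ⟨i', j', -, -, -, ⟨a, -⟩⟩)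
      · exact lt_irrefl _ a
      · linarith
      · linarith
    · rintro i' j' (h | h)
      · rw [Sum.inl.injEq] at h
        subst h
        refine ⟨⟨?_, ?_⟩, ?_, ?_⟩
        · show -s (Sum.inl i) + 1 / 2 ≤ _
          have := h0 j'; linarith
        · show _ ≤ M - 1 / 2
          have := hj j'; linarith
        · show 2 * ((i : ℕ) : ℝ) + 1 / 2 ≤ _; exact le_rfl
        · show _ ≤ 2 * ((i : ℕ) : ℝ) + 1 - 1 / 2; linarith
      · exact absurd h (by simp)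
    · intro x hx y hy h
      change y ∈ Ioo (2 * ((i : ℕ) : ℝ)) (2 * ((i : ℕ) : ℝ) + 1) at hy
      rw [mem_Om] at h
      rcases h with ⟨i', -, -, ⟨-, a⟩⟩ | ⟨j', -, -, ⟨a, -⟩⟩ | ⟨i', j', hin, h1, h2, -⟩
      · exact absurd a (lt_irrefl _)
      · exact absurd a (lt_irrefl _)
      · have e : i = i' := Fin.ext (nat_loc _ _ y hy.1.le hy.2.le (by linarith [h2.1])
          (by linarith [h2.2]))
        exact ⟨i', j', hin, Or.inl (by rw [e]), h1, h2⟩
  · obtain ⟨hs1, hs2⟩ := hs' (Sum.inr j)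
    refine ⟨⟨?_, ?_, ?_, ?_⟩, ?_, ?_, ?_, ?_, ?_⟩
    · show 1 ≤ (2 * ((j : ℕ) : ℝ) + 1) - 2 * ((j : ℕ) : ℝ); linarith
    · show 1 ≤ M - -s (Sum.inr j); linarith
    · show (2 : ℝ) - 1 = 1; norm_num
    · show ((2 * ((j : ℕ) : ℝ) + 1) - 2 * ((j : ℕ) : ℝ)) * (M - -s (Sum.inr j)) ≤ M + 1
      nlinarith
    · intro y hy z hz
      change y ∈ Ioo (-s (Sum.inr j)) M at hy
      change z ∈ Ioo (1 : ℝ) 2 at hz
      refine ⟨?_, ?_⟩
      · change ((2 * ((j : ℕ) : ℝ), y, z) : P) ∉ _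
        rw [mem_Om]
        rintro (⟨i', -, -, ⟨-, a⟩⟩ | ⟨j', ⟨c, d⟩, -, -⟩ | ⟨i', j', -, ⟨c, d⟩, -, -⟩)
        · linarith [hz.1]
        · have e := nat_loc j j' _ le_rfl (by linarith) c d
          rw [e] at c; exact lt_irrefl _ c
        · have e := nat_loc j j' _ le_rfl (by linarith) (by linarith) (by linarith)
          rw [e] at c; linarith
      · change ((2 * ((j : ℕ) : ℝ) + 1, y, z) : P) ∉ _
        rw [mem_Om]
        rintro (⟨i', -, -, ⟨-, a⟩⟩ | ⟨j', ⟨c, d⟩, -, -⟩ | ⟨i', j', -, ⟨c, d⟩, -, -⟩)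
        · linarith [hz.1]
        · have e := nat_loc j j' _ (by linarith) le_rfl c d
          rw [e] at d; exact lt_irrefl _ d
        · have e := nat_loc j j' _ (by linarith) le_rfl (by linarith) (by linarith)
          rw [e] at d; linarith
    · intro x hx z hz
      change x ∈ Ioo (2 * ((j : ℕ) : ℝ)) (2 * ((j : ℕ) : ℝ) + 1) at hx
      change z ∈ Ioo (1 : ℝ) 2 at hz
      refine ⟨?_, ?_⟩
      · change ((x, -s (Sum.inr j), z) : P) ∉ _
        rw [mem_Om]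
        rintro (⟨i', -, -, ⟨-, a⟩⟩ | ⟨j', ⟨c, d⟩, ⟨a, -⟩, -⟩ | ⟨i', j', -, -, ⟨a, c⟩, -⟩)
        · linarith [hz.1]
        · have e : j = j' := Fin.ext (nat_loc _ _ x hx.1.le hx.2.le c d)
          subst e; exact lt_irrefl _ a
        · have := h0 i'; linarith
      · change ((x, M, z) : P) ∉ _
        rw [mem_Om]
        rintro (⟨i', -, -, ⟨-, a⟩⟩ | ⟨j', -, ⟨-, a⟩, -⟩ | ⟨i', j', -, -, ⟨a, c⟩, -⟩)
        · linarith [hz.1]
        · exact lt_irrefl _ a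
        · have := hi i'; linarith
    · intro f hf x hx y hy
      change f (x, y, 2) + f (x, y, 1) = f (x, y, 1)
      rw [f_zero _ f hf (x, y, 2), zero_add]
      rw [mem_Om]
      rintro (⟨i', -, -, ⟨-, a⟩⟩ | ⟨j', -, -, ⟨-, a⟩⟩ | ⟨i', j', -, -, -, ⟨-, a⟩⟩)
      · linarith
      · exact lt_irrefl _ a
      · linarith
    · rintro i' j' (h | h)
      · exact absurd h (by simp)
      · rw [Sum.inr.injEq] at h
        subst h
        refine ⟨⟨?_, ?_⟩, ?_, ?_⟩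
        · show 2 * ((j : ℕ) : ℝ) + 1 / 2 ≤ _; exact le_rfl
        · show _ ≤ 2 * ((j : ℕ) : ℝ) + 1 - 1 / 2; linarith
        · show -s (Sum.inr j) + 1 / 2 ≤ _
          have := h0 i'; linarith
        · show _ ≤ M - 1 / 2
          have := hi i'; linarith
    · intro x hx y hy h
      change x ∈ Ioo (2 * ((j : ℕ) : ℝ)) (2 * ((j : ℕ) : ℝ) + 1) at hx
      rw [mem_Om] at h
      rcases h with ⟨i', -, -, ⟨-, a⟩⟩ | ⟨j', -, -, ⟨a, -⟩⟩ | ⟨i', j', hin, h1, h2, -⟩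
      · exact absurd a (lt_irrefl _)
      · exact absurd a (lt_irrefl _)
      · have e : j = j' := Fin.ext (nat_loc _ _ x hx.1.le hx.2.le (by linarith [h1.1])
          (by linarith [h1.2]))
        exact ⟨i', j', hin, Or.inr (by rw [e]), h1, h2⟩


/-! ### energy -/

theorem gb_nonneg (f : P → ℝ) (p : P) : 0 ≤ gb f f p := by
  unfold gb; nlinarith [mul_self_nonneg (dx f p), mul_self_nonneg (dy f p), mul_self_nonneg (dz f p)]

theorem gb_int (f : P → ℝ) (hf : ContDiff ℝ ∞ f) (hc : HasCompactSupport f) :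
    Integrable (gb f f) := by
  obtain ⟨c1, c2, c3⟩ := cont_d f hf
  have h1 : HasCompactSupport (fderiv ℝ f) := hc.fderiv ℝ
  have h2 : gb f f = (fun L : P →L[ℝ] ℝ => L (1, 0, 0) * L (1, 0, 0) + L (0, 1, 0) * L (0, 1, 0) +
      L (0, 0, 1) * L (0, 0, 1)) ∘ fderiv ℝ f := rfl
  have h3 : HasCompactSupport (gb f f) := by
    rw [h2]
    exact h1.comp_left (by simp)
  have h4 : Continuous (gb f f) := by
    unfold gb
    exact ((c1.mul c1).add (c2.mul c2)).add (c3.mul c3)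
  exact h4.integrable_of_hasCompactSupport h3

theorem main (hT : TaskTRACE) (hG : TaskGEO) : TaskGREEN := by
  classical
  intro m n inc M hM hm hn
  have hM0 : 0 < M + 1 := by linarith
  have hpi := Real.pi_pos
  refine ⟨48 * Real.pi ^ 2 * ((m : ℝ) * (n : ℝ) + 1), Real.pi * (1 / (M + 1)) * (1 / (M + 1)),
    by positivity, by positivity, ?_⟩
  intro w hw hw8 s hs
  have BF := barFacts m n inc M w s hM hm hn hw hw8 hs
  refine ⟨fun v i j => if inc i j ∧ (v = Sum.inl i ∨ v = Sum.inr j) then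
    Aco (bar m n M s v) (2 * ((j : ℕ) : ℝ) + 1 / 2, 2 * ((i : ℕ) : ℝ) + 1 / 2) else 0,
    ?_, ?_, ?_, ?_⟩
  · intro v i j hin hv
    beta_reduce
    rw [if_pos ⟨hin, hv⟩]
    obtain ⟨⟨a, b⟩, c, d⟩ := (BF v).ce i j hv
    exact A_low _ _ (BF v).bx _ a b c d
  · intro v i j
    have h3 : 3 * Real.pi ≤ 48 * Real.pi ^ 2 * ((m : ℝ) * (n : ℝ) + 1) := by
      have h4 : (0 : ℝ) ≤ (m : ℝ) * (n : ℝ) := by positivity
      have h5 : (1 : ℝ) ≤ Real.pi := by linarith [Real.pi_gt_three]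
      nlinarith [mul_nonneg (sq_nonneg Real.pi) h4]
    beta_reduce
    split_ifs with h
    · exact (A_abs _ _ (BF v).bx _).trans h3
    · rw [abs_zero]; positivity
  · intro v i j h
    beta_reduce
    rw [if_neg h]
  · intro v f hf
    have B := BF v
    set b := bar m n M s v with hb
    have hfs : ContDiff ℝ ∞ f := hf.1
    have hfc : Continuous f := hfs.continuous
    have hfU : f ∈ Dc univ := ⟨hf.1, hf.2.1, subset_univ _⟩
    have s1 := B.bx.s1
    have s2 := B.bx.s2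
    have s3 := B.bx.s3
    have hgreen := green b (by linarith) (by linarith) (by linarith) f hfs
      (fun y hy z hz => ⟨f_zero _ f hf _ (B.hx y hy z hz).1, f_zero _ f hf _ (B.hx y hy z hz).2⟩)
      (fun x hx z hz => ⟨f_zero _ f hf _ (B.hy x hx z hz).1, f_zero _ f hf _ (B.hy x hx z hz).2⟩)
    have hAc := cAco b
    have hg2 : b.L f = ∫ q in Ioo b.a1 b.b1 ×ˢ Ioo b.a2 b.b2, Aco b q * f (q.1, q.2, 1) := by
      rw [hgreen]
      refine setIntegral_congr_fun (measurableSet_Ioo.prod measurableSet_Ioo) ?_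
      rintro ⟨x, y⟩ ⟨hx, hy⟩
      show Aco b (x, y) * _ = _
      rw [B.hz f hf x hx y hy]
    let S : Finset (Fin m × Fin n) :=
      Finset.univ.filter fun k => inc k.1 k.2 ∧ (v = Sum.inl k.1 ∨ v = Sum.inr k.2)
    let W : Fin m × Fin n → Set (ℝ × ℝ) := fun k =>
      Ioo (2 * ((k.2 : ℕ) : ℝ) + 1 / 2 - w) (2 * ((k.2 : ℕ) : ℝ) + 1 / 2 + w) ×ˢ
        Ioo (2 * ((k.1 : ℕ) : ℝ) + 1 / 2 - w) (2 * ((k.1 : ℕ) : ℝ) + 1 / 2 + w)
    have hS : ∀ k, k ∈ S ↔ inc k.1 k.2 ∧ (v = Sum.inl k.1 ∨ v = Sum.inr k.2) := fun k => by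
      simp [S]
    have hsum : ∫ q in Ioo b.a1 b.b1 ×ˢ Ioo b.a2 b.b2, Aco b q * f (q.1, q.2, 1) =
        ∑ k ∈ S, ∫ q in W k, Aco b q * f (q.1, q.2, 1) := by
      refine wsum S W _ _ (measurableSet_Ioo.prod measurableSet_Ioo)
        (fun k _ => measurableSet_Ioo.prod measurableSet_Ioo) ?_
        (fun k _ => intOn2 (fun q => Aco b q * f (q.1, q.2, 1)) (by fun_prop) _ _ _ _) ?_ ?_
      · intro k _ k' _ hkk
        rw [Function.onFun, Set.disjoint_left]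
        rintro ⟨x, y⟩ ⟨hx, hy⟩ ⟨hx', hy'⟩
        apply hkk
        have e1 : (k.2 : ℕ) = (k'.2 : ℕ) := nat_loc _ _ x (by linarith [hx.1]) (by linarith [hx.2])
          (by linarith [hx'.1]) (by linarith [hx'.2])
        have e2 : (k.1 : ℕ) = (k'.1 : ℕ) := nat_loc _ _ y (by linarith [hy.1]) (by linarith [hy.2])
          (by linarith [hy'.1]) (by linarith [hy'.2])
        exact Prod.ext (Fin.ext e2) (Fin.ext e1)
      · intro k hk
        obtain ⟨⟨a1, a2⟩, a3, a4⟩ := B.ce k.1 k.2 ((hS k).1 hk).2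
        rintro ⟨x, y⟩ ⟨hx, hy⟩
        exact ⟨⟨by linarith [hx.1], by linarith [hx.2]⟩, ⟨by linarith [hy.1], by linarith [hy.2]⟩⟩
      · rintro ⟨x, y⟩ ⟨hx, hy⟩ hq
        show Aco b (x, y) * f (x, y, 1) = 0
        rw [f_zero _ f hf (x, y, 1), mul_zero]
        intro hin
        obtain ⟨i, j, h1, h2, h3, h4⟩ := B.lo x hx y hy hin
        exact hq (i, j) ((hS _).2 ⟨h1, h2⟩) ⟨h3, h4⟩
    have hsum2 : ∑ i, ∑ j, (if inc i j ∧ (v = Sum.inl i ∨ v = Sum.inr j) then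
        Aco b (2 * ((j : ℕ) : ℝ) + 1 / 2, 2 * ((i : ℕ) : ℝ) + 1 / 2) else 0) *
          win (ctr i j) w f =
        ∑ k ∈ S, Aco b (2 * ((k.2 : ℕ) : ℝ) + 1 / 2, 2 * ((k.1 : ℕ) : ℝ) + 1 / 2) *
          ∫ q in W k, f (q.1, q.2, 1) := by
      rw [Finset.sum_filter, ← Finset.univ_product_univ, Finset.sum_product]
      refine Finset.sum_congr rfl fun i _ => Finset.sum_congr rfl fun j _ => ?_
      split_ifs with h
      · rfl
      · rw [zero_mul]
    have hE : 0 ≤ √(En f) := Real.sqrt_nonneg _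
    obtain ⟨-, -, -, -, -, g6, -⟩ := hG m n inc M w s hM hm hn hw hw8 hs
    have hk : ∀ k ∈ S, |(∫ q in W k, Aco b q * f (q.1, q.2, 1)) -
        Aco b (2 * ((k.2 : ℕ) : ℝ) + 1 / 2, 2 * ((k.1 : ℕ) : ℝ) + 1 / 2) *
          ∫ q in W k, f (q.1, q.2, 1)| ≤ 48 * Real.pi ^ 2 * (w * (w * √w) * √(En f)) := by
      intro k _
      have e1 := werr (Aco b) (fun q => f (q.1, q.2, 1)) hAc (by fun_prop)
        (2 * ((k.2 : ℕ) : ℝ) + 1 / 2 - w) (2 * ((k.2 : ℕ) : ℝ) + 1 / 2 + w)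
        (2 * ((k.1 : ℕ) : ℝ) + 1 / 2 - w) (2 * ((k.1 : ℕ) : ℝ) + 1 / 2 + w)
        (Aco b (2 * ((k.2 : ℕ) : ℝ) + 1 / 2, 2 * ((k.1 : ℕ) : ℝ) + 1 / 2))
        (6 * Real.pi ^ 2 * w) (by
          rintro ⟨x, y⟩ ⟨hx, hy⟩
          refine A_lip b _ B.bx _ _ w ?_ ?_
          · rw [abs_le]; constructor <;> linarith [hx.1, hx.2]
          · rw [abs_le]; constructor <;> linarith [hy.1, hy.2])
      have e2 := hT f hfU (ctr k.1 k.2) w hw (by
        intro x y h1 h2 h3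
        refine f_zero _ f hf _ ?_
        change w ≤ |x - (2 * ((k.2 : ℕ) : ℝ) + 1 / 2)| at h1
        change |x - (2 * ((k.2 : ℕ) : ℝ) + 1 / 2)| ≤ 3 * w at h2
        change |y - (2 * ((k.1 : ℕ) : ℝ) + 1 / 2)| ≤ w at h3
        exact g6 k.1 k.2 x y h1 (by linarith) (by linarith))
      have e3 : ∫ p in cube (ctr k.1 k.2) (3 * w), gb f f p ≤ En f := by
        unfold En Eb
        exact setIntegral_le_integral (gb_int f hfs hf.2.1)
          (Filter.Eventually.of_forall (gb_nonneg f))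
      have e4 : ∫ q in W k, |f (q.1, q.2, 1)| ≤ 8 * (w * √w) * √(En f) :=
        le_trans e2 (mul_le_mul_of_nonneg_left (Real.sqrt_le_sqrt e3) (by positivity))
      calc _ ≤ 6 * Real.pi ^ 2 * w * ∫ q in W k, |f (q.1, q.2, 1)| := e1
        _ ≤ 6 * Real.pi ^ 2 * w * (8 * (w * √w) * √(En f)) :=
            mul_le_mul_of_nonneg_left e4 (by positivity)
        _ = _ := by ring
    rw [hg2, hsum, hsum2, ← Finset.sum_sub_distrib]
    refine (Finset.abs_sum_le_sum_abs _ _).trans ((Finset.sum_le_sum hk).trans ?_)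
    rw [Finset.sum_const, nsmul_eq_mul]
    have hcard : (S.card : ℝ) ≤ (m : ℝ) * (n : ℝ) := by
      have h1 : S.card ≤ Fintype.card (Fin m × Fin n) := Finset.card_le_univ S
      rw [Fintype.card_prod, Fintype.card_fin, Fintype.card_fin] at h1
      exact_mod_cast h1
    have hX : 0 ≤ 48 * Real.pi ^ 2 * (w * (w * √w) * √(En f)) := by positivity
    calc (S.card : ℝ) * (48 * Real.pi ^ 2 * (w * (w * √w) * √(En f))) ≤
          ((m : ℝ) * (n : ℝ) + 1) * (48 * Real.pi ^ 2 * (w * (w * √w) * √(En f))) :=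
          mul_le_mul_of_nonneg_right (by linarith) hX
      _ = 48 * Real.pi ^ 2 * ((m : ℝ) * (n : ℝ) + 1) * w * (w * √w) * √(En f) := by ring

end Pool.Agent.H456R3.Mult.GreenT

namespace Pool.Agent.H456R3.Mult

/-- Task GREEN, from the tasks TRACE and GEO. -/
theorem taskGREEN (hT : TaskTRACE) (hG : TaskGEO) : TaskGREEN := GreenT.main hT hG

end Pool.Agent.H456R3.Mult
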