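import Pool.Agent.H456R3.Mult.Stmts

/-!
The min-max step.
-/

open MeasureTheory Set
open scoped ContDiff

set_option autoImplicit false

noncomputable section

namespace Pool.Agent.H456R3.Mult

namespace MM

/-- three-space -/
abbrev X : Type := EuclideanSpace ℝ (Fin 3)

/-- mass -/
def ma (f : X → ℝ) : ℝ := ∫ x, f x ^ 2

/-- energy -/
def en (f : X → ℝ) : ℝ := ∫ x, ‖fderiv ℝ f x‖ ^ 2

theorem ma_nonneg (f : X → ℝ) : 0 ≤ ma f := integral_nonneg fun x => sq_nonneg _

theorem en_nonneg (f : X → ℝ) : 0 ≤ en f := integral_nonneg fun x => sq_nonneg _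

theorem mem_DcE {Ω : Set X} {f : X → ℝ} : f ∈ DcE Ω ↔
    ContDiff ℝ ((⊤ : ℕ∞) : WithTop ℕ∞) f ∧ HasCompactSupport f ∧ tsupport f ⊆ Ω := Iff.rfl

theorem mul_integrable {Ω : Set X} {f g : X → ℝ} (hf : f ∈ DcE Ω) (hg : g ∈ DcE Ω) :
    Integrable (fun x => f x * g x) := by
  refine (hf.1.continuous.mul hg.1.continuous).integrable_of_hasCompactSupport ?_
  exact HasCompactSupport.mul_right (f := f) (f' := g) hf.2.1

theorem ma_pos {Ω : Set X} {f : X → ℝ} (hf : f ∈ DcE Ω) (h0 : f ≠ 0) : 0 < ma f := by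
  obtain ⟨x, hx⟩ := Function.ne_iff.1 h0
  have hc : Continuous fun x => f x ^ 2 := hf.1.continuous.pow 2
  have hs : HasCompactSupport fun x => f x ^ 2 := by
    have h1 := HasCompactSupport.mul_right (f := f) (f' := f) hf.2.1
    have e : (fun x => f x ^ 2) = f * f := by
      funext x
      simp [sq]
    rw [e]
    exact h1
  exact hc.integral_pos_of_hasCompactSupport_nonneg_nonzero hs (fun x => sq_nonneg _)
    (pow_ne_zero 2 hx)

/-- Rayleigh quotients on a finite-dimensional space of test functions are bounded. -/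
theorem bdd {Ω : Set X} (V : Submodule ℝ (X → ℝ)) [FiniteDimensional ℝ V]
    (hV : V ≤ DcE Ω) : ∃ K : ℝ, ∀ f ∈ V, en f ≤ K * ma f := by
  classical
  set b := Module.finBasis ℝ V with hb
  set n := Module.finrank ℝ V with hn
  -- the function with coordinates `c`
  let F : (Fin n → ℝ) → X → ℝ := fun c x => ∑ i, c i * (b i : X → ℝ) x
  have hbD : ∀ i, (b i : X → ℝ) ∈ DcE Ω := fun i => hV (b i).2
  have key : ∀ c : Fin n → ℝ, ((∑ i, c i • b i : V) : X → ℝ) = F c := by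
    intro c
    funext x
    simp only [Submodule.coe_sum, Submodule.coe_smul, Finset.sum_apply, Pi.smul_apply,
      smul_eq_mul, F]
  have hF : ∀ f : V, (f : X → ℝ) = F (b.equivFun f) := by
    intro f
    rw [← key, b.sum_equivFun]
  have hFV : ∀ c, F c ∈ V := by
    intro c
    rw [← key]
    exact (∑ i, c i • b i : V).2
  have hF0 : ∀ c, F c = 0 → c = 0 := by
    intro c hc
    have : (∑ i, c i • b i : V) = 0 := by
      apply Subtype.ext
      rw [key, hc]
      rfl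
    funext i
    exact (Fintype.linearIndependent_iff.1 b.linearIndependent) c this i
  -- mass in coordinates
  have hma : ∀ c, ma (F c) = ∑ i, ∑ k, c i * c k * ∫ x, (b i : X → ℝ) x * (b k : X → ℝ) x := by
    intro c
    unfold ma
    have e1 : ∀ x, F c x ^ 2 = ∑ i, ∑ k, c i * c k * ((b i : X → ℝ) x * (b k : X → ℝ) x) := by
      intro x
      rw [sq]
      simp only [F]
      rw [Finset.sum_mul_sum]
      exact Finset.sum_congr rfl fun i _ => Finset.sum_congr rfl fun k _ => by ring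
    simp_rw [e1]
    rw [integral_finset_sum _ fun i _ => integrable_finset_sum _ fun k _ =>
      (mul_integrable (hbD i) (hbD k)).const_mul _]
    refine Finset.sum_congr rfl fun i _ => ?_
    rw [integral_finset_sum _ fun k _ => (mul_integrable (hbD i) (hbD k)).const_mul _]
    exact Finset.sum_congr rfl fun k _ => integral_const_mul _ _
  have hmac : Continuous fun c => ma (F c) := by
    simp_rw [hma]
    fun_prop
  have hmah : ∀ (t : ℝ) c, ma (F (t • c)) = t ^ 2 * ma (F c) := by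
    intro t c
    rw [hma, hma, Finset.mul_sum]
    refine Finset.sum_congr rfl fun i _ => ?_
    rw [Finset.mul_sum]
    refine Finset.sum_congr rfl fun k _ => ?_
    simp only [Pi.smul_apply, smul_eq_mul]
    ring
  -- energy bound in coordinates
  set G : X → ℝ := fun x => ∑ i, ‖fderiv ℝ (b i : X → ℝ) x‖ with hG
  have hGc : Continuous G := by
    refine continuous_finset_sum _ fun i _ => ?_
    exact ((hbD i).1.continuous_fderiv (by simp)).norm
  have hG0 : ∀ x, x ∉ ⋃ i, tsupport (b i : X → ℝ) → G x = 0 := by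
    intro x hx
    rw [hG]
    refine Finset.sum_eq_zero fun i _ => ?_
    rw [fderiv_of_notMem_tsupport ℝ fun h => hx (Set.mem_iUnion.2 ⟨i, h⟩), norm_zero]
  have hGs : HasCompactSupport fun x => G x ^ 2 := by
    refine HasCompactSupport.intro (isCompact_iUnion fun i => (hbD i).2.1) fun x hx => ?_
    rw [hG0 x hx]
    norm_num
  have hen : ∀ c, en (F c) ≤ ‖c‖ ^ 2 * ∫ x, G x ^ 2 := by
    intro c
    unfold en
    rw [← integral_const_mul]
    have hFc : F c ∈ DcE Ω := hV (hFV c)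
    have hder : ∀ x, fderiv ℝ (F c) x = ∑ i, c i • fderiv ℝ (b i : X → ℝ) x := by
      intro x
      have hd : ∀ i, DifferentiableAt ℝ (b i : X → ℝ) x := fun i =>
        ((hbD i).1.differentiable (by simp)).differentiableAt
      have h1 : HasFDerivAt (F c) (∑ i, c i • fderiv ℝ (b i : X → ℝ) x) x :=
        HasFDerivAt.fun_sum fun i _ => (hd i).hasFDerivAt.const_mul (c i)
      exact h1.fderiv
    refine integral_mono_of_nonneg (Filter.Eventually.of_forall fun x => sq_nonneg _) ?_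
      (Filter.Eventually.of_forall fun x => ?_)
    · refine Integrable.const_mul ?_ _
      exact (hGc.pow 2).integrable_of_hasCompactSupport hGs
    · simp only
      rw [← mul_pow]
      refine pow_le_pow_left₀ (norm_nonneg _) ?_ 2
      rw [hder, hG, Finset.mul_sum]
      refine (norm_sum_le _ _).trans (Finset.sum_le_sum fun i _ => ?_)
      rw [norm_smul]
      exact mul_le_mul_of_nonneg_right (norm_le_pi_norm c i) (norm_nonneg _)
  -- lower bound of the mass on the unit sphere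
  obtain ⟨a, ha0, ha⟩ : ∃ a : ℝ, 0 < a ∧ ∀ c : Fin n → ℝ, ‖c‖ = 1 → a ≤ ma (F c) := by
    rcases (Metric.sphere (0 : Fin n → ℝ) 1).eq_empty_or_nonempty with hS | hS
    · refine ⟨1, one_pos, fun c hc => ?_⟩
      have : c ∈ Metric.sphere (0 : Fin n → ℝ) 1 := by simpa using hc
      rw [hS] at this
      exact absurd this (Set.notMem_empty c)
    · obtain ⟨c0, hc0, hmin⟩ := (isCompact_sphere (0 : Fin n → ℝ) 1).exists_isMinOn hS
        hmac.continuousOn
      refine ⟨ma (F c0), ma_pos (hV (hFV c0)) fun h => ?_, fun c hc => hmin (by simpa using hc)⟩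
      have h1 := hF0 c0 h
      rw [h1] at hc0
      simp at hc0
  set I : ℝ := ∫ x, G x ^ 2 with hI
  have hI0 : 0 ≤ I := integral_nonneg fun x => sq_nonneg _
  refine ⟨I / a, fun f hf => ?_⟩
  have hfF : f = F (b.equivFun ⟨f, hf⟩) := hF ⟨f, hf⟩
  rw [hfF]
  set c := b.equivFun ⟨f, hf⟩ with hc
  by_cases hc0 : c = 0
  · have h1 := hen c
    rw [hc0] at h1 ⊢
    have h2 : 0 ≤ I / a * ma (F 0) := mul_nonneg (div_nonneg hI0 ha0.le) (ma_nonneg _)
    have h3 : ‖(0 : Fin n → ℝ)‖ ^ 2 * I = 0 := by simp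
    linarith
  · have hn0 : ‖c‖ ≠ 0 := norm_ne_zero_iff.2 hc0
    have h1 := ha (‖c‖⁻¹ • c) (by rw [norm_smul, norm_inv, norm_norm, inv_mul_cancel₀ hn0])
    rw [hmah] at h1
    have h2 : a * ‖c‖ ^ 2 ≤ ma (F c) := by
      have h3 := mul_le_mul_of_nonneg_right h1 (sq_nonneg ‖c‖)
      have h4 : ‖c‖⁻¹ ^ 2 * ma (F c) * ‖c‖ ^ 2 = ma (F c) := by
        field_simp
      rwa [h4] at h3
    calc en (F c) ≤ ‖c‖ ^ 2 * I := hen c
      _ = I / a * (a * ‖c‖ ^ 2) := by field_simp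
      _ ≤ I / a * ma (F c) := mul_le_mul_of_nonneg_left h2 (div_nonneg hI0 ha0.le)

/-- the supremum of the Rayleigh quotients on `V` -/
def SS (V : Submodule ℝ (X → ℝ)) : ℝ := sSup ((fun f : X → ℝ => en f / ma f) '' {f | f ∈ V ∧ f ≠ 0})

/-- the admissible spaces -/
def Adm (Ω : Set X) (j : ℕ) : Set (Submodule ℝ (X → ℝ)) :=
  {V | Module.finrank ℝ V = j ∧ ∀ f ∈ V, f ∈ DcE Ω}

theorem lower {Ω : Set X} {E : ℝ} (l : DcE Ω →ₗ[ℝ] ℝ)
    (hl : ∀ f : DcE Ω, l f = 0 → E * ma (f : X → ℝ) ≤ en (f : X → ℝ)) {j : ℕ} (hj : 2 ≤ j)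
    {V : Submodule ℝ (X → ℝ)} (hV : V ∈ Adm Ω j) : E ≤ SS V := by
  obtain ⟨hVj, hVD⟩ := hV
  have hVle : V ≤ DcE Ω := hVD
  haveI : FiniteDimensional ℝ V := Module.finite_of_finrank_pos (by omega)
  let lV : V →ₗ[ℝ] ℝ := l ∘ₗ Submodule.inclusion hVle
  have hker : LinearMap.ker lV ≠ ⊥ := by
    apply LinearMap.ker_ne_bot_of_finrank_lt
    rw [Module.finrank_self]
    omega
  obtain ⟨f, hf, hf0⟩ := Submodule.exists_mem_ne_zero_of_ne_bot hker
  have h1 : l ⟨(f : X → ℝ), hVle f.2⟩ = 0 := LinearMap.mem_ker.1 hf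
  have h2 := hl _ h1
  have hne : (f : X → ℝ) ≠ 0 := fun h => hf0 (Subtype.ext h)
  have hpos := ma_pos (hVle f.2) hne
  have h3 : E ≤ en (f : X → ℝ) / ma (f : X → ℝ) := by
    rw [le_div_iff₀ hpos]
    exact h2
  refine h3.trans (le_csSup ?_ ⟨f, ⟨f.2, hne⟩, rfl⟩)
  obtain ⟨K, hK⟩ := bdd V hVle
  refine ⟨K, ?_⟩
  rintro _ ⟨g, ⟨hg, hg0⟩, rfl⟩
  simp only
  rw [div_le_iff₀ (ma_pos (hVle hg) hg0)]
  exact hK g hg

theorem upper {Ω : Set X} {E ε : ℝ} (hE : 0 < E) (hε : 0 < ε) {N : ℕ}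
    (U : (Fin N → ℝ) →ₗ[ℝ] DcE Ω) (hU : Function.Injective U)
    (hU2 : ∀ c, en (U c : X → ℝ) ≤ (E + ε) * ma (U c : X → ℝ)) {j : ℕ} (hj : j ≤ N) :
    ∃ V ∈ Adm Ω j, SS V ≤ E + ε := by
  -- inclusion of the first `j` coordinates
  let J : (Fin j → ℝ) →ₗ[ℝ] (Fin N → ℝ) :=
    { toFun := fun c i => if h : (i : ℕ) < j then c ⟨i, h⟩ else 0
      map_add' := by
        intro c d
        funext i
        by_cases h : (i : ℕ) < j <;> simp [h]
      map_smul' := by
        intro a c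
        funext i
        by_cases h : (i : ℕ) < j <;> simp [h] }
  have hJ : Function.Injective J := by
    intro c d hcd
    funext i
    have h := congrFun hcd ⟨(i : ℕ), lt_of_lt_of_le i.2 hj⟩
    simpa [J] using h
  let T : (Fin j → ℝ) →ₗ[ℝ] (X → ℝ) := (DcE Ω).subtype ∘ₗ U ∘ₗ J
  have hT : Function.Injective T := by
    have : Function.Injective ((DcE Ω).subtype ∘ₗ (U ∘ₗ J)) :=
      (Subtype.val_injective).comp (hU.comp hJ)
    exact this
  refine ⟨LinearMap.range T, ⟨?_, ?_⟩, ?_⟩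
  · rw [LinearMap.finrank_range_of_inj hT]
    simp
  · rintro _ ⟨c, rfl⟩
    exact (U (J c)).2
  · apply Real.sSup_le
    · rintro _ ⟨_, ⟨⟨c, rfl⟩, h0⟩, rfl⟩
      simp only
      have hmem : T c ∈ DcE Ω := (U (J c)).2
      rw [div_le_iff₀ (ma_pos hmem h0)]
      exact hU2 (J c)
    · positivity

end MM

theorem taskMINMAX : TaskMINMAX := by
  intro H hall
  obtain ⟨C, hC⟩ := hall 3 le_rfl 2 (by norm_num)
  obtain ⟨Ω, hΩo, hΩc, hΩb, E, hE, ⟨l, hl⟩, hU⟩ := H (C + 3) (by omega)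
  set lam : ℕ → ℝ := fun j => sInf (MM.SS '' MM.Adm Ω j) with hlam
  have hlow : ∀ j, 2 ≤ j → j ≤ C + 3 → E ≤ lam j := by
    intro j h2 hj
    obtain ⟨U, hU1, hU2⟩ := hU 1 one_pos
    obtain ⟨V, hV, -⟩ := MM.upper hE one_pos U hU1 hU2 hj
    refine le_csInf ⟨_, V, hV, rfl⟩ ?_
    rintro _ ⟨W, hW, rfl⟩
    exact MM.lower l hl h2 hW
  have hup : ∀ j, j ≤ C + 3 → lam j ≤ E := by
    intro j hj
    refine le_of_forall_pos_le_add fun ε hε => ?_
    obtain ⟨U, hU1, hU2⟩ := hU ε hε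
    obtain ⟨V, hV, hVle⟩ := MM.upper hE hε U hU1 hU2 hj
    have hb : BddBelow (MM.SS '' MM.Adm Ω j) := by
      refine ⟨0, ?_⟩
      rintro _ ⟨W, hW, rfl⟩
      apply Real.sSup_nonneg
      rintro _ ⟨f, -, rfl⟩
      exact div_nonneg (MM.en_nonneg f) (MM.ma_nonneg f)
    exact (csInf_le hb (Set.mem_image_of_mem _ hV)).trans hVle
  have heq : ∀ j, 2 ≤ j → j ≤ C + 3 → lam j = E := fun j h2 hj =>
    le_antisymm (hup j hj) (hlow j h2 hj)
  have hcard := hC Ω hΩo hΩc hΩb lam (fun j => rfl) (Finset.Icc 2 (C + 3)) (by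
    intro j hj
    rw [Finset.mem_Icc] at hj
    exact ⟨by omega, by rw [heq j hj.1 hj.2, heq 2 le_rfl (by omega)]⟩)
  rw [Nat.card_Icc] at hcard
  omega

end Pool.Agent.H456R3.Mult
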